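import Pool.Agent.Serre.HDefs

/-!
# Hecke operators through any system of representatives
-/

open Matrix
open scoped QuadraticAlgebra

namespace SerreE

section general

variable {G A B : Type*} [Group G] [CommGroup A] [CommGroup B] {H : Subgroup G} [H.FiniteIndex]

theorem transfer_formula (φ : H →* A) {X : Type*} [Fintype X] (t : X → G)
    (hcov : ∀ g : G, ∃ x, (t x)⁻¹ * g ∈ H) (hsep : ∀ x y, (t x)⁻¹ * t y ∈ H → x = y)
    (γ : G) (σ : X → X) (c : X → H) (hc : ∀ x, γ * t x = t (σ x) * c x) :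
    MonoidHom.transfer φ γ = ∏ x, φ (c x) := by
  classical
  have hbij : Function.Bijective (fun x => (t x : G ⧸ H)) := by
    constructor
    · intro x y h
      exact hsep x y (QuotientGroup.eq.mp h)
    · intro q
      obtain ⟨g, rfl⟩ := QuotientGroup.mk_surjective q
      obtain ⟨x, hx⟩ := hcov g
      exact ⟨x, QuotientGroup.eq.mpr hx⟩
  let e : X ≃ G ⧸ H := Equiv.ofBijective _ hbij
  have he : ∀ x, e x = (t x : G ⧸ H) := fun x => rfl
  let f : G ⧸ H → G := fun q => t (e.symm q)
  have hf : ∀ q, (f q : G ⧸ H) = q := fun q => e.apply_symm_apply q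
  let T : H.LeftTransversal := ⟨Set.range f, Subgroup.isComplement_range_left hf⟩
  rw [MonoidHom.transfer_def φ T γ]
  unfold Subgroup.leftTransversals.diff
  let _ := H.fintypeQuotientOfFiniteIndex
  let e' : X ≃ G ⧸ H := e.trans (MulAction.toPerm γ)
  refine (Fintype.prod_equiv e' _ _ ?_).symm
  intro x
  apply congrArg φ
  apply Subtype.ext
  have h1 : e' x = γ • (t x : G ⧸ H) := rfl
  have h2 : e' x = ((t (σ x) : G) : G ⧸ H) := by
    rw [h1]
    change ((γ * t x : G) : G ⧸ H) = _
    rw [hc x]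
    rw [QuotientGroup.eq]
    rw [_root_.mul_inv_rev, mul_assoc, inv_mul_cancel, mul_one]
    exact H.inv_mem (c x).2
  have hα : (T.2.leftQuotientEquiv (e' x) : G) = t (σ x) := by
    rw [Subgroup.IsComplement.leftQuotientEquiv_apply hf]
    change t (e.symm (e' x)) = _
    rw [h2, ← he, e.symm_apply_apply]
  have hβ : ((γ • T).2.leftQuotientEquiv (e' x) : G) = γ * t x := by
    rw [Subgroup.smul_apply_eq_smul_apply_inv_smul]
    rw [Subgroup.IsComplement.leftQuotientEquiv_apply hf, smul_eq_mul, h1, inv_smul_smul]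
    change γ * t (e.symm (t x : G ⧸ H)) = _
    rw [← he, e.symm_apply_apply]
  change (c x : G) = (T.2.leftQuotientEquiv (e' x) : G)⁻¹ *
    ((γ • T).2.leftQuotientEquiv (e' x) : G)
  rw [hα, hβ, hc x, inv_mul_cancel_left]

theorem transfer_comp (ψ : A →* B) (φ : H →* A) (g : G) :
    MonoidHom.transfer (ψ.comp φ) g = ψ (MonoidHom.transfer φ g) := by
  let T : H.LeftTransversal := default
  rw [MonoidHom.transfer_def _ T, MonoidHom.transfer_def _ T]
  unfold Subgroup.leftTransversals.diff
  rw [map_prod]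
  rfl

theorem transfer_mul' (φ ψ : H →* A) (g : G) :
    MonoidHom.transfer (φ * ψ) g = MonoidHom.transfer φ g * MonoidHom.transfer ψ g := by
  let T : H.LeftTransversal := default
  rw [MonoidHom.transfer_def _ T, MonoidHom.transfer_def _ T, MonoidHom.transfer_def _ T]
  unfold Subgroup.leftTransversals.diff
  exact Finset.prod_mul_distrib

end general

/-! ### HFORM : the Hecke operator through any system of representatives -/
section
variable {k : Type*} [Field k]
theorem hecke_formula (N π : E) (hπ : π ≠ 0) {X : Type} [Fintype X] (t : X → Gam0 N)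
    (hcov : ∀ g : Gam0 N, ∃ x, π ∣ ((t x)⁻¹ * g).val.val 0 1)
    (hsep : ∀ x y, π ∣ ((t x)⁻¹ * t y).val.val 0 1 → x = y)
    (h : Hom1 k N) (γ : Gam0 N) (σ : X → X) (g' : X → Gam0 N)
    (hstep : ∀ x, γ.val.val * (t x).val.val * PM π =
      (t (σ x)).val.val * PM π * (g' x).val.val) :
    heckeFun N π hπ h (Additive.ofMul γ) = ∑ x, h (Additive.ofMul (g' x)) := by
  have := heckeSub_finiteIndex N π hπ
  have hc0 : ∀ x, ((t (σ x))⁻¹ * γ * t x).val.val * PM π = PM π * (g' x).val.val := by
    intro x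
    have := hstep x
    have h2 : ((t (σ x))⁻¹ * γ * t x).val.val =
      (t (σ x)).val⁻¹.val * (γ.val.val * (t x).val.val) := by
      simp [mul_assoc]
    rw [h2, mul_assoc, this, ← mul_assoc, ← mul_assoc, Units.inv_mul, one_mul]
  have hc1 : ∀ x, ((t (σ x))⁻¹ * γ * t x).val.val 0 0 = (g' x).val.val 0 0 ∧
      ((t (σ x))⁻¹ * γ * t x).val.val 0 1 = π * (g' x).val.val 0 1 ∧
      (g' x).val.val 1 0 = π * ((t (σ x))⁻¹ * γ * t x).val.val 1 0 ∧
      ((t (σ x))⁻¹ * γ * t x).val.val 1 1 = (g' x).val.val 1 1 := by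
    intro x
    have := hc0 x
    generalize ((t (σ x))⁻¹ * γ * t x).val.val = M at this ⊢
    generalize (g' x).val.val = M' at this ⊢
    have h00 := congrFun (congrFun this 0) 0
    have h01 := congrFun (congrFun this 0) 1
    have h10 := congrFun (congrFun this 1) 0
    have h11 := congrFun (congrFun this 1) 1
    simp only [PM, Matrix.mul_apply, Fin.sum_univ_two, Matrix.of_apply, Matrix.cons_val',
      Matrix.cons_val_zero, Matrix.cons_val_one, Matrix.cons_val_fin_one, mul_zero, zero_mul,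
      mul_one, one_mul, add_zero, zero_add] at h00 h01 h10 h11
    refine ⟨?_, h01, ?_, h11⟩
    · apply mul_left_cancel₀ hπ
      rw [← h00, mul_comm]
    · rw [← h10, mul_comm]
  have hmem : ∀ x, (t (σ x))⁻¹ * γ * t x ∈ HeckeSub N π := by
    intro x
    exact (Dvd.intro _ (hc1 x).2.1.symm : π ∣ _)
  have key := transfer_formula
    ((AddMonoidHom.toMultiplicativeRight h).comp (thetaN N π hπ)) t hcov hsep γ σ
    (fun x => ⟨(t (σ x))⁻¹ * γ * t x, hmem x⟩) (fun x => by
      change γ * t x = t (σ x) * ((t (σ x))⁻¹ * γ * t x)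
      rw [mul_assoc (t (σ x))⁻¹, mul_inv_cancel_left])
  have hth : ∀ x, thetaN N π hπ ⟨(t (σ x))⁻¹ * γ * t x, hmem x⟩ = g' x := by
    intro x
    apply Subtype.ext
    rw [thetaN_val]
    obtain ⟨a1, a2, a3, a4⟩ := theta_spec π
      (heckeIncl N π ⟨(t (σ x))⁻¹ * γ * t x, hmem x⟩)
    rw [heckeIncl_val] at a1 a2 a3 a4
    obtain ⟨b1, b2, b3, b4⟩ := hc1 x
    apply Matrix.GeneralLinearGroup.ext
    intro i j
    fin_cases i <;> fin_cases j
    · exact a1.trans b1
    · exact mul_left_cancel₀ hπ (a2.symm.trans b2)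
    · exact a3.trans b3.symm
    · exact a4.trans b4
  have e1 : heckeFun N π hπ h (Additive.ofMul γ) = Multiplicative.toAdd
    (MonoidHom.transfer ((AddMonoidHom.toMultiplicativeRight h).comp (thetaN N π hπ)) γ) := rfl
  rw [e1, key, toAdd_prod]
  refine Finset.sum_congr rfl fun x _ => ?_
  rw [← hth x]
  rfl

/-- the Hecke operator is linear -/
theorem hecke_add (N π : E) (hπ : π ≠ 0) (h h' : Hom1 k N) :
    heckeFun N π hπ (h + h') = heckeFun N π hπ h + heckeFun N π hπ h' := by
  have := heckeSub_finiteIndex N π hπ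
  ext γ
  have := transfer_mul' ((AddMonoidHom.toMultiplicativeRight h).comp (thetaN N π hπ))
    ((AddMonoidHom.toMultiplicativeRight h').comp (thetaN N π hπ)) γ
  exact congrArg Multiplicative.toAdd this

theorem hecke_smul (N π : E) (hπ : π ≠ 0) (c : k) (h : Hom1 k N) :
    heckeFun N π hπ (c • h) = c • heckeFun N π hπ h := by
  have := heckeSub_finiteIndex N π hπ
  ext γ
  have := transfer_comp (AddMonoidHom.toMultiplicative (AddMonoidHom.mulLeft c))
    ((AddMonoidHom.toMultiplicativeRight h).comp (thetaN N π hπ)) γ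
  exact congrArg Multiplicative.toAdd this
end

end SerreE
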