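import Pool.Agent.Serre.FRAME
import Pool.Agent.Serre.HFORM

/-!
# COMPAT: the functions `h_a` and the Hecke operators
-/

open Matrix
open scoped QuadraticAlgebra

namespace SerreE

section aux

variable {R : Type*} [CommRing R]

/-- a diagonal invertible matrix is a scalar times `diag(1, v)`. -/
theorem compat_diag_eq (D : GL (Fin 2) R) (h01 : D.val 0 1 = 0) (h10 : D.val 1 0 = 0) :
    ∃ u v : Rˣ, D = sc u * dg v := by
  have hdet : IsUnit (D.val 0 0 * D.val 1 1) := by
    have h := (Matrix.GeneralLinearGroup.det D).isUnit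
    rw [Matrix.GeneralLinearGroup.val_det_apply, Matrix.det_fin_two, h01] at h
    simpa using h
  obtain ⟨u, hu⟩ := isUnit_of_mul_isUnit_left hdet
  obtain ⟨w, hw⟩ := isUnit_of_mul_isUnit_right hdet
  refine ⟨u, u⁻¹ * w, ?_⟩
  have e : (u : R) * ((↑u⁻¹ : R) * (w : R)) = w := by rw [← mul_assoc]; simp
  apply Matrix.GeneralLinearGroup.ext
  intro i j
  fin_cases i <;> fin_cases j <;>
    simp [Matrix.mul_apply, Fin.sum_univ_two, dg, h01, h10, ← hu, ← hw, e]

theorem compat_sc_eq_iota (u : Rˣ) : (sc u : GL (Fin 2) R) = iota (giC u) := by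
  apply Matrix.GeneralLinearGroup.ext
  intro i j
  fin_cases i <;> fin_cases j <;> simp [giC, iota_val]

theorem compat_sc_comm (u : Rˣ) (y : GL (Fin 2) R) : sc u * y = y * sc u := by
  apply Matrix.GeneralLinearGroup.ext
  intro i j
  fin_cases i <;> fin_cases j <;>
    simp [Matrix.mul_apply, Fin.sum_univ_two, mul_comm]

theorem compat_dg_mul (u v : Rˣ) : (dg (u * v) : GL (Fin 2) R) = dg u * dg v := by
  apply Matrix.GeneralLinearGroup.ext
  intro i j
  fin_cases i <;> fin_cases j <;> simp [Matrix.mul_apply, Fin.sum_univ_two, dg]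

theorem compat_dg_one : (dg 1 : GL (Fin 2) R) = 1 := by
  apply Matrix.GeneralLinearGroup.ext
  intro i j
  fin_cases i <;> fin_cases j <;> simp [dg]

theorem compat_dg_inv (u : Rˣ) : ((dg u)⁻¹ : GL (Fin 2) R) = dg u⁻¹ := by
  rw [inv_eq_iff_mul_eq_one, ← compat_dg_mul, mul_inv_cancel, compat_dg_one]

variable {k : Type*} [Field k]

/-- reindexing the sum over `diag(1, r)` by a diagonal matrix. -/
theorem compat_finsum_diag (D : GL (Fin 2) R) (h01 : D.val 0 1 = 0) (h10 : D.val 1 0 = 0)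
    (v : GL (Fin 2) R → k) (hv : ∀ (u : Rˣ) y, v (sc u * y) = v y) (a : GL (Fin 2) R) :
    ∑ᶠ r : Rˣ, v (D⁻¹ * (dg r * a)) = ∑ᶠ r : Rˣ, v (dg r * a) := by
  obtain ⟨u, w, rfl⟩ := compat_diag_eq D h01 h10
  have key : ∀ r : Rˣ, v ((sc u * dg w)⁻¹ * (dg r * a)) = v (dg (w⁻¹ * r) * a) := by
    intro r
    have e1 : (sc u * dg w)⁻¹ * (dg r * a) = sc u⁻¹ * (dg (w⁻¹ * r) * a) := by
      rw [_root_.mul_inv_rev, compat_dg_inv, compat_dg_mul]
      have e2 : ((sc u)⁻¹ : GL (Fin 2) R) = sc u⁻¹ := by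
        rw [← map_inv]
      rw [e2, ← compat_sc_comm]
      simp only [mul_assoc]
    rw [e1, hv]
  rw [finsum_congr key]
  exact finsum_comp_equiv (Equiv.mulLeft w⁻¹) (f := fun r => v (dg r * a))

end aux

section
variable {k : Type*} [Field k]

/-- invariance of a cocycle under left multiplication of the argument by scalars. -/
theorem compat_sc_left {O : Type*} [CommRing O] {f : O}
    {χ : (Gi (O ⧸ Ideal.span {f}))ˣ →* kˣ}
    {C : GL (Fin 2) O → GL (Fin 2) (O ⧸ Ideal.span {f}) → k} (hC : IsCoc f χ C)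
    (hscal : ∀ u, χ (giC u) = 1) (γ : GL (Fin 2) O) (u : (O ⧸ Ideal.span {f})ˣ)
    (y : GL (Fin 2) (O ⧸ Ideal.span {f})) : C γ (sc u * y) = C γ y := by
  rw [compat_sc_comm, compat_sc_eq_iota, hC.equi, hscal]
  simp

theorem compat_red_dconj (f : E) (t : Gam0 (f ^ 2)) :
    (red f (dconj f t)).val 0 1 = 0 ∧ (red f (dconj f t)).val 1 0 = 0 := by
  obtain ⟨-, h2, -, -, h5⟩ := dconj_spec f t
  constructor
  · change Ideal.Quotient.mk (Ideal.span {f}) ((dconj f t).val 0 1) = 0
    rw [Ideal.Quotient.eq_zero_iff_mem, Ideal.mem_span_singleton, h2]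
    exact Dvd.intro _ rfl
  · change Ideal.Quotient.mk (Ideal.span {f}) ((dconj f t).val 1 0) = 0
    rw [Ideal.Quotient.eq_zero_iff_mem, Ideal.mem_span_singleton]
    exact h5

/-! ### COMPAT -/

/-- the function `h_a(γ) = Σ_r C(DγD⁻¹, diag(1,r) a)` on `Γ₀(f²)`. -/
noncomputable def hfun (f : E) (C : GL (Fin 2) E → GL (Fin 2) (E ⧸ Ideal.span {f}) → k)
    (a : GL (Fin 2) (E ⧸ Ideal.span {f})) (γ : Gam0 (f ^ 2)) : k :=
  ∑ᶠ r : (E ⧸ Ideal.span {f})ˣ, C (dconj f γ) (dg r * a)

theorem hfun_hom (f : E) (hf : f ≠ 0) (χ : (Gi (E ⧸ Ideal.span {f}))ˣ →* kˣ)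
    (hscal : ∀ u, χ (giC u) = 1)
    (C : GL (Fin 2) E → GL (Fin 2) (E ⧸ Ideal.span {f}) → k) (hC : IsCoc f χ C)
    (a : GL (Fin 2) (E ⧸ Ideal.span {f})) :
    ∃ h : Hom1 k (f ^ 2), (∀ γ, h (Additive.ofMul γ) = hfun f C a γ) ∧
      ∀ (γ : Gam0 (f ^ 2)) (u : Eˣ), γ.val = sc u → h (Additive.ofMul γ) = 0 := by
  have : Finite (E ⧸ Ideal.span {f}) := E_finite_quot hf
  have : Finite (E ⧸ Ideal.span {f})ˣ := inferInstance
  have hadd : ∀ γ γ' : Gam0 (f ^ 2), hfun f C a (γ * γ') = hfun f C a γ + hfun f C a γ' := by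
    intro γ γ'
    have hm : dconj f (γ * γ') = dconj f γ * dconj f γ' := (dconjHom f hf).map_mul γ γ'
    unfold hfun
    have e1 : ∀ r : (E ⧸ Ideal.span {f})ˣ, C (dconj f (γ * γ')) (dg r * a) =
        C (dconj f γ) (dg r * a) + C (dconj f γ') ((red f (dconj f γ))⁻¹ * (dg r * a)) := by
      intro r
      rw [hm, hC.coc]
    rw [finsum_congr e1, finsum_add_distrib (Set.toFinite _) (Set.toFinite _)]
    congr 1
    exact compat_finsum_diag _ (compat_red_dconj f γ).1 (compat_red_dconj f γ).2 (fun y => C (dconj f γ') y)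
      (fun u y => compat_sc_left hC hscal _ u y) a
  have h1 : hfun f C a 1 = 0 := by
    have h := hadd 1 1
    rw [mul_one] at h
    exact (left_eq_add.mp h)
  refine ⟨{ toFun := fun γ => hfun f C a (Additive.toMul γ), map_zero' := h1,
            map_add' := fun x y => hadd _ _ }, fun γ => rfl, ?_⟩
  intro γ u hγ
  change hfun f C a γ = 0
  have hd : dconj f γ = sc u := by
    obtain ⟨a1, a2, a3, a4, -⟩ := dconj_spec f γ
    apply Matrix.GeneralLinearGroup.ext
    intro i j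
    fin_cases i <;> fin_cases j
    · change (dconj f γ).val 0 0 = _
      rw [a1, hγ]; rfl
    · change (dconj f γ).val 0 1 = _
      rw [a2, hγ]; simp
    · change (dconj f γ).val 1 0 = _
      apply mul_left_cancel₀ hf
      rw [← a3, hγ]; simp
    · change (dconj f γ).val 1 1 = _
      rw [a4, hγ]; rfl
  unfold hfun
  rw [hd]
  simp only [hC.scal, finsum_zero]

/-- the steps of the conjugated frame. -/
theorem compat_step_dconj (f π : E) (hf : f ≠ 0) {X : Type} (t : X → Gam0 (f ^ 2))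
    (FD : Frame π X) (hFD : ∀ x, FD.s x = dconj f (t x)) (γ : Gam0 (f ^ 2)) (x y : X)
    (g : Gam0 (f ^ 2))
    (h : γ.val.val * (t x).val.val * PM π = (t y).val.val * PM π * g.val.val) :
    FD.Step (dconj f γ) x y (dconj f g) := by
  unfold Frame.Step
  rw [hFD, hFD]
  obtain ⟨a1, a2, a3, a4, -⟩ := dconj_spec f γ
  obtain ⟨b1, b2, b3, b4, -⟩ := dconj_spec f (t x)
  obtain ⟨c1, c2, c3, c4, -⟩ := dconj_spec f (t y)
  obtain ⟨d1, d2, d3, d4, -⟩ := dconj_spec f g
  have h00 := congrFun (congrFun h 0) 0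
  have h01 := congrFun (congrFun h 0) 1
  have h10 := congrFun (congrFun h 1) 0
  have h11 := congrFun (congrFun h 1) 1
  simp only [Matrix.mul_apply, Fin.sum_univ_two, PM, Matrix.of_apply, Matrix.cons_val',
    Matrix.cons_val_zero, Matrix.cons_val_one, Matrix.cons_val_fin_one, mul_zero, mul_one,
    add_zero, zero_add] at h00 h01 h10 h11
  apply Matrix.ext
  intro i j
  fin_cases i <;> fin_cases j <;>
    simp only [Matrix.mul_apply, Fin.sum_univ_two, PM, Matrix.of_apply, Matrix.cons_val',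
      Matrix.cons_val_zero, Matrix.cons_val_one, Matrix.cons_val_fin_one, mul_zero, mul_one,
      add_zero, zero_add, Fin.zero_eta, Fin.mk_one, Fin.isValue]
  · rw [a1, a2, b1, c1, c2, d1]
    rw [b3, d3] at h00
    linear_combination h00
  · rw [a1, a2, b2, b4, c1, c2, d2, d4]
    linear_combination f * h01
  · apply mul_left_cancel₀ hf
    rw [a3, b3, c3, d3] at h10
    rw [a4, b1, c4, d1]
    linear_combination h10
  · rw [a4, b2, b4, c4, d2, d4]
    rw [a3, c3] at h11
    linear_combination h11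

theorem hfun_hecke (f π : E) (hf : f ≠ 0) (hπ : Prime π) (hN : ¬ π ∣ f)
    (ϖ : (E ⧸ Ideal.span {f})ˣ) (hϖ : (ϖ : E ⧸ Ideal.span {f}) = Ideal.Quotient.mk _ π)
    (χ : (Gi (E ⧸ Ideal.span {f}))ˣ →* kˣ) (hscal : ∀ u, χ (giC u) = 1)
    (C : GL (Fin 2) E → GL (Fin 2) (E ⧸ Ideal.span {f}) → k) (hC : IsCoc f χ C)
    (a : GL (Fin 2) (E ⧸ Ideal.span {f})) {X : Type} [Fintype X] (t : X → Gam0 (f ^ 2))
    (F FD : Frame π X) (hF : ∀ x, F.s x = (t x).val) (hFD : ∀ x, FD.s x = dconj f (t x))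
    (h : Hom1 k (f ^ 2)) (hh : ∀ γ, h (Additive.ofMul γ) = hfun f C a γ) (γ : Gam0 (f ^ 2)) :
    heckeFun (f ^ 2) π hπ.ne_zero h (Additive.ofMul γ) = hfun f (heckeC FD f ϖ C) a γ := by
  have : Finite (E ⧸ Ideal.span {f}) := E_finite_quot hf
  have : Finite (E ⧸ Ideal.span {f})ˣ := inferInstance
  have hstep := fun x => F.step_act hπ.ne_zero γ.val x
  have hmem : ∀ x, F.gam γ.val x ∈ Gam0 (f ^ 2) := by
    intro x
    have hs := hstep x
    unfold Frame.Step at hs
    -- `m = s_y⁻¹ γ s_x` is in `Γ₀(f²)` and `m diag(π,1) = diag(π,1) g'`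
    set y := F.act γ.val x with hy
    set m : Gam0 (f ^ 2) := (t y)⁻¹ * γ * t x with hm
    have e1 : m.val.val * PM π = PM π * (F.gam γ.val x).val := by
      have e2 : (F.s y)⁻¹.val * (F.s y).val = 1 := by
        rw [← Units.val_mul]; simp
      calc m.val.val * PM π = (F.s y)⁻¹.val * (γ.val.val * (F.s x).val * PM π) := by
            rw [hm, hF, hF]; simp only [Subgroup.coe_mul, Units.val_mul, mul_assoc,
              Subgroup.coe_inv]
        _ = (F.s y)⁻¹.val * ((F.s y).val * PM π * (F.gam γ.val x).val) := by rw [hs]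
        _ = PM π * (F.gam γ.val x).val := by
            rw [mul_assoc (F.s y).val, ← mul_assoc (F.s y)⁻¹.val, e2, one_mul]
    have h10 := congrFun (congrFun e1 1) 0
    simp only [Matrix.mul_apply, Fin.sum_univ_two, PM, Matrix.of_apply, Matrix.cons_val',
      Matrix.cons_val_zero, Matrix.cons_val_one, Matrix.cons_val_fin_one, mul_zero, zero_mul,
      one_mul, add_zero, zero_add] at h10
    rw [mem_Gam0, ← h10]
    exact Dvd.dvd.mul_right (mem_Gam0.mp m.2) _
  have hst : ∀ x, γ.val.val * (t x).val.val * PM π =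
      (t (F.act γ.val x)).val.val * PM π *
        ((⟨F.gam γ.val x, hmem x⟩ : Gam0 (f ^ 2))).val.val := by
    intro x
    have hs := hstep x
    unfold Frame.Step at hs
    rw [hF, hF] at hs
    exact hs
  rw [hecke_formula (f ^ 2) π hπ.ne_zero t
    (fun g => by
      obtain ⟨x, hx⟩ := F.cover g.val
      refine ⟨x, ?_⟩
      rw [hF] at hx
      exact hx)
    (fun x y hxy => by
      apply F.sep
      rw [hF, hF]
      exact hxy)
    h γ (F.act γ.val) (fun x => ⟨F.gam γ.val x, hmem x⟩) hst]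
  simp only [hh]
  have hact : ∀ x, FD.act (dconj f γ) x = F.act γ.val x ∧
      FD.gam (dconj f γ) x = dconj f ⟨F.gam γ.val x, hmem x⟩ := by
    intro x
    exact FD.act_eq hπ.ne_zero (compat_step_dconj f π hf t FD hFD γ x _ _ (hst x))
  unfold hfun heckeC
  rw [finsum_sum_comm]
  · apply Finset.sum_congr rfl
    intro x _
    rw [(hact x).1, (hact x).2, hFD]
    have hd := compat_red_dconj f (t (F.act γ.val x))
    symm
    apply compat_finsum_diag (red f (dconj f (t (F.act γ.val x))) * dgl ϖ) ?_ ?_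
      (fun y => C (dconj f ⟨F.gam γ.val x, hmem x⟩) y)
      (fun u y => compat_sc_left hC hscal _ u y) a
    · simp only [Units.val_mul, Matrix.mul_apply, Fin.sum_univ_two, hd.1, dgl]
      simp
    · simp only [Units.val_mul, Matrix.mul_apply, Fin.sum_univ_two, hd.2, dgl]
      simp
  · intro x _
    exact Set.toFinite _

end

end SerreE
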