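import Pool.Agent.Serre.HDefs

open Matrix
open scoped QuadraticAlgebra

namespace SerreE

section
variable {O : Type*} [CommRing O] [IsDomain O] {π : O} {X : Type} (F : Frame π X)

omit [IsDomain O] in
theorem fix_inv_mul (g : GL (Fin 2) O) (M : Matrix (Fin 2) (Fin 2) O) :
    (g⁻¹).val * (g.val * M) = M := by
  rw [← Matrix.mul_assoc, ← Units.val_mul, inv_mul_cancel, Units.val_one, Matrix.one_mul]

omit [IsDomain O] in
theorem fix_mul_inv (g : GL (Fin 2) O) (M : Matrix (Fin 2) (Fin 2) O) :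
    g.val * ((g⁻¹).val * M) = M := by
  rw [← Matrix.mul_assoc, ← Units.val_mul, mul_inv_cancel, Units.val_one, Matrix.one_mul]

omit [IsDomain O] in
/-- data of a fixed point: the conjugate `S⁻¹ g S = [[-l, π b], [c, l]]`. -/
theorem fix_data (g : GL (Fin 2) O) (tr : g.val.trace = 0) (x : X) (g' : GL (Fin 2) O)
    (h : F.Step g x x g') : ∃ l b c : O,
      ((F.s x)⁻¹).val * g.val * (F.s x).val = !![-l, π * b; c, l] ∧
      -(l * l) - π * b * c = g.val.det := by
  have h1 : ((F.s x)⁻¹).val * g.val * (F.s x).val * PM π = PM π * g'.val := by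
    have : ((F.s x)⁻¹).val * (g.val * (F.s x).val * PM π) = PM π * g'.val := by
      rw [h, Matrix.mul_assoc, fix_inv_mul]
    rw [← this]; simp only [Matrix.mul_assoc]
  set H := ((F.s x)⁻¹).val * g.val * (F.s x).val with hH
  have trH : H.trace = 0 := by
    rw [hH, Matrix.trace_mul_comm, ← Matrix.mul_assoc, ← Units.val_mul, mul_inv_cancel,
      Units.val_one, Matrix.one_mul, tr]
  have detH : H.det = g.val.det := by
    rw [hH, Matrix.det_mul, Matrix.det_mul, mul_comm, ← mul_assoc, ← Matrix.det_mul,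
      ← Units.val_mul, mul_inv_cancel, Units.val_one, Matrix.det_one, one_mul]
  have e01 : H 0 1 = π * g'.val 0 1 := by
    have := congrFun (congrFun h1 0) 1
    simpa [PM, Matrix.mul_apply, Fin.sum_univ_two] using this
  have tr2 : H 0 0 = - H 1 1 := by
    rw [Matrix.trace_fin_two] at trH
    linear_combination trH
  refine ⟨H 1 1, g'.val 0 1, H 1 0, ?_, ?_⟩
  · rw [← tr2, ← e01]
    exact Matrix.eta_fin_two H
  · rw [← detH, Matrix.det_fin_two, tr2, e01]; ring

/-- existence of the neighbour attached to a matrix of determinant `π`. -/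
theorem fix_cover [IsPrincipalIdealRing O] (hπ : Prime π) (M : Matrix (Fin 2) (Fin 2) O)
    (hM : Associated M.det π) : ∃ (x : X) (e : GL (Fin 2) O), (F.s x).val * PM π = M * e.val := by
  have hdet : π ∣ M.det := hM.dvd'
  -- a nonzero row of the adjugate
  have hrow : ∃ r1 r2 : O, (¬ π ∣ r1 ∨ ¬ π ∣ r2) ∧ π ∣ r1 * M 0 0 + r2 * M 1 0 ∧
      π ∣ r1 * M 0 1 + r2 * M 1 1 := by
    rw [Matrix.det_fin_two] at hdet
    by_cases hc : ¬ π ∣ M 1 1 ∨ ¬ π ∣ - M 0 1
    · refine ⟨M 1 1, - M 0 1, hc, ?_, ?_⟩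
      · have : M 1 1 * M 0 0 + - M 0 1 * M 1 0 = M 0 0 * M 1 1 - M 0 1 * M 1 0 := by ring
        rw [this]; exact hdet
      · have : M 1 1 * M 0 1 + - M 0 1 * M 1 1 = 0 := by ring
        rw [this]; exact dvd_zero _
    · push Not at hc
      refine ⟨- M 1 0, M 0 0, ?_, ?_, ?_⟩
      · by_contra hcc
        push Not at hcc
        obtain ⟨a, ha⟩ := hc.1
        obtain ⟨b, hb⟩ := hc.2
        obtain ⟨c, hc⟩ := hcc.1
        obtain ⟨d, hd⟩ := hcc.2
        have h1 : M 0 0 * M 1 1 - M 0 1 * M 1 0 = π * (π * (d * a - b * c)) := by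
          rw [ha, hd]
          have hb' : M 0 1 = - (π * b) := by linear_combination -hb
          have hc' : M 1 0 = - (π * c) := by linear_combination -hc
          rw [hb', hc']; ring
        have h2 : π * π ∣ M.det := by
          rw [Matrix.det_fin_two, h1, ← mul_assoc]; exact Dvd.intro _ rfl
        have h3 : π * π ∣ π := h2.trans hM.dvd
        have h4 : π ∣ 1 := by
          have := mul_dvd_mul_iff_left hπ.ne_zero (b := π) (c := 1)
          rw [mul_one] at this
          exact this.mp h3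
        exact hπ.not_isUnit (isUnit_of_dvd_one h4)
      · have : - M 1 0 * M 0 0 + M 0 0 * M 1 0 = 0 := by ring
        rw [this]; exact dvd_zero _
      · have : - M 1 0 * M 0 1 + M 0 0 * M 1 1 = M 0 0 * M 1 1 - M 0 1 * M 1 0 := by ring
        rw [this]; exact hdet
  obtain ⟨r1, r2, hr, hr1, hr2⟩ := hrow
  -- divide by the gcd
  obtain ⟨d, hd⟩ := IsPrincipalIdealRing.principal (Ideal.span {r1, r2})
  rw [Ideal.submodule_span_eq] at hd
  have hd1 : d ∣ r1 := by
    rw [← Ideal.mem_span_singleton, ← hd]; exact Ideal.subset_span (by simp)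
  have hd2 : d ∣ r2 := by
    rw [← Ideal.mem_span_singleton, ← hd]; exact Ideal.subset_span (by simp)
  have hd3 : d ∈ Ideal.span {r1, r2} := by rw [hd]; exact Ideal.mem_span_singleton_self d
  obtain ⟨a, b, hab⟩ := Ideal.mem_span_pair.mp hd3
  obtain ⟨p, hp⟩ := hd1
  obtain ⟨q, hq⟩ := hd2
  have hdn : ¬ π ∣ d := by
    intro h
    rcases hr with hr | hr
    · exact hr (h.trans (by rw [hp]; exact Dvd.intro _ rfl))
    · exact hr (h.trans (by rw [hq]; exact Dvd.intro _ rfl))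
  have hd0 : d ≠ 0 := by rintro rfl; exact hdn (dvd_zero _)
  have hpq : a * p + b * q = 1 := by
    apply mul_left_cancel₀ hd0
    rw [hp, hq] at hab
    linear_combination hab
  have hp1 : π ∣ p * M 0 0 + q * M 1 0 := by
    have : r1 * M 0 0 + r2 * M 1 0 = d * (p * M 0 0 + q * M 1 0) := by rw [hp, hq]; ring
    rw [this] at hr1
    exact (hπ.dvd_or_dvd hr1).resolve_left hdn
  have hp2 : π ∣ p * M 0 1 + q * M 1 1 := by
    have : r1 * M 0 1 + r2 * M 1 1 = d * (p * M 0 1 + q * M 1 1) := by rw [hp, hq]; ring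
    rw [this] at hr2
    exact (hπ.dvd_or_dvd hr2).resolve_left hdn
  -- complete to a unimodular matrix
  let Hm : GL (Fin 2) O := mk2 p q (-b) a 1 (by simp; linear_combination hpq)
  obtain ⟨x, hx⟩ := F.cover Hm⁻¹
  obtain ⟨c1, hc1⟩ := hx
  obtain ⟨c2, hc2⟩ := hp1
  obtain ⟨c3, hc3⟩ := hp2
  set K : GL (Fin 2) O := (F.s x)⁻¹ * Hm⁻¹ with hK
  set N : Matrix (Fin 2) (Fin 2) O := K.val * (Hm.val * M) with hN
  have hN0 : N = ((F.s x)⁻¹).val * M := by
    rw [hN, hK, Units.val_mul, Matrix.mul_assoc, fix_inv_mul]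
  have hH0 : (Hm.val * M) 0 0 = π * c2 := by
    rw [← hc2]; simp [Hm, Matrix.mul_apply, Fin.sum_univ_two]
  have hH1 : (Hm.val * M) 0 1 = π * c3 := by
    rw [← hc3]; simp [Hm, Matrix.mul_apply, Fin.sum_univ_two]
  have hN1 : N 0 0 = π * (K.val 0 0 * c2 + c1 * (Hm.val * M) 1 0) := by
    rw [hN, Matrix.mul_apply, Fin.sum_univ_two, hH0, hc1]; ring
  have hN2 : N 0 1 = π * (K.val 0 0 * c3 + c1 * (Hm.val * M) 1 1) := by
    rw [hN, Matrix.mul_apply, Fin.sum_univ_two, hH1, hc1]; ring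
  set M' : Matrix (Fin 2) (Fin 2) O := !![K.val 0 0 * c2 + c1 * (Hm.val * M) 1 0,
    K.val 0 0 * c3 + c1 * (Hm.val * M) 1 1; N 1 0, N 1 1] with hM'
  have hNM : N = PM π * M' := by
    ext i j
    fin_cases i <;> fin_cases j <;> simp [PM, hM', Matrix.mul_apply, Fin.sum_univ_two, hN1, hN2]
  have hfac : M = (F.s x).val * (PM π * M') := by
    rw [← hNM, hN0, fix_mul_inv]
  have hPM : (PM π).det = π := by simp [PM]
  have hunit : IsUnit M'.det := by
    have e1 : M.det = (F.s x).val.det * (π * M'.det) := by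
      rw [hfac, Matrix.det_mul, Matrix.det_mul, hPM]
    obtain ⟨u, hu⟩ := hM
    have e2 : π * ((F.s x).val.det * M'.det * u) = π * 1 := by
      rw [mul_one]
      calc π * ((F.s x).val.det * M'.det * u) = M.det * u := by rw [e1]; ring
        _ = π := hu
    have e3 := mul_left_cancel₀ hπ.ne_zero e2
    exact IsUnit.of_mul_eq_one ((F.s x).val.det * u) (by linear_combination e3)
  obtain ⟨e, he⟩ : ∃ e : GL (Fin 2) O, e.val = M' :=
    (Matrix.isUnit_iff_isUnit_det M').mpr hunit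
  refine ⟨x, e⁻¹, ?_⟩
  rw [hfac, ← he, ← Matrix.mul_assoc, Matrix.mul_assoc, ← Units.val_mul, mul_inv_cancel,
    Units.val_one, Matrix.mul_one]

omit [IsDomain O] in
theorem fix_sep {M : Matrix (Fin 2) (Fin 2) O} {x y : X} {e e' : GL (Fin 2) O}
    (hx : (F.s x).val * PM π = M * e.val) (hy : (F.s y).val * PM π = M * e'.val) : x = y := by
  apply F.sep
  have h1 : M = (F.s x).val * (PM π * (e⁻¹).val) := by
    rw [← Matrix.mul_assoc, hx, Matrix.mul_assoc, ← Units.val_mul, mul_inv_cancel, Units.val_one,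
      Matrix.mul_one]
  have h2 : ((F.s x)⁻¹ * F.s y).val * PM π = PM π * ((e⁻¹).val * e'.val) := by
    rw [Units.val_mul, Matrix.mul_assoc, hy, h1, Matrix.mul_assoc, fix_inv_mul, Matrix.mul_assoc]
  have h3 := congrFun (congrFun h2 0) 1
  refine ⟨((e⁻¹).val * e'.val) 0 1, ?_⟩
  simpa [PM, Matrix.mul_apply, Fin.sum_univ_two] using h3

omit [IsDomain O] in
theorem fix_eig (g : GL (Fin 2) O) (tr : g.val.trace = 0) (x : X) (g' : GL (Fin 2) O)
    (h : F.Step g x x g') : ∃ l : O, π ∣ l ^ 2 + g.val.det := by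
  obtain ⟨l, b, c, -, h2⟩ := fix_data F g tr x g' h
  exact ⟨l, -(b * c), by linear_combination -h2⟩

/-- the main computation at a fixed point. -/
theorem fix_aux (hπ : Prime π) (s s' : Matrix (Fin 2) (Fin 2) O) (δ : O) (u : Oˣ)
    (hss : s * s' = δ • (1 : Matrix (Fin 2) (Fin 2) O)) (hδ : δ * u = π) (hdet : s.det = δ)
    (S : GL (Fin 2) O) (N : Matrix (Fin 2) (Fin 2) O) (hN : s' * (S.val * PM π) = π • N) :
    ∃ e : GL (Fin 2) O, S.val * PM π = s * e.val := by
  have h1 : δ • (S.val * PM π) = π • (s * N) := by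
    have : s * (s' * (S.val * PM π)) = π • (s * N) := by rw [hN, Matrix.mul_smul]
    rw [← this, ← Matrix.mul_assoc s s', hss, Matrix.smul_mul, Matrix.one_mul]
  have h2 : π • (S.val * PM π) = π • (s * ((u : O) • N)) := by
    rw [Matrix.mul_smul, smul_comm, ← h1, smul_smul, mul_comm, hδ]
  have h3 : S.val * PM π = s * ((u : O) • N) := by
    ext i j
    have := congrFun (congrFun h2 i) j
    simp only [Matrix.smul_apply, smul_eq_mul] at this
    exact mul_left_cancel₀ hπ.ne_zero this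
  have hδ0 : δ ≠ 0 := by
    rintro rfl; exact hπ.ne_zero (by rw [← hδ]; ring)
  have h4 : IsUnit ((u : O) • N).det := by
    have e1 : (S.val * PM π).det = (s * ((u : O) • N)).det := by rw [h3]
    have hPM : (PM π).det = π := by simp [PM]
    rw [Matrix.det_mul, Matrix.det_mul, hPM, hdet] at e1
    have e2 : δ * (S.val.det * u) = δ * ((u : O) • N).det := by
      rw [← e1, ← hδ]; ring
    rw [← mul_left_cancel₀ hδ0 e2]
    exact ((Matrix.isUnit_iff_isUnit_det _).mp S.isUnit).mul u.isUnit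
  obtain ⟨e, he⟩ : ∃ e : GL (Fin 2) O, e.val = (u : O) • N :=
    (Matrix.isUnit_iff_isUnit_det _).mpr h4
  exact ⟨e, by rw [he, h3]⟩

omit [IsDomain O] in
theorem fix_sq (M : Matrix (Fin 2) (Fin 2) O) (tr : M.trace = 0) (x y : O) :
    (x • (1 : Matrix (Fin 2) (Fin 2) O) + y • M) * (x • (1 : Matrix (Fin 2) (Fin 2) O) - y • M) =
      (x ^ 2 + y ^ 2 * M.det) • (1 : Matrix (Fin 2) (Fin 2) O) ∧
    (x • (1 : Matrix (Fin 2) (Fin 2) O) - y • M) * (x • (1 : Matrix (Fin 2) (Fin 2) O) + y • M) =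
      (x ^ 2 + y ^ 2 * M.det) • (1 : Matrix (Fin 2) (Fin 2) O) ∧
    (x • (1 : Matrix (Fin 2) (Fin 2) O) + y • M).det = x ^ 2 + y ^ 2 * M.det ∧
    (x • (1 : Matrix (Fin 2) (Fin 2) O) - y • M).det = x ^ 2 + y ^ 2 * M.det := by
  have h11 : M 1 1 = - M 0 0 := by
    rw [Matrix.trace_fin_two] at tr; linear_combination tr
  refine ⟨?_, ?_, ?_, ?_⟩
  · ext i j
    fin_cases i <;> fin_cases j <;>
      simp [Matrix.mul_apply, Fin.sum_univ_two, Matrix.det_fin_two, h11] <;> ring
  · ext i j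
    fin_cases i <;> fin_cases j <;>
      simp [Matrix.mul_apply, Fin.sum_univ_two, Matrix.det_fin_two, h11] <;> ring
  · simp [Matrix.det_fin_two, h11]; ring
  · simp [Matrix.det_fin_two, h11]; ring

theorem fix_points [IsPrincipalIdealRing O] (hπ : Prime π) (h2 : ¬ π ∣ 2) (g : GL (Fin 2) O)
    (tr : g.val.trace = 0) (x₁ y₁ : O)
    (hdet : Associated (x₁ • (1 : Matrix (Fin 2) (Fin 2) O) + y₁ • g.val).det π) :
    ∃ (xp xm : X) (ep em : GL (Fin 2) O), xp ≠ xm ∧
      (F.s xp).val * PM π = (x₁ • (1 : Matrix (Fin 2) (Fin 2) O) + y₁ • g.val) * ep.val ∧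
      (F.s xm).val * PM π = (x₁ • (1 : Matrix (Fin 2) (Fin 2) O) - y₁ • g.val) * em.val ∧
      ∀ x g', F.Step g x x g' → x = xp ∨ x = xm := by
  obtain ⟨ss', s's, ds, ds'⟩ := fix_sq g.val tr x₁ y₁
  set s := x₁ • (1 : Matrix (Fin 2) (Fin 2) O) + y₁ • g.val with hs
  set s' := x₁ • (1 : Matrix (Fin 2) (Fin 2) O) - y₁ • g.val with hs'
  obtain ⟨xp, ep, hp⟩ := fix_cover F hπ s hdet
  obtain ⟨xm, em, hm⟩ := fix_cover F hπ s' (by rw [ds', ← ds]; exact hdet)
  obtain ⟨u, hu⟩ := hdet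
  refine ⟨xp, xm, ep, em, ?_, hp, hm, ?_⟩
  · intro hxx
    rw [← hxx] at hm
    -- s = s' * ε
    have e1 : s = s' * (em.val * (ep⁻¹).val) := by
      rw [← Matrix.mul_assoc, ← hm, hp, Matrix.mul_assoc, ← Units.val_mul, mul_inv_cancel,
        Units.val_one, Matrix.mul_one]
    have e2 : s * s = (x₁ ^ 2 + y₁ ^ 2 * g.val.det) • (em.val * (ep⁻¹).val) := by
      nth_rewrite 2 [e1]
      rw [← Matrix.mul_assoc, ss', Matrix.smul_mul, Matrix.one_mul]
    have hπδ : π ∣ x₁ ^ 2 + y₁ ^ 2 * g.val.det := by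
      rw [← ds]
      exact ⟨((u⁻¹ : Oˣ) : O), by rw [← hu, mul_assoc, Units.mul_inv, mul_one]⟩
    have h11 : g.val 1 1 = - g.val 0 0 := by
      rw [Matrix.trace_fin_two] at tr; linear_combination tr
    have hdg : g.val.det = - (g.val 0 0) ^ 2 - g.val 0 1 * g.val 1 0 := by
      rw [Matrix.det_fin_two, h11]; ring
    have d0 : π ∣ (s * s) 0 0 := by
      rw [e2, Matrix.smul_apply, smul_eq_mul]; exact Dvd.dvd.mul_right hπδ _
    have d1 : π ∣ (s * s) 1 1 := by
      rw [e2, Matrix.smul_apply, smul_eq_mul]; exact Dvd.dvd.mul_right hπδ _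
    have d2 : π ∣ 2 * (x₁ ^ 2 - y₁ ^ 2 * g.val.det) := by
      have : 2 * (x₁ ^ 2 - y₁ ^ 2 * g.val.det) = (s * s) 0 0 + (s * s) 1 1 := by
        simp [hs, Matrix.mul_apply, Fin.sum_univ_two, h11, hdg]; ring
      rw [this]; exact dvd_add d0 d1
    have d3 : π ∣ x₁ ^ 2 - y₁ ^ 2 * g.val.det := (hπ.dvd_or_dvd d2).resolve_left h2
    have d4 : π ∣ x₁ := by
      have : π ∣ 2 * x₁ ^ 2 := by
        have e : 2 * x₁ ^ 2 = (x₁ ^ 2 + y₁ ^ 2 * g.val.det) + (x₁ ^ 2 - y₁ ^ 2 * g.val.det) := by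
          ring
        rw [e]; exact dvd_add hπδ d3
      exact hπ.dvd_of_dvd_pow ((hπ.dvd_or_dvd this).resolve_left h2)
    have d5 : π ∣ y₁ := by
      have e : y₁ ^ 2 * g.val.det = (x₁ ^ 2 + y₁ ^ 2 * g.val.det) - x₁ ^ 2 := by ring
      have h : π ∣ y₁ ^ 2 * g.val.det := by
        rw [e]; exact dvd_sub hπδ (dvd_pow d4 two_ne_zero)
      rcases hπ.dvd_or_dvd h with h | h
      · exact hπ.dvd_of_dvd_pow h
      · exact absurd (isUnit_of_dvd_unit h ((Matrix.isUnit_iff_isUnit_det _).mp g.isUnit))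
          hπ.not_isUnit
    obtain ⟨p, hp'⟩ := d4
    obtain ⟨q, hq'⟩ := d5
    have h6 : π * (π * (p ^ 2 + q ^ 2 * g.val.det) * u) = π * 1 := by
      rw [mul_one]
      calc π * (π * (p ^ 2 + q ^ 2 * g.val.det) * u)
          = (x₁ ^ 2 + y₁ ^ 2 * g.val.det) * u := by rw [hp', hq']; ring
        _ = π := by rw [← ds, hu]
    have h7 := mul_left_cancel₀ hπ.ne_zero h6
    exact hπ.not_isUnit (IsUnit.of_mul_eq_one ((p ^ 2 + q ^ 2 * g.val.det) * u)
      (by linear_combination h7))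
  · intro x g' hx
    obtain ⟨l, b, c, hH, hd⟩ := fix_data F g tr x g' hx
    have hgS : g.val * (F.s x).val = (F.s x).val * !![-l, π * b; c, l] := by
      rw [← hH, Matrix.mul_assoc, fix_mul_inv]
    have hπδ : (x₁ ^ 2 + y₁ ^ 2 * g.val.det) * u = π := by rw [← ds, hu]
    have hdvd : π ∣ (x₁ + y₁ * l) * (x₁ - y₁ * l) := by
      refine ⟨((u⁻¹ : Oˣ) : O) + y₁ ^ 2 * b * c, ?_⟩
      have : π * ((u⁻¹ : Oˣ) : O) = x₁ ^ 2 + y₁ ^ 2 * g.val.det := by
        rw [← hπδ, mul_assoc, Units.mul_inv, mul_one]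
      linear_combination -this + y₁ ^ 2 * hd
    rcases hπ.dvd_or_dvd hdvd with h | h
    · right
      obtain ⟨m, hm'⟩ := h
      obtain ⟨e, he⟩ := fix_aux hπ s' s _ u s's hπδ ds' (F.s x)
        ((F.s x).val * !![x₁ - y₁ * l, y₁ * b; y₁ * c, m]) (by
          have e1 : s * (F.s x).val = (F.s x).val *
              !![x₁ - y₁ * l, π * (y₁ * b); y₁ * c, π * m] := by
            rw [hs, Matrix.add_mul, Matrix.smul_mul, Matrix.one_mul, Matrix.smul_mul, hgS,
              ← hm']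
            have : (!![x₁ - y₁ * l, π * (y₁ * b); y₁ * c, x₁ + y₁ * l] :
                Matrix (Fin 2) (Fin 2) O) = x₁ • 1 + y₁ • !![-l, π * b; c, l] := by
              ext i j
              fin_cases i <;> fin_cases j <;> simp <;> ring
            rw [this, Matrix.mul_add, Matrix.mul_smul, Matrix.mul_one, Matrix.mul_smul]
          rw [← Matrix.mul_assoc, e1, Matrix.mul_assoc, ← Matrix.mul_smul]
          congr 1
          ext i j
          fin_cases i <;> fin_cases j <;>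
            simp [PM, Matrix.mul_apply, Fin.sum_univ_two] <;> ring)
      exact fix_sep F he hm
    · left
      obtain ⟨m, hm'⟩ := h
      obtain ⟨e, he⟩ := fix_aux hπ s s' _ u ss' hπδ ds (F.s x)
        ((F.s x).val * !![x₁ + y₁ * l, -(y₁ * b); -(y₁ * c), m]) (by
          have e1 : s' * (F.s x).val = (F.s x).val *
              !![x₁ + y₁ * l, -(π * (y₁ * b)); -(y₁ * c), π * m] := by
            rw [hs', Matrix.sub_mul, Matrix.smul_mul, Matrix.one_mul, Matrix.smul_mul, hgS,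
              ← hm']
            have : (!![x₁ + y₁ * l, -(π * (y₁ * b)); -(y₁ * c), x₁ - y₁ * l] :
                Matrix (Fin 2) (Fin 2) O) = x₁ • 1 - y₁ • !![-l, π * b; c, l] := by
              ext i j
              fin_cases i <;> fin_cases j <;> simp <;> ring
            rw [this, Matrix.mul_sub, Matrix.mul_smul, Matrix.mul_one, Matrix.mul_smul]
          rw [← Matrix.mul_assoc, e1, Matrix.mul_assoc, ← Matrix.mul_smul]
          congr 1
          ext i j
          fin_cases i <;> fin_cases j <;>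
            simp [PM, Matrix.mul_apply, Fin.sum_univ_two] <;> ring)
      exact fix_sep F he hp
end

end SerreE
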