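import Pool.Agent.Serre.HDefs

/-! ### FRAME -/

open Matrix
open scoped QuadraticAlgebra

namespace SerreE

section
variable {O : Type*} [CommRing O]

theorem PM_mul_cancel [IsDomain O] {π : O} (hπ : π ≠ 0) {A B : Matrix (Fin 2) (Fin 2) O}
    (h : PM π * A = PM π * B) : A = B := by
  have e := fun i j => congrFun (congrFun h i) j
  ext i j
  fin_cases i
  · have h1 := e 0 j
    simp only [PM, Matrix.mul_apply, Fin.sum_univ_two, Matrix.of_apply, Matrix.cons_val',
      Matrix.cons_val_zero, Matrix.cons_val_one, Matrix.cons_val_fin_one, zero_mul,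
      add_zero] at h1
    exact mul_left_cancel₀ hπ h1
  · have h1 := e 1 j
    simpa [PM, Matrix.mul_apply, Fin.sum_univ_two] using h1

theorem PM_step_exists [IsDomain O] {π : O} (h : GL (Fin 2) O) (hd : π ∣ h.val 0 1) :
    ∃ g' : GL (Fin 2) O, h.val * PM π = PM π * g'.val := by
  obtain ⟨b, hb⟩ := hd
  refine ⟨mk2 (h.val 0 0) b (π * h.val 1 0) (h.val 1 1)
    (Matrix.GeneralLinearGroup.det h) ?_, ?_⟩
  · rw [Matrix.GeneralLinearGroup.val_det_apply, Matrix.det_fin_two, hb]
    ring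
  · ext i j
    fin_cases i <;> fin_cases j <;>
      simp [PM, Matrix.mul_apply, Fin.sum_univ_two, hb, mul_comm]

theorem PM_dvd {π : O} {A B : Matrix (Fin 2) (Fin 2) O} (h : A * PM π = PM π * B) :
    π ∣ A 0 1 := by
  have e := congrFun (congrFun h 0) 1
  simp only [PM, Matrix.mul_apply, Fin.sum_univ_two, Matrix.of_apply, Matrix.cons_val',
    Matrix.cons_val_zero, Matrix.cons_val_one, Matrix.cons_val_fin_one, zero_mul, mul_zero,
    mul_one, zero_add, add_zero] at e
  exact ⟨_, e⟩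

end

section
variable {O : Type*} [CommRing O] [IsDomain O] {π : O} {X : Type} (F : Frame π X)

theorem Frame.step_exists (hπ : π ≠ 0) (γ : GL (Fin 2) O) (x : X) :
    ∃ y g', F.Step γ x y g' := by
  obtain ⟨y, hy⟩ := F.cover (γ * F.s x)
  obtain ⟨g', hg'⟩ := PM_step_exists _ hy
  refine ⟨y, g', ?_⟩
  unfold Frame.Step
  rw [Matrix.mul_assoc (F.s y).val, ← hg', ← Matrix.mul_assoc, ← Units.val_mul, ← Units.val_mul,
    mul_inv_cancel_left]

theorem Frame.step_unique (hπ : π ≠ 0) {γ : GL (Fin 2) O} {x y y' : X} {g g' : GL (Fin 2) O}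
    (h : F.Step γ x y g) (h' : F.Step γ x y' g') : y = y' ∧ g = g' := by
  unfold Frame.Step at h h'
  have h1 : (F.s y).val * PM π * g.val = (F.s y').val * PM π * g'.val := by rw [← h, ← h']
  have hy : y = y' := by
    apply F.sep
    have h2 : ((F.s y)⁻¹ * F.s y').val * PM π = PM π * (g * g'⁻¹).val := by
      have h3 : PM π * g.val = ((F.s y)⁻¹ * F.s y').val * PM π * g'.val := by
        rw [Units.val_mul, Matrix.mul_assoc, Matrix.mul_assoc, ← Matrix.mul_assoc _ (PM π), ← h1,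
          Matrix.mul_assoc, ← Matrix.mul_assoc, ← Units.val_mul, inv_mul_cancel, Units.val_one,
          Matrix.one_mul]
      rw [Units.val_mul g, ← Matrix.mul_assoc, h3, Matrix.mul_assoc _ g'.val, ← Units.val_mul,
        mul_inv_cancel, Units.val_one, Matrix.mul_one]
    exact PM_dvd h2
  refine ⟨hy, ?_⟩
  subst hy
  have h4 : PM π * g.val = PM π * g'.val := by
    have := congrArg (fun M => (F.s y)⁻¹.val * M) h1
    simpa [← Matrix.mul_assoc, ← Units.val_mul] using this
  exact Units.ext (PM_mul_cancel hπ h4)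

theorem Frame.step_mul {γ γ' : GL (Fin 2) O} {x y z : X} {g g' : GL (Fin 2) O}
    (h : F.Step γ' x y g') (h' : F.Step γ y z g) : F.Step (γ * γ') x z (g * g') := by
  unfold Frame.Step at h h' ⊢
  rw [Units.val_mul, Units.val_mul, ← Matrix.mul_assoc _ g.val, ← h', Matrix.mul_assoc γ.val,
    Matrix.mul_assoc γ.val, h, ← Matrix.mul_assoc, ← Matrix.mul_assoc]

theorem Frame.step_act (hπ : π ≠ 0) (γ : GL (Fin 2) O) (x : X) :
    F.Step γ x (F.act γ x) (F.gam γ x) := by
  have h1 : ∃ g', F.Step γ x (F.act γ x) g' := by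
    unfold Frame.act
    rw [dif_pos (F.step_exists hπ γ x)]
    exact (F.step_exists hπ γ x).choose_spec
  unfold Frame.gam
  rw [dif_pos h1]
  exact h1.choose_spec

theorem Frame.act_eq (hπ : π ≠ 0) {γ : GL (Fin 2) O} {x y : X} {g : GL (Fin 2) O}
    (h : F.Step γ x y g) : F.act γ x = y ∧ F.gam γ x = g :=
  F.step_unique hπ (F.step_act hπ γ x) h

theorem Frame.act_one (hπ : π ≠ 0) (x : X) : F.act 1 x = x ∧ F.gam 1 x = 1 := by
  apply F.act_eq hπ
  simp [Frame.Step]

theorem Frame.act_sc (hπ : π ≠ 0) (u : Oˣ) (x : X) : F.act (sc u) x = x ∧ F.gam (sc u) x = sc u := by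
  apply F.act_eq hπ
  unfold Frame.Step
  have hc : (sc u : GL (Fin 2) O).val = Matrix.scalar (Fin 2) (u : O) := rfl
  rw [hc, Matrix.mul_assoc]
  exact (Matrix.scalar_commute (u : O) (fun r => mul_comm _ _) _).eq

theorem Frame.act_mul (hπ : π ≠ 0) (γ γ' : GL (Fin 2) O) (x : X) :
    F.act (γ * γ') x = F.act γ (F.act γ' x) ∧
    F.gam (γ * γ') x = F.gam γ (F.act γ' x) * F.gam γ' x :=
  F.act_eq hπ (F.step_mul (F.step_act hπ γ' x) (F.step_act hπ γ (F.act γ' x)))

theorem Frame.act_bijective (hπ : π ≠ 0) (γ : GL (Fin 2) O) : Function.Bijective (F.act γ) := by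
  have h1 : ∀ g : GL (Fin 2) O, ∀ x, F.act g⁻¹ (F.act g x) = x := by
    intro g x
    rw [← (F.act_mul hπ g⁻¹ g x).1, inv_mul_cancel]
    exact (F.act_one hπ x).1
  refine Function.bijective_iff_has_inverse.mpr ⟨F.act γ⁻¹, h1 γ, ?_⟩
  intro x
  have := h1 γ⁻¹ x
  rwa [inv_inv] at this

/-- the step relation modulo `f`. -/
theorem Frame.step_red {f : O} (ϖ : (O ⧸ Ideal.span {f})ˣ)
    (hϖ : (ϖ : O ⧸ Ideal.span {f}) = Ideal.Quotient.mk _ π) {γ : GL (Fin 2) O} {x y : X}
    {g : GL (Fin 2) O} (h : F.Step γ x y g) :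
    red f γ * (red f (F.s x) * dgl ϖ) = red f (F.s y) * dgl ϖ * red f g := by
  have hP : (PM π).map (Ideal.Quotient.mk (Ideal.span {f})) = (dgl ϖ).val := by
    ext i j
    fin_cases i <;> fin_cases j <;> simp [PM, dgl, mk2, hϖ]
  unfold Frame.Step at h
  have h1 := congrArg (fun M => M.map (Ideal.Quotient.mk (Ideal.span {f}))) h
  simp only [Matrix.map_mul, hP] at h1
  apply Units.ext
  simp only [Units.val_mul]
  rw [← Matrix.mul_assoc]
  exact h1

end

end SerreE
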