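import Pool.Agent.Serre.HDefs
import Pool.Agent.Serre.FRAME
import Pool.Agent.Serre.FIX

open Matrix
open scoped QuadraticAlgebra

namespace SerreE

/-- the sum over the points which are not fixed by the involution `j` -/
theorem eig_sum_nonfixed {X : Type} [Fintype X] {k : Type*} [Field k] [CharP k 2]
    (j u : X → X) (hj : ∀ x, j (j x) = x) (hu : Function.Bijective u)
    (hju : ∀ x, u (j x) = j (u x)) (κ b : X → k) (hb : ∀ x, b (j x) = b x)
    (h : ∀ x, κ (j x) + κ x = b (u x) + b x) (P : X → Prop) [DecidablePred P]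
    (hP : ∀ x, P x ↔ j x ≠ x) :
    ∑ x ∈ Finset.univ.filter P, κ x = 0 := by
  classical
  set S := Finset.univ.filter P with hS
  have hmem : ∀ x, x ∈ S ↔ j x ≠ x := fun x => by simp [hS, hP]
  have hjS : ∀ x, x ∈ S ↔ j x ∈ S := by
    intro x
    rw [hmem, hmem, hj]
    exact ⟨fun h1 h2 => h1 h2.symm, fun h1 h2 => h1 h2.symm⟩
  have huS : ∀ x, x ∈ S ↔ u x ∈ S := by
    intro x
    rw [hmem, hmem, ← hju]
    exact not_congr hu.1.eq_iff.symm
  let e := Fintype.equivFin X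
  let r : X → k := fun x => if e x < e (j x) then 1 else 0
  have hr : ∀ x ∈ S, r x + r (j x) = 1 := by
    intro x hx
    have hne : e x ≠ e (j x) := fun h1 => (hmem x).1 hx (e.injective h1).symm
    simp only [r, hj]
    rcases lt_or_gt_of_ne hne with h1 | h1
    · rw [if_pos h1, if_neg (not_lt.2 h1.le), add_zero]
    · rw [if_neg (not_lt.2 h1.le), if_pos h1, zero_add]
  -- reindexing by `j`
  have hre : ∀ F : X → k, ∑ x ∈ S, F (j x) = ∑ x ∈ S, F x := by
    intro F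
    refine Finset.sum_bij (fun x _ => j x) (fun x hx => (hjS x).1 hx) ?_ ?_ (fun x _ => rfl)
    · intro x _ y _ hxy
      rw [← hj x, hxy, hj]
    · intro y hy
      exact ⟨j y, (hjS y).1 hy, hj y⟩
  have hreu : ∀ F : X → k, ∑ x ∈ S, F (u x) = ∑ x ∈ S, F x := by
    intro F
    refine Finset.sum_bij (fun x _ => u x) (fun x hx => (huS x).1 hx) ?_ ?_ (fun x _ => rfl)
    · intro x _ y _ hxy
      exact hu.1 hxy
    · intro y hy
      obtain ⟨x, rfl⟩ := hu.2 y
      exact ⟨x, (huS x).2 hy, rfl⟩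
  have h1 : ∑ x ∈ S, κ x = ∑ x ∈ S, r x * (b (u x) + b x) := by
    calc ∑ x ∈ S, κ x = ∑ x ∈ S, (r x * κ x + r (j x) * κ x) := by
          refine Finset.sum_congr rfl fun x hx => ?_
          rw [← add_mul, hr x hx, one_mul]
      _ = ∑ x ∈ S, r x * κ x + ∑ x ∈ S, r (j x) * κ x := Finset.sum_add_distrib
      _ = ∑ x ∈ S, r x * κ x + ∑ x ∈ S, r x * κ (j x) := by
          congr 1
          rw [← hre (fun x => r x * κ (j x))]
          refine Finset.sum_congr rfl fun x _ => ?_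
          rw [hj]
      _ = ∑ x ∈ S, r x * (b (u x) + b x) := by
          rw [← Finset.sum_add_distrib]
          refine Finset.sum_congr rfl fun x _ => ?_
          rw [← h x]
          ring
  -- the sum `∑ r x * b (u x)`
  let ue := Equiv.ofBijective u hu
  have huinv : ∀ x, u (ue.symm x) = x := fun x => ue.apply_symm_apply x
  have h2 : ∑ x ∈ S, r x * b (u x) = ∑ x ∈ S, r (ue.symm x) * b x := by
    rw [← hreu (fun x => r (ue.symm x) * b x)]
    refine Finset.sum_congr rfl fun x _ => ?_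
    have : ue.symm (u x) = x := ue.symm_apply_apply x
    rw [this]
  have huj : ∀ x, ue.symm (j x) = j (ue.symm x) := by
    intro x
    apply hu.1
    rw [huinv, hju, huinv]
  have huS' : ∀ x ∈ S, ue.symm x ∈ S := by
    intro x hx
    rw [huS, huinv]
    exact hx
  have h3 : ∑ x ∈ S, κ x = ∑ x ∈ S, (r (ue.symm x) + r x) * b x := by
    rw [h1]
    simp only [mul_add, add_mul, Finset.sum_add_distrib]
    rw [h2]
  rw [h3]
  refine Finset.sum_involution (fun x _ => j x) ?_ ?_ ?_ ?_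
  · intro x hx
    have e1 := hr x hx
    have e2 := hr _ (huS' x hx)
    rw [huj, hb, ← add_mul]
    have e3 : r (ue.symm x) + r x + (r (j (ue.symm x)) + r (j x)) =
        (r (ue.symm x) + r (j (ue.symm x))) + (r x + r (j x)) := by ring
    rw [e3, e1, e2, CharTwo.add_self_eq_zero, zero_mul]
  · intro x hx _
    exact (hmem x).1 hx
  · intro x hx
    exact (hjS x).1 hx
  · intro x hx
    exact hj x

section
variable {O : Type*} [CommRing O] [IsDomain O] {π : O} {X : Type} [Fintype X] (F : Frame π X)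
variable {k : Type*} [Field k]

/-- the summands of the Hecke operator -/
noncomputable def eigK (f : O) (ϖ : (O ⧸ Ideal.span {f})ˣ)
    (C : GL (Fin 2) O → GL (Fin 2) (O ⧸ Ideal.span {f}) → k) (γ : GL (Fin 2) O) (x : X) : k :=
  C (F.gam γ x) ((red f (F.s (F.act γ x)) * dgl ϖ)⁻¹)

theorem eig_heckeC (f : O) (ϖ : (O ⧸ Ideal.span {f})ˣ)
    (C : GL (Fin 2) O → GL (Fin 2) (O ⧸ Ideal.span {f}) → k) (γ : GL (Fin 2) O) :
    heckeC F f ϖ C γ 1 = ∑ x, eigK F f ϖ C γ x := by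
  unfold heckeC eigK
  simp only [mul_one]

theorem eig_coc (hπ : π ≠ 0) {f : O} {ϖ : (O ⧸ Ideal.span {f})ˣ}
    (hϖ : (ϖ : O ⧸ Ideal.span {f}) = Ideal.Quotient.mk _ π)
    {χ : (Gi (O ⧸ Ideal.span {f}))ˣ →* kˣ}
    {C : GL (Fin 2) O → GL (Fin 2) (O ⧸ Ideal.span {f}) → k} (hC : IsCoc f χ C)
    (γ γ' : GL (Fin 2) O) (t : (Gi (O ⧸ Ideal.span {f}))ˣ) (ht : iota t = red f γ)
    (hχ : χ t = 1) (x : X) :
    eigK F f ϖ C (γ * γ') x = eigK F f ϖ C γ (F.act γ' x) + eigK F f ϖ C γ' x := by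
  unfold eigK
  obtain ⟨e1, e2⟩ := F.act_mul hπ γ γ' x
  rw [e1, e2, hC.coc]
  congr 1
  have h1 := F.step_red ϖ hϖ (F.step_act hπ γ (F.act γ' x))
  have h2 : (red f (F.gam γ (F.act γ' x)))⁻¹ *
      (red f (F.s (F.act γ (F.act γ' x))) * dgl ϖ)⁻¹ =
      (red f (F.s (F.act γ' x)) * dgl ϖ)⁻¹ * iota t⁻¹ := by
    rw [map_inv, ht, ← _root_.mul_inv_rev, ← _root_.mul_inv_rev, h1]
  rw [h2, hC.equi, map_inv, hχ]
  simp

theorem eig_coc_one {f : O} {χ : (Gi (O ⧸ Ideal.span {f}))ˣ →* kˣ}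
    {C : GL (Fin 2) O → GL (Fin 2) (O ⧸ Ideal.span {f}) → k} (hC : IsCoc f χ C)
    (y : GL (Fin 2) (O ⧸ Ideal.span {f})) : C 1 y = 0 := by
  have h1 : (sc (1 : Oˣ) : GL (Fin 2) O) = 1 := map_one (Matrix.GeneralLinearGroup.scalar (Fin 2))
  have := hC.scal 1 y
  rwa [h1] at this

/-- the contribution of a fixed point -/
theorem eig_fixed (hπ : π ≠ 0) {f : O} {ϖ : (O ⧸ Ideal.span {f})ˣ}
    (hϖ : (ϖ : O ⧸ Ideal.span {f}) = Ideal.Quotient.mk _ π)
    {χ : (Gi (O ⧸ Ideal.span {f}))ˣ →* kˣ}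
    {C : GL (Fin 2) O → GL (Fin 2) (O ⧸ Ideal.span {f}) → k} (hC : IsCoc f χ C)
    (u : GL (Fin 2) O) (tu : (Gi (O ⧸ Ideal.span {f}))ˣ)
    (htu : iota tu = red f u) (hχu : χ tu = 1) (z : Gi O) (tz : (Gi (O ⧸ Ideal.span {f}))ˣ)
    (htz : tz.val = redGi f z) (x : X) (ep : GL (Fin 2) O)
    (hs : (F.s x).val * PM π = iotaM z * ep.val) (hcomm : u.val * iotaM z = iotaM z * u.val) :
    F.act u x = x ∧ eigK F f ϖ C u x = (χ tz : k) * C u 1 := by
  have hstep : F.Step u x x (ep⁻¹ * u * ep) := by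
    unfold Frame.Step
    have h1 : ep.val * (ep⁻¹ * u * ep).val = u.val * ep.val := by
      rw [← Units.val_mul, ← Units.val_mul]
      congr 1
      group
    rw [mul_assoc, hs, ← mul_assoc, hcomm, mul_assoc, mul_assoc, h1]
  obtain ⟨e1, e2⟩ := F.act_eq hπ hstep
  refine ⟨e1, ?_⟩
  unfold eigK
  rw [e1, e2]
  have hd : red f (F.s x) * dgl ϖ = iota tz * red f ep := by
    apply Units.ext
    have h1 : (red f (F.s x)).val * (dgl ϖ).val =
        ((F.s x).val * PM π).map (Ideal.Quotient.mk (Ideal.span {f})) := by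
      rw [Matrix.map_mul]
      congr 1
      ext i j
      fin_cases i <;> fin_cases j <;> simp [dgl, mk2, PM, hϖ]
    have h2 : (iota tz).val * (red f ep).val =
        (iotaM z * ep.val).map (Ideal.Quotient.mk (Ideal.span {f})) := by
      rw [Matrix.map_mul]
      congr 1
      change iotaM tz.val = _
      rw [htz]
      ext i j
      fin_cases i <;> fin_cases j <;> simp [iotaM, redGi]
    rw [Units.val_mul, Units.val_mul, h1, h2, hs]
  rw [hd, _root_.mul_inv_rev]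
  set τ := (iota tz)⁻¹ with hτ
  have a1 : C (ep⁻¹ * u * ep) ((red f ep)⁻¹ * τ) = C ep⁻¹ ((red f ep)⁻¹ * τ) +
      (C u τ + C ep ((red f u)⁻¹ * τ)) := by
    rw [mul_assoc, hC.coc, hC.coc]
    congr 2
    · congr 1
      rw [map_inv, inv_inv, ← mul_assoc, mul_inv_cancel, one_mul]
    · congr 1
      rw [map_inv, inv_inv, ← mul_assoc (red f ep), mul_inv_cancel, one_mul]
  have a2 : C ep ((red f u)⁻¹ * τ) = C ep τ := by
    have h3 : (red f u)⁻¹ * τ = τ * iota tu⁻¹ := by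
      rw [hτ, ← htu, ← map_inv, ← map_inv, ← map_mul, ← map_mul, mul_comm]
    rw [h3, hC.equi, map_inv, hχu]
    simp
  have a3 : C ep τ + C ep⁻¹ ((red f ep)⁻¹ * τ) = 0 := by
    rw [← hC.coc, mul_inv_cancel]
    exact eig_coc_one hC _
  have a4 : C u τ = (χ tz : k) * C u 1 := by
    have h4 : τ = 1 * iota tz⁻¹ := by rw [one_mul, map_inv]
    rw [h4, hC.equi, map_inv, inv_inv]
  rw [a1, a2, ← a4]
  linear_combination a3

end

theorem eig_giStar {R : Type*} [CommRing R] {k : Type*} [Field k] (χ : (Gi R)ˣ →* kˣ)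
    (hscal : ∀ u, χ (giC u) = 1) (t : (Gi R)ˣ) : χ (giStar t) = (χ t)⁻¹ := by
  have h1 : t * giStar t = giC (Units.map (QuadraticAlgebra.norm (R := R) (a := -1) (b := 0)) t) := by
    apply Units.ext
    change t.val * star t.val = algebraMap R (Gi R) (QuadraticAlgebra.norm t.val)
    rw [QuadraticAlgebra.algebraMap_norm_eq_mul_star]
  have h2 : χ t * χ (giStar t) = 1 := by rw [← map_mul, h1, hscal]
  exact eq_inv_of_mul_eq_one_right h2

section
variable {O : Type*} [CommRing O] [IsDomain O] [IsPrincipalIdealRing O] {π : O} {X : Type}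
  [Fintype X] (F : Frame π X)
variable {k : Type*} [Field k] [CharP k 2]

open Classical in
/-- the sum over the points which are not fixed by `J` vanishes -/
theorem eig_nonfixed (hπ : π ≠ 0) (f : O) (ϖ : (O ⧸ Ideal.span {f})ˣ)
    (hϖ : (ϖ : O ⧸ Ideal.span {f}) = Ideal.Quotient.mk _ π)
    (χ : (Gi (O ⧸ Ideal.span {f}))ˣ →* kˣ)
    (hJ : ∀ t, iota t = red f J → χ t = 1)
    (C : GL (Fin 2) O → GL (Fin 2) (O ⧸ Ideal.span {f}) → k) (hC : IsCoc f χ C)
    (u : GL (Fin 2) O) (hu : u * J = J * u) (tu : (Gi (O ⧸ Ideal.span {f}))ˣ)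
    (htu : iota tu = red f u) (hχu : χ tu = 1) :
    ∑ x ∈ Finset.univ.filter (fun x => F.act J x ≠ x), eigK F f ϖ C u x = 0 := by
  -- the element `i`
  let ti : (Gi (O ⧸ Ideal.span {f}))ˣ := ⟨⟨0, 1⟩, ⟨0, -1⟩, by ext <;> simp, by ext <;> simp⟩
  have hti : iota ti = red f J := by
    apply Units.ext
    ext i j
    fin_cases i <;> fin_cases j <;> simp [ti, J, mk2]
  have hχi := hJ ti hti
  have hJJ : (J : GL (Fin 2) O) * J = sc (-1) := by
    apply Units.ext
    ext i j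
    fin_cases i <;> fin_cases j <;> simp [J, mk2, Matrix.mul_apply, Fin.sum_univ_two]
  have hact : ∀ x, F.act J (F.act J x) = x := by
    intro x
    rw [← (F.act_mul hπ J J x).1, hJJ]
    exact (F.act_sc hπ (-1) x).1
  have hKJJ : ∀ x, eigK F f ϖ C J (F.act J x) = eigK F f ϖ C J x := by
    intro x
    have h1 := eig_coc F hπ hϖ hC J J ti hti hχi x
    have h2 : eigK F f ϖ C (J * J) x = 0 := by
      unfold eigK
      rw [hJJ, (F.act_sc hπ (-1) x).2]
      exact hC.scal _ _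
    rw [h2] at h1
    exact (CharTwo.add_eq_zero.1 h1.symm)
  refine eig_sum_nonfixed (F.act J) (F.act u) hact (F.act_bijective hπ u) ?_ (eigK F f ϖ C u)
    (eigK F f ϖ C J) hKJJ ?_ (fun x => F.act J x ≠ x) (fun x => Iff.rfl)
  · intro x
    rw [← (F.act_mul hπ u J x).1, ← (F.act_mul hπ J u x).1, hu]
  · intro x
    have h1 := eig_coc F hπ hϖ hC u J tu htu hχu x
    have h2 := eig_coc F hπ hϖ hC J u ti hti hχi x
    rw [← hu] at h2
    have h3 := h1.symm.trans h2
    have h4 := CharTwo.add_self_eq_zero (eigK F f ϖ C J x)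
    have h5 := CharTwo.add_self_eq_zero (eigK F f ϖ C u x)
    linear_combination h3 - h4 + h5
  
theorem eig_split (hπ : Prime π) (h2 : ¬ π ∣ 2) (f : O) (ϖ : (O ⧸ Ideal.span {f})ˣ)
    (hϖ : (ϖ : O ⧸ Ideal.span {f}) = Ideal.Quotient.mk _ π)
    (χ : (Gi (O ⧸ Ideal.span {f}))ˣ →* kˣ) (hscal : ∀ u, χ (giC u) = 1)
    (hJ : ∀ t, iota t = red f J → χ t = 1)
    (C : GL (Fin 2) O → GL (Fin 2) (O ⧸ Ideal.span {f}) → k) (hC : IsCoc f χ C)
    (u : GL (Fin 2) O) (hu : u * J = J * u) (tu : (Gi (O ⧸ Ideal.span {f}))ˣ)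
    (htu : iota tu = red f u) (hχu : χ tu = 1)
    (w : Gi O) (hw : Associated w.norm π) (t : (Gi (O ⧸ Ideal.span {f}))ˣ)
    (ht : t.val = redGi f w) :
    heckeC F f ϖ C u 1 = ((χ t : k) + ((χ t)⁻¹ : kˣ)) * C u 1 := by
  classical
  have hπ0 : π ≠ 0 := hπ.ne_zero
  have hp : w.re • (1 : Matrix (Fin 2) (Fin 2) O) + w.im • (J : GL (Fin 2) O).val = iotaM w := by
    ext i j
    fin_cases i <;> fin_cases j <;> simp [J, mk2, iotaM]
  have hm : w.re • (1 : Matrix (Fin 2) (Fin 2) O) - w.im • (J : GL (Fin 2) O).val =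
      iotaM (star w) := by
    ext i j
    fin_cases i <;> fin_cases j <;> simp [J, mk2, iotaM]
  have htr : (J : GL (Fin 2) O).val.trace = 0 := by
    simp [J, mk2, Matrix.trace, Fin.sum_univ_two]
  obtain ⟨xp, xm, ep, em, hne, hxp, hxm, hall⟩ := fix_points F hπ h2 J htr w.re w.im (by
    rw [hp]
    have : (iotaM w).det = w.norm := by
      rw [Matrix.det_fin_two, QuadraticAlgebra.norm_def]
      simp [iotaM]
    rw [this]
    exact hw)
  rw [hp] at hxp
  rw [hm] at hxm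
  have huJ : u.val * (J : GL (Fin 2) O).val = (J : GL (Fin 2) O).val * u.val := by
    rw [← Units.val_mul, ← Units.val_mul, hu]
  have hcomm : ∀ z : Gi O, u.val * iotaM z = iotaM z * u.val := by
    intro z
    have h1 : iotaM z = z.re • (1 : Matrix (Fin 2) (Fin 2) O) + z.im • (J : GL (Fin 2) O).val := by
      ext i j
      fin_cases i <;> fin_cases j <;> simp [J, mk2, iotaM]
    rw [h1, mul_add, add_mul, Matrix.mul_smul, Matrix.mul_smul, Matrix.smul_mul, Matrix.smul_mul,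
      huJ, mul_one, one_mul]
  have hcommJ : ∀ z : Gi O, (J : GL (Fin 2) O).val * iotaM z = iotaM z * (J : GL (Fin 2) O).val := by
    intro z
    have h1 : iotaM z = z.re • (1 : Matrix (Fin 2) (Fin 2) O) + z.im • (J : GL (Fin 2) O).val := by
      ext i j
      fin_cases i <;> fin_cases j <;> simp [J, mk2, iotaM]
    rw [h1, mul_add, add_mul, Matrix.mul_smul, Matrix.mul_smul, Matrix.smul_mul, Matrix.smul_mul,
      mul_one, one_mul]
  have ht' : (giStar t).val = redGi f (star w) := by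
    change star t.val = _
    rw [ht]
    ext <;> simp [redGi]
  have hp' := eig_fixed F hπ0 hϖ hC u tu htu hχu w t ht xp ep hxp (hcomm w)
  have hm' := eig_fixed F hπ0 hϖ hC u tu htu hχu (star w) (giStar t) ht' xm em hxm (hcomm _)
  let ti : (Gi (O ⧸ Ideal.span {f}))ˣ := ⟨⟨0, 1⟩, ⟨0, -1⟩, by ext <;> simp, by ext <;> simp⟩
  have hti : iota ti = red f J := by
    apply Units.ext
    ext i j
    fin_cases i <;> fin_cases j <;> simp [ti, J, mk2]
  have hpJ := (eig_fixed F hπ0 hϖ hC J ti hti (hJ ti hti) w t ht xp ep hxp (hcommJ w)).1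
  have hmJ := (eig_fixed F hπ0 hϖ hC J ti hti (hJ ti hti) (star w) (giStar t) ht' xm em hxm
    (hcommJ _)).1
  have hfix : Finset.univ.filter (fun x => ¬ (F.act J x ≠ x)) = {xp, xm} := by
    ext x
    simp only [Finset.mem_filter, Finset.mem_univ, true_and, not_not, Finset.mem_insert,
      Finset.mem_singleton]
    constructor
    · intro hx
      have h3 := F.step_act hπ0 J x
      rw [hx] at h3
      exact hall x _ h3
    · rintro (rfl | rfl)
      · exact hpJ
      · exact hmJ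
  rw [eig_heckeC, ← Finset.sum_filter_add_sum_filter_not Finset.univ (fun x => F.act J x ≠ x),
    eig_nonfixed F hπ0 f ϖ hϖ χ hJ C hC u hu tu htu hχu, zero_add, hfix,
    Finset.sum_pair hne, hp'.2, hm'.2, eig_giStar χ hscal]
  ring

theorem eig_inert (hπ : Prime π) (h2 : ¬ π ∣ 2) (f : O) (ϖ : (O ⧸ Ideal.span {f})ˣ)
    (hϖ : (ϖ : O ⧸ Ideal.span {f}) = Ideal.Quotient.mk _ π)
    (χ : (Gi (O ⧸ Ideal.span {f}))ˣ →* kˣ) (hscal : ∀ u, χ (giC u) = 1)
    (hJ : ∀ t, iota t = red f J → χ t = 1)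
    (C : GL (Fin 2) O → GL (Fin 2) (O ⧸ Ideal.span {f}) → k) (hC : IsCoc f χ C)
    (u : GL (Fin 2) O) (hu : u * J = J * u) (tu : (Gi (O ⧸ Ideal.span {f}))ˣ)
    (htu : iota tu = red f u) (hχu : χ tu = 1)
    (hl : ∀ l : O, ¬ π ∣ l ^ 2 + 1) :
    heckeC F f ϖ C u 1 = 0 := by
  classical
  have hπ0 : π ≠ 0 := hπ.ne_zero
  have htr : (J : GL (Fin 2) O).val.trace = 0 := by
    simp [J, mk2, Matrix.trace, Fin.sum_univ_two]
  have hdet : (J : GL (Fin 2) O).val.det = 1 := by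
    simp [J, mk2, Matrix.det_fin_two]
  have hfix : Finset.univ.filter (fun x => ¬ (F.act J x ≠ x)) = ∅ := by
    rw [Finset.filter_eq_empty_iff]
    intro x _ hx
    rw [not_not] at hx
    have h3 := F.step_act hπ0 J x
    rw [hx] at h3
    obtain ⟨l, hl'⟩ := fix_eig F J htr x _ h3
    rw [hdet] at hl'
    exact hl l hl'
  rw [eig_heckeC, ← Finset.sum_filter_add_sum_filter_not Finset.univ (fun x => F.act J x ≠ x),
    eig_nonfixed F hπ0 f ϖ hϖ χ hJ C hC u hu tu htu hχu, zero_add, hfix, Finset.sum_empty]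

end

end SerreE
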