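import Pool.Agent.Serre.HDefs

open Matrix
open scoped QuadraticAlgebra

namespace SerreE

theorem fex_coprime {π a : E} (hπ : Prime π) (ha : ¬ π ∣ a) : ∃ x y : E, x * π + y * a = 1 := by
  have h := (Prime.coprime_iff_not_dvd hπ).2 ha
  obtain ⟨x, y, h⟩ := h
  exact ⟨x, y, h⟩

theorem fex_unimod (g : GL (Fin 2) E) : ∃ x y : E, x * g.val 0 1 + y * g.val 1 1 = 1 := by
  have h1 : (g⁻¹).val * g.val = 1 := by rw [← Units.val_mul]; simp
  have h2 := congrFun (congrFun h1 1) 1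
  rw [Matrix.mul_apply, Fin.sum_univ_two] at h2
  exact ⟨_, _, by simpa using h2⟩

theorem fex_up_mem (N z : E) : up z ∈ Gam0 N := by
  rw [mem_Gam0]
  simp [up]

/-- the element used for the line `(1 : 0)` -/
def fexEl (N π al be : E) (h : al * π + be * N = 1) : GL (Fin 2) E :=
  mk2 al (-be) N π 1 (by rw [Units.val_one, ← h]; ring)

theorem fexEl_mem (N π al be : E) (h : al * π + be * N = 1) : fexEl N π al be h ∈ Gam0 N := by
  rw [mem_Gam0]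
  simp [fexEl]

theorem fex_mul01 (a b : GL (Fin 2) E) :
    (a * b).val 0 1 = a.val 0 0 * b.val 0 1 + a.val 0 1 * b.val 1 1 := by
  rw [Units.val_mul, Matrix.mul_apply, Fin.sum_univ_two]

theorem fex_up_inv (z : E) (g : GL (Fin 2) E) :
    ((up z)⁻¹ * g).val 0 1 = g.val 0 1 - z * g.val 1 1 := by
  rw [fex_mul01]
  change ((1⁻¹ : Eˣ) : E) * 1 * g.val 0 1 + -(((1⁻¹ : Eˣ) : E) * z) * g.val 1 1 = _
  simp
  ring

theorem fexEl_inv (N π al be : E) (h : al * π + be * N = 1) (g : GL (Fin 2) E) :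
    ((fexEl N π al be h)⁻¹ * g).val 0 1 = π * g.val 0 1 + be * g.val 1 1 := by
  rw [fex_mul01]
  change ((1⁻¹ : Eˣ) : E) * π * g.val 0 1 + -(((1⁻¹ : Eˣ) : E) * (-be)) * g.val 1 1 = _
  simp

theorem fex_trans {π : E} {a b g : GL (Fin 2) E} (h1 : π ∣ (a⁻¹ * b).val 0 1)
    (h2 : π ∣ (b⁻¹ * g).val 0 1) : π ∣ (a⁻¹ * g).val 0 1 := by
  have h3 : (a⁻¹ * b) * (b⁻¹ * g) ∈ GamUp π :=
    mul_mem (mem_GamUp.2 h1) (mem_GamUp.2 h2)
  have h4 : (a⁻¹ * b) * (b⁻¹ * g) = a⁻¹ * g := by group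
  rw [h4] at h3
  exact mem_GamUp.1 h3

/-- representatives in `Γ₀(N)` of `Γ₀(N)/(Γ₀(N) ∩ Γ⁰(π))` -/
noncomputable def fexT (N π : E) (x : Gam0 N ⧸ HeckeSub N π) : Gam0 N := Quotient.out x

theorem fexT_mk (N π : E) (τ : Gam0 N) :
    π ∣ ((fexT N π (QuotientGroup.mk τ))⁻¹ * τ).val.val 0 1 := by
  have h : (QuotientGroup.mk (fexT N π (QuotientGroup.mk τ)) : Gam0 N ⧸ HeckeSub N π) =
      QuotientGroup.mk τ := Quotient.out_eq _
  rw [QuotientGroup.eq] at h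
  exact h

theorem fexT_sep (N π : E) (x y : Gam0 N ⧸ HeckeSub N π)
    (h : π ∣ ((fexT N π x)⁻¹ * fexT N π y).val.val 0 1) : x = y := by
  have h1 : (QuotientGroup.mk (fexT N π x) : Gam0 N ⧸ HeckeSub N π) =
      QuotientGroup.mk (fexT N π y) := by
    rw [QuotientGroup.eq]
    exact h
  rw [← Quotient.out_eq x, ← Quotient.out_eq y]
  exact h1

/-- `Γ₀(N)` acts transitively on the lines modulo `π` -/
theorem fex_cover (N π : E) (hπ : Prime π) (hN : ¬ π ∣ N) (g : GL (Fin 2) E) :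
    ∃ τ : Gam0 N, π ∣ (τ.val⁻¹ * g).val 0 1 := by
  by_cases hq : π ∣ g.val 1 1
  · obtain ⟨al, be, h⟩ := fex_coprime hπ hN
    refine ⟨⟨fexEl N π al be h, fexEl_mem N π al be h⟩, ?_⟩
    rw [fexEl_inv]
    exact dvd_add (Dvd.intro _ rfl) (hq.mul_left _)
  · obtain ⟨a, b, h⟩ := fex_coprime hπ hq
    refine ⟨⟨up (g.val 0 1 * b), fex_up_mem _ _⟩, ?_⟩
    rw [fex_up_inv]
    refine ⟨g.val 0 1 * a, ?_⟩
    linear_combination (-g.val 0 1) * h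

theorem frame_exists (N π : E) (hπ : Prime π) (hN : ¬ π ∣ N) :
    ∃ (X : Type) (_ : Fintype X) (t : X → Gam0 N) (F : Frame π X), ∀ x, F.s x = (t x).val := by
  have hfi := heckeSub_finiteIndex N π hπ.ne_zero
  have : Finite (Gam0 N ⧸ HeckeSub N π) := Subgroup.finite_quotient_of_finiteIndex
  refine ⟨Gam0 N ⧸ HeckeSub N π, Fintype.ofFinite _, fexT N π,
    ⟨fun x => (fexT N π x).val, ?_, ?_⟩, fun x => rfl⟩
  · intro g
    obtain ⟨τ, hτ⟩ := fex_cover N π hπ hN g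
    exact ⟨QuotientGroup.mk τ, fex_trans (fexT_mk N π τ) hτ⟩
  · intro x y h
    exact fexT_sep N π x y h

/-- the conjugated version of `fex_cover` -/
theorem fex_coverD (f π : E) (hπ : Prime π) (hN : ¬ π ∣ f) (g : GL (Fin 2) E) :
    ∃ τ : Gam0 (f ^ 2), π ∣ ((dconj f τ)⁻¹ * g).val 0 1 := by
  have hN2 : ¬ π ∣ f ^ 2 := fun h => hN (hπ.dvd_of_dvd_pow h)
  by_cases hq : π ∣ g.val 1 1
  · obtain ⟨al, be, h⟩ := fex_coprime hπ hN2
    refine ⟨⟨fexEl (f ^ 2) π al be h, fexEl_mem _ π al be h⟩, ?_⟩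
    set τ : Gam0 (f ^ 2) := ⟨fexEl (f ^ 2) π al be h, fexEl_mem _ π al be h⟩ with hτ
    obtain ⟨-, h2, -, h4, -⟩ := dconj_spec f τ
    rw [fex_mul01]
    have e1 : ((dconj f τ)⁻¹).val 0 0 = ((Matrix.GeneralLinearGroup.det τ.val)⁻¹ : Eˣ) *
        (dconj f τ).val 1 1 := rfl
    rw [e1, h4]
    have e3 : τ.val.val 1 1 = π := rfl
    rw [e3]
    exact dvd_add ⟨(((Matrix.GeneralLinearGroup.det τ.val)⁻¹ : Eˣ) : E) * g.val 0 1, by ring⟩
      (hq.mul_left _)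
  · have hfq : ¬ π ∣ f * g.val 1 1 := fun h => (hπ.dvd_or_dvd h).elim hN hq
    obtain ⟨a, b, h⟩ := fex_coprime hπ hfq
    refine ⟨⟨up (g.val 0 1 * b), fex_up_mem _ _⟩, ?_⟩
    set τ : Gam0 (f ^ 2) := ⟨up (g.val 0 1 * b), fex_up_mem _ _⟩ with hτ
    obtain ⟨-, h2, -, h4, -⟩ := dconj_spec f τ
    rw [fex_mul01]
    have e1 : ((dconj f τ)⁻¹).val 0 0 = ((Matrix.GeneralLinearGroup.det τ.val)⁻¹ : Eˣ) *
        (dconj f τ).val 1 1 := rfl
    have e2 : ((dconj f τ)⁻¹).val 0 1 = -(((Matrix.GeneralLinearGroup.det τ.val)⁻¹ : Eˣ) *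
        (dconj f τ).val 0 1) := rfl
    rw [e1, e2, h4, h2]
    have e3 : τ.val.val 1 1 = 1 := rfl
    have e4 : τ.val.val 0 1 = g.val 0 1 * b := rfl
    rw [e3, e4]
    refine ⟨(((Matrix.GeneralLinearGroup.det τ.val)⁻¹ : Eˣ) : E) * (g.val 0 1 * a), ?_⟩
    linear_combination (-(((Matrix.GeneralLinearGroup.det τ.val)⁻¹ : Eˣ) : E) * g.val 0 1) * h

theorem frames_exist (f π : E) (hf : f ≠ 0) (hπ : Prime π) (hN : ¬ π ∣ f) :
    ∃ (X : Type) (_ : Fintype X) (t : X → Gam0 (f ^ 2)) (F FD : Frame π X),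
      (∀ x, F.s x = (t x).val) ∧ (∀ x, FD.s x = dconj f (t x)) := by
  have hN2 : ¬ π ∣ f ^ 2 := fun h => hN (hπ.dvd_of_dvd_pow h)
  have hfi := heckeSub_finiteIndex (f ^ 2) π hπ.ne_zero
  have : Finite (Gam0 (f ^ 2) ⧸ HeckeSub (f ^ 2) π) := Subgroup.finite_quotient_of_finiteIndex
  have hconj : ∀ s t : Gam0 (f ^ 2), (dconj f s)⁻¹ * dconj f t = dconj f (s⁻¹ * t) := by
    intro s t
    change (dconjHom f hf s)⁻¹ * dconjHom f hf t = dconjHom f hf (s⁻¹ * t)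
    rw [map_mul, map_inv]
  refine ⟨Gam0 (f ^ 2) ⧸ HeckeSub (f ^ 2) π, Fintype.ofFinite _, fexT (f ^ 2) π,
    ⟨fun x => (fexT (f ^ 2) π x).val, ?_, ?_⟩, ⟨fun x => dconj f (fexT (f ^ 2) π x), ?_, ?_⟩,
    fun x => rfl, fun x => rfl⟩
  · intro g
    obtain ⟨τ, hτ⟩ := fex_cover (f ^ 2) π hπ hN2 g
    exact ⟨QuotientGroup.mk τ, fex_trans (fexT_mk (f ^ 2) π τ) hτ⟩
  · intro x y h
    exact fexT_sep (f ^ 2) π x y h
  · intro g
    obtain ⟨τ, hτ⟩ := fex_coverD f π hπ hN g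
    refine ⟨QuotientGroup.mk τ, fex_trans ?_ hτ⟩
    rw [hconj, (dconj_spec f _).2.1]
    exact (fexT_mk (f ^ 2) π τ).mul_left _
  · intro x y h
    rw [hconj, (dconj_spec f _).2.1] at h
    exact fexT_sep (f ^ 2) π x y ((hπ.dvd_or_dvd h).resolve_left hN)

end SerreE
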