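import Pool.Agent.Serre.FRAME

/-! ### HECKEC (uses FRAME) -/

open Matrix
open scoped QuadraticAlgebra

namespace SerreE

section
variable {O : Type*} [CommRing O] [IsDomain O] {π : O} {X : Type} [Fintype X] (F : Frame π X)
variable {k : Type*} [Field k]

theorem heckeC_isCoc (hπ : π ≠ 0) (f : O) (ϖ : (O ⧸ Ideal.span {f})ˣ)
    (hϖ : (ϖ : O ⧸ Ideal.span {f}) = Ideal.Quotient.mk _ π)
    (χ : (Gi (O ⧸ Ideal.span {f}))ˣ →* kˣ)
    (C : GL (Fin 2) O → GL (Fin 2) (O ⧸ Ideal.span {f}) → k) (hC : IsCoc f χ C) :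
    IsCoc f χ (heckeC F f ϖ C) := by
  constructor
  · intro γ γ' y
    unfold heckeC
    have h1 : ∑ x, C (F.gam γ x) ((red f (F.s (F.act γ x)) * dgl ϖ)⁻¹ * y) =
        ∑ x, C (F.gam γ (F.act γ' x)) ((red f (F.s (F.act γ (F.act γ' x))) * dgl ϖ)⁻¹ * y) :=
      ((F.act_bijective hπ γ').sum_comp
        (fun x => C (F.gam γ x) ((red f (F.s (F.act γ x)) * dgl ϖ)⁻¹ * y))).symm
    rw [h1, ← Finset.sum_add_distrib]
    refine Finset.sum_congr rfl fun x _ => ?_
    rw [(F.act_mul hπ γ γ' x).1, (F.act_mul hπ γ γ' x).2, hC.coc]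
    congr 2
    have h2 := F.step_red ϖ hϖ (F.step_act hπ γ (F.act γ' x))
    rw [← mul_assoc, ← _root_.mul_inv_rev, ← h2, _root_.mul_inv_rev, mul_assoc]
  · intro u y
    unfold heckeC
    refine Finset.sum_eq_zero fun x _ => ?_
    rw [(F.act_sc hπ u x).2, hC.scal]
  · intro γ y t
    unfold heckeC
    rw [Finset.mul_sum]
    refine Finset.sum_congr rfl fun x _ => ?_
    rw [← mul_assoc, hC.equi]

end

end SerreE
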