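import Pool.Agent.Serre.SAPP

open Matrix
open scoped QuadraticAlgebra

namespace SerreE

section
variable {O : Type*} [CommRing O] {k : Type*} [Field k]

theorem IsCoc.one {f : O} {χ : (Gi (O ⧸ Ideal.span {f}))ˣ →* kˣ}
    {C : GL (Fin 2) O → GL (Fin 2) (O ⧸ Ideal.span {f}) → k} (hC : IsCoc f χ C)
    (y : GL (Fin 2) (O ⧸ Ideal.span {f})) : C 1 y = 0 := by
  have h := hC.scal 1 y
  have e : (sc (1 : Oˣ) : GL (Fin 2) O) = 1 := map_one _
  rwa [e] at h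

theorem IsCoc.equi_inv {f : O} {χ : (Gi (O ⧸ Ideal.span {f}))ˣ →* kˣ}
    {C : GL (Fin 2) O → GL (Fin 2) (O ⧸ Ideal.span {f}) → k} (hC : IsCoc f χ C)
    (γ : GL (Fin 2) O) (t : (Gi (O ⧸ Ideal.span {f}))ˣ) :
    C γ (iota t)⁻¹ = (χ t : k) * C γ 1 := by
  have h := hC.equi γ 1 t⁻¹
  rw [one_mul, map_inv, map_inv, inv_inv] at h
  exact h

/-- conjugating by `G`. -/
theorem IsCoc.conj {f : O} {χ : (Gi (O ⧸ Ideal.span {f}))ˣ →* kˣ}
    {C : GL (Fin 2) O → GL (Fin 2) (O ⧸ Ideal.span {f}) → k} (hC : IsCoc f χ C)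
    (γ G : GL (Fin 2) O) (hγ : red f γ = 1) (y : GL (Fin 2) (O ⧸ Ideal.span {f})) :
    C (G⁻¹ * (γ * G)) y = C γ (red f G * y) := by
  have h1 := hC.coc G⁻¹ (γ * G) y
  have h2 := hC.coc γ G ((red f G⁻¹)⁻¹ * y)
  have h3 := hC.coc G⁻¹ G y
  rw [inv_mul_cancel, hC.one] at h3
  rw [h2, hγ, inv_one, one_mul] at h1
  have e : (red f G⁻¹)⁻¹ = red f G := by rw [map_inv, inv_inv]
  rw [e] at h1 h3
  rw [h1]
  linear_combination -h3

end

section
variable {R : Type*} [CommRing R] {k : Type*} [Field k] [CharP k 2]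

/-- an element of norm one on which the character is not trivial. -/
theorem exists_norm_one (χ : (Gi R)ˣ →* kˣ) (hscal : ∀ u : Rˣ, χ (giC u) = 1)
    (t₀ : (Gi R)ˣ) (h0 : χ t₀ ≠ 1) :
    ∃ t : (Gi R)ˣ, Matrix.GeneralLinearGroup.det (iota t) = 1 ∧ χ t ≠ 1 ∧
      t = t₀ * (giStar t₀)⁻¹ := by
  refine ⟨t₀ * (giStar t₀)⁻¹, ?_, ?_, rfl⟩
  · have e : ∀ s : (Gi R)ˣ, Matrix.GeneralLinearGroup.det (iota s) =
        Units.map (QuadraticAlgebra.norm (R := R) (a := -1) (b := 0)) s := by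
      intro s
      apply Units.ext
      rw [Matrix.GeneralLinearGroup.val_det_apply, iota_val, Matrix.det_fin_two]
      simp [QuadraticAlgebra.norm_def]
    have e2 : Units.map (QuadraticAlgebra.norm (R := R) (a := -1) (b := 0)) (giStar t₀) =
        Units.map (QuadraticAlgebra.norm (R := R) (a := -1) (b := 0)) t₀ := by
      apply Units.ext
      exact QuadraticAlgebra.norm_star t₀.val
    rw [e, map_mul, map_inv, e2, mul_inv_cancel]
  · have e : t₀ * giStar t₀ =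
        giC (Units.map (QuadraticAlgebra.norm (R := R) (a := -1) (b := 0)) t₀) := by
      apply Units.ext
      exact (QuadraticAlgebra.algebraMap_norm_eq_mul_star t₀.val).symm
    have h1 : χ t₀ * χ (giStar t₀) = 1 := by rw [← map_mul, e, hscal]
    intro h2
    rw [map_mul, map_inv] at h2
    have h3 : χ (giStar t₀) = χ t₀ := by
      have := mul_inv_eq_one.mp h2
      exact this.symm
    rw [h3] at h1
    apply h0
    have h4 : ((χ t₀ : kˣ) : k) * ((χ t₀ : kˣ) : k) = 1 := by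
      have := congrArg Units.val h1
      simpa using this
    have h5 : (((χ t₀ : kˣ) : k) - 1) * (((χ t₀ : kˣ) : k) - 1) = 0 := by
      have h2' : (2 : k) = 0 := CharP.cast_eq_zero k 2
      linear_combination h4 - (((χ t₀ : kˣ) : k) - 1) * h2'
    have h6 : ((χ t₀ : kˣ) : k) - 1 = 0 := by
      rcases mul_eq_zero.mp h5 with h | h <;> exact h
    apply Units.ext
    rw [Units.val_one]
    linear_combination h6

end

section
variable {O : Type*} [CommRing O] [IsDomain O] [IsPrincipalIdealRing O]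
variable {k : Type*} [Field k] [CharP k 2]

omit [CharP k 2] in
theorem inj_step1 (f : O) (hf : f ≠ 0)
    (hV : PropV (O ⧸ Ideal.span {f}) k)
    (χ : (Gi (O ⧸ Ideal.span {f}))ˣ →* kˣ) (hscal : ∀ u, χ (giC u) = 1)
    (hprim : ∀ 𝔞 : Ideal (O ⧸ Ideal.span {f}), 𝔞 ≠ ⊥ →
      ∃ t : (Gi (O ⧸ Ideal.span {f}))ˣ, t.val.re - 1 ∈ 𝔞 ∧ t.val.im ∈ 𝔞 ∧ χ t ≠ 1)
    (C : GL (Fin 2) O → GL (Fin 2) (O ⧸ Ideal.span {f}) → k) (hC : IsCoc f χ C)
    (h0 : ∀ (a : GL (Fin 2) (O ⧸ Ideal.span {f})) (γ : GL (Fin 2) O),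
      f ∣ γ.val 0 1 → f ∣ γ.val 1 0 → ∑ᶠ r : (O ⧸ Ideal.span {f})ˣ, C γ (dg r * a) = 0)
    (γ : GL (Fin 2) O) (hγ : red f γ = 1) (y : GL (Fin 2) (O ⧸ Ideal.span {f})) :
    C γ y = 0 := by
  have key : C γ = 0 := by
    refine hV χ hscal hprim (C γ) (fun y t => hC.equi γ y t) ?_
    intro g a hg
    obtain ⟨G, -, hG⟩ := sapp f hf g hg
    have hred : red f (G⁻¹ * (γ * G)) = 1 := by
      rw [map_mul, map_mul, hγ, one_mul, map_inv, inv_mul_cancel]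
    have hoff : ∀ i j, i ≠ j → f ∣ (G⁻¹ * (γ * G)).val i j := by
      intro i j hij
      have h1 := congrArg (fun M : GL (Fin 2) (O ⧸ Ideal.span {f}) => M.val i j) hred
      simp only [Matrix.GeneralLinearGroup.map_apply, Units.val_one, Matrix.one_apply_ne hij] at h1
      rw [Ideal.Quotient.eq_zero_iff_mem, Ideal.mem_span_singleton] at h1
      exact h1
    have h2 := h0 a (G⁻¹ * (γ * G)) (hoff 0 1 (by decide)) (hoff 1 0 (by decide))
    rw [← h2]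
    apply finsum_congr
    intro r
    rw [hC.conj γ G hγ, hG, mul_assoc]
  rw [key]; rfl

theorem inj (f : O) (hf : f ≠ 0) [Finite (O ⧸ Ideal.span {f})]
    (hV : PropV (O ⧸ Ideal.span {f}) k)
    (χ : (Gi (O ⧸ Ideal.span {f}))ˣ →* kˣ) (hscal : ∀ u, χ (giC u) = 1)
    (hprim : ∀ 𝔞 : Ideal (O ⧸ Ideal.span {f}), 𝔞 ≠ ⊥ →
      ∃ t : (Gi (O ⧸ Ideal.span {f}))ˣ, t.val.re - 1 ∈ 𝔞 ∧ t.val.im ∈ 𝔞 ∧ χ t ≠ 1)
    (hne : χ ≠ 1)
    (C : GL (Fin 2) O → GL (Fin 2) (O ⧸ Ideal.span {f}) → k) (hC : IsCoc f χ C)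
    (h0 : ∀ (a : GL (Fin 2) (O ⧸ Ideal.span {f})) (γ : GL (Fin 2) O),
      f ∣ γ.val 0 1 → f ∣ γ.val 1 0 → ∑ᶠ r : (O ⧸ Ideal.span {f})ˣ, C γ (dg r * a) = 0)
    (u : GL (Fin 2) O) (t : (Gi (O ⧸ Ideal.span {f}))ˣ) (htu : iota t = red f u)
    (hχu : χ t = 1) : C u 1 = 0 := by
  have hdep : ∀ γ γ' : GL (Fin 2) O, red f γ = red f γ' → ∀ y, C γ' y = C γ y := by
    intro γ γ' h y
    have h1 := hC.coc γ (γ⁻¹ * γ') y
    rw [mul_inv_cancel_left] at h1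
    have h2 : red f (γ⁻¹ * γ') = 1 := by rw [map_mul, map_inv, h, inv_mul_cancel]
    rw [h1, inj_step1 f hf hV χ hscal hprim C hC h0 _ h2, add_zero]
  obtain ⟨t₀, ht₀⟩ : ∃ t₀, χ t₀ ≠ 1 := by
    by_contra hcon
    push Not at hcon
    exact hne (MonoidHom.ext hcon)
  obtain ⟨t₁, hdet, ht₁, -⟩ := exists_norm_one χ hscal t₀ ht₀
  obtain ⟨G, -, hG⟩ := sapp f hf (iota t₁) hdet
  have hcomm : red f (u * G) = red f (G * u) := by
    rw [map_mul, map_mul, hG, ← htu, ← map_mul, ← map_mul, mul_comm]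
  have e1 := hC.coc u G 1
  have e2 := hC.coc G u 1
  rw [mul_one, ← htu, hC.equi_inv, hχu, Units.val_one, one_mul] at e1
  rw [mul_one, hG, hC.equi_inv] at e2
  have e3 := hdep _ _ hcomm 1
  rw [e1, e2] at e3
  have e4 : (((χ t₁ : kˣ) : k) - 1) * C u 1 = 0 := by linear_combination e3
  rcases mul_eq_zero.mp e4 with h | h
  · exfalso
    apply ht₁
    apply Units.ext
    rw [Units.val_one]
    linear_combination h
  · exact h
end

end SerreE
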