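import Pool.Agent.Serre.Defs

open Matrix
open scoped QuadraticAlgebra

namespace SerreE

theorem E_norm_def (a : E) : a.norm = a.re ^ 2 + a.re * a.im + a.im ^ 2 := by
  rw [QuadraticAlgebra.norm_def]; ring

theorem E_norm_nonneg (a : E) : 0 ≤ a.norm := by
  rw [E_norm_def]; nlinarith [sq_nonneg (a.re + a.im), sq_nonneg a.re, sq_nonneg a.im]

theorem E_norm_eq_zero {a : E} : a.norm = 0 ↔ a = 0 := by
  constructor
  · intro h
    rw [E_norm_def] at h
    have h1 : a.re = 0 := by nlinarith [sq_nonneg (a.re + 2 * a.im), sq_nonneg a.re]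
    have h2 : a.im = 0 := by nlinarith [sq_nonneg (2 * a.re + a.im), sq_nonneg a.im]
    ext <;> simp [h1, h2]
  · rintro rfl; simp

theorem E_norm_pos {a : E} (h : a ≠ 0) : 0 < a.norm :=
  lt_of_le_of_ne (E_norm_nonneg a) (fun h' => h (E_norm_eq_zero.mp h'.symm))

theorem E_isUnit_iff {a : E} : IsUnit a ↔ a.norm = 1 := by
  rw [QuadraticAlgebra.isUnit_iff_norm_isUnit, Int.isUnit_iff]
  constructor
  · rintro (h | h)
    · exact h
    · have := E_norm_nonneg a; omega
  · intro h; exact Or.inl h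

instance instDomainE : IsDomain E := by
  have : Nontrivial E := inferInstance
  have : NoZeroDivisors E := ⟨by
    intro a b h
    have h1 : a.norm * b.norm = 0 := by rw [← map_mul, h]; simp
    rcases mul_eq_zero.mp h1 with h2 | h2
    · exact Or.inl (E_norm_eq_zero.mp h2)
    · exact Or.inr (E_norm_eq_zero.mp h2)⟩
  exact NoZeroDivisors.to_isDomain E

/-- the six units -/
theorem E_unit_cases (u : Eˣ) : ∃ n : ℕ, n < 6 ∧ u = omu ^ n := by
  have h : (u : E).norm = 1 := E_isUnit_iff.mp u.isUnit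
  rw [E_norm_def] at h
  have key : ∀ x y : ℤ, x ^ 2 + x * y + y ^ 2 = 1 →
      (x = 1 ∧ y = 0) ∨ (x = 0 ∧ y = 1) ∨ (x = -1 ∧ y = 1) ∨ (x = -1 ∧ y = 0) ∨
      (x = 0 ∧ y = -1) ∨ (x = 1 ∧ y = -1) := by
    intro x y h
    have hx1 : x ^ 2 ≤ 1 := by nlinarith [sq_nonneg (x + 2 * y)]
    have hy1 : y ^ 2 ≤ 1 := by nlinarith [sq_nonneg (2 * x + y)]
    have a1 : -1 ≤ x := by nlinarith
    have a2 : x ≤ 1 := by nlinarith
    have b1 : -1 ≤ y := by nlinarith
    have b2 : y ≤ 1 := by nlinarith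
    interval_cases x <;> interval_cases y <;> simp_all
  have hu : (u : E) = ⟨(u : E).re, (u : E).im⟩ := rfl
  rcases key _ _ h with h | h | h | h | h | h
  · refine ⟨0, by norm_num, Units.ext ?_⟩; rw [hu, h.1, h.2]; ext <;> simp [omu]
  · refine ⟨1, by norm_num, Units.ext ?_⟩; rw [hu, h.1, h.2]; ext <;> simp [omu]
  · refine ⟨2, by norm_num, Units.ext ?_⟩; rw [hu, h.1, h.2]; ext <;> simp [pow_succ, omu]
  · refine ⟨3, by norm_num, Units.ext ?_⟩; rw [hu, h.1, h.2]; ext <;> simp [pow_succ, omu]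
  · refine ⟨4, by norm_num, Units.ext ?_⟩; rw [hu, h.1, h.2]; ext <;> simp [pow_succ, omu]
  · refine ⟨5, by norm_num, Units.ext ?_⟩; rw [hu, h.1, h.2]; ext <;> simp [pow_succ, omu]

theorem E_tri (x y z : ℤ) (hx : 0 ≤ x) (hy : 0 ≤ y) (hz : 0 ≤ z) :
    3 * (x ^ 2 + x * y + y ^ 2) ≤ (x + y + z) ^ 2 ∨
    3 * (y ^ 2 + y * z + z ^ 2) ≤ (x + y + z) ^ 2 ∨
    3 * (x ^ 2 + x * z + z ^ 2) ≤ (x + y + z) ^ 2 := by
  have key : ∀ a b c : ℤ, 0 ≤ a → 0 ≤ b → a ≤ c → b ≤ c →
      3 * (a ^ 2 + a * b + b ^ 2) ≤ (a + b + c) ^ 2 := by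
    intro a b c ha hb hac hbc
    have h1 : a * a ≤ a * c := mul_le_mul_of_nonneg_left hac ha
    have h2 : b * b ≤ b * c := mul_le_mul_of_nonneg_left hbc hb
    have h3 : a * b ≤ c * c := mul_le_mul hac hbc hb (ha.trans hac)
    nlinarith
  rcases le_total x y with hxy | hxy <;> rcases le_total y z with hyz | hyz <;>
    rcases le_total x z with hxz | hxz
  · left; exact key x y z hx hy hxz hyz
  · left; exact key x y z hx hy (hxy.trans hyz) hyz
  · right; right
    have := key x z y hx hz hxy hyz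
    calc _ ≤ (x + z + y) ^ 2 := this
      _ = _ := by ring
  · right; right
    have := key x z y hx hz hxy hyz
    calc _ ≤ (x + z + y) ^ 2 := this
      _ = _ := by ring
  · left; exact key x y z hx hy hxz hyz
  · right; left
    have := key y z x hy hz hxy hxz
    calc _ ≤ (y + z + x) ^ 2 := this
      _ = _ := by ring
  · left; exact key x y z hx hy hxz (hxy.trans hxz)
  · right; left
    have := key y z x hy hz hxy hxz
    calc _ ≤ (y + z + x) ^ 2 := this
      _ = _ := by ring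

theorem E_round (x y N : ℤ) (hN : 0 < N) : ∃ s t : ℤ,
    3 * ((x - N * s) ^ 2 + (x - N * s) * (y - N * t) + (y - N * t) ^ 2) ≤ N ^ 2 := by
  set x0 := x % N with hx0
  set y0 := y % N with hy0
  have ex : x = N * (x / N) + x0 := (Int.mul_ediv_add_emod x N).symm
  have ey : y = N * (y / N) + y0 := (Int.mul_ediv_add_emod y N).symm
  have a0 : 0 ≤ x0 := Int.emod_nonneg _ hN.ne'
  have a1 : x0 < N := Int.emod_lt_of_pos _ hN
  have b0 : 0 ≤ y0 := Int.emod_nonneg _ hN.ne'
  have b1 : y0 < N := Int.emod_lt_of_pos _ hN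
  set X := x / N
  set Y := y / N
  rcases le_total (x0 + y0) N with h | h
  · rcases E_tri x0 y0 (N - x0 - y0) a0 b0 (by linarith) with h1 | h1 | h1
    · refine ⟨X, Y, ?_⟩
      rw [ex, ey]
      calc _ = 3 * (x0 ^ 2 + x0 * y0 + y0 ^ 2) := by ring
        _ ≤ _ := h1
        _ = _ := by ring
    · refine ⟨X + 1, Y, ?_⟩
      rw [ex, ey]
      calc _ = 3 * (y0 ^ 2 + y0 * (N - x0 - y0) + (N - x0 - y0) ^ 2) := by ring
        _ ≤ _ := h1
        _ = _ := by ring
    · refine ⟨X, Y + 1, ?_⟩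
      rw [ex, ey]
      calc _ = 3 * (x0 ^ 2 + x0 * (N - x0 - y0) + (N - x0 - y0) ^ 2) := by ring
        _ ≤ _ := h1
        _ = _ := by ring
  · rcases E_tri (N - x0) (N - y0) (x0 + y0 - N) (by linarith) (by linarith) (by linarith)
      with h1 | h1 | h1
    · refine ⟨X + 1, Y + 1, ?_⟩
      rw [ex, ey]
      calc _ = 3 * ((N - x0) ^ 2 + (N - x0) * (N - y0) + (N - y0) ^ 2) := by ring
        _ ≤ _ := h1
        _ = _ := by ring
    · refine ⟨X, Y + 1, ?_⟩
      rw [ex, ey]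
      calc _ = 3 * ((N - y0) ^ 2 + (N - y0) * (x0 + y0 - N) + (x0 + y0 - N) ^ 2) := by ring
        _ ≤ _ := h1
        _ = _ := by ring
    · refine ⟨X + 1, Y, ?_⟩
      rw [ex, ey]
      calc _ = 3 * ((N - x0) ^ 2 + (N - x0) * (x0 + y0 - N) + (x0 + y0 - N) ^ 2) := by ring
        _ ≤ _ := h1
        _ = _ := by ring

/-- Division with remainder, `|r|² ≤ |b|²/3`. -/
theorem E_div (a b : E) (hb : b ≠ 0) : ∃ q : E, 3 * (a - b * q).norm ≤ b.norm := by
  have hN := E_norm_pos hb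
  obtain ⟨s, t, hst⟩ := E_round (a * star b).re (a * star b).im b.norm hN
  refine ⟨⟨s, t⟩, ?_⟩
  have e1 : (a - b * ⟨s, t⟩).norm * b.norm =
      ((a * star b).re - b.norm * s) ^ 2 + ((a * star b).re - b.norm * s) *
        ((a * star b).im - b.norm * t) + ((a * star b).im - b.norm * t) ^ 2 := by
    simp only [E_norm_def, QuadraticAlgebra.re_sub, QuadraticAlgebra.im_sub,
      QuadraticAlgebra.re_mul, QuadraticAlgebra.im_mul, QuadraticAlgebra.re_star,
      QuadraticAlgebra.im_star]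
    ring
  have e2 : 3 * (a - b * ⟨s, t⟩).norm * b.norm ≤ b.norm * b.norm := by
    calc 3 * (a - b * ⟨s, t⟩).norm * b.norm = 3 * ((a - b * ⟨s, t⟩).norm * b.norm) := by ring
      _ ≤ b.norm ^ 2 := by rw [e1]; exact hst
      _ = b.norm * b.norm := by ring
  exact le_of_mul_le_mul_right e2 hN

instance instPIDE : IsPrincipalIdealRing E := by
  refine ⟨fun I => ?_⟩
  by_cases hI : I = ⊥
  · rw [hI]; infer_instance
  · obtain ⟨x, hx, hx0⟩ := Submodule.exists_mem_ne_zero_of_ne_bot hI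
    have hex : ∃ n : ℕ, ∃ b ∈ I, b ≠ 0 ∧ b.norm = (n : ℤ) :=
      ⟨x.norm.toNat, x, hx, hx0, (Int.toNat_of_nonneg (E_norm_nonneg x)).symm⟩
    classical
    obtain ⟨b, hb, hb0, hbn⟩ := Nat.find_spec hex
    have hmin := fun m => Nat.find_min (m := m) hex
    refine ⟨⟨b, ?_⟩⟩
    apply le_antisymm
    · intro a ha
      obtain ⟨q, hq⟩ := E_div a b hb0
      have hr : a - b * q ∈ I := I.sub_mem ha (I.mul_mem_right q hb)
      have hr0 : a - b * q = 0 := by
        by_contra hne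
        have hpos := E_norm_pos hne
        apply hmin (a - b * q).norm.toNat _
          ⟨a - b * q, hr, hne, (Int.toNat_of_nonneg (E_norm_nonneg _)).symm⟩
        have : (a - b * q).norm < b.norm := by linarith
        rw [hbn] at this
        have h2 := Int.toNat_of_nonneg (E_norm_nonneg (a - b * q))
        omega
      rw [Submodule.mem_span_singleton]
      exact ⟨q, by rw [smul_eq_mul, mul_comm]; exact (sub_eq_zero.mp hr0).symm⟩
    · rw [Submodule.span_singleton_le_iff_mem]; exact hb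

theorem E_finite_quot {f : E} (hf : f ≠ 0) : Finite (E ⧸ Ideal.span {f}) := by
  apply Ideal.finiteQuotientOfFreeOfNeBot
  rw [Ne, Ideal.span_singleton_eq_bot]
  exact hf

theorem E_two_dvd {a : E} : (2 : E) ∣ a ↔ (2 : ℤ) ∣ a.re ∧ (2 : ℤ) ∣ a.im := by
  constructor
  · rintro ⟨b, rfl⟩
    have h1 : (2 * b : E).re = 2 * b.re := by
      rw [two_mul, two_mul, QuadraticAlgebra.re_add]
    have h2 : (2 * b : E).im = 2 * b.im := by
      rw [two_mul, two_mul, QuadraticAlgebra.im_add]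
    rw [h1, h2]
    exact ⟨dvd_mul_right _ _, dvd_mul_right _ _⟩
  · rintro ⟨⟨x, hx⟩, ⟨y, hy⟩⟩
    refine ⟨⟨x, y⟩, ?_⟩
    rw [two_mul]
    ext
    · rw [QuadraticAlgebra.re_add, hx, two_mul]
    · rw [QuadraticAlgebra.im_add, hy, two_mul]

theorem E_two_prime : Prime (2 : E) := by
  have hev : ∀ a : E, (2 : ℤ) ∣ a.norm → (2 : E) ∣ a := by
    intro a h
    rw [E_two_dvd]
    rw [E_norm_def] at h
    have h3 : (a.re ^ 2 + a.re * a.im + a.im ^ 2) % 2 = 0 := Int.emod_eq_zero_of_dvd h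
    rcases Int.emod_two_eq_zero_or_one a.re with h1 | h1 <;>
      rcases Int.emod_two_eq_zero_or_one a.im with h2 | h2
    · exact ⟨Int.dvd_of_emod_eq_zero h1, Int.dvd_of_emod_eq_zero h2⟩
    all_goals
      exfalso
      simp [pow_two, Int.add_emod, Int.mul_emod, h1, h2] at h3
  have hn2 : (2 : E).norm = 4 := by
    rw [E_norm_def]
    have h1 : (2 : E).re = 2 := rfl
    have h2 : (2 : E).im = 0 := rfl
    rw [h1, h2]; norm_num
  refine ⟨?_, ?_, ?_⟩
  · intro h
    rw [← E_norm_eq_zero, hn2] at h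
    norm_num at h
  · intro h
    rw [E_isUnit_iff, hn2] at h
    norm_num at h
  · rintro a b ⟨c, hc⟩
    have h : a.norm * b.norm = 4 * c.norm := by rw [← map_mul, hc, map_mul, hn2]
    have h2 : (2 : ℤ) ∣ a.norm * b.norm := by rw [h]; exact ⟨2 * c.norm, by ring⟩
    rcases Int.prime_two.dvd_or_dvd h2 with h3 | h3
    · exact Or.inl (hev a h3)
    · exact Or.inr (hev b h3)

/-- the units of `E` fill up `(E/2)ˣ`. -/
theorem E_mod_two (a : E) (h : ¬ (2 : E) ∣ a) : ∃ u : Eˣ, (2 : E) ∣ a - u := by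
  rw [E_two_dvd] at h
  have hm : ∀ u : Eˣ, ((2 : ℤ) ∣ a.re - (u : E).re ∧ (2 : ℤ) ∣ a.im - (u : E).im) →
      (2 : E) ∣ a - u := by
    intro u hu
    rw [E_two_dvd, QuadraticAlgebra.re_sub, QuadraticAlgebra.im_sub]
    exact hu
  rcases Int.emod_two_eq_zero_or_one a.re with h1 | h1 <;>
    rcases Int.emod_two_eq_zero_or_one a.im with h2 | h2
  · exact absurd ⟨Int.dvd_of_emod_eq_zero h1, Int.dvd_of_emod_eq_zero h2⟩ h
  · refine ⟨omu, hm _ ?_⟩
    have e1 : (omu : E).re = 0 := rfl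
    have e2 : (omu : E).im = 1 := rfl
    rw [e1, e2]; omega
  · refine ⟨1, hm _ ?_⟩
    have e1 : ((1 : Eˣ) : E).re = 1 := rfl
    have e2 : ((1 : Eˣ) : E).im = 0 := rfl
    rw [e1, e2]; omega
  · refine ⟨omu⁻¹, hm _ ?_⟩
    have e1 : ((omu⁻¹ : Eˣ) : E).re = 1 := rfl
    have e2 : ((omu⁻¹ : Eˣ) : E).im = -1 := rfl
    rw [e1, e2]; omega

theorem int_sq_eq_three {n p : ℤ} (h : n ^ 2 = 3 * p ^ 2) : n = 0 := by
  by_contra hn
  have hp : p ≠ 0 := by
    rintro rfl
    apply hn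
    have : n ^ 2 = 0 := by rw [h]; norm_num
    exact pow_eq_zero_iff (two_ne_zero) |>.mp this
  have hirr : Irrational √(3 : ℕ) := Nat.prime_three.irrational_sqrt
  apply hirr
  refine ⟨|(n : ℚ)| / |(p : ℚ)|, ?_⟩
  have hpR : (0 : ℝ) < |(p : ℝ)| := abs_pos.mpr (by exact_mod_cast hp)
  have hh : (n : ℝ) ^ 2 = 3 * (p : ℝ) ^ 2 := by exact_mod_cast h
  symm
  push_cast
  rw [Real.sqrt_eq_iff_mul_self_eq (by norm_num) (by positivity)]
  rw [div_mul_div_comm, abs_mul_abs_self, abs_mul_abs_self]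
  have hp2 : (p : ℝ) * p ≠ 0 := by
    have : (p : ℝ) ≠ 0 := by exact_mod_cast hp
    positivity
  field_simp
  nlinarith

/-- `-1` is not a square in `E`, strong form. -/
theorem E_sq_add_sq {x y : E} (h : x ^ 2 + y ^ 2 = 0) : x = 0 ∧ y = 0 := by
  have hy : y = 0 := by
    by_contra hy
    have hn := E_norm_pos hy
    have h1 : (x * star y) ^ 2 + (y * star y) ^ 2 = 0 := by
      calc (x * star y) ^ 2 + (y * star y) ^ 2 = (x ^ 2 + y ^ 2) * (star y) ^ 2 := by ring
        _ = 0 := by rw [h, zero_mul]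
    have h2 : (y * star y) = ⟨y.norm, 0⟩ := by
      rw [E_norm_def]
      ext
      · simp only [QuadraticAlgebra.re_mul, QuadraticAlgebra.re_star, QuadraticAlgebra.im_star]
        ring
      · simp only [QuadraticAlgebra.im_mul, QuadraticAlgebra.re_star, QuadraticAlgebra.im_star]
        ring
    set c := x * star y with hc
    rw [h2] at h1
    have hre : c.re ^ 2 - c.im ^ 2 + y.norm ^ 2 = 0 := by
      have := congrArg QuadraticAlgebra.re h1
      simp only [pow_two, QuadraticAlgebra.re_add, QuadraticAlgebra.re_mul,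
        QuadraticAlgebra.re_zero] at this
      linarith
    have him : c.im * (2 * c.re + c.im) = 0 := by
      have := congrArg QuadraticAlgebra.im h1
      simp only [pow_two, QuadraticAlgebra.im_add, QuadraticAlgebra.im_mul,
        QuadraticAlgebra.im_zero] at this
      linarith
    rcases mul_eq_zero.mp him with h3 | h3
    · rw [h3] at hre
      nlinarith [sq_nonneg c.re]
    · have h4 : c.im = -2 * c.re := by linarith
      rw [h4] at hre
      have h5 : y.norm ^ 2 = 3 * c.re ^ 2 := by linarith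
      have := int_sq_eq_three h5
      omega
  refine ⟨?_, hy⟩
  rw [hy] at h
  have : x ^ 2 = 0 := by simpa using h
  exact pow_eq_zero_iff (two_ne_zero) |>.mp this

end SerreE
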