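import Pool.Agent.Serre.Basic

open Matrix
open scoped QuadraticAlgebra

namespace SerreE

section borel

variable {k : Type*} [Field k] [CharP k 2]

/-- primitive of a function on the integers -/
theorem bor_prim (g : ℤ → k) : ∃ G : ℤ → k, G 0 = 0 ∧ ∀ x, G x + G (x + 1) = g x := by
  refine ⟨fun x => if 0 ≤ x then ∑ j ∈ Finset.range x.toNat, g j
    else ∑ j ∈ Finset.range (-x).toNat, g (-1 - j), by simp, ?_⟩
  intro x
  dsimp only
  rcases lt_trichotomy x (-1) with h | h | h
  · rw [if_neg (by omega), if_neg (by omega)]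
    obtain ⟨m, hm⟩ : ∃ m : ℕ, x = -(m : ℤ) - 2 := ⟨(-x - 2).toNat, by omega⟩
    have h1 : (-x).toNat = m + 2 := by omega
    have h2 : (-(x + 1)).toNat = m + 1 := by omega
    rw [h1, h2, Finset.sum_range_succ, add_right_comm, CharTwo.add_self_eq_zero, zero_add]
    congr 1
    push_cast
    omega
  · subst h
    simp
  · rw [if_pos (by omega), if_pos (by omega)]
    obtain ⟨m, hm⟩ : ∃ m : ℕ, x = m := ⟨x.toNat, by omega⟩
    subst hm
    have h1 : ((m : ℤ)).toNat = m := by omega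
    have h2 : ((m : ℤ) + 1).toNat = m + 1 := by omega
    rw [h1, h2, Finset.sum_range_succ, ← add_assoc, CharTwo.add_self_eq_zero, zero_add]

/-- potential on the square lattice -/
theorem bor_square (s1 s2 : ℤ → ℤ → k)
    (h : ∀ x y, s1 x y + s2 (x + 1) y = s2 x y + s1 x (y + 1)) :
    ∃ q : ℤ → ℤ → k, (∀ x y, q x y + q (x + 1) y = s1 x y) ∧
      (∀ x y, q x y + q x (y + 1) = s2 x y) := by
  obtain ⟨Q, -, hQ⟩ := bor_prim (fun x => s1 x 0)
  choose R hR0 hR using fun x : ℤ => bor_prim (fun y => s2 x y)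
  refine ⟨fun x y => Q x + R x y, ?_, ?_⟩
  · intro x y
    have key : ∀ y : ℤ, (Q x + R x y) + (Q (x + 1) + R (x + 1) y) + s1 x y = 0 := by
      intro y
      have hstep : ∀ y : ℤ, ((Q x + R x y) + (Q (x + 1) + R (x + 1) y) + s1 x y) =
          ((Q x + R x (y + 1)) + (Q (x + 1) + R (x + 1) (y + 1)) + s1 x (y + 1)) := by
        intro y
        have e1 := hR x y
        have e2 := hR (x + 1) y
        have e3 := h x y
        have d : ∀ z : k, z + z = 0 := CharTwo.add_self_eq_zero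
        linear_combination e1 + e2 + e3 - d (R x (y + 1)) - d (R (x + 1) (y + 1)) +
          d (s2 x y)
      induction y using Int.induction_on with
      | zero =>
        have e := hQ x
        rw [hR0, hR0]
        linear_combination e + CharTwo.add_self_eq_zero (s1 x 0)
      | succ i hi => rw [← hstep]; exact hi
      | pred i hi =>
        rw [hstep]
        have : -(i : ℤ) - 1 + 1 = -i := by ring
        rw [this]
        exact hi
    have e := key y
    have d : s1 x y + s1 x y = 0 := CharTwo.add_self_eq_zero _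
    linear_combination e - d
  · intro x y
    have e := hR x y
    have d : Q x + Q x = 0 := CharTwo.add_self_eq_zero _
    linear_combination e + d

theorem omu_pow_six : omu ^ 6 = 1 := by
  apply Units.ext
  ext <;> simp [omu, pow_succ]

theorem omu_val_pow_two : (omu : E) ^ 2 = omu - 1 := by
  ext <;> simp [omu, pow_succ]

theorem omu_pow_three : omu ^ 3 = -1 := by
  apply Units.ext
  ext <;> simp [omu, pow_succ]

theorem omu_pow_inj {m n : ℕ} (h : omu ^ m = omu ^ n) : m % 6 = n % 6 := by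
  have hm : omu ^ m = omu ^ (m % 6) := by
    conv_lhs => rw [← Nat.div_add_mod m 6, pow_add, pow_mul, omu_pow_six, one_pow, one_mul]
  have hn : omu ^ n = omu ^ (n % 6) := by
    conv_lhs => rw [← Nat.div_add_mod n 6, pow_add, pow_mul, omu_pow_six, one_pow, one_mul]
  rw [hm, hn] at h
  have h1 : m % 6 < 6 := Nat.mod_lt _ (by norm_num)
  have h2 : n % 6 < 6 := Nat.mod_lt _ (by norm_num)
  generalize m % 6 = a at *
  generalize n % 6 = b at *
  have h3 := congrArg (fun z : Eˣ => (z : E)) h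
  interval_cases a <;> interval_cases b <;> first | rfl | (exfalso; simp [omu, pow_succ, QuadraticAlgebra.ext_iff] at h3)

/-- potential on a cycle of six units -/
theorem bor_cycle (hc : Eˣ → k) (h2 : ∀ u, ∑ n ∈ Finset.range 6, hc (u * omu ^ n) = 0) :
    ∃ p : Eˣ → k, ∀ u, p u + p (u * omu) = hc u := by
  set S : ℕ → k := fun n => ∑ j ∈ Finset.range n, hc (omu ^ j) with hS
  have hS6 : ∀ n, S (n + 6) = S n := by
    intro n
    rw [hS]
    simp only
    rw [Finset.sum_range_add]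
    have := h2 (omu ^ n)
    simp only [← pow_add] at this
    rw [this, add_zero]
  have hSm : ∀ q n, S (n + 6 * q) = S n := by
    intro q n
    induction q with
    | zero => simp
    | succ q ih =>
      rw [Nat.mul_succ, ← add_assoc, hS6, ih]
  have hSmod : ∀ n, S n = S (n % 6) := by
    intro n
    conv_lhs => rw [← Nat.mod_add_div n 6]
    exact hSm _ _
  have hex : ∀ u : Eˣ, ∃ n : ℕ, u = omu ^ n := fun u => by
    obtain ⟨n, -, hn⟩ := E_unit_cases u
    exact ⟨n, hn⟩
  choose N hN using hex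
  refine ⟨fun u => S (N u), ?_⟩
  intro u
  have h1 : omu ^ (N (u * omu)) = omu ^ (N u + 1) := by
    rw [← hN (u * omu), pow_succ, ← hN u]
  have h3 : S (N (u * omu)) = S (N u + 1) := by
    rw [hSmod, omu_pow_inj h1, ← hSmod]
  dsimp only
  rw [h3]
  have h4 : S (N u + 1) = S (N u) + hc (omu ^ N u) := by
    rw [hS]
    simp only
    rw [Finset.sum_range_succ]
  rw [h4, ← add_assoc, CharTwo.add_self_eq_zero, zero_add, ← hN u]

/-- the problem for darts of the triangular lattice -/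
theorem bor_dart (hm hc : Eˣ → E → k) (h1 : ∀ u t, hm u t + hm (-u) (t + u) = 0)
    (h2 : ∀ u t, ∑ n ∈ Finset.range 6, hc (u * omu ^ n) t = 0)
    (h3 : ∀ (u u1 u2 : Eˣ) (t t1 t2 : E), u1 = -u * omu⁻¹ → u2 = -u1 * omu⁻¹ → t1 = t + u →
      t2 = t1 + u1 →
      hm u t + hc u1 t1 + (hm u1 t1 + hc u2 t2) + (hm u2 t2 + hc u t) = 0) :
    ∃ a : Eˣ → E → k, (∀ u t, a u t + a (-u) (t + u) = hm u t) ∧
      (∀ u t, a u t + a (u * omu) t = hc u t) := by
  have d : ∀ z : k, z + z = 0 := CharTwo.add_self_eq_zero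
  choose p hp using fun t : E => bor_cycle (fun u => hc u t) (fun u => h2 u t)
  set σ : Eˣ → E → k := fun u t => p t u + p (t + u) (-u) + hm u t with hσ
  have hsymm : ∀ u t, σ (-u) (t + u) = σ u t := by
    intro u t
    have e := h1 u t
    simp only [hσ]
    have e1 : t + (u : E) + ((-u : Eˣ) : E) = t := by push_cast; ring
    rw [e1, neg_neg]
    linear_combination e - d (hm u t)
  have htri : ∀ (u u1 u2 : Eˣ) (t t1 t2 : E), u1 = -u * omu⁻¹ → u2 = -u1 * omu⁻¹ → t1 = t + u →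
      t2 = t1 + u1 → u = -u2 * omu⁻¹ → t = t2 + u2 → σ u t + σ u1 t1 + σ u2 t2 = 0 := by
    intro u u1 u2 t t1 t2 hu1 hu2 ht1 ht2 hu ht
    have e := h3 u u1 u2 t t1 t2 hu1 hu2 ht1 ht2
    have g1 : -u = u1 * omu := by rw [hu1]; group
    have g2 : -u1 = u2 * omu := by rw [hu2]; group
    have g3 : -u2 = u * omu := by rw [hu]; group
    have p1 := hp t1 u1
    have p2 := hp t2 u2
    have p3 := hp t u
    simp only [hσ]
    rw [← ht1, ← ht2, ← ht, g1, g2, g3]
    linear_combination e + p1 + p2 + p3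
  -- the first kind of triangle
  have hT : ∀ u : Eˣ, ∀ t : E, σ u t + σ (u * omu ^ 2) (t + u) + σ (u * omu) t = 0 := by
    intro u t
    have hval3 : (omu : E) ^ 3 = -1 := by
      have := congrArg (fun z : Eˣ => (z : E)) omu_pow_three
      simpa using this
    have e1 : u * omu ^ 2 = -u * omu⁻¹ := by
      rw [eq_mul_inv_iff_mul_eq, mul_assoc, ← pow_succ, omu_pow_three]; simp
    have e2 : -(u * omu) = -(u * omu ^ 2) * omu⁻¹ := by
      rw [eq_mul_inv_iff_mul_eq, pow_two]; simp [mul_assoc]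
    have e3 : u = -(-(u * omu)) * omu⁻¹ := by
      rw [eq_mul_inv_iff_mul_eq]; simp
    have e4 : t + (u : E) + ((u * omu ^ 2 : Eˣ) : E) = t + (u * omu : Eˣ) := by
      push_cast
      rw [omu_val_pow_two]
      ring
    have e := htri u (u * omu ^ 2) (-(u * omu)) t (t + u) (t + (u * omu : Eˣ)) e1 e2 rfl e4.symm
      e3 (by push_cast; ring)
    rw [hsymm (u * omu) t] at e
    exact e
  obtain ⟨q, hq1, hq2⟩ := bor_square (fun x y => σ 1 ⟨x, y⟩) (fun x y => σ omu ⟨x, y⟩) (by
    intro x y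
    have e1 := hT 1 ⟨x, y⟩
    have e2 := hT (-1) ⟨x + 1, y + 1⟩
    have f1 : (⟨x + 1, y + 1⟩ : E) = ⟨x, y + 1⟩ + ((1 : Eˣ) : E) := by
      ext <;> simp
    have f2 : (⟨x + 1, y + 1⟩ : E) = ⟨x + 1, y⟩ + ((omu : Eˣ) : E) := by
      ext <;> simp [omu]
    have f3 : (⟨x + 1, y + 1⟩ : E) + ((-1 : Eˣ) : E) = ⟨x + 1, y⟩ + ((omu ^ 2 : Eˣ) : E) := by
      ext <;> simp [omu, pow_succ]
    have f4 : (⟨x, y⟩ : E) + ((1 : Eˣ) : E) = ⟨x + 1, y⟩ := by
      ext <;> simp
    have s1 : σ (-1) ⟨x + 1, y + 1⟩ = σ 1 ⟨x, y + 1⟩ := by rw [f1, hsymm]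
    have s2 : σ (-1 * omu) ⟨x + 1, y + 1⟩ = σ omu ⟨x + 1, y⟩ := by
      rw [f2, neg_one_mul, hsymm]
    have s3 : σ (-1 * omu ^ 2) (⟨x + 1, y + 1⟩ + ((-1 : Eˣ) : E)) = σ (omu ^ 2) ⟨x + 1, y⟩ := by
      rw [f3, neg_one_mul, hsymm]
    rw [s1, s2, s3] at e2
    rw [f4, one_mul, one_mul] at e1
    linear_combination e1 + e2 - d (σ (omu ^ 2) ⟨x + 1, y⟩) - d (σ 1 ⟨x, y + 1⟩) -
      d (σ omu ⟨x, y⟩))
  set Q : E → k := fun t => q t.re t.im with hQ
  have hE : ∀ t : E, (⟨t.re, t.im⟩ : E) = t := fun t => rfl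
  have hQ1 : ∀ t : E, Q t + Q (t + 1) = σ 1 t := by
    intro t
    have e := hq1 t.re t.im
    have f : (t + 1 : E).re = t.re + 1 ∧ (t + 1 : E).im = t.im := by simp
    simp only [hQ]
    rw [f.1, f.2]
    exact e
  have hQ2 : ∀ t : E, Q t + Q (t + omu) = σ omu t := by
    intro t
    have e := hq2 t.re t.im
    have f : (t + (omu : E)).re = t.re ∧ (t + (omu : E)).im = t.im + 1 := by simp [omu]
    simp only [hQ]
    rw [f.1, f.2]
    exact e
  have hQ3 : ∀ t : E, Q t + Q (t + (omu ^ 2 : Eˣ)) = σ (omu ^ 2) t := by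
    intro t
    have e := hT 1 (t - 1)
    have a1 := hQ1 (t - 1)
    have a2 := hQ2 (t - 1)
    have f1 : t - 1 + ((1 : Eˣ) : E) = t := by push_cast; ring
    have f2 : t - 1 + (omu : E) = t + (omu ^ 2 : Eˣ) := by
      push_cast
      rw [omu_val_pow_two]; ring
    rw [f1, one_mul, one_mul] at e
    rw [sub_add_cancel] at a1
    rw [f2] at a2
    linear_combination a1 + a2 + e - d (Q (t - 1)) - d (σ (omu ^ 2) t)
  have hQneg : ∀ (u : Eˣ), (∀ t : E, Q t + Q (t + u) = σ u t) →
      ∀ t : E, Q t + Q (t + ((-u : Eˣ) : E)) = σ (-u) t := by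
    intro u hu t
    have e := hu (t - u)
    have s := hsymm u (t - u)
    rw [sub_add_cancel] at e s
    rw [s, ← e]
    push_cast
    rw [← sub_eq_add_neg]
    ring
  have hQall : ∀ (u : Eˣ) (t : E), Q t + Q (t + u) = σ u t := by
    intro u
    obtain ⟨n, hn, rfl⟩ := E_unit_cases u
    have h3 : omu ^ 3 = -1 := omu_pow_three
    interval_cases n
    · intro t; simpa using hQ1 t
    · intro t; simpa using hQ2 t
    · exact hQ3
    · have : omu ^ 3 = -(1 : Eˣ) := h3
      rw [this]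
      exact hQneg 1 (fun t => by simpa using hQ1 t)
    · have : omu ^ 4 = -omu := by rw [pow_succ, h3]; simp
      rw [this]
      exact hQneg omu hQ2
    · have : omu ^ 5 = -(omu ^ 2) := by
        have : omu ^ 5 = omu ^ 3 * omu ^ 2 := by rw [← pow_add]
        rw [this, h3]; simp
      rw [this]
      exact hQneg _ hQ3
  refine ⟨fun u t => p t u + Q t, ?_, ?_⟩
  · intro u t
    have e := hQall u t
    simp only [hσ] at e
    linear_combination e + d (p t u) + d (p (t + u) (-u))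
  · intro u t
    have e := hp t u
    linear_combination e + d (Q t)

/-- the matrix `[[u, t], [0, 1]]` -/
def bb (u : Eˣ) (t : E) : GL (Fin 2) E := mk2 (u : E) t 0 1 u (by simp)

theorem bb_cc (u : Eˣ) (t : E) : bb u t * cc = bb (u * omu) t := by
  apply Matrix.GeneralLinearGroup.ext
  intro i j
  fin_cases i <;> fin_cases j <;> simp [bb, cc, dgl, Matrix.mul_apply, Fin.sum_univ_two]

theorem bb_mm (u : Eˣ) (t : E) : bb u t * mm = bb (-u) (t + u) := by
  apply Matrix.GeneralLinearGroup.ext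
  intro i j
  fin_cases i <;> fin_cases j <;> simp [bb, mm, Matrix.mul_apply, Fin.sum_univ_two, add_comm]

theorem bb_cc_pow (u : Eˣ) (t : E) (n : ℕ) : bb u t * cc ^ n = bb (u * omu ^ n) t := by
  induction n with
  | zero => simp
  | succ n ih => rw [pow_succ, ← mul_assoc, ih, bb_cc, mul_assoc, ← pow_succ]

theorem bb_x (u : Eˣ) (t : E) : bb u t * (mm * cc⁻¹) = bb (-u * omu⁻¹) (t + u) := by
  rw [← mul_assoc, bb_mm, mul_inv_eq_iff_eq_mul, bb_cc]
  simp

theorem bor_sc_comm (A : GL (Fin 2) E) (u : Eˣ) : sc u * A = A * sc u := by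
  apply Matrix.GeneralLinearGroup.ext
  intro i j
  fin_cases i <;> fin_cases j <;>
    simp [Matrix.mul_apply, Fin.sum_univ_two, mul_comm]

theorem sc_bb_inj {v v' u u' : Eˣ} {t t' : E} (h : sc v * bb u t = sc v' * bb u' t') :
    v = v' ∧ u = u' ∧ t = t' := by
  have h0 := fun i j => congrArg (fun M : GL (Fin 2) E => M.val i j) h
  have h11 : (v : E) = v' := by
    have := h0 1 1
    simpa [bb, Matrix.mul_apply, Fin.sum_univ_two] using this
  have h00 : (v : E) * u = v' * u' := by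
    have := h0 0 0
    simpa [bb, Matrix.mul_apply, Fin.sum_univ_two] using this
  have h01 : (v : E) * t = v' * t' := by
    have := h0 0 1
    simpa [bb, Matrix.mul_apply, Fin.sum_univ_two] using this
  have hv : v = v' := Units.ext h11
  subst hv
  refine ⟨rfl, Units.ext ?_, ?_⟩
  · exact (Units.mul_right_inj v).1 h00
  · exact (Units.mul_right_inj v).1 h01

theorem exists_sc_bb (M : GL (Fin 2) E) (hM : M ∈ Gam0 (0 : E)) :
    ∃ (v u : Eˣ) (t : E), M = sc v * bb u t := by
  have h10 : M.val 1 0 = 0 := zero_dvd_iff.1 (mem_Gam0.1 hM)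
  have hdet : M.val 0 0 * M.val 1 1 = (Matrix.GeneralLinearGroup.det M : Eˣ) := by
    rw [Matrix.GeneralLinearGroup.val_det_apply, Matrix.det_fin_two, h10, mul_zero, sub_zero]
  have hu := (Matrix.GeneralLinearGroup.det M).isUnit
  rw [← hdet] at hu
  obtain ⟨⟨a, ha⟩, ⟨v, hv⟩⟩ := IsUnit.mul_iff.1 hu
  refine ⟨v, v⁻¹ * a, (v⁻¹ : Eˣ) * M.val 0 1, ?_⟩
  apply Matrix.GeneralLinearGroup.ext
  intro i j
  fin_cases i <;> fin_cases j <;>
    simp [bb, Matrix.mul_apply, Fin.sum_univ_two, ← ha, ← hv, h10]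

theorem bor_mem_sc (v : Eˣ) : sc v ∈ Gam0 (0 : E) := by
  rw [mem_Gam0]; simp

theorem bor_mem_mm : mm ∈ Gam0 (0 : E) := by
  rw [mem_Gam0]; simp [mm]

theorem bor_mem_cc : cc ∈ Gam0 (0 : E) := by
  rw [mem_Gam0]; simp [cc, dgl]

theorem borel (Hm Hc : GL (Fin 2) E → k)
    (sm : ∀ A (u : Eˣ), Hm (A * sc u) = Hm A) (sC : ∀ A (u : Eˣ), Hc (A * sc u) = Hc A)
    (h1 : ∀ A, Hm A + Hm (A * mm) = 0)
    (h2 : ∀ A, ∑ n ∈ Finset.range 6, Hc (A * cc ^ n) = 0)
    (h3 : ∀ A, ∑ n ∈ Finset.range 3,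
      (Hm (A * (mm * cc⁻¹) ^ n) + Hc (A * (mm * cc⁻¹) ^ (n + 1))) = 0) :
    ∃ a : GL (Fin 2) E → k, (∀ A (u : Eˣ), a (A * sc u) = a A) ∧
      (∀ A, a A + a (A * mm) = Hm A) ∧ (∀ A, a A + a (A * cc) = Hc A) := by
  have hsol : ∀ r : GL (Fin 2) E, ∃ a : Eˣ → E → k,
      (∀ u t, a u t + a (-u) (t + u) = Hm (r * bb u t)) ∧
      (∀ u t, a u t + a (u * omu) t = Hc (r * bb u t)) := by
    intro r
    refine bor_dart (fun u t => Hm (r * bb u t)) (fun u t => Hc (r * bb u t)) ?_ ?_ ?_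
    · intro u t
      have e := h1 (r * bb u t)
      rw [mul_assoc, bb_mm] at e
      exact e
    · intro u t
      have e := h2 (r * bb u t)
      simp only [mul_assoc, bb_cc_pow] at e
      exact e
    · intro u u1 u2 t t1 t2 hu1 hu2 ht1 ht2
      have e := h3 (r * bb u t)
      have x1 : bb u t * (mm * cc⁻¹) = bb u1 t1 := by rw [bb_x, hu1, ht1]
      have x2 : bb u1 t1 * (mm * cc⁻¹) = bb u2 t2 := by rw [bb_x, hu2, ht2]
      have x3 : bb u2 t2 * (mm * cc⁻¹) = bb u t := by
        rw [bb_x]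
        have g1 : -u2 * omu⁻¹ = u := by
          rw [mul_inv_eq_iff_eq_mul, hu2, hu1]
          have h6 := omu_pow_three
          have : u * omu = -(-(-u * omu⁻¹) * omu⁻¹) ↔ u * omu * omu * omu = -u := by
            constructor
            · intro h
              have : u * omu * omu * omu = -(-(-u * omu⁻¹) * omu⁻¹) * omu * omu := by rw [← h]
              rw [this]; simp [mul_assoc]
            · intro h
              have h7 : u * omu = -u * omu⁻¹ * omu⁻¹ := by
                rw [← h]; simp [mul_assoc]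
              rw [h7]; simp [mul_assoc]
          rw [eq_comm, this, mul_assoc, mul_assoc, ← pow_two, ← pow_succ', h6]; simp
        have g2 : t2 + (u2 : E) = t := by
          have i1 : (omu : E) * (omu⁻¹ : Eˣ) = 1 := by simp
          have i2 := omu_val_pow_two
          have i3 : ((omu⁻¹ : Eˣ) : E) = 1 - omu := by
            ext <;> simp [omu]
          rw [ht2, ht1, hu2, hu1]
          push_cast
          rw [i3]
          linear_combination (u : E) * i2
        rw [g1, g2]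
      have e0 : r * bb u t * (mm * cc⁻¹) ^ 0 = r * bb u t := by simp
      have e1 : r * bb u t * (mm * cc⁻¹) ^ 1 = r * bb u1 t1 := by
        rw [pow_one, mul_assoc, x1]
      have e2 : r * bb u t * (mm * cc⁻¹) ^ 2 = r * bb u2 t2 := by
        rw [pow_succ, ← mul_assoc, e1, mul_assoc, x2]
      have e3 : r * bb u t * (mm * cc⁻¹) ^ 3 = r * bb u t := by
        rw [pow_succ, ← mul_assoc, e2, mul_assoc, x3]
      rw [Finset.sum_range_succ, Finset.sum_range_succ, Finset.sum_range_succ,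
        Finset.sum_range_zero, zero_add] at e
      simp only [Nat.zero_add, Nat.reduceAdd] at e
      rw [e0, e1, e2, e3] at e
      exact e
  choose sol hsolm hsolc using hsol
  set rr : GL (Fin 2) E → GL (Fin 2) E := fun A =>
    Quotient.out (QuotientGroup.mk A : GL (Fin 2) E ⧸ Gam0 (0 : E)) with hrr
  have hrmul : ∀ A M, M ∈ Gam0 (0 : E) → rr (A * M) = rr A := by
    intro A M hM
    simp only [hrr]
    rw [QuotientGroup.mk_mul_of_mem A hM]
  have hdec : ∀ A : GL (Fin 2) E, ∃ (v u : Eˣ) (t : E), A = rr A * (sc v * bb u t) := by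
    intro A
    obtain ⟨h, hh⟩ := QuotientGroup.mk_out_eq_mul (Gam0 (0 : E)) A
    obtain ⟨v, u, t, hM⟩ := exists_sc_bb ((h : GL (Fin 2) E)⁻¹) ((Gam0 (0 : E)).inv_mem h.2)
    refine ⟨v, u, t, ?_⟩
    rw [← hM]
    have : rr A = A * h := hh
    rw [this, mul_inv_cancel_right]
  choose V U T hVUT using hdec
  have haeq : ∀ (A : GL (Fin 2) E) (v u : Eˣ) (t : E), A = rr A * (sc v * bb u t) →
      U A = u ∧ T A = t := by
    intro A v u t h
    have h4 : rr A * (sc v * bb u t) = rr A * (sc (V A) * bb (U A) (T A)) := by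
      rw [← h, ← hVUT A]
    have h5 := mul_left_cancel h4
    obtain ⟨-, h6, h7⟩ := sc_bb_inj h5
    exact ⟨h6.symm, h7.symm⟩
  refine ⟨fun A => sol (rr A) (U A) (T A), ?_, ?_, ?_⟩
  · intro A w
    have hr := hrmul A (sc w) (bor_mem_sc w)
    have h4 := haeq (A * sc w) (V A * w) (U A) (T A) (by
      rw [hr]
      conv_lhs => rw [hVUT A]
      rw [mul_assoc, mul_assoc, ← bor_sc_comm, ← mul_assoc (sc (V A)), ← map_mul])
    dsimp only
    rw [hr, h4.1, h4.2]
  · intro A
    have hr := hrmul A mm bor_mem_mm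
    have h4 := haeq (A * mm) (V A) (-(U A)) (T A + U A) (by
      rw [hr]
      conv_lhs => rw [hVUT A]
      rw [mul_assoc, mul_assoc, bb_mm])
    dsimp only
    rw [hr, h4.1, h4.2, hsolm]
    conv_rhs => rw [hVUT A]
    rw [bor_sc_comm, ← mul_assoc, sm]
  · intro A
    have hr := hrmul A cc bor_mem_cc
    have h4 := haeq (A * cc) (V A) (U A * omu) (T A) (by
      rw [hr]
      conv_lhs => rw [hVUT A]
      rw [mul_assoc, mul_assoc, bb_cc])
    dsimp only
    rw [hr, h4.1, h4.2, hsolc]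
    conv_rhs => rw [hVUT A]
    rw [bor_sc_comm, ← mul_assoc, sC]

end borel

end SerreE
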