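import Pool.Agent.Serre.Basic

/-! # GEN: the group `GL₂(E)` is generated by `w`, `m`, `c` and the scalars -/

open Matrix
open scoped QuadraticAlgebra

namespace SerreE

section genaux

theorem gen_up_val (x : E) : (up x : GL (Fin 2) E).val = !![1, x; 0, 1] := rfl

theorem gen_dgl_val (u : Eˣ) : (dgl u : GL (Fin 2) E).val = !![(u : E), 0; 0, 1] := rfl

theorem gen_up_add (x y : E) : (up x : GL (Fin 2) E) * up y = up (x + y) := by
  apply Units.ext
  rw [Units.val_mul, gen_up_val, gen_up_val, gen_up_val]
  refine Matrix.ext fun i j => ?_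
  fin_cases i <;> fin_cases j <;> simp [Matrix.mul_apply, Fin.sum_univ_two, add_comm]

theorem gen_up_zero : (up 0 : GL (Fin 2) E) = 1 := by
  apply Units.ext
  rw [gen_up_val]
  refine Matrix.ext fun i j => ?_
  fin_cases i <;> fin_cases j <;> simp

theorem gen_dgl_mul (u v : Eˣ) : (dgl u : GL (Fin 2) E) * dgl v = dgl (u * v) := by
  apply Units.ext
  rw [Units.val_mul, gen_dgl_val, gen_dgl_val, gen_dgl_val]
  refine Matrix.ext fun i j => ?_
  fin_cases i <;> fin_cases j <;> simp [Matrix.mul_apply, Fin.sum_univ_two]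

theorem gen_dgl_one : (dgl 1 : GL (Fin 2) E) = 1 := by
  apply Units.ext
  rw [gen_dgl_val]
  refine Matrix.ext fun i j => ?_
  fin_cases i <;> fin_cases j <;> simp

theorem gen_dgl_pow (u : Eˣ) (n : ℕ) : (dgl (u ^ n) : GL (Fin 2) E) = dgl u ^ n := by
  induction n with
  | zero => rw [pow_zero, pow_zero, gen_dgl_one]
  | succ n ih => rw [pow_succ, pow_succ, ← gen_dgl_mul, ih]

theorem gen_dgl_up (u : Eˣ) (x : E) :
    (dgl u : GL (Fin 2) E) * up x = up (u * x) * dgl u := by
  apply Units.ext
  rw [Units.val_mul, Units.val_mul, gen_dgl_val, gen_up_val, gen_up_val]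
  refine Matrix.ext fun i j => ?_
  fin_cases i <;> fin_cases j <;> simp [Matrix.mul_apply, Fin.sum_univ_two]

theorem gen_cc_mm : cc ^ 3 * mm = (up (-1) : GL (Fin 2) E) := by
  have h : cc ^ 3 = (dgl (omu ^ 3) : GL (Fin 2) E) := (gen_dgl_pow omu 3).symm
  have hom : ((omu ^ 3 : Eˣ) : E) = -1 := by
    ext <;> simp [pow_succ, omu]
  rw [h]
  apply Units.ext
  rw [Units.val_mul, gen_dgl_val, gen_up_val, hom]
  refine Matrix.ext fun i j => ?_
  fin_cases i <;> fin_cases j <;> simp [Matrix.mul_apply, Fin.sum_univ_two, mm]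

end genaux

theorem gen_const {X : Type*} (F : GL (Fin 2) E → X) (hs : ∀ A (u : Eˣ), F (A * sc u) = F A)
    (hw : ∀ A, F (A * w0) = F A) (hm : ∀ A, F (A * mm) = F A) (hc : ∀ A, F (A * cc) = F A)
    (A : GL (Fin 2) E) : F A = F 1 := by
  -- the stabiliser
  let H : Subgroup (GL (Fin 2) E) :=
    { carrier := {g | ∀ A, F (A * g) = F A}
      mul_mem' := by
        intro g h hg hh A
        rw [← mul_assoc, hh, hg]
      one_mem' := by
        intro A
        rw [mul_one]
      inv_mem' := by
        intro g hg A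
        have := hg (A * g⁻¹)
        rw [inv_mul_cancel_right] at this
        exact this.symm }
  have Hmem : ∀ g, g ∈ H ↔ ∀ A, F (A * g) = F A := fun g => Iff.rfl
  have Hs : ∀ u : Eˣ, sc u ∈ H := fun u A => hs A u
  have Hw : (w0 : GL (Fin 2) E) ∈ H := fun A => hw A
  have Hm : mm ∈ H := fun A => hm A
  have Hc : cc ∈ H := fun A => hc A
  have Hdgl : ∀ u : Eˣ, (dgl u : GL (Fin 2) E) ∈ H := by
    intro u
    obtain ⟨n, -, rfl⟩ := E_unit_cases u
    rw [gen_dgl_pow]
    exact H.pow_mem Hc n
  have Hup1 : (up (-1) : GL (Fin 2) E) ∈ H := by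
    rw [← gen_cc_mm]
    exact H.mul_mem (H.pow_mem Hc 3) Hm
  have Hupu : ∀ u : Eˣ, (up (u : E) : GL (Fin 2) E) ∈ H := by
    intro u
    have h1 : (up (u : E) : GL (Fin 2) E) = dgl (-u) * up (-1) * (dgl (-u))⁻¹ := by
      rw [gen_dgl_up]
      simp
    rw [h1]
    exact H.mul_mem (H.mul_mem (Hdgl _) Hup1) (H.inv_mem (Hdgl _))
  let T : AddSubgroup E :=
    { carrier := {x | (up x : GL (Fin 2) E) ∈ H}
      add_mem' := by
        intro x y hx hy
        show (up (x + y) : GL (Fin 2) E) ∈ H
        rw [← gen_up_add]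
        exact H.mul_mem hx hy
      zero_mem' := by
        show (up 0 : GL (Fin 2) E) ∈ H
        rw [gen_up_zero]
        exact H.one_mem
      neg_mem' := by
        intro x hx
        show (up (-x) : GL (Fin 2) E) ∈ H
        have h1 : (up (-x) : GL (Fin 2) E) = (up x)⁻¹ := by
          rw [eq_inv_iff_mul_eq_one, gen_up_add, neg_add_cancel, gen_up_zero]
        rw [h1]
        exact H.inv_mem hx }
  have Hup : ∀ x : E, (up x : GL (Fin 2) E) ∈ H := by
    intro x
    have h1 : (1 : E) ∈ T := by
      have := Hupu 1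
      rwa [Units.val_one] at this
    have h2 : ((omu : Eˣ) : E) ∈ T := Hupu omu
    have h3 : x = x.re • (1 : E) + x.im • ((omu : Eˣ) : E) := by
      ext <;> simp [omu]
    have h4 : x ∈ T := by
      rw [h3]
      exact T.add_mem (T.zsmul_mem h1 _) (T.zsmul_mem h2 _)
    exact h4
  have key : ∀ n : ℕ, ∀ A : GL (Fin 2) E, (A.val 1 0).norm.natAbs ≤ n → A ∈ H := by
    intro n
    induction n using Nat.strong_induction_on with
    | _ n ih =>
      intro A hA
      by_cases h0 : A.val 1 0 = 0
      · -- upper triangular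
        have hdet : IsUnit (A.val 0 0 * A.val 1 1) := by
          have h1 : IsUnit A.val.det := by
            have := A.isUnit
            exact (Matrix.isUnit_iff_isUnit_det _).mp this
          rw [Matrix.det_fin_two, h0, mul_zero, sub_zero] at h1
          exact h1
        obtain ⟨a, ha⟩ := isUnit_of_mul_isUnit_left hdet
        obtain ⟨d, hd⟩ := isUnit_of_mul_isUnit_right hdet
        have hAeq : A = sc d * (up (A.val 0 1 * (d⁻¹ : Eˣ)) * dgl (a * d⁻¹)) := by
          apply Units.ext
          rw [Units.val_mul, Units.val_mul, gen_up_val, gen_dgl_val]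
          have hsc : (sc d : GL (Fin 2) E).val = !![(d : E), 0; 0, d] := by
            refine Matrix.ext fun i j => ?_
            fin_cases i <;> fin_cases j <;> simp [sc]
          rw [hsc]
          have e1 : (d : E) * ((d⁻¹ : Eˣ) : E) = 1 := by simp
          refine Matrix.ext fun i j => ?_
          fin_cases i <;> fin_cases j
          · simp [Matrix.mul_apply, Fin.sum_univ_two]
            rw [← ha]
            linear_combination (-(a : E)) * e1
          · simp [Matrix.mul_apply, Fin.sum_univ_two]
            linear_combination (-(A.val 0 1)) * e1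
          · simp [Matrix.mul_apply, Fin.sum_univ_two]
            exact h0
          · simp [Matrix.mul_apply, Fin.sum_univ_two]
            exact hd.symm
        rw [hAeq]
        exact H.mul_mem (Hs d) (H.mul_mem (Hup _) (Hdgl _))
      · obtain ⟨q, hq⟩ := E_div (A.val 1 1) (A.val 1 0) h0
        set B : GL (Fin 2) E := A * up (-q) * w0 with hB
        have hB10 : B.val 1 0 = A.val 1 1 - A.val 1 0 * q := by
          rw [hB, Units.val_mul, Units.val_mul, gen_up_val]
          simp [Matrix.mul_apply, Fin.sum_univ_two, w0]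
          ring
        have hpos := E_norm_pos h0
        have hlt : (B.val 1 0).norm.natAbs < (A.val 1 0).norm.natAbs := by
          rw [hB10]
          have h1 := E_norm_nonneg (A.val 1 1 - A.val 1 0 * q)
          omega
        have hBH : B ∈ H := ih _ (lt_of_lt_of_le hlt hA) B le_rfl
        have hA2 : A = B * (w0 : GL (Fin 2) E)⁻¹ * (up (-q))⁻¹ := by
          rw [hB]
          group
        rw [hA2]
        exact H.mul_mem (H.mul_mem hBH (H.inv_mem Hw)) (H.inv_mem (Hup _))
  have h1 := key _ A le_rfl
  have h2 := h1 1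
  rwa [one_mul] at h2

end SerreE
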