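import Pool.Agent.Serre.EX
import Pool.Agent.Serre.GEN

open Matrix
open scoped QuadraticAlgebra

namespace SerreE

section mats

theorem dm_w0_sq : (w0 : GL (Fin 2) E) * w0 = 1 := by
  apply Matrix.GeneralLinearGroup.ext
  intro i j
  fin_cases i <;> fin_cases j <;> simp [w0, Matrix.mul_apply, Fin.sum_univ_two]

theorem dm_w0_inv : (w0 : GL (Fin 2) E)⁻¹ = w0 := inv_eq_of_mul_eq_one_right dm_w0_sq

theorem dm_mm_sq : mm * mm = 1 := by
  apply Matrix.GeneralLinearGroup.ext
  intro i j
  fin_cases i <;> fin_cases j <;> simp [mm, Matrix.mul_apply, Fin.sum_univ_two]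

theorem dm_mm_inv : mm⁻¹ = mm := inv_eq_of_mul_eq_one_right dm_mm_sq

theorem dm_cc_pow (n : ℕ) : cc ^ n = dgl (omu ^ n) := by
  induction n with
  | zero =>
    apply Matrix.GeneralLinearGroup.ext
    intro i j
    fin_cases i <;> fin_cases j <;> simp [dgl]
  | succ n ih =>
    rw [pow_succ, ih]
    apply Matrix.GeneralLinearGroup.ext
    intro i j
    fin_cases i <;> fin_cases j <;>
      simp [cc, dgl, Matrix.mul_apply, Fin.sum_univ_two, pow_succ]

theorem dm_omu6 : omu ^ 6 = 1 := by
  apply Units.ext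
  ext <;> simp [omu, pow_succ]

theorem dm_omu3 : omu ^ 3 = -1 := by
  apply Units.ext
  ext <;> simp [omu, pow_succ]

theorem dm_cc6 : cc ^ 6 = 1 := by
  rw [dm_cc_pow, dm_omu6]
  apply Matrix.GeneralLinearGroup.ext
  intro i j
  fin_cases i <;> fin_cases j <;> simp [dgl]

theorem dm_cc_inv : cc⁻¹ = dgl omu⁻¹ := by
  apply inv_eq_of_mul_eq_one_right
  apply Matrix.GeneralLinearGroup.ext
  intro i j
  fin_cases i <;> fin_cases j <;> simp [cc, dgl, Matrix.mul_apply, Fin.sum_univ_two]

theorem dm_wm : (w0 * mm) ^ 3 = sc (-1) := by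
  apply Matrix.GeneralLinearGroup.ext
  intro i j
  fin_cases i <;> fin_cases j <;>
    simp [w0, mm, Matrix.mul_apply, Fin.sum_univ_two, pow_succ]

theorem dm_sc_val {R : Type*} [CommRing R] (u : Rˣ) (i j : Fin 2) :
    (sc u : GL (Fin 2) R).val i j = if i = j then (u : R) else 0 := by
  change (Matrix.scalar (Fin 2) (u : R)) i j = _
  rw [Matrix.scalar_apply, Matrix.diagonal_apply]

theorem dm_wc : (w0 * cc⁻¹) ^ 2 = sc omu⁻¹ := by
  rw [dm_cc_inv]
  apply Matrix.GeneralLinearGroup.ext
  intro i j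
  rw [dm_sc_val]
  fin_cases i <;> fin_cases j <;>
    simp [w0, dgl, Matrix.mul_apply, Fin.sum_univ_two, pow_succ]

theorem dm_mc : (mm * cc⁻¹) ^ 3 = 1 := by
  rw [dm_cc_inv]
  apply Matrix.GeneralLinearGroup.ext
  intro i j
  fin_cases i <;> fin_cases j <;>
    simp [mm, dgl, Matrix.mul_apply, Fin.sum_univ_two, pow_succ, omu] <;> ext <;> simp

/-- `A₀ = diag(1, ω²)` -/
noncomputable def dA0 : GL (Fin 2) E := dg (omu ^ 2)

theorem dm_J : J * dA0 = dA0 * (w0 * cc⁻¹) * sc (omu ^ 5) := by
  rw [dm_cc_inv]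
  apply Matrix.GeneralLinearGroup.ext
  intro i j
  fin_cases i <;> fin_cases j <;>
    simp [w0, dgl, dg, J, dA0, Matrix.mul_apply, Fin.sum_univ_two, pow_succ, omu]
  ext <;> simp

theorem dm_cc3_wc : cc ^ 3 * (w0 * cc⁻¹) = (w0 * cc⁻¹) * cc ^ 3 * sc (-1) := by
  rw [dm_cc_pow, dm_omu3, dm_cc_inv]
  apply Matrix.GeneralLinearGroup.ext
  intro i j
  fin_cases i <;> fin_cases j <;>
    simp [w0, dgl, Matrix.mul_apply, Fin.sum_univ_two]

theorem dm_eta : eta * dA0 = dA0 * (cc ^ 3 * mm * w0 * cc * mm) := by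
  rw [dm_cc_pow, dm_omu3]
  apply Matrix.GeneralLinearGroup.ext
  intro i j
  fin_cases i <;> fin_cases j <;>
    simp [w0, dgl, dg, mm, cc, eta, dA0, Matrix.mul_apply, Fin.sum_univ_two, pow_succ, omu] <;>
    ext <;> simp

end mats


section chit

variable {R : Type*} [CommRing R] {k : Type*} [Field k]

theorem iota_inj {t t' : (Gi R)ˣ} (h : iota t = iota t') : t = t' := by
  apply Units.ext
  have h0 : (iota t).val 0 0 = (iota t').val 0 0 := by rw [h]
  have h1 : (iota t).val 1 0 = (iota t').val 1 0 := by rw [h]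
  rw [iota_val, iota_val] at h0 h1
  ext
  · simpa using h0
  · simpa using h1

open Classical in
/-- extension of `χ` by zero to `GL₂(R)`. -/
noncomputable def chit (χ : (Gi R)ˣ →* kˣ) (g : GL (Fin 2) R) : k :=
  if h : ∃ t, iota t = g then (χ h.choose : k) else 0

variable (χ : (Gi R)ˣ →* kˣ)

theorem chit_iota (t : (Gi R)ˣ) : chit χ (iota t) = χ t := by
  have h : ∃ s, iota s = iota t := ⟨t, rfl⟩
  unfold chit
  rw [dif_pos h, iota_inj h.choose_spec]

theorem chit_of_not {g : GL (Fin 2) R} (h : ¬ ∃ t, iota t = g) : chit χ g = 0 := by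
  unfold chit
  rw [dif_neg h]

theorem chit_mul_left (t : (Gi R)ˣ) (g : GL (Fin 2) R) :
    chit χ (iota t * g) = χ t * chit χ g := by
  by_cases h : ∃ s, iota s = g
  · obtain ⟨s, rfl⟩ := h
    rw [← map_mul, chit_iota, chit_iota, map_mul, Units.val_mul]
  · rw [chit_of_not χ h, chit_of_not χ, mul_zero]
    rintro ⟨s, hs⟩
    apply h
    refine ⟨t⁻¹ * s, ?_⟩
    rw [map_mul, hs, map_inv, inv_mul_cancel_left]

theorem chit_mul_right (t : (Gi R)ˣ) (g : GL (Fin 2) R) :
    chit χ (g * iota t) = χ t * chit χ g := by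
  by_cases h : ∃ s, iota s = g
  · obtain ⟨s, rfl⟩ := h
    rw [← map_mul, chit_iota, chit_iota, map_mul, Units.val_mul, mul_comm]
  · rw [chit_of_not χ h, chit_of_not χ, mul_zero]
    rintro ⟨s, hs⟩
    apply h
    refine ⟨s * t⁻¹, ?_⟩
    rw [map_mul, hs, map_inv, mul_inv_cancel_right]

end chit

section dl

variable {k : Type*} [Field k] (f : E) (χ : (Gi (E ⧸ Ideal.span {f}))ˣ →* kˣ)

/-- `D_A(A') = χ~(A' A⁻¹ mod f)` -/
noncomputable def dl (A A' : GL (Fin 2) E) : k := chit χ (red f (A' * A⁻¹))

theorem red_sc (u : Eˣ) : red f (sc u) = iota (giC (Units.map (Ideal.Quotient.mk _).toMonoidHom u)) := by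
  apply Matrix.GeneralLinearGroup.ext
  intro i j
  fin_cases i <;> fin_cases j <;> simp [giC]

theorem sc_comm {R : Type*} [CommRing R] (u : Rˣ) (g : GL (Fin 2) R) : sc u * g = g * sc u := by
  apply Matrix.GeneralLinearGroup.ext
  intro i j
  fin_cases i <;> fin_cases j <;>
    simp [Matrix.mul_apply, Fin.sum_univ_two, mul_comm]

variable (hscal : ∀ u, χ (giC u) = 1)

include hscal in
theorem dl_sc_right (A A' : GL (Fin 2) E) (u : Eˣ) : dl f χ A (A' * sc u) = dl f χ A A' := by
  unfold dl
  rw [mul_assoc, sc_comm, ← mul_assoc, map_mul, red_sc, chit_mul_right, hscal, Units.val_one,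
    one_mul]

include hscal in
theorem dl_sc_left (A A' : GL (Fin 2) E) (u : Eˣ) : dl f χ (A * sc u) A' = dl f χ A A' := by
  have h := dl_sc_right f χ hscal (A * sc u) A' u
  rw [← h]
  unfold dl
  congr 2
  group

theorem dl_left (A A' γ : GL (Fin 2) E) (t) (ht : iota t = red f γ) :
    dl f χ A (γ * A') = χ t * dl f χ A A' := by
  unfold dl
  rw [mul_assoc, map_mul, ← ht, chit_mul_left]

theorem dl_base (A A' γ : GL (Fin 2) E) (t) (ht : iota t = red f γ) :
    dl f χ (γ * A) A' = ((χ t)⁻¹ : kˣ) * dl f χ A A' := by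
  unfold dl
  have h : A' * (γ * A)⁻¹ = (A' * A⁻¹) * γ⁻¹ := by group
  rw [h, map_mul, map_inv, ← ht, ← map_inv, chit_mul_right, map_inv]

theorem dl_self (A : GL (Fin 2) E) : dl f χ A A = 1 := by
  unfold dl
  rw [mul_inv_cancel, map_one, ← map_one (iota (R := E ⧸ Ideal.span {f})), chit_iota, map_one,
    Units.val_one]

/-- summing over a cycle of length `m` -/
theorem dl_shift (hscal : ∀ u, χ (giC u) = 1) (x : GL (Fin 2) E) (m : ℕ) (u : Eˣ)
    (hx : x ^ m = sc u) (A A' : GL (Fin 2) E) :
    ∑ n ∈ Finset.range m, dl f χ (A * x ^ n) (A' * x) =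
      ∑ n ∈ Finset.range m, dl f χ (A * x ^ n) A' := by
  set F : ℕ → k := fun n => dl f χ (A * x ^ n) (A' * x) with hF
  have h1 : ∀ n, dl f χ (A * x ^ n) A' = F (n + 1) := by
    intro n
    rw [hF]
    unfold dl
    congr 2
    rw [pow_succ]
    group
  have h2 : F m = F 0 := by
    simp only [hF]
    rw [hx, dl_sc_left f χ hscal, pow_zero, mul_one]
  have h3 : ∑ n ∈ Finset.range m, dl f χ (A * x ^ n) A' = ∑ n ∈ Finset.range m, F (n + 1) :=
    Finset.sum_congr rfl fun n _ => h1 n
  rw [h3]
  have h4 := Finset.sum_range_succ F m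
  have h5 := Finset.sum_range_succ' F m
  rw [h4, h2] at h5
  exact add_right_cancel h5

end dl

section spanS

/-- the rotations have finite order modulo scalars -/
theorem xx_pow (i j : Fin 4) (hij : i < j) : ∃ u : Eˣ, xx i j ^ mo i j = sc u := by
  have hone : (1 : GL (Fin 2) E) = sc 1 := (map_one _).symm
  have e01 : xx 0 1 = w0 * mm := by
    change w0 * mm⁻¹ = w0 * mm
    rw [dm_mm_inv]
  have e02 : xx 0 2 = w0 * cc⁻¹ := rfl
  have e03 : xx 0 3 = w0 := by
    change w0 * 1⁻¹ = w0
    simp
  have e12 : xx 1 2 = mm * cc⁻¹ := rfl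
  have e13 : xx 1 3 = mm := by
    change mm * 1⁻¹ = mm
    simp
  have e23 : xx 2 3 = cc := by
    change cc * 1⁻¹ = cc
    simp
  fin_cases i <;> fin_cases j <;> simp only [Fin.zero_eta, Fin.mk_one, Fin.reduceFinMk,
    lt_self_iff_false] at hij ⊢
  · exact ⟨-1, by rw [e01]; exact dm_wm⟩
  · exact ⟨omu⁻¹, by rw [e02]; exact dm_wc⟩
  · exact ⟨1, by rw [e03, ← hone]; change w0 ^ 2 = 1; rw [pow_two, dm_w0_sq]⟩
  · exact absurd hij (by decide)
  · exact ⟨1, by rw [e12, ← hone]; exact dm_mc⟩
  · exact ⟨1, by rw [e13, ← hone]; change mm ^ 2 = 1; rw [pow_two, dm_mm_sq]⟩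
  · exact absurd hij (by decide)
  · exact absurd hij (by decide)
  · exact ⟨1, by rw [e23, ← hone]; exact dm_cc6⟩
  · exact absurd hij (by decide)
  · exact absurd hij (by decide)
  · exact absurd hij (by decide)

variable {k : Type*} [Field k] (f : E) (χ : (Gi (E ⧸ Ideal.span {f}))ˣ →* kˣ)

/-- the relation vector `e_{A,ij}` -/
noncomputable def es (i j : Fin 4) (A : GL (Fin 2) E) : Fin 4 → GL (Fin 2) E → k :=
  ∑ n ∈ Finset.range (mo i j),
    (Pi.single i (dl f χ (A * xx i j ^ n)) + Pi.single j (dl f χ (A * xx i j ^ n)))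

/-- the span of the relation vectors -/
noncomputable def SS : Submodule k (Fin 4 → GL (Fin 2) E → k) :=
  Submodule.span k {v | ∃ i j, i < j ∧ ∃ A, v = es f χ i j A}

/-- a decomposition of a vector of `SS` along the edges -/
structure Dec (v : Fin 4 → GL (Fin 2) E → k) (s : Fin 4 → Fin 4 → GL (Fin 2) E → k) : Prop where
  symm : ∀ i j, s i j = s j i
  diag : ∀ i, s i i = 0
  inv : ∀ i j, i < j → ∀ A, s i j (A * xx i j) = s i j A
  equi : ∀ i j (γ : GL (Fin 2) E) t, iota t = red f γ → ∀ A, s i j (γ * A) = χ t * s i j A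
  scal : ∀ i j A (u : Eˣ), s i j (A * sc u) = s i j A
  z0 : s 0 2 dA0 = 0
  z1 : s 0 2 (dA0 * cc ^ 3) = 0
  sum : ∀ i A, v i A = ∑ j, s i j A

theorem Dec.add {v v' s s'} (h : Dec f χ v s) (h' : Dec f χ v' s') :
    Dec f χ (v + v') (fun i j => s i j + s' i j) where
  symm i j := by rw [h.symm i j, h'.symm i j]
  diag i := by simp [h.diag i, h'.diag i]
  inv i j hij A := by simp only [Pi.add_apply]; rw [h.inv i j hij, h'.inv i j hij]
  equi i j γ t ht A := by
    simp only [Pi.add_apply]; rw [h.equi i j γ t ht, h'.equi i j γ t ht, mul_add]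
  scal i j A u := by simp only [Pi.add_apply]; rw [h.scal, h'.scal]
  z0 := by simp only [Pi.add_apply]; rw [h.z0, h'.z0, add_zero]
  z1 := by simp only [Pi.add_apply]; rw [h.z1, h'.z1, add_zero]
  sum i A := by
    simp only [Pi.add_apply]; rw [h.sum, h'.sum, Finset.sum_add_distrib]

theorem Dec.smul {v s} (c : k) (h : Dec f χ v s) : Dec f χ (c • v) (fun i j => c • s i j) where
  symm i j := by rw [h.symm i j]
  diag i := by simp [h.diag i]
  inv i j hij A := by simp only [Pi.smul_apply]; rw [h.inv i j hij]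
  equi i j γ t ht A := by
    simp only [Pi.smul_apply, smul_eq_mul]; rw [h.equi i j γ t ht]; ring
  scal i j A u := by simp only [Pi.smul_apply]; rw [h.scal]
  z0 := by simp only [Pi.smul_apply]; rw [h.z0, smul_zero]
  z1 := by simp only [Pi.smul_apply]; rw [h.z1, smul_zero]
  sum i A := by
    simp only [Pi.smul_apply, smul_eq_mul]; rw [h.sum, Finset.mul_sum]

theorem Dec.zero : Dec f χ 0 (fun _ _ => 0) where
  symm i j := rfl
  diag i := rfl
  inv i j hij A := rfl
  equi i j γ t ht A := by simp
  scal i j A u := rfl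
  z0 := rfl
  z1 := rfl
  sum i A := by simp

end spanS

section torus

/-- `i` as a unit -/
def giI : (Gi E)ˣ := ⟨⟨0, 1⟩, ⟨0, -1⟩, by ext <;> simp, by ext <;> simp⟩

/-- `ω + i` as a unit -/
def giEta : (Gi E)ˣ := ⟨⟨om, 1⟩, ⟨1, om - 1⟩, by ext <;> simp, by ext <;> simp⟩

theorem iota_giI : iota giI = J := by
  apply Matrix.GeneralLinearGroup.ext
  intro i j
  fin_cases i <;> fin_cases j <;> simp [giI, J]

theorem iota_giEta : iota giEta = eta := by
  apply Matrix.GeneralLinearGroup.ext
  intro i j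
  fin_cases i <;> fin_cases j <;> simp [giEta, eta]

theorem red_iota (f : E) (s : (Gi E)ˣ) :
    iota (Units.map (redGi f).toMonoidHom s) = red f (iota s) := by
  apply Matrix.GeneralLinearGroup.ext
  intro i j
  fin_cases i <;> fin_cases j <;> simp [redGi]

variable {k : Type*} [Field k] (f : E) (χ : (Gi (E ⧸ Ideal.span {f}))ˣ →* kˣ)

theorem dl_x (hscal : ∀ u, χ (giC u) = 1) (hJ : ∀ t, iota t = red f J → χ t = 1)
    (A A' x : GL (Fin 2) E) (u : Eˣ) (h : J * A' = A' * x * sc u) :
    dl f χ (A * x) A' = dl f χ A A' := by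
  have hJ' : iota (Units.map (redGi f).toMonoidHom giI) = red f J := by
    rw [red_iota, iota_giI]
  have h1 : dl f χ (A * x) A' = dl f χ A (A' * x⁻¹) := by
    unfold dl
    congr 2
    group
  have h2 : J * (A' * x⁻¹) = A' * sc u := by
    rw [← mul_assoc, h, mul_assoc, sc_comm, ← mul_assoc, mul_inv_cancel_right]
  have h3 := dl_left f χ A (A' * x⁻¹) J _ hJ'
  rw [h2, dl_sc_right f χ hscal, hJ _ hJ', Units.val_one, one_mul] at h3
  rw [h1, h3]

theorem dec_es [CharP k 2] (hscal : ∀ u, χ (giC u) = 1) (hJ : ∀ t, iota t = red f J → χ t = 1)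
    (i j : Fin 4) (hij : i < j) (A : GL (Fin 2) E) :
    Dec f χ (es f χ i j A) (fun p q => if (p = i ∧ q = j) ∨ (p = j ∧ q = i) then
      (fun A' => ∑ n ∈ Finset.range (mo i j), dl f χ (A * xx i j ^ n) A') else 0) where
  symm p q := by
    by_cases h : (p = i ∧ q = j) ∨ (p = j ∧ q = i)
    · rw [if_pos h, if_pos (by tauto)]
    · rw [if_neg h, if_neg (by tauto)]
  diag p := by
    rw [if_neg]
    rintro (⟨h1, h2⟩ | ⟨h1, h2⟩)
    · rw [← h1, ← h2] at hij
      exact lt_irrefl _ hij
    · rw [← h1, ← h2] at hij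
      exact lt_irrefl _ hij
  inv p q hpq A' := by
    by_cases h : (p = i ∧ q = j) ∨ (p = j ∧ q = i)
    · rw [if_pos h]
      have h' : p = i ∧ q = j := by
        rcases h with h | h
        · exact h
        · rw [h.1, h.2] at hpq
          exact absurd hpq (not_lt.mpr hij.le)
      obtain ⟨rfl, rfl⟩ := h'
      obtain ⟨u, hu⟩ := xx_pow p q hij
      exact dl_shift f χ hscal (xx p q) (mo p q) u hu A A'
    · rw [if_neg h]
      rfl
  equi p q γ t ht A' := by
    by_cases h : (p = i ∧ q = j) ∨ (p = j ∧ q = i)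
    · rw [if_pos h, Finset.mul_sum]
      exact Finset.sum_congr rfl fun n _ => dl_left f χ _ _ γ t ht
    · rw [if_neg h]
      simp
  scal p q A' u := by
    by_cases h : (p = i ∧ q = j) ∨ (p = j ∧ q = i)
    · rw [if_pos h]
      exact Finset.sum_congr rfl fun n _ => dl_sc_right f χ hscal _ _ _
    · rw [if_neg h]
      rfl
  z0 := by
    by_cases h : ((0 : Fin 4) = i ∧ (2 : Fin 4) = j) ∨ ((0 : Fin 4) = j ∧ (2 : Fin 4) = i)
    · rw [if_pos h]
      have h' : (0 : Fin 4) = i ∧ (2 : Fin 4) = j := by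
        rcases h with h | h
        · exact h
        · rw [← h.1, ← h.2] at hij
          exact absurd hij (by decide)
      obtain ⟨rfl, rfl⟩ := h'
      change ∑ n ∈ Finset.range 2, dl f χ (A * xx 0 2 ^ n) dA0 = 0
      rw [Finset.sum_range_succ, Finset.sum_range_one, pow_zero, mul_one, pow_one]
      have h2 := dl_x f χ hscal hJ A dA0 (xx 0 2) (omu ^ 5) dm_J
      rw [h2, CharTwo.add_self_eq_zero]
    · rw [if_neg h]
      rfl
  z1 := by
    by_cases h : ((0 : Fin 4) = i ∧ (2 : Fin 4) = j) ∨ ((0 : Fin 4) = j ∧ (2 : Fin 4) = i)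
    · rw [if_pos h]
      have h' : (0 : Fin 4) = i ∧ (2 : Fin 4) = j := by
        rcases h with h | h
        · exact h
        · rw [← h.1, ← h.2] at hij
          exact absurd hij (by decide)
      obtain ⟨rfl, rfl⟩ := h'
      change ∑ n ∈ Finset.range 2, dl f χ (A * xx 0 2 ^ n) (dA0 * cc ^ 3) = 0
      rw [Finset.sum_range_succ, Finset.sum_range_one, pow_zero, mul_one, pow_one]
      have h3 : J * (dA0 * cc ^ 3) = dA0 * cc ^ 3 * (xx 0 2) * sc ((-1) * omu ^ 5) := by
        have e02 : xx 0 2 = w0 * cc⁻¹ := rfl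
        have h4 : (w0 * cc⁻¹) * cc ^ 3 = cc ^ 3 * (w0 * cc⁻¹) * sc (-1) := by
          rw [dm_cc3_wc, mul_assoc _ (sc (-1)) (sc (-1)),
            ← map_mul (Matrix.GeneralLinearGroup.scalar (Fin 2))]
          simp
        have h5 : sc ((-1) * omu ^ 5) = sc (-1) * sc (omu ^ 5) :=
          map_mul (Matrix.GeneralLinearGroup.scalar (Fin 2)) _ _
        rw [← mul_assoc, dm_J, mul_assoc _ (sc _) (cc ^ 3), sc_comm, ← mul_assoc,
          mul_assoc dA0, h4, h5, e02]
        simp only [mul_assoc]
      have h2 := dl_x f χ hscal hJ A (dA0 * cc ^ 3) (xx 0 2) _ h3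
      rw [h2, CharTwo.add_self_eq_zero]
    · rw [if_neg h]
      rfl
  sum p A' := by
    unfold es
    simp only [Finset.sum_apply, Pi.add_apply]
    rcases eq_or_ne p i with rfl | hpi
    · have hne : p ≠ j := ne_of_lt hij
      rw [Finset.sum_eq_single j]
      · rw [if_pos (Or.inl ⟨rfl, rfl⟩)]
        apply Finset.sum_congr rfl
        intro n _
        rw [Pi.single_eq_same, Pi.single_eq_of_ne hne]
        simp
      · intro q _ hq
        rw [if_neg]
        · rfl
        · rintro (⟨_, h⟩ | ⟨h, _⟩)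
          · exact hq h
          · exact hne h
      · intro h
        exact absurd (Finset.mem_univ _) h
    · rcases eq_or_ne p j with rfl | hpj
      · rw [Finset.sum_eq_single i]
        · rw [if_pos (Or.inr ⟨rfl, rfl⟩)]
          apply Finset.sum_congr rfl
          intro n _
          rw [Pi.single_eq_same, Pi.single_eq_of_ne hpi]
          simp
        · intro q _ hq
          rw [if_neg]
          · rfl
          · rintro (⟨h, _⟩ | ⟨_, h⟩)
            · exact hpi h
            · exact hq h
        · intro h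
          exact absurd (Finset.mem_univ _) h
      · have h1 : ∀ q : Fin 4, (if (p = i ∧ q = j) ∨ (p = j ∧ q = i) then
            (fun A' => ∑ n ∈ Finset.range (mo i j), dl f χ (A * xx i j ^ n) A') else
            (0 : GL (Fin 2) E → k)) A' = 0 := by
          intro q
          rw [if_neg]
          · rfl
          · rintro (⟨h, _⟩ | ⟨h, _⟩)
            · exact hpi h
            · exact hpj h
        rw [Finset.sum_congr rfl fun q _ => h1 q, Finset.sum_const_zero]
        apply Finset.sum_eq_zero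
        intro n _
        rw [Pi.single_eq_of_ne hpi, Pi.single_eq_of_ne hpj]
        simp

theorem dec_SS [CharP k 2] (hscal : ∀ u, χ (giC u) = 1) (hJ : ∀ t, iota t = red f J → χ t = 1)
    (v : Fin 4 → GL (Fin 2) E → k) (hv : v ∈ SS f χ) : ∃ s, Dec f χ v s := by
  unfold SS at hv
  induction hv using Submodule.span_induction with
  | mem v hv =>
    obtain ⟨i, j, hij, A, rfl⟩ := hv
    exact ⟨_, dec_es f χ hscal hJ i j hij A⟩
  | zero => exact ⟨_, Dec.zero f χ⟩
  | add v w _ _ h1 h2 =>
    obtain ⟨s, hs⟩ := h1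
    obtain ⟨s', hs'⟩ := h2
    exact ⟨_, Dec.add f χ hs hs'⟩
  | smul c v _ h1 =>
    obtain ⟨s, hs⟩ := h1
    exact ⟨_, Dec.smul f χ c hs⟩

end torus

section final

variable {k : Type*} [Field k]

theorem pot_const (a b : GL (Fin 2) E → k) (G : Fin 4 → GL (Fin 2) E → k)
    (sa : ∀ A (u : Eˣ), a (A * sc u) = a A) (hab : ∀ i A, a A + b (A * rho i) = G i A)
    (γ : GL (Fin 2) E) (c : k) (hG : ∀ i A, G i (γ * A) = c * G i A) (A : GL (Fin 2) E) :
    a (γ * A) - c * a A = a γ - c * a 1 := by
  set F : GL (Fin 2) E → k := fun A => a (γ * A) - c * a A with hF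
  have h1 : ∀ i A, F A + (b (γ * (A * rho i)) - c * b (A * rho i)) = 0 := by
    intro i A
    have h2 := hab i (γ * A)
    have h3 := hab i A
    have h4 := hG i A
    simp only [hF]
    rw [← mul_assoc]
    linear_combination h2 - c * h3 + h4
  have h5 : ∀ i A, F (A * rho i) = F A := by
    intro i A
    have h2 := h1 i A
    have h3 := h1 3 (A * rho i)
    have h6 : rho 3 = 1 := rfl
    rw [h6, mul_one] at h3
    linear_combination h3 - h2
  have h7 := gen_const F (fun A u => by
    simp only [hF]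
    rw [← mul_assoc, sa, sa]) (h5 0) (h5 1) (h5 2) A
  rw [hF] at h7
  simpa using h7

variable [CharP k 2]

theorem dich (f : E) (hf : ¬ IsUnit f) (hf2 : IsCoprime f 2)
    (χ : (Gi (E ⧸ Ideal.span {f}))ˣ →* kˣ) (hscal : ∀ u, χ (giC u) = 1)
    (hJ : ∀ t, iota t = red f J → χ t = 1) (he : ∀ t, iota t = red f eta → χ t = 1) :
    ∃ χ' : (Gi (E ⧸ Ideal.span {f}))ˣ →* kˣ, (χ' = χ ∨ χ' = χ⁻¹) ∧
      ∃ a : GL (Fin 2) E → k, (∀ A (u : Eˣ), a (A * sc u) = a A) ∧
        (∀ (γ : GL (Fin 2) E) t, iota t = red f γ →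
          ∀ A, a (γ * A) - χ' t * a A = a γ - χ' t * a 1) ∧
        (a J ≠ a 1 ∨ a eta ≠ a 1) := by
  have hJ' : iota (Units.map (redGi f).toMonoidHom giI) = red f J := by
    rw [red_iota, iota_giI]
  have he' : iota (Units.map (redGi f).toMonoidHom giEta) = red f eta := by
    rw [red_iota, iota_giEta]
  by_cases hd : (Pi.single 0 (dl f χ dA0) + Pi.single 2 (dl f χ dA0) :
      Fin 4 → GL (Fin 2) E → k) ∈ SS f χ
  · -- case A
    obtain ⟨s, hs⟩ := dec_SS f χ hscal hJ _ hd
    refine ⟨χ, Or.inl rfl, ?_⟩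
    set φ : GL (Fin 2) E → k := fun A => s 0 2 A + dl f χ dA0 A with hφ
    have hchar : ∀ x : k, x + x = 0 := CharTwo.add_self_eq_zero
    -- invariance of φ
    have hφx : ∀ A, φ (A * (w0 * cc⁻¹)) = φ A := by
      intro A
      have h1 : s 0 2 (A * (w0 * cc⁻¹)) = s 0 2 A := hs.inv 0 2 (by decide) A
      have h2 : dl f χ dA0 (A * (w0 * cc⁻¹)) = dl f χ dA0 A := by
        unfold dl
        have h3 : A * (w0 * cc⁻¹) * dA0⁻¹ = A * dA0⁻¹ * J * sc (omu ^ 5)⁻¹ := by
          have h4 : w0 * cc⁻¹ = dA0⁻¹ * (J * dA0) * (sc (omu ^ 5))⁻¹ := by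
            rw [dm_J]
            group
          have h5 : sc (omu ^ 5)⁻¹ = (sc (omu ^ 5))⁻¹ :=
            map_inv (Matrix.GeneralLinearGroup.scalar (Fin 2)) _
          rw [h4, h5]
          have h6 : (sc (omu ^ 5))⁻¹ * dA0⁻¹ = dA0⁻¹ * (sc (omu ^ 5))⁻¹ := by
            rw [← h5, sc_comm]
          calc A * (dA0⁻¹ * (J * dA0) * (sc (omu ^ 5))⁻¹) * dA0⁻¹
              = A * dA0⁻¹ * J * dA0 * ((sc (omu ^ 5))⁻¹ * dA0⁻¹) := by group
            _ = A * dA0⁻¹ * J * dA0 * (dA0⁻¹ * (sc (omu ^ 5))⁻¹) := by rw [h6]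
            _ = A * dA0⁻¹ * J * (sc (omu ^ 5))⁻¹ := by group
        rw [h3, map_mul, map_mul, red_sc, chit_mul_right, hscal, ← hJ', chit_mul_right, hJ _ hJ',
          Units.val_one, one_mul, one_mul]
      simp only [hφ]
      rw [h1, h2]
    have hφs : ∀ A (u : Eˣ), φ (A * sc u) = φ A := by
      intro A u
      simp only [hφ]
      rw [hs.scal, dl_sc_right f χ hscal]
    have hφe : ∀ (γ : GL (Fin 2) E) t, iota t = red f γ → ∀ A, φ (γ * A) = χ t * φ A := by
      intro γ t ht A
      simp only [hφ]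
      rw [hs.equi 0 2 γ t ht, dl_left f χ _ _ γ t ht, mul_add]
    have hφw : ∀ A, φ (A * w0) = φ (A * cc⁻¹) := by
      intro A
      have h1 := hφx (A * w0)
      rw [← h1]
      congr 1
      rw [mul_assoc, ← mul_assoc w0 w0, dm_w0_sq, one_mul]
    -- first row relation
    have hrow : ∀ A, φ A = s 0 1 A + s 0 3 A := by
      intro A
      have h1 := hs.sum 0 A
      rw [Fin.sum_univ_four, hs.diag 0] at h1
      have h2 : (Pi.single 0 (dl f χ dA0) + Pi.single 2 (dl f χ dA0) :
          Fin 4 → GL (Fin 2) E → k) 0 A = dl f χ dA0 A := by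
        rw [Pi.add_apply, Pi.single_eq_same, Pi.single_eq_of_ne (by decide)]
        simp
      rw [h2] at h1
      simp only [hφ]
      rw [h1]
      simp only [Pi.zero_apply]
      linear_combination hchar (s 0 2 A)
    set g : GL (Fin 2) E → k := fun A => φ A + φ (A * w0) with hg
    have hgw : ∀ A, g (A * w0) = g A := by
      intro A
      simp only [hg]
      rw [mul_assoc, dm_w0_sq, mul_one, add_comm]
    have hgm : ∀ A, g (A * mm) = g A := by
      have h01 : ∀ A, s 0 1 (A * w0) = s 0 1 (A * mm) := by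
        intro A
        have h1 := hs.inv 0 1 (by decide) (A * w0)
        rw [← h1]
        congr 1
        have e01 : xx 0 1 = w0 * mm := by
          change w0 * mm⁻¹ = w0 * mm
          rw [dm_mm_inv]
        rw [e01, mul_assoc, ← mul_assoc w0 w0, dm_w0_sq, one_mul]
      have h03 : ∀ A, s 0 3 (A * w0) = s 0 3 A := by
        intro A
        have e03 : xx 0 3 = w0 := by
          change w0 * 1⁻¹ = w0
          simp
        have h1 := hs.inv 0 3 (by decide) A
        rw [e03] at h1
        exact h1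
      have h2 : ∀ A, g A = s 0 1 A + s 0 1 (A * mm) := by
        intro A
        simp only [hg]
        rw [hrow, hrow, h01, h03]
        linear_combination hchar (s 0 3 A)
      intro A
      rw [h2, h2, mul_assoc, dm_mm_sq, mul_one, add_comm]
    have hgs : ∀ A (u : Eˣ), g (A * sc u) = g A := by
      intro A u
      simp only [hg]
      rw [hφs, mul_assoc, sc_comm, ← mul_assoc, hφs]
    have hgc : ∀ A, g A = φ A + φ (A * cc⁻¹) := by
      intro A
      simp only [hg]
      rw [hφw]
    have hge : ∀ (γ : GL (Fin 2) E) t, iota t = red f γ → ∀ A, g (γ * A) = χ t * g A := by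
      intro γ t ht A
      have h1 := hφe γ t ht A
      have h2 := hφe γ t ht (A * w0)
      rw [← mul_assoc] at h2
      simp only [hg]
      rw [h1, h2]
      ring
    obtain ⟨a, b, sa, sb, hab⟩ := ex_pot (fun i => if i = 3 then g else 0)
      (by
        intro i A u
        by_cases hi : i = 3
        · simp only [hi, if_true]
          exact hgs A u
        · simp [hi])
      (by
        intro i j hij A
        have hi3 : i ≠ 3 := by
          intro h
          rw [h] at hij
          revert hij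
          decide +revert
        by_cases hj : j = 3
        · subst hj
          simp only [if_neg hi3, if_true, Pi.zero_apply, zero_add]
          have hi : i = 0 ∨ i = 1 ∨ i = 2 := by
            revert hi3
            fin_cases i <;> simp
          rcases hi with rfl | rfl | rfl
          · have e03 : xx 0 3 = w0 := by
              change w0 * 1⁻¹ = w0
              simp
            change ∑ n ∈ Finset.range 2, g (A * xx 0 3 ^ n) = 0
            rw [e03, Finset.sum_range_succ, Finset.sum_range_one, pow_zero, mul_one, pow_one, hgw,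
              hchar]
          · have e13 : xx 1 3 = mm := by
              change mm * 1⁻¹ = mm
              simp
            change ∑ n ∈ Finset.range 2, g (A * xx 1 3 ^ n) = 0
            rw [e13, Finset.sum_range_succ, Finset.sum_range_one, pow_zero, mul_one, pow_one, hgm,
              hchar]
          · have e23 : xx 2 3 = cc := by
              change cc * 1⁻¹ = cc
              simp
            change ∑ n ∈ Finset.range 6, g (A * xx 2 3 ^ n) = 0
            rw [e23]
            have h1 : ∀ n : ℕ, g (A * cc ^ n) = φ (A * cc⁻¹ * cc ^ (n + 1)) +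
                φ (A * cc⁻¹ * cc ^ n) := by
              intro n
              rw [hgc]
              congr 2
              · rw [pow_succ']
                group
              · group
            rw [Finset.sum_congr rfl fun n _ => h1 n, Finset.sum_add_distrib]
            have h2 := Finset.sum_range_succ (fun n => φ (A * cc⁻¹ * cc ^ n)) 6
            have h3 := Finset.sum_range_succ' (fun n => φ (A * cc⁻¹ * cc ^ n)) 6
            rw [h2] at h3
            simp only [dm_cc6, pow_zero] at h3
            have h4 := add_right_cancel h3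
            rw [← h4, hchar]
        · simp only [if_neg hi3, if_neg hj, Pi.zero_apply, add_zero, Finset.sum_const_zero])
    refine ⟨a, sa, ?_, Or.inr ?_⟩
    · intro γ t ht A
      apply pot_const a b _ sa hab γ (χ t)
      intro i A
      by_cases hi : i = 3
      · simp only [hi, if_true]
        exact hge γ t ht A
      · simp [hi]
    · -- nontriviality
      have hstep : ∀ i, i ≠ 3 → ∀ A, a A + a (A * rho i) = g (A * rho i) := by
        intro i hi A
        have h6 : rho 3 = 1 := rfl
        have h3 := hab 3 (A * rho i)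
        rw [h6, mul_one, if_pos rfl] at h3
        have h4 := hab i A
        rw [if_neg hi, Pi.zero_apply] at h4
        linear_combination h3 + h4 - hchar (b (A * rho i))
      have hw : ∀ A, a A + a (A * w0) = g A := fun A => by
        rw [← hgw]
        exact hstep 0 (by decide) A
      have hm : ∀ A, a A + a (A * mm) = g A := fun A => by
        rw [← hgm]
        exact hstep 1 (by decide) A
      have hc : ∀ A, a A + a (A * cc) = g (A * cc) := fun A => hstep 2 (by decide) A
      have hgc' : ∀ A, g (A * cc) = φ (A * cc) + φ A := fun A => by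
        rw [hgc, mul_inv_cancel_right]
      have e0 : φ dA0 = 1 := by
        simp only [hφ]
        rw [hs.z0, dl_self, zero_add]
      have e3 : φ (dA0 * cc ^ 3) = 0 := by
        simp only [hφ]
        rw [hs.z1, zero_add]
        unfold dl
        have h1 : dA0 * cc ^ 3 * dA0⁻¹ = cc ^ 3 := by
          rw [mul_inv_eq_iff_eq_mul, dm_cc_pow]
          apply Matrix.GeneralLinearGroup.ext
          intro i j
          fin_cases i <;> fin_cases j <;>
            simp [dgl, dg, dA0, Matrix.mul_apply, Fin.sum_univ_two]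
        rw [h1]
        apply chit_of_not
        rintro ⟨t, ht⟩
        have h00 : (iota t).val 0 0 = (red f (cc ^ 3)).val 0 0 := by rw [ht]
        have h11 : (iota t).val 1 1 = (red f (cc ^ 3)).val 1 1 := by rw [ht]
        rw [dm_cc_pow, dm_omu3] at h00 h11
        have h00' : t.val.re = -1 := by simpa [dgl] using h00
        have h11' : t.val.re = 1 := by simpa [dgl] using h11
        have h2 : (Ideal.Quotient.mk (Ideal.span {f}) (2 : E)) = 0 := by
          have h3 : (1 : E ⧸ Ideal.span {f}) + 1 = 0 := by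
            rw [h00'] at h11'
            linear_combination -h11'
          rw [← h3]
          norm_num [map_ofNat]
        rw [Ideal.Quotient.eq_zero_iff_mem, Ideal.mem_span_singleton] at h2
        exact hf (hf2.isUnit_of_dvd' dvd_rfl h2)
      have htot : a (eta * dA0) + a dA0 = 1 := by
        rw [dm_eta]
        have y3 : cc ^ 3 = cc * cc * cc := by rw [pow_succ, pow_two]
        have c0 := hc dA0
        have c1 := hc (dA0 * cc)
        have c2 := hc (dA0 * cc * cc)
        have c3 := hm (dA0 * cc * cc * cc)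
        have c4 := hw (dA0 * cc * cc * cc * mm)
        have c5 := hc (dA0 * cc * cc * cc * mm * w0)
        have c6 := hm (dA0 * cc * cc * cc * mm * w0 * cc)
        rw [hgm] at c4
        have d0 := hgc' dA0
        have d1 := hgc' (dA0 * cc)
        have d2 := hgc' (dA0 * cc * cc)
        have e3' : φ (dA0 * cc * cc * cc) = 0 := by
          rw [← e3, y3]
          simp only [mul_assoc]
        have ey : dA0 * (cc ^ 3 * mm * w0 * cc * mm) =
            dA0 * cc * cc * cc * mm * w0 * cc * mm := by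
          rw [y3]
          simp only [mul_assoc]
        rw [ey]
        linear_combination c0 + c1 + c2 + c3 + c4 + c5 + c6 + d0 + d1 + d2 + e0 + e3' -
          hchar (a (dA0 * cc)) - hchar (a (dA0 * cc * cc)) - hchar (a (dA0 * cc * cc * cc)) -
          hchar (a (dA0 * cc * cc * cc * mm)) - hchar (a (dA0 * cc * cc * cc * mm * w0)) -
          hchar (a (dA0 * cc * cc * cc * mm * w0 * cc)) +
          hchar (g (dA0 * cc * cc * cc * mm * w0 * cc)) +
          hchar (g (dA0 * cc * cc * cc)) + hchar (φ (dA0 * cc)) + hchar (φ (dA0 * cc * cc))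
      have hequi : a (eta * dA0) - χ (Units.map (redGi f).toMonoidHom giEta) * a dA0 =
          a eta - χ (Units.map (redGi f).toMonoidHom giEta) * a 1 := by
        apply pot_const a b _ sa hab eta
        intro i A
        by_cases hi : i = 3
        · simp only [hi, if_true]
          exact hge eta _ he' A
        · simp [hi]
      rw [he _ he', Units.val_one, one_mul, one_mul] at hequi
      intro h
      rw [h, sub_self] at hequi
      have h1 : a (eta * dA0) + a dA0 = 0 := by
        linear_combination hequi + hchar (a dA0)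
      rw [h1] at htot
      exact zero_ne_one htot
  · -- case B
    obtain ⟨ξ, hξ, hker⟩ := Submodule.exists_le_ker_of_notMem hd
    refine ⟨χ⁻¹, Or.inr rfl, ?_⟩
    have hchar : ∀ x : k, x + x = 0 := CharTwo.add_self_eq_zero
    set G : Fin 4 → GL (Fin 2) E → k := fun i A => ξ (Pi.single i (dl f χ A)) with hG
    have hGs : ∀ i A (u : Eˣ), G i (A * sc u) = G i A := by
      intro i A u
      simp only [hG]
      congr 2
      funext A'
      exact dl_sc_left f χ hscal A A' u
    have hGe : ∀ (γ : GL (Fin 2) E) t, iota t = red f γ → ∀ i A,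
        G i (γ * A) = ((χ t)⁻¹ : kˣ) * G i A := by
      intro γ t ht i A
      simp only [hG]
      have h1 : dl f χ (γ * A) = (((χ t)⁻¹ : kˣ) : k) • dl f χ A := by
        funext A'
        rw [dl_base f χ A A' γ t ht]
        rfl
      rw [h1, Pi.single_smul, map_smul, smul_eq_mul]
    obtain ⟨a, b, sa, sb, hab⟩ := ex_pot G hGs (by
      intro i j hij A
      have h1 : es f χ i j A ∈ SS f χ := Submodule.subset_span ⟨i, j, hij, A, rfl⟩
      have h2 : ξ (es f χ i j A) = 0 := hker h1
      rw [← h2]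
      unfold es
      rw [map_sum]
      apply Finset.sum_congr rfl
      intro n _
      rw [map_add])
    refine ⟨a, sa, ?_, Or.inl ?_⟩
    · intro γ t ht A
      have h1 : (χ⁻¹ : (Gi (E ⧸ Ideal.span {f}))ˣ →* kˣ) t = (χ t)⁻¹ := rfl
      rw [h1]
      exact pot_const a b G sa hab γ _ (hGe γ t ht) A
    · intro h
      have h1 := pot_const a b G sa hab J _ (hGe J _ hJ') dA0
      rw [hJ _ hJ', inv_one, Units.val_one, one_mul, one_mul, h, sub_self] at h1
      have h2 : J * dA0 = dA0 * (w0 * cc⁻¹) * sc (omu ^ 5) := dm_J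
      have h3 : G 2 (dA0 * (w0 * cc⁻¹)) = G 2 dA0 := by
        rw [← hGs 2 _ (omu ^ 5), ← h2, hGe J _ hJ', hJ _ hJ']
        simp
      have h4 : a (J * dA0) = a (dA0 * (w0 * cc⁻¹)) := by rw [h2, sa]
      have h5 := hab 0 dA0
      have e0 : rho 0 = w0 := rfl
      have e2 : rho 2 = cc := rfl
      have h6 : a (dA0 * (w0 * cc⁻¹)) + b (dA0 * w0) = G 2 (dA0 * (w0 * cc⁻¹)) := by
        have h60 := hab 2 (dA0 * (w0 * cc⁻¹))
        have e6 : dA0 * (w0 * cc⁻¹) * cc = dA0 * w0 := by group
        rwa [e2, e6] at h60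
      rw [e0] at h5
      apply hξ
      rw [map_add]
      change G 0 dA0 + G 2 dA0 = 0
      rw [h4] at h1
      rw [← h3]
      linear_combination h1 - h5 - h6 + hchar (b (dA0 * w0)) + hchar (a dA0)

end final

end SerreE
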