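import Mathlib

/-!
# Basic definitions for MP_94f623_nt (Serre's conjecture over `ℚ(√-3)`, `p = 2`, dihedral case)
-/

open Matrix
open scoped QuadraticAlgebra

namespace SerreE

/-- The Eisenstein integers `ℤ[ω]`, `ω² = ω - 1` (so `ω` is a primitive sixth root of unity);
this is the ring of integers of `ℚ(√-3)`. -/
abbrev E := QuadraticAlgebra ℤ (-1) 1

/-- The ring `R[i]`, `i² = -1`. -/
abbrev Gi (R : Type*) [CommRing R] := QuadraticAlgebra R (-1) 0

section general

variable {R : Type*} [CommRing R]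

/-- the matrix `[[a, b], [c, d]]` with determinant the unit `u`. -/
def mk2 (a b c d : R) (u : Rˣ) (h : a * d - b * c = u) : GL (Fin 2) R where
  val := !![a, b; c, d]
  inv := !![(↑u⁻¹ : R) * d, -((↑u⁻¹ : R) * b); -((↑u⁻¹ : R) * c), (↑u⁻¹ : R) * a]
  val_inv := by
    have e1 : (↑u⁻¹ : R) * (a * d - b * c) = 1 := by rw [h]; simp
    ext i j
    fin_cases i <;> fin_cases j <;> simp [Matrix.mul_apply, Fin.sum_univ_two]
    · linear_combination e1
    · ring
    · ring
    · linear_combination e1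
  inv_val := by
    have e1 : (↑u⁻¹ : R) * (a * d - b * c) = 1 := by rw [h]; simp
    ext i j
    fin_cases i <;> fin_cases j <;> simp [Matrix.mul_apply, Fin.sum_univ_two]
    · linear_combination e1
    · ring
    · ring
    · linear_combination e1

@[simp] theorem mk2_00 (a b c d : R) (u : Rˣ) (h : a * d - b * c = u) :
    (mk2 a b c d u h).val 0 0 = a := rfl
@[simp] theorem mk2_01 (a b c d : R) (u : Rˣ) (h : a * d - b * c = u) :
    (mk2 a b c d u h).val 0 1 = b := rfl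
@[simp] theorem mk2_10 (a b c d : R) (u : Rˣ) (h : a * d - b * c = u) :
    (mk2 a b c d u h).val 1 0 = c := rfl
@[simp] theorem mk2_11 (a b c d : R) (u : Rˣ) (h : a * d - b * c = u) :
    (mk2 a b c d u h).val 1 1 = d := rfl

/-- scalar matrices -/
abbrev sc (u : Rˣ) : GL (Fin 2) R := Matrix.GeneralLinearGroup.scalar (Fin 2) u

/-- `[[1, x], [0, 1]]` -/
def up (x : R) : GL (Fin 2) R := mk2 1 x 0 1 1 (by simp)

/-- `[[1, 0], [x, 1]]` -/
def low (x : R) : GL (Fin 2) R := mk2 1 0 x 1 1 (by simp)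

/-- `diag(1, u)` -/
def dg (u : Rˣ) : GL (Fin 2) R := mk2 1 0 0 (u : R) u (by simp)

/-- `diag(u, 1)` -/
def dgl (u : Rˣ) : GL (Fin 2) R := mk2 (u : R) 0 0 1 u (by simp)

/-- `[[0, 1], [1, 0]]` -/
def w0 : GL (Fin 2) R := mk2 0 1 1 0 (-1) (by simp)

/-- `[[0, -1], [1, 0]]`, the complex structure `i`. -/
def J : GL (Fin 2) R := mk2 0 (-1) 1 0 1 (by simp)

/-- the matrix `[[x, -y], [y, x]]` of multiplication by `x + y i`. -/
def iotaM : Gi R →+* Matrix (Fin 2) (Fin 2) R where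
  toFun z := !![z.re, -z.im; z.im, z.re]
  map_one' := by
    ext i j; fin_cases i <;> fin_cases j <;> simp
  map_mul' z w := by
    ext i j; fin_cases i <;> fin_cases j <;>
      simp [Matrix.mul_apply, Fin.sum_univ_two] <;> ring
  map_zero' := by
    ext i j; fin_cases i <;> fin_cases j <;> simp
  map_add' z w := by
    ext i j; fin_cases i <;> fin_cases j <;> simp; ring

/-- the embedding `R[i]ˣ → GL₂(R)`. -/
def iota : (Gi R)ˣ →* GL (Fin 2) R := Units.map (iotaM (R := R)).toMonoidHom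

@[simp] theorem iota_val (t : (Gi R)ˣ) :
    (iota t).val = !![t.val.re, -t.val.im; t.val.im, t.val.re] := rfl

/-- the unit scalar `u` as a unit of `R[i]`. -/
def giC (u : Rˣ) : (Gi R)ˣ := Units.map (algebraMap R (Gi R)).toMonoidHom u

/-- complex conjugation on units of `R[i]`. -/
def giStar : (Gi R)ˣ →* (Gi R)ˣ := Units.map (starRingEnd (Gi R)).toMonoidHom

end general

section reduction

variable {O : Type*} [CommRing O]

/-- reduction modulo `f` of matrices. -/
abbrev red (f : O) : GL (Fin 2) O →* GL (Fin 2) (O ⧸ Ideal.span {f}) :=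
  Matrix.GeneralLinearGroup.map (Ideal.Quotient.mk (Ideal.span {f}))

/-- reduction modulo `f` on `O[i]`. -/
def redGi (f : O) : Gi O →+* Gi (O ⧸ Ideal.span {f}) where
  toFun z := ⟨Ideal.Quotient.mk _ z.re, Ideal.Quotient.mk _ z.im⟩
  map_one' := by ext <;> simp
  map_mul' z w := by ext <;> simp
  map_zero' := by ext <;> simp
  map_add' z w := by ext <;> simp

/-- `Γ₀(N)` -/
def Gam0 (N : O) : Subgroup (GL (Fin 2) O) where
  carrier := {g | N ∣ g.val 1 0}
  mul_mem' := by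
    intro a b ha hb
    simp only [Set.mem_ofPred_eq] at ha hb ⊢
    rw [Units.val_mul, Matrix.mul_apply, Fin.sum_univ_two]
    exact dvd_add (Dvd.dvd.mul_right ha _) (Dvd.dvd.mul_left hb _)
  one_mem' := by simp
  inv_mem' := by
    intro a ha
    simp only [Set.mem_ofPred_eq] at ha ⊢
    rw [Matrix.coe_units_inv, Matrix.inv_def, Matrix.adjugate_fin_two]
    simp only [Matrix.smul_apply, Matrix.of_apply, Matrix.cons_val', Matrix.cons_val_zero,
      Matrix.cons_val_one, Matrix.cons_val_fin_one, smul_eq_mul]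
    exact Dvd.dvd.mul_left (dvd_neg.mpr ha) _

/-- `Γ⁰(π)` -/
def GamUp (π : O) : Subgroup (GL (Fin 2) O) where
  carrier := {g | π ∣ g.val 0 1}
  mul_mem' := by
    intro a b ha hb
    simp only [Set.mem_ofPred_eq] at ha hb ⊢
    rw [Units.val_mul, Matrix.mul_apply, Fin.sum_univ_two]
    exact dvd_add (Dvd.dvd.mul_left hb _) (Dvd.dvd.mul_right ha _)
  one_mem' := by simp
  inv_mem' := by
    intro a ha
    simp only [Set.mem_ofPred_eq] at ha ⊢
    rw [Matrix.coe_units_inv, Matrix.inv_def, Matrix.adjugate_fin_two]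
    simp only [Matrix.smul_apply, Matrix.of_apply, Matrix.cons_val', Matrix.cons_val_zero,
      Matrix.cons_val_one, Matrix.cons_val_fin_one, smul_eq_mul]
    exact Dvd.dvd.mul_left (dvd_neg.mpr ha) _

theorem mem_Gam0 {N : O} {g : GL (Fin 2) O} : g ∈ Gam0 N ↔ N ∣ g.val 1 0 := Iff.rfl
theorem mem_GamUp {π : O} {g : GL (Fin 2) O} : g ∈ GamUp π ↔ π ∣ g.val 0 1 := Iff.rfl

/-- the matrix `diag(π, 1)` -/
def PM (π : O) : Matrix (Fin 2) (Fin 2) O := !![π, 0; 0, 1]

end reduction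

section cocycles

variable {O : Type*} [CommRing O] {k : Type*} [Field k]

/-- Twisted cocycles: functions `C : GL₂(O) × GL₂(O/f) → k` with the cocycle identity, trivial on
scalars and `χ⁻¹`-equivariant on the right under the torus `(O/f)[i]ˣ`. -/
structure IsCoc (f : O) (χ : (Gi (O ⧸ Ideal.span {f}))ˣ →* kˣ)
    (C : GL (Fin 2) O → GL (Fin 2) (O ⧸ Ideal.span {f}) → k) : Prop where
  coc : ∀ γ γ' y, C (γ * γ') y = C γ y + C γ' ((red f γ)⁻¹ * y)
  scal : ∀ (u : Oˣ) y, C (sc u) y = 0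
  equi : ∀ γ y t, C γ (y * iota t) = ((χ t)⁻¹ : kˣ) * C γ y

/-- A frame at `π`: a system of representatives `s x` of `GL₂(O) / Γ⁰(π)`; the matrices
`s x * diag(π, 1)` represent the lattices of index `π`. -/
structure Frame (π : O) (X : Type) where
  s : X → GL (Fin 2) O
  cover : ∀ g : GL (Fin 2) O, ∃ x, π ∣ ((s x)⁻¹ * g).val 0 1
  sep : ∀ x y, π ∣ ((s x)⁻¹ * s y).val 0 1 → x = y

/-- `y = γ·x` and `g'` is the element with `γ δ_x = δ_y g'`, `δ_x = s x * diag(π,1)`. -/
def Frame.Step {π : O} {X : Type} (F : Frame π X) (γ : GL (Fin 2) O) (x y : X)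
    (g' : GL (Fin 2) O) : Prop :=
  γ.val * (F.s x).val * PM π = (F.s y).val * PM π * g'.val

open Classical in
/-- the permutation `x ↦ γ·x` (junk value if no step exists). -/
noncomputable def Frame.act {π : O} {X : Type} (F : Frame π X) (γ : GL (Fin 2) O) (x : X) : X :=
  if h : ∃ y g', F.Step γ x y g' then h.choose else x

open Classical in
/-- the element `γ_x` with `γ δ_x = δ_{γx} γ_x`. -/
noncomputable def Frame.gam {π : O} {X : Type} (F : Frame π X) (γ : GL (Fin 2) O) (x : X) :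
    GL (Fin 2) O :=
  if h : ∃ g', F.Step γ x (F.act γ x) g' then h.choose else 1

/-- The Hecke operator on functions `GL₂(O) × GL₂(O/f) → k` defined by a frame;
`ϖ` is the class of `π` in `(O/f)ˣ`. -/
noncomputable def heckeC {π : O} {X : Type} [Fintype X] (F : Frame π X) (f : O)
    (ϖ : (O ⧸ Ideal.span {f})ˣ)
    (C : GL (Fin 2) O → GL (Fin 2) (O ⧸ Ideal.span {f}) → k) :
    GL (Fin 2) O → GL (Fin 2) (O ⧸ Ideal.span {f}) → k :=
  fun γ y => ∑ x, C (F.gam γ x) ((red f (F.s (F.act γ x)) * dgl ϖ)⁻¹ * y)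

/-- The property used in the joint injectivity statement, for a finite ring `R`. -/
def PropV (R : Type*) [CommRing R] (k : Type*) [Field k] : Prop :=
  ∀ χ : (Gi R)ˣ →* kˣ, (∀ u : Rˣ, χ (giC u) = 1) →
    (∀ 𝔞 : Ideal R, 𝔞 ≠ ⊥ → ∃ t : (Gi R)ˣ, t.val.re - 1 ∈ 𝔞 ∧ t.val.im ∈ 𝔞 ∧ χ t ≠ 1) →
    ∀ v : GL (Fin 2) R → k, (∀ y t, v (y * iota t) = ((χ t)⁻¹ : kˣ) * v y) →
      (∀ g a : GL (Fin 2) R, Matrix.GeneralLinearGroup.det g = 1 →
        ∑ᶠ r : Rˣ, v (g * dg r * a) = 0) → v = 0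

end cocycles

section eisenstein

/-- `ω` as an element of `E`. -/
abbrev om : E := ⟨0, 1⟩

/-- the unit `ω` of `E`. -/
def omu : Eˣ := ⟨⟨0, 1⟩, ⟨1, -1⟩, by ext <;> simp, by ext <;> simp⟩

/-- `m = [[-1, 1], [0, 1]]` -/
def mm : GL (Fin 2) E := mk2 (-1) 1 0 1 (-1) (by simp)

/-- `c = diag(ω, 1)` -/
def cc : GL (Fin 2) E := dgl omu

/-- the fundamental unit `ω + i` of `E[i]`, as the matrix `[[ω, -1], [1, ω]]` of determinant `ω`. -/
def eta : GL (Fin 2) E := mk2 om (-1) 1 om omu (by ext <;> simp [omu])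

/-- the generators `ρ₀ = w`, `ρ₁ = m`, `ρ₂ = c`, `ρ₃ = 1` of the rotation group of `[3,3,6]`. -/
def rho : Fin 4 → GL (Fin 2) E := ![w0, mm, cc, 1]

/-- the rotations `x_{ij} = ρ_i ρ_j⁻¹`. -/
def xx (i j : Fin 4) : GL (Fin 2) E := rho i * (rho j)⁻¹

/-- the orders `m_{ij}` of `x_{ij}` modulo scalars (only used for `i < j`). -/
def mo (i j : Fin 4) : ℕ :=
  if i = 0 ∧ j = 1 then 3 else if i = 1 ∧ j = 2 then 3 else if i = 2 ∧ j = 3 then 6 else 2

end eisenstein

end SerreE
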