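import Pool.Agent.Serre.Basic

/-!
# FAREY : potentials on the Farey complex of `GL₂(ℤ[ω])`
-/

open Matrix
open scoped QuadraticAlgebra

namespace SerreE

section fareyaux

/-- determinant of the matrix with columns `v`, `w`. -/
def fdet (v w : E × E) : E := v.1 * w.2 - w.1 * v.2

/-- the height of a vector -/
def fht (v : E × E) : ℕ := v.2.norm.natAbs

variable {k : Type*} [Field k]

open Classical in
/-- the edge function on pairs of vectors -/
noncomputable def fS (σ : GL (Fin 2) E → k) (v w : E × E) : k :=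
  if h : IsUnit (fdet v w) then
    σ (mk2 v.1 w.1 v.2 w.2 h.unit (by rw [IsUnit.unit_spec]; rfl)) else 0

theorem fS_of (σ : GL (Fin 2) E → k) (v w : E × E) (u : Eˣ)
    (h : v.1 * w.2 - w.1 * v.2 = u) : fS σ v w = σ (mk2 v.1 w.1 v.2 w.2 u h) := by
  have h1 : IsUnit (fdet v w) := ⟨u, h.symm⟩
  rw [fS, dif_pos h1]
  congr 1
  apply Matrix.GeneralLinearGroup.ext
  intro i j
  fin_cases i <;> fin_cases j <;> rfl

theorem fS_mat (σ : GL (Fin 2) E → k) (v w : E × E) (A : GL (Fin 2) E)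
    (h0 : A.val 0 0 = v.1) (h1 : A.val 0 1 = w.1) (h2 : A.val 1 0 = v.2)
    (h3 : A.val 1 1 = w.2) : fS σ v w = σ A := by
  have h : v.1 * w.2 - w.1 * v.2 = (Matrix.GeneralLinearGroup.det A : Eˣ) := by
    rw [Matrix.GeneralLinearGroup.val_det_apply, Matrix.det_fin_two, h0, h1, h2, h3]
  rw [fS_of σ v w _ h]
  congr 1
  apply Matrix.GeneralLinearGroup.ext
  intro i j
  fin_cases i <;> fin_cases j
  · exact h0.symm
  · exact h1.symm
  · exact h2.symm
  · exact h3.symm

theorem dgl_pow (n : ℕ) : dgl (omu ^ n) = cc ^ n := by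
  induction n with
  | zero =>
    rw [pow_zero, pow_zero]
    apply Matrix.GeneralLinearGroup.ext
    intro i j
    fin_cases i <;> fin_cases j <;> simp [dgl, mk2]
  | succ n ih =>
    rw [pow_succ cc, ← ih]
    apply Matrix.GeneralLinearGroup.ext
    intro i j
    fin_cases i <;> fin_cases j <;>
      simp [dgl, cc, mk2, pow_succ]

omit [Field k] in
theorem sig_dgl (σ : GL (Fin 2) E → k) (hc : ∀ A, σ (A * cc) = σ A) (A : GL (Fin 2) E)
    (u : Eˣ) : σ (A * dgl u) = σ A := by
  obtain ⟨n, -, rfl⟩ := E_unit_cases u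
  rw [dgl_pow]
  induction n with
  | zero => simp
  | succ n ih => rw [pow_succ, ← mul_assoc, hc, ih]

theorem fS_symm (σ : GL (Fin 2) E → k) (hw : ∀ A, σ (A * w0) = σ A) (v w : E × E)
    (hd : IsUnit (fdet v w)) : fS σ v w = fS σ w v := by
  obtain ⟨u, hu⟩ := hd
  have h1 := fS_of σ v w u (by rw [hu]; rfl)
  rw [h1, ← hw]
  symm
  apply fS_mat <;> simp [w0, mk2]

theorem fS_smul_left (σ : GL (Fin 2) E → k) (hc : ∀ A, σ (A * cc) = σ A) (v w : E × E)
    (hd : IsUnit (fdet v w)) (u : Eˣ) :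
    fS σ ((u : E) * v.1, (u : E) * v.2) w = fS σ v w := by
  obtain ⟨d, hd⟩ := hd
  have h1 := fS_of σ v w d (by rw [hd]; rfl)
  rw [h1, ← sig_dgl σ hc _ u]
  apply fS_mat <;> simp [dgl, mk2, mul_comm]

theorem fS_smul_right (σ : GL (Fin 2) E → k) (hc : ∀ A, σ (A * cc) = σ A)
    (hw : ∀ A, σ (A * w0) = σ A) (v w : E × E)
    (hd : IsUnit (fdet v w)) (u : Eˣ) :
    fS σ v ((u : E) * w.1, (u : E) * w.2) = fS σ v w := by
  have hd' : IsUnit (fdet w v) := by
    have : fdet w v = - fdet v w := by simp only [fdet]; ring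
    rw [this]; exact hd.neg
  have hd2 : IsUnit (fdet v ((u : E) * w.1, (u : E) * w.2)) := by
    have : fdet v ((u : E) * w.1, (u : E) * w.2) = (u : E) * fdet v w := by
      simp only [fdet]; ring
    rw [this]; exact u.isUnit.mul hd
  rw [fS_symm σ hw _ _ hd2, fS_smul_left σ hc w v hd' u, fS_symm σ hw _ _ hd']

/-- `w + u v` -/
def fadd (v w : E × E) (t : E) : E × E := (w.1 + t * v.1, w.2 + t * v.2)

theorem fdet_fadd_left (v w : E × E) (t : E) : fdet v (fadd v w t) = fdet v w := by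
  simp only [fdet, fadd]; ring

theorem fdet_fadd_right (v w : E × E) (t : E) : fdet w (fadd v w t) = - (t * fdet v w) := by
  simp only [fdet, fadd]; ring

theorem fS_tri (σ : GL (Fin 2) E → k) (hc : ∀ A, σ (A * cc) = σ A)
    (hw : ∀ A, σ (A * w0) = σ A)
    (ht : ∀ A, σ A + σ (A * (w0 * mm)) + σ (A * (w0 * mm) ^ 2) = 0) (v w : E × E)
    (hd : IsUnit (fdet v w)) (u : Eˣ) :
    fS σ v w + fS σ w (fadd v w u) + fS σ v (fadd v w u) = 0 := by
  have hdu : IsUnit (fdet ((u : E) * v.1, (u : E) * v.2) w) := by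
    have : fdet ((u : E) * v.1, (u : E) * v.2) w = (u : E) * fdet v w := by
      simp only [fdet]; ring
    rw [this]; exact u.isUnit.mul hd
  obtain ⟨d, hd0⟩ := hdu
  have h1 := fS_of σ ((u : E) * v.1, (u : E) * v.2) w d (by rw [hd0]; rfl)
  rw [fS_smul_left σ hc v w hd u] at h1
  have h2 := ht (mk2 ((u : E) * v.1, (u : E) * v.2).1 w.1 ((u : E) * v.1, (u : E) * v.2).2 w.2 d
    (by rw [hd0]; rfl))
  rw [← h1] at h2
  have d1 : IsUnit (fdet w (fadd v w u)) := by
    rw [fdet_fadd_right]; exact (u.isUnit.mul hd).neg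
  have d2 : IsUnit (fdet v (fadd v w u)) := by
    rw [fdet_fadd_left]; exact hd
  have e1 : fS σ w (fadd v w u) = σ (mk2 ((u : E) * v.1, (u : E) * v.2).1 w.1
      ((u : E) * v.1, (u : E) * v.2).2 w.2 d (by rw [hd0]; rfl) * (w0 * mm)) := by
    rw [← fS_smul_left σ hc w _ d1 (-1)]
    apply fS_mat <;> simp [w0, mm, mk2, fadd, add_comm]
  have e2 : fS σ v (fadd v w u) = σ (mk2 ((u : E) * v.1, (u : E) * v.2).1 w.1
      ((u : E) * v.1, (u : E) * v.2).2 w.2 d (by rw [hd0]; rfl) * (w0 * mm) ^ 2) := by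
    have d3 : IsUnit (fdet (fadd v w u) v) := by
      have : fdet (fadd v w u) v = - fdet v (fadd v w u) := by simp only [fdet]; ring
      rw [this]; exact d2.neg
    have d4 : IsUnit (fdet (((-1 : Eˣ) : E) * (fadd v w u).1, ((-1 : Eˣ) : E) * (fadd v w u).2) v)
        := by
      have : fdet (((-1 : Eˣ) : E) * (fadd v w u).1, ((-1 : Eˣ) : E) * (fadd v w u).2) v =
        - fdet (fadd v w u) v := by simp only [fdet]; simp; ring
      rw [this]; exact d3.neg
    rw [fS_symm σ hw _ _ d2, ← fS_smul_left σ hc _ _ d3 (-1),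
      ← fS_smul_right σ hc hw _ _ d4 u]
    apply fS_mat <;> simp [w0, mm, mk2, fadd, pow_two]
  rw [e1, e2]
  exact h2

open Classical in
/-- the potential, by descent on the height -/
noncomputable def FF (σ : GL (Fin 2) E → k) (v : E × E) : k :=
  if h : ∃ w, IsUnit (fdet v w) ∧ fht w < fht v then FF σ h.choose + fS σ v h.choose else 0
termination_by fht v
decreasing_by exact h.choose_spec.2

theorem FF_low (σ : GL (Fin 2) E → k) (v : E × E)
    (h : ∃ w, IsUnit (fdet v w) ∧ fht w < fht v) :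
    ∃ w, IsUnit (fdet v w) ∧ fht w < fht v ∧ FF σ v = FF σ w + fS σ v w := by
  refine ⟨h.choose, h.choose_spec.1, h.choose_spec.2, ?_⟩
  conv_lhs => rw [FF]
  rw [dif_pos h]

theorem FF_zero (σ : GL (Fin 2) E → k) (v : E × E) (h : fht v = 0) : FF σ v = 0 := by
  rw [FF, dif_neg]
  rintro ⟨w, -, hw⟩
  omega

theorem fht_lt_iff {v w : E × E} : fht v < fht w ↔ v.2.norm < w.2.norm := by
  have h1 := E_norm_nonneg v.2
  have h2 := E_norm_nonneg w.2
  unfold fht
  omega

theorem fht_eq_iff {v w : E × E} : fht v = fht w ↔ v.2.norm = w.2.norm := by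
  have h1 := E_norm_nonneg v.2
  have h2 := E_norm_nonneg w.2
  unfold fht
  omega

/-- existence of a lower neighbour -/
theorem exists_low (v w : E × E) (hd : IsUnit (fdet v w)) (h : 0 < fht v) :
    ∃ w', IsUnit (fdet v w') ∧ fht w' < fht v := by
  have hb : v.2 ≠ 0 := by
    intro hb
    unfold fht at h
    rw [hb] at h
    simp at h
  obtain ⟨q, hq⟩ := E_div w.2 v.2 hb
  refine ⟨fadd v w (-q), by rw [fdet_fadd_left]; exact hd, ?_⟩
  rw [fht_lt_iff]
  have e : (fadd v w (-q)).2 = w.2 - v.2 * q := by simp only [fadd]; ring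
  rw [e]
  have := E_norm_pos hb
  omega

theorem E_par (a b : E) : (a + b).norm + (a - b).norm = 2 * a.norm + 2 * b.norm := by
  simp only [E_norm_def, QuadraticAlgebra.re_add, QuadraticAlgebra.im_add,
    QuadraticAlgebra.re_sub, QuadraticAlgebra.im_sub]
  ring

theorem E_norm_ne_two (t : E) : t.norm ≠ 2 := by
  rw [E_norm_def]
  intro h
  have hx1 : t.re ^ 2 ≤ 2 := by nlinarith [sq_nonneg (t.re + 2 * t.im)]
  have hy1 : t.im ^ 2 ≤ 2 := by nlinarith [sq_nonneg (2 * t.re + t.im)]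
  have a1 : -1 ≤ t.re := by nlinarith
  have a2 : t.re ≤ 1 := by nlinarith
  have b1 : -1 ≤ t.im := by nlinarith
  have b2 : t.im ≤ 1 := by nlinarith
  generalize t.re = x at *
  generalize t.im = y at *
  interval_cases x <;> interval_cases y <;> simp_all

theorem E_norm_three (t : E) (h : t.norm = 3) :
    ∃ u u' : Eˣ, t = (u : E) + u' ∧ ((u : E) - u').norm = 1 := by
  rw [E_norm_def] at h
  have hx1 : t.re ^ 2 ≤ 4 := by nlinarith [sq_nonneg (t.re + 2 * t.im)]
  have hy1 : t.im ^ 2 ≤ 4 := by nlinarith [sq_nonneg (2 * t.re + t.im)]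
  have a1 : -2 ≤ t.re := by nlinarith
  have a2 : t.re ≤ 2 := by nlinarith
  have b1 : -2 ≤ t.im := by nlinarith
  have b2 : t.im ≤ 2 := by nlinarith
  have key : ∀ x y : ℤ, -2 ≤ x → x ≤ 2 → -2 ≤ y → y ≤ 2 → x ^ 2 + x * y + y ^ 2 = 3 →
      (x = 1 ∧ y = 1) ∨ (x = -1 ∧ y = 2) ∨ (x = -2 ∧ y = 1) ∨ (x = -1 ∧ y = -1) ∨
      (x = 1 ∧ y = -2) ∨ (x = 2 ∧ y = -1) := by
    intro x y h1 h2 h3 h4 h5
    interval_cases x <;> interval_cases y <;> simp_all
  have hn : ((1 : E) - om).norm = 1 := by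
    rw [E_norm_def]; simp
  have main : ∀ n : ℕ, t = (omu : E) ^ n + (omu : E) ^ (n + 1) →
      ∃ u u' : Eˣ, t = (u : E) + u' ∧ ((u : E) - u').norm = 1 := by
    intro n hn'
    refine ⟨omu ^ n, omu ^ (n + 1), by rw [hn']; push_cast; ring, ?_⟩
    have e : (((omu ^ n : Eˣ) : E) - ((omu ^ (n + 1) : Eˣ) : E)) = ((omu ^ n : Eˣ) : E) * (1 - om)
        := by
      push_cast
      have : (omu : E) = om := rfl
      rw [pow_succ, this]; ring
    rw [e, map_mul, hn, mul_one]
    exact E_isUnit_iff.mp (omu ^ n : Eˣ).isUnit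
  rcases key t.re t.im a1 a2 b1 b2 h with h | h | h | h | h | h
  · exact main 0 (by ext <;> simp [h.1, h.2, omu])
  · exact main 1 (by ext <;> simp [h.1, h.2, omu, pow_succ])
  · exact main 2 (by ext <;> simp [h.1, h.2, omu, pow_succ])
  · exact main 3 (by ext <;> simp [h.1, h.2, omu, pow_succ])
  · exact main 4 (by ext <;> simp [h.1, h.2, omu, pow_succ])
  · exact main 5 (by ext <;> simp [h.1, h.2, omu, pow_succ])

/-- the edge relation up to height `n` -/
def FEdge (σ : GL (Fin 2) E → k) (n : ℕ) : Prop :=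
  ∀ x y, IsUnit (fdet x y) → fht x < n → fht y < n → FF σ x + FF σ y = fS σ x y

theorem fht_smul (v : E × E) (u : Eˣ) : fht ((u : E) * v.1, (u : E) * v.2) = fht v := by
  rw [fht_eq_iff]
  change ((u : E) * v.2).norm = _
  rw [map_mul, E_isUnit_iff.mp u.isUnit, one_mul]

theorem fdet_smul (v w : E × E) (u : Eˣ) :
    fdet v ((u : E) * w.1, (u : E) * w.2) = (u : E) * fdet v w := by
  simp only [fdet]; ring

theorem fdet_smul' (v w : E × E) (u : Eˣ) :
    fdet ((u : E) * v.1, (u : E) * v.2) w = (u : E) * fdet v w := by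
  simp only [fdet]; ring

theorem fdet_symm (v w : E × E) : fdet w v = - fdet v w := by
  simp only [fdet]; ring

variable [CharP k 2]

theorem char2_eq {a b c : k} (h : a + b = c) : a = b + c := by
  rw [← h, add_comm a b, ← add_assoc, CharTwo.add_self_eq_zero, zero_add]

theorem FF_unit (σ : GL (Fin 2) E → k) (hc : ∀ A, σ (A * cc) = σ A) (n : ℕ)
    (hE : FEdge σ n) (y : E × E) (w : E × E)
    (hd : IsUnit (fdet y w)) (hy : fht y < n) (u : Eˣ) :
    FF σ ((u : E) * y.1, (u : E) * y.2) = FF σ y := by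
  rcases Nat.eq_zero_or_pos (fht y) with h0 | h0
  · rw [FF_zero σ y h0, FF_zero σ _ (by rw [fht_smul]; exact h0)]
  · have hd1 : IsUnit (fdet ((u : E) * y.1, (u : E) * y.2) w) := by
      rw [fdet_smul']; exact u.isUnit.mul hd
    obtain ⟨w', hw1, hw2, hw3⟩ := FF_low σ ((u : E) * y.1, (u : E) * y.2)
      (exists_low _ w hd1 (by rw [fht_smul]; exact h0))
    rw [fht_smul] at hw2
    have hw4 : IsUnit (fdet y w') := by
      rw [fdet_smul'] at hw1
      exact isUnit_of_mul_isUnit_right hw1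
    rw [hw3, fS_smul_left σ hc y w' hw4 u]
    exact (char2_eq (hE y w' hw4 hy (by omega))).symm

theorem FF_step (σ : GL (Fin 2) E → k) (hc : ∀ A, σ (A * cc) = σ A)
    (hw : ∀ A, σ (A * w0) = σ A)
    (ht : ∀ A, σ A + σ (A * (w0 * mm)) + σ (A * (w0 * mm) ^ 2) = 0) (n : ℕ)
    (hE : FEdge σ n) (x y : E × E) (hd : IsUnit (fdet x y)) (hy : fht y < n) (u : Eˣ)
    (hy' : fht (fadd x y u) < n) :
    FF σ y + fS σ x y = FF σ (fadd x y u) + fS σ x (fadd x y u) := by
  have h1 := fS_tri σ hc hw ht x y hd u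
  have h2 := hE y (fadd x y u) (by rw [fdet_fadd_right]; exact (u.isUnit.mul hd).neg) hy hy'
  have h3 : (fS σ x y + fS σ y (fadd x y u) + fS σ x (fadd x y u)) + (FF σ y + FF σ y) +
      (fS σ x (fadd x y u) + fS σ x (fadd x y u)) = 0 := by
    rw [h1, CharTwo.add_self_eq_zero (FF σ y),
      CharTwo.add_self_eq_zero (fS σ x (fadd x y u)), add_zero, add_zero]
  rw [← h2] at h3
  have h4 : (FF σ y + fS σ x y) + (FF σ (fadd x y u) + fS σ x (fadd x y u)) = 0 := by
    have e : fS σ x y + (FF σ y + FF σ (fadd x y u)) + fS σ x (fadd x y u) + (FF σ y + FF σ y) +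
      (fS σ x (fadd x y u) + fS σ x (fadd x y u)) =
      ((FF σ y + fS σ x y) + (FF σ (fadd x y u) + fS σ x (fadd x y u))) + (FF σ y + FF σ y) +
      (fS σ x (fadd x y u) + fS σ x (fadd x y u)) := by ring
    rw [e, CharTwo.add_self_eq_zero, CharTwo.add_self_eq_zero] at h3
    simpa using h3
  exact CharTwo.add_eq_zero.mp h4

theorem FF_indep (σ : GL (Fin 2) E → k) (hc : ∀ A, σ (A * cc) = σ A)
    (hw : ∀ A, σ (A * w0) = σ A)
    (ht : ∀ A, σ A + σ (A * (w0 * mm)) + σ (A * (w0 * mm) ^ 2) = 0) (n : ℕ)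
    (hE : FEdge σ n) (x y y' : E × E) (hx : fht x = n) (hd : IsUnit (fdet x y))
    (hd' : IsUnit (fdet x y')) (hy : fht y < n) (hy' : fht y' < n) :
    FF σ y + fS σ x y = FF σ y' + fS σ x y' := by
  obtain ⟨d, hd0⟩ := hd
  obtain ⟨d', hd0'⟩ := hd'
  have hd : IsUnit (fdet x y) := ⟨d, hd0⟩
  have hd' : IsUnit (fdet x y') := ⟨d', hd0'⟩
  set u : Eˣ := d * d'⁻¹ with hu
  set z : E × E := ((u : E) * y'.1, (u : E) * y'.2) with hz
  have hz1 : fdet x z = d := by
    rw [hz, fdet_smul, ← hd0', hu]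
    push_cast
    rw [mul_assoc, Units.inv_mul, mul_one]
  have hz2 : fht z < n := by rw [hz, fht_smul]; exact hy'
  have hz3 : FF σ z = FF σ y' := FF_unit σ hc n hE y' x (by rw [fdet_symm]; exact hd'.neg) hy' u
  have hz4 : fS σ x z = fS σ x y' := fS_smul_right σ hc hw x y' hd' u
  rw [← hz3, ← hz4]
  clear_value z u
  -- z = y + t x
  set t : E := ((d⁻¹ : Eˣ) : E) * ((z.1 - y.1) * y.2 - y.1 * (z.2 - y.2)) with htt
  have hdz : x.1 * (z.2 - y.2) - (z.1 - y.1) * x.2 = 0 := by
    have e1 : fdet x z - fdet x y = 0 := by rw [hz1, hd0]; ring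
    simp only [fdet] at e1
    linear_combination e1
  have hdd : ((d⁻¹ : Eˣ) : E) * (x.1 * y.2 - y.1 * x.2) = 1 := by
    have : x.1 * y.2 - y.1 * x.2 = (d : E) := by rw [hd0]; rfl
    rw [this, Units.inv_mul]
  have ht1 : z = fadd x y t := by
    apply Prod.ext
    · simp only [fadd, htt]
      linear_combination (-(z.1 - y.1)) * hdd + (((d⁻¹ : Eˣ) : E) * y.1) * hdz
    · simp only [fadd, htt]
      linear_combination (-(z.2 - y.2)) * hdd + (((d⁻¹ : Eˣ) : E) * y.2) * hdz
  clear_value t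
  subst ht1
  have hN1 : y.2.norm < x.2.norm := by rw [← fht_lt_iff]; omega
  have hN2 : (y.2 + t * x.2).norm < x.2.norm := by
    have : fht (fadd x y t) < fht x := by omega
    rw [fht_lt_iff] at this
    exact this
  have hxp : 0 < x.2.norm := by
    have := E_norm_nonneg y.2
    omega
  have hpar := E_par (y.2 + t * x.2) y.2
  have e1 : (y.2 + t * x.2) - y.2 = t * x.2 := by ring
  rw [e1, map_mul] at hpar
  have hnn := E_norm_nonneg (y.2 + t * x.2 + y.2)
  have htn : t.norm < 4 := by nlinarith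
  have htn0 := E_norm_nonneg t
  have htn2 := E_norm_ne_two t
  have hcases : t.norm = 0 ∨ t.norm = 1 ∨ t.norm = 3 := by omega
  rcases hcases with h | h | h
  · rw [E_norm_eq_zero] at h
    subst h
    have : fadd x y 0 = y := by simp [fadd]
    rw [this]
  · obtain ⟨v, hv⟩ := E_isUnit_iff.mpr h
    rw [← hv] at hz2 ⊢
    exact FF_step σ hc hw ht n hE x y hd hy v hz2
  · obtain ⟨v, v', hv, hvn⟩ := E_norm_three t h
    -- the middle vertex
    have hpar2 := E_par (2 * y.2 + t * x.2) (((v : E) - v') * x.2)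
    have e2 : 2 * y.2 + t * x.2 + ((v : E) - v') * x.2 = 2 * (y.2 + v * x.2) := by
      rw [hv]; ring
    have e3 : 2 * y.2 + t * x.2 - ((v : E) - v') * x.2 = 2 * (y.2 + v' * x.2) := by
      rw [hv]; ring
    have e4 : y.2 + t * x.2 + y.2 = 2 * y.2 + t * x.2 := by ring
    rw [e2, e3, map_mul, map_mul, map_mul, hvn] at hpar2
    rw [e4, h] at hpar
    have n2 : (2 : E).norm = 4 := by
      have : (2 : E) = ⟨2, 0⟩ := by ext <;> simp
      rw [this, E_norm_def]; norm_num
    rw [n2] at hpar2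
    have hm2 := E_norm_nonneg (y.2 + v' * x.2)
    have hmid : (y.2 + v * x.2).norm < x.2.norm := by linarith
    have hmid' : fht (fadd x y v) < n := by
      rw [← hx, fht_lt_iff]; exact hmid
    have s1 := FF_step σ hc hw ht n hE x y hd hy v hmid'
    have e5 : fadd x y t = fadd x (fadd x y v) v' := by
      rw [hv]
      simp only [fadd]
      apply Prod.ext <;> ring
    have s2 := FF_step σ hc hw ht n hE x (fadd x y v) (by rw [fdet_fadd_left]; exact hd) hmid'
      v' (by rw [← e5]; exact hz2)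
    rw [s1, s2, e5]

theorem FEdge_mixed (σ : GL (Fin 2) E → k) (hc : ∀ A, σ (A * cc) = σ A)
    (hw : ∀ A, σ (A * w0) = σ A)
    (ht : ∀ A, σ A + σ (A * (w0 * mm)) + σ (A * (w0 * mm) ^ 2) = 0) (n : ℕ)
    (hE : FEdge σ n) (x y : E × E) (hx : fht x = n) (hd : IsUnit (fdet x y)) (hy : fht y < n) :
    FF σ x + FF σ y = fS σ x y := by
  obtain ⟨w, h1, h2, h3⟩ := FF_low σ x ⟨y, hd, by omega⟩
  rw [h3, FF_indep σ hc hw ht n hE x w y hx h1 hd (by omega) hy]
  have : FF σ y + fS σ x y + FF σ y = fS σ x y + (FF σ y + FF σ y) := by ring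
  rw [this, CharTwo.add_self_eq_zero, add_zero]

theorem FEdge_all (σ : GL (Fin 2) E → k) (hc : ∀ A, σ (A * cc) = σ A)
    (hw : ∀ A, σ (A * w0) = σ A)
    (ht : ∀ A, σ A + σ (A * (w0 * mm)) + σ (A * (w0 * mm) ^ 2) = 0) (n : ℕ) : FEdge σ n := by
  induction n with
  | zero => intro x y _ hx _; omega
  | succ n hE =>
    intro x y hd hx hy
    have hd' : IsUnit (fdet y x) := by rw [fdet_symm]; exact hd.neg
    rcases Nat.lt_or_ge (fht x) n with hx1 | hx1
    · rcases Nat.lt_or_ge (fht y) n with hy1 | hy1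
      · exact hE x y hd hx1 hy1
      · rw [fS_symm σ hw x y hd, add_comm]
        exact FEdge_mixed σ hc hw ht n hE y x (by omega) hd' hx1
    · rcases Nat.lt_or_ge (fht y) n with hy1 | hy1
      · exact FEdge_mixed σ hc hw ht n hE x y (by omega) hd hy1
      · have hx2 : fht x = n := by omega
        have hy2 : fht y = n := by omega
        have hxy : x.2.norm = y.2.norm := by rw [← fht_eq_iff]; omega
        have hx0 : x.2 ≠ 0 := by
          intro h0
          have h1 : y.2 = 0 := by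
            rw [← E_norm_eq_zero, ← hxy, h0]; simp
          rw [fdet, h0, h1] at hd
          simp at hd
        have hxp := E_norm_pos hx0
        obtain ⟨q, hq⟩ := E_div y.2 x.2 hx0
        -- q is a unit
        have hpar := E_par y.2 (y.2 - x.2 * q)
        have e1 : y.2 - (y.2 - x.2 * q) = x.2 * q := by ring
        rw [e1, map_mul] at hpar
        have hnn := E_norm_nonneg (y.2 + (y.2 - x.2 * q))
        have hqn : q.norm < 3 := by nlinarith
        have hqn0 := E_norm_nonneg q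
        have hqn2 := E_norm_ne_two q
        have hqz : q.norm ≠ 0 := by
          intro h0
          rw [E_norm_eq_zero] at h0
          rw [h0, mul_zero, sub_zero] at hq
          omega
        have hq1 : q.norm = 1 := by omega
        obtain ⟨v, hv⟩ := E_isUnit_iff.mpr hq1
        have hfv : (fadd x y ((-v : Eˣ) : E)).2 = y.2 - x.2 * q := by
          simp only [fadd]; push_cast; rw [hv]; ring
        have hwl : fht (fadd x y ((-v : Eˣ) : E)) < n := by
          rw [← hx2, fht_lt_iff, hfv]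
          omega
        have d1 : IsUnit (fdet x (fadd x y ((-v : Eˣ) : E))) := by
          rw [fdet_fadd_left]; exact hd
        have d2 : IsUnit (fdet y (fadd x y ((-v : Eˣ) : E))) := by
          rw [fdet_fadd_right]; exact ((-v).isUnit.mul hd).neg
        have s1 := FEdge_mixed σ hc hw ht n hE x _ hx2 d1 hwl
        have s2 := FEdge_mixed σ hc hw ht n hE y _ hy2 d2 hwl
        have s3 := fS_tri σ hc hw ht x y hd (-v)
        rw [← s1, ← s2] at s3
        have s4 : fS σ x y + (FF σ x + FF σ y) = 0 := by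
          have e : fS σ x y + (FF σ y + FF σ (fadd x y ((-v : Eˣ) : E))) +
            (FF σ x + FF σ (fadd x y ((-v : Eˣ) : E))) =
            fS σ x y + (FF σ x + FF σ y) + (FF σ (fadd x y ((-v : Eˣ) : E)) +
              FF σ (fadd x y ((-v : Eˣ) : E))) := by ring
          rw [e, CharTwo.add_self_eq_zero, add_zero] at s3
          exact s3
        exact (CharTwo.add_eq_zero.mp s4).symm

end fareyaux

section
variable {k : Type*} [Field k] [CharP k 2]
theorem farey (σ : GL (Fin 2) E → k) (hs : ∀ A (u : Eˣ), σ (A * sc u) = σ A)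
    (hc : ∀ A, σ (A * cc) = σ A) (hw : ∀ A, σ (A * w0) = σ A)
    (ht : ∀ A, σ A + σ (A * (w0 * mm)) + σ (A * (w0 * mm) ^ 2) = 0) :
    ∃ F : GL (Fin 2) E → k, (∀ A (u : Eˣ), F (A * sc u) = F A) ∧ (∀ A, F (A * mm) = F A) ∧
      (∀ A, F (A * cc) = F A) ∧ (∀ A, F A + F (A * w0) = σ A) := by
  have hE := FEdge_all σ hc hw ht
  have hdet : ∀ A : GL (Fin 2) E, IsUnit (fdet (A.val 0 0, A.val 1 0) (A.val 0 1, A.val 1 1)) := by
    intro A
    refine ⟨Matrix.GeneralLinearGroup.det A, ?_⟩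
    rw [Matrix.GeneralLinearGroup.val_det_apply, Matrix.det_fin_two]
    rfl
  have key : ∀ (A B : GL (Fin 2) E) (u : Eˣ), B.val 0 0 = u * A.val 0 0 →
      B.val 1 0 = u * A.val 1 0 →
      FF σ (B.val 0 0, B.val 1 0) = FF σ (A.val 0 0, A.val 1 0) := by
    intro A B u h0 h1
    rw [h0, h1]
    exact FF_unit σ hc _ (hE (fht (A.val 0 0, A.val 1 0) + 1)) (A.val 0 0, A.val 1 0)
      (A.val 0 1, A.val 1 1) (hdet A) (by omega) u
  refine ⟨fun A => FF σ (A.val 0 0, A.val 1 0), ?_, ?_, ?_, ?_⟩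
  · intro A u
    exact key A _ u (by simp [Matrix.mul_apply, Fin.sum_univ_two, mul_comm])
      (by simp [Matrix.mul_apply, Fin.sum_univ_two, mul_comm])
  · intro A
    exact key A _ (-1) (by simp [mm, mk2, Matrix.mul_apply, Fin.sum_univ_two])
      (by simp [mm, mk2, Matrix.mul_apply, Fin.sum_univ_two])
  · intro A
    exact key A _ omu (by simp [cc, dgl, mk2, Matrix.mul_apply, Fin.sum_univ_two, mul_comm])
      (by simp [cc, dgl, mk2, Matrix.mul_apply, Fin.sum_univ_two, mul_comm])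
  · intro A
    have e : ((A * w0).val 0 0, (A * w0).val 1 0) = (A.val 0 1, A.val 1 1) := by
      simp [w0, mk2, Matrix.mul_apply, Fin.sum_univ_two]
    change FF σ (A.val 0 0, A.val 1 0) + FF σ ((A * w0).val 0 0, (A * w0).val 1 0) = σ A
    rw [e, hE (max (fht (A.val 0 0, A.val 1 0)) (fht (A.val 0 1, A.val 1 1)) + 1) _ _ (hdet A)
      (by omega) (by omega)]
    exact fS_mat σ _ _ A rfl rfl rfl rfl
end

end SerreE
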