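import Pool.Agent.Serre.BOREL
import Pool.Agent.Serre.FAREY

open Matrix
open scoped QuadraticAlgebra

namespace SerreE

namespace EX

theorem glext {A B : GL (Fin 2) E} (h00 : A.val 0 0 = B.val 0 0) (h01 : A.val 0 1 = B.val 0 1)
    (h10 : A.val 1 0 = B.val 1 0) (h11 : A.val 1 1 = B.val 1 1) : A = B := by
  apply Matrix.GeneralLinearGroup.ext
  intro i j
  fin_cases i <;> fin_cases j
  · exact h00
  · exact h01
  · exact h10
  · exact h11

theorem sc_comm (u : Eˣ) (A : GL (Fin 2) E) : sc u * A = A * sc u := by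
  apply glext <;>
    simp [Matrix.mul_apply, Fin.sum_univ_two, mul_comm]

theorem w0_sq : (w0 : GL (Fin 2) E) * w0 = 1 := by
  apply glext <;> simp [w0, Matrix.mul_apply, Fin.sum_univ_two]

theorem mm_sq : mm * mm = 1 := by
  apply glext <;> simp [mm, Matrix.mul_apply, Fin.sum_univ_two]

theorem mm_inv : mm⁻¹ = mm := inv_eq_of_mul_eq_one_left mm_sq

theorem omu_pow : (omu : Eˣ) ^ 6 = 1 := by
  apply Units.ext
  ext <;> simp [omu, pow_succ]

theorem cc_pow : cc ^ 6 = 1 := by
  apply glext <;> simp [cc, dgl, Matrix.mul_apply, Fin.sum_univ_two, pow_succ, omu, QuadraticAlgebra.ext_iff]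

theorem cc_w0 : cc * w0 = w0 * cc⁻¹ * sc omu := by
  have h : cc * w0 * cc = w0 * sc omu := by
    apply glext <;> simp [cc, dgl, w0, Matrix.mul_apply, Fin.sum_univ_two]
  calc cc * w0 = (cc * w0 * cc) * cc⁻¹ := by group
    _ = w0 * (sc omu * cc⁻¹) := by rw [h, mul_assoc]
    _ = w0 * cc⁻¹ * sc omu := by rw [sc_comm, mul_assoc]

theorem w0mm_pow : (w0 * mm) ^ 3 = sc (-1 : Eˣ) := by
  apply glext <;> simp [mm, w0, Matrix.mul_apply, Fin.sum_univ_two, pow_succ]

theorem mmcc_pow : (mm * cc⁻¹) ^ 3 = 1 := by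
  have hb : ∀ a : Eˣ, (a : E) ^ 2 - a + 1 = 0 → (mm * dgl a) ^ 3 = 1 := by
    intro a ha
    apply glext
    · simp [mm, dgl, Matrix.mul_apply, Fin.sum_univ_two, pow_succ]
      linear_combination (-(a : E) - 1) * ha
    · simp [mm, dgl, Matrix.mul_apply, Fin.sum_univ_two, pow_succ]
      linear_combination ha
    · simp [mm, dgl, Matrix.mul_apply, Fin.sum_univ_two, pow_succ]
    · simp [mm, dgl, Matrix.mul_apply, Fin.sum_univ_two, pow_succ]
  have h : cc⁻¹ = dgl omu⁻¹ := by
    apply inv_eq_of_mul_eq_one_left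
    apply glext <;> simp [cc, dgl, Matrix.mul_apply, Fin.sum_univ_two]
  rw [h]
  apply hb
  have : ((omu⁻¹ : Eˣ) : E) = ⟨1, -1⟩ := rfl
  rw [this]
  ext <;> simp [pow_succ]

end EX

open EX in
/-- The potential theorem for the four rotations `w, m, c, 1`. -/
theorem ex_pot {k : Type*} [Field k] [CharP k 2]
    (G : Fin 4 → GL (Fin 2) E → k) (hs : ∀ i A (u : Eˣ), G i (A * sc u) = G i A)
    (hR : ∀ i j : Fin 4, i < j → ∀ A,
      ∑ n ∈ Finset.range (mo i j), (G i (A * xx i j ^ n) + G j (A * xx i j ^ n)) = 0) :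
    ∃ a b : GL (Fin 2) E → k, (∀ A (u : Eˣ), a (A * sc u) = a A) ∧
      (∀ A (u : Eˣ), b (A * sc u) = b A) ∧ (∀ i A, a A + b (A * rho i) = G i A) := by
  have eqz : ∀ x y : k, x + y = 0 → x = y := fun x y h => by
    have := CharTwo.add_self_eq_zero y
    linear_combination h - this
  have dbl : ∀ x : k, x + x = 0 := CharTwo.add_self_eq_zero
  -- commutation of scalars
  have scm : ∀ (i : Fin 4) (A B : GL (Fin 2) E) (u : Eˣ), G i (A * sc u * B) = G i (A * B) := by
    intro i A B u
    rw [mul_assoc, sc_comm, ← mul_assoc, hs]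
  -- the six relations
  have R01 : ∀ A, G 0 A + G 1 A + (G 0 (A * (w0 * mm)) + G 1 (A * (w0 * mm)))
      + (G 0 (A * (w0 * mm) ^ 2) + G 1 (A * (w0 * mm) ^ 2)) = 0 := by
    intro A
    have := hR 0 1 (by decide) A
    have e : xx 0 1 = w0 * mm := by
      change w0 * mm⁻¹ = w0 * mm
      rw [mm_inv]
    simpa [mo, Finset.sum_range_succ, e] using this
  have R12 : ∀ A, G 1 A + G 2 A + (G 1 (A * (mm * cc⁻¹)) + G 2 (A * (mm * cc⁻¹)))
      + (G 1 (A * (mm * cc⁻¹) ^ 2) + G 2 (A * (mm * cc⁻¹) ^ 2)) = 0 := by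
    intro A
    have := hR 1 2 (by decide) A
    have e : xx 1 2 = mm * cc⁻¹ := rfl
    simpa [mo, Finset.sum_range_succ, e] using this
  have R02 : ∀ A, G 0 A + G 2 A + (G 0 (A * (w0 * cc⁻¹)) + G 2 (A * (w0 * cc⁻¹))) = 0 := by
    intro A
    have := hR 0 2 (by decide) A
    have e : xx 0 2 = w0 * cc⁻¹ := rfl
    simpa [mo, Finset.sum_range_succ, e] using this
  have R03 : ∀ A, G 0 A + G 3 A + (G 0 (A * w0) + G 3 (A * w0)) = 0 := by
    intro A
    have := hR 0 3 (by decide) A
    have e : xx 0 3 = w0 := by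
      change w0 * (1 : GL (Fin 2) E)⁻¹ = w0
      simp
    simpa [mo, Finset.sum_range_succ, e] using this
  have R13 : ∀ A, G 1 A + G 3 A + (G 1 (A * mm) + G 3 (A * mm)) = 0 := by
    intro A
    have := hR 1 3 (by decide) A
    have e : xx 1 3 = mm := by
      change mm * (1 : GL (Fin 2) E)⁻¹ = mm
      simp
    simpa [mo, Finset.sum_range_succ, e] using this
  have R23 : ∀ A, ∑ n ∈ Finset.range 6, (G 2 (A * cc ^ n) + G 3 (A * cc ^ n)) = 0 := by
    intro A
    have := hR 2 3 (by decide) A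
    have e : xx 2 3 = cc := by
      change cc * (1 : GL (Fin 2) E)⁻¹ = cc
      simp
    simpa [mo, e] using this
  -- the three potentials
  obtain ⟨a', as', am', ac'⟩ := borel (fun A => G 1 A + G 3 (A * mm)) (fun A => G 2 A + G 3 (A * cc))
    (by intro A u; simp only [scm, hs]) (by intro A u; simp only [scm, hs])
    (by
      intro A
      have h := R13 A
      have e : A * mm * mm = A := by rw [mul_assoc, mm_sq, mul_one]
      simp only [e]
      linear_combination h)
    (by
      intro A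
      have h := R23 A
      simp only [Finset.sum_range_succ, Finset.sum_range_zero] at h ⊢
      have e0 : A * cc ^ 0 * cc = A * cc ^ 1 := by simp
      have e1 : A * cc ^ 1 * cc = A * cc ^ 2 := by rw [mul_assoc, ← pow_succ]
      have e2 : A * cc ^ 2 * cc = A * cc ^ 3 := by rw [mul_assoc, ← pow_succ]
      have e3 : A * cc ^ 3 * cc = A * cc ^ 4 := by rw [mul_assoc, ← pow_succ]
      have e4 : A * cc ^ 4 * cc = A * cc ^ 5 := by rw [mul_assoc, ← pow_succ]
      have e5 : A * cc ^ 5 * cc = A * cc ^ 0 := by rw [mul_assoc, ← pow_succ, cc_pow, pow_zero]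
      rw [e0, e1, e2, e3, e4, e5]
      linear_combination h)
    (by
      intro A
      have h := R12 A
      simp only [Finset.sum_range_succ, Finset.sum_range_zero]
      have e : ∀ n : ℕ, A * (mm * cc⁻¹) ^ (n + 1) * cc = A * (mm * cc⁻¹) ^ n * mm := by
        intro n
        rw [pow_succ]
        group
      rw [e 0, e 1, e 2]
      have e3 : A * (mm * cc⁻¹) ^ (2 + 1) = A := by rw [mmcc_pow, mul_one]
      rw [e3]
      simp only [pow_zero, mul_one, zero_add, pow_one, Nat.reduceAdd]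
      linear_combination h + dbl (G 3 (A * mm)) + dbl (G 3 (A * (mm * cc⁻¹) * mm))
        + dbl (G 3 (A * (mm * cc⁻¹) ^ 2 * mm)))
  -- the function `σ`
  set H0 : GL (Fin 2) E → k := fun A => G 0 A + G 3 (A * w0) with hH0
  have H0w : ∀ A, H0 (A * w0) = H0 A := by
    intro A
    apply eqz
    have h := R03 A
    have e : A * w0 * w0 = A := by rw [mul_assoc, w0_sq, mul_one]
    simp only [hH0, e]
    linear_combination h
  have as2 : ∀ (A B : GL (Fin 2) E) (u : Eˣ), a' (A * sc u * B) = a' (A * B) := by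
    intro A B u
    rw [mul_assoc, sc_comm, ← mul_assoc, as']
  obtain ⟨F, Fs, Fm, Fc, Fw⟩ := farey (fun A => a' A + a' (A * w0) + H0 A)
    (by intro A u; simp only [as', as2, hH0, scm, hs])
    (by
      intro A
      apply eqz
      have e1 : A * cc * w0 = A * (w0 * cc⁻¹) * sc omu := by
        rw [mul_assoc, cc_w0]; simp only [mul_assoc]
      have h1 : a' (A * cc * w0) = a' (A * (w0 * cc⁻¹)) := by rw [e1, as']
      have h2 := ac' (A * (w0 * cc⁻¹))
      have e2 : A * (w0 * cc⁻¹) * cc = A * w0 := by group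
      rw [e2] at h2
      have h3 := ac' A
      have h4 := R02 A
      have h5 : H0 (A * cc) = H0 (A * (w0 * cc⁻¹)) := by
        rw [← H0w (A * cc), e1]
        simp only [hH0, scm, hs]
      have h6 : G 3 (A * (w0 * cc⁻¹) * w0) = G 3 (A * cc) := by
        rw [← scm 3 (A * (w0 * cc⁻¹)) w0 omu, ← e1, mul_assoc (A * cc), w0_sq, mul_one]
      change a' (A * cc) + a' (A * cc * w0) + H0 (A * cc) + (a' A + a' (A * w0) + H0 A) = 0
      rw [h1, h5]
      simp only [hH0, h6]
      linear_combination h2 + h3 + h4 + dbl (G 3 (A * w0)) + dbl (G 3 (A * cc)))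
    (by
      intro A
      apply eqz
      have e : A * w0 * w0 = A := by rw [mul_assoc, w0_sq, mul_one]
      change a' (A * w0) + a' (A * w0 * w0) + H0 (A * w0) + (a' A + a' (A * w0) + H0 A) = 0
      rw [e, H0w]
      linear_combination dbl (a' A) + dbl (a' (A * w0)) + dbl (H0 A))
    (by
      intro A
      have h := R01 A
      have ew : ∀ B : GL (Fin 2) E, B * w0 = B * (w0 * mm) * mm := by
        intro B
        rw [mul_assoc, mul_assoc, mm_sq, mul_one]
      have e3 : A * (w0 * mm) ^ 2 * (w0 * mm) = A * sc (-1 : Eˣ) := by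
        rw [mul_assoc, ← pow_succ, w0mm_pow]
      have e2 : A * (w0 * mm) * (w0 * mm) = A * (w0 * mm) ^ 2 := by
        rw [mul_assoc, ← pow_two]
      have m1 := am' (A * (w0 * mm))
      have m2 := am' (A * (w0 * mm) ^ 2)
      have m3 := am' (A * sc (-1 : Eˣ))
      change a' A + a' (A * w0) + (G 0 A + G 3 (A * w0)) +
        (a' (A * (w0 * mm)) + a' (A * (w0 * mm) * w0) +
          (G 0 (A * (w0 * mm)) + G 3 (A * (w0 * mm) * w0))) +
        (a' (A * (w0 * mm) ^ 2) + a' (A * (w0 * mm) ^ 2 * w0) +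
          (G 0 (A * (w0 * mm) ^ 2) + G 3 (A * (w0 * mm) ^ 2 * w0))) = 0
      rw [ew A, ew (A * (w0 * mm)), e2, ew (A * (w0 * mm) ^ 2), e3]
      rw [as', hs] at m3
      linear_combination m1 + m2 + m3 + h + dbl (G 3 (A * (w0 * mm) * mm))
        + dbl (G 3 (A * (w0 * mm) ^ 2 * mm)) + dbl (G 3 (A * sc (-1 : Eˣ) * mm)))
  refine ⟨fun A => a' A + F A, fun A => a' A + F A + G 3 A, ?_, ?_, ?_⟩
  · intro A u
    simp only [as', Fs]
  · intro A u
    simp only [as', Fs, hs]
  · intro i A
    have f0 := Fw A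
    have f1 := Fm A
    have f2 := Fc A
    have g1 := am' A
    have g2 := ac' A
    fin_cases i
    · change a' A + F A + (a' (A * w0) + F (A * w0) + G 3 (A * w0)) = G 0 A
      simp only [hH0] at f0
      linear_combination f0 + dbl (a' A) + dbl (a' (A * w0)) + dbl (G 3 (A * w0))
    · change a' A + F A + (a' (A * mm) + F (A * mm) + G 3 (A * mm)) = G 1 A
      rw [f1]
      linear_combination g1 + dbl (F A) + dbl (G 3 (A * mm))
    · change a' A + F A + (a' (A * cc) + F (A * cc) + G 3 (A * cc)) = G 2 A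
      rw [f2]
      linear_combination g2 + dbl (F A) + dbl (G 3 (A * cc))
    · change a' A + F A + (a' (A * 1) + F (A * 1) + G 3 (A * 1)) = G 3 A
      rw [mul_one]
      linear_combination dbl (a' A) + dbl (F A)

end SerreE
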