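import Pool.Agent.Serre.HDefs

/-!
Elements of finite order of `GL₂(E)`.
-/

open Matrix
open scoped QuadraticAlgebra

namespace SerreE

/-- the sixth root of unity `(1 + √-3) / 2` -/
noncomputable def omC : ℂ := ⟨1 / 2, Real.sqrt 3 / 2⟩

theorem omC_sq : omC * omC = omC - 1 := by
  have h3 : Real.sqrt 3 * Real.sqrt 3 = 3 := Real.mul_self_sqrt (by norm_num)
  apply Complex.ext
  · simp only [omC, Complex.mul_re, Complex.sub_re, Complex.one_re]
    nlinarith
  · simp only [omC, Complex.mul_im, Complex.sub_im, Complex.one_im]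
    ring

/-- the embedding of `E` in the complex numbers -/
noncomputable def phiC : E →+* ℂ where
  toFun z := (z.re : ℂ) + (z.im : ℂ) * omC
  map_one' := by simp
  map_mul' z w := by
    have h := omC_sq
    simp only [QuadraticAlgebra.re_mul, QuadraticAlgebra.im_mul]
    push_cast
    linear_combination (-(z.im : ℂ) * w.im) * h
  map_zero' := by simp
  map_add' z w := by simp; ring

theorem phiC_apply (z : E) : phiC z = (z.re : ℂ) + (z.im : ℂ) * omC := rfl

theorem phiC_conj (z : E) : (starRingEnd ℂ) (phiC z) = phiC (star z) := by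
  rw [phiC_apply, phiC_apply]
  apply Complex.ext
  · simp [omC]
    ring
  · simp [omC]

theorem phiC_normSq (z : E) : phiC z * (starRingEnd ℂ) (phiC z) = (z.norm : ℂ) := by
  rw [phiC_conj, ← map_mul, ← QuadraticAlgebra.algebraMap_norm_eq_mul_star]
  rw [phiC_apply]
  simp

theorem phiC_injective : Function.Injective phiC := by
  rw [injective_iff_map_eq_zero]
  intro z hz
  have h := phiC_normSq z
  rw [hz, zero_mul] at h
  have h1 : z.norm = 0 := by exact_mod_cast h.symm
  exact E_norm_eq_zero.mp h1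

/-- an eigenvalue of a matrix of finite order is a root of unity -/
theorem eig_pow_eq_one (M : Matrix (Fin 2) (Fin 2) ℂ) (m : ℕ) (hM : M ^ m = 1) (l : ℂ)
    (hl : l ^ 2 - M.trace * l + M.det = 0) : l ^ m = 1 := by
  have hdet : (M - l • (1 : Matrix (Fin 2) (Fin 2) ℂ)).det = 0 := by
    rw [← hl, Matrix.det_fin_two, Matrix.det_fin_two, Matrix.trace_fin_two]
    simp
    ring
  obtain ⟨v, hv, hv2⟩ := Matrix.exists_mulVec_eq_zero_iff.mpr hdet
  have h1 : M *ᵥ v = l • v := by
    rw [Matrix.sub_mulVec, Matrix.smul_mulVec, Matrix.one_mulVec, sub_eq_zero] at hv2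
    exact hv2
  have h2 : ∀ j : ℕ, (M ^ j) *ᵥ v = l ^ j • v := by
    intro j
    induction j with
    | zero => simp
    | succ j ih =>
      rw [pow_succ', ← Matrix.mulVec_mulVec, ih, Matrix.mulVec_smul, h1, smul_smul, pow_succ]
  have h3 := h2 m
  rw [hM, Matrix.one_mulVec] at h3
  have h4 : (l ^ m - 1) • v = 0 := by rw [sub_smul, ← h3, one_smul, sub_self]
  rcases smul_eq_zero.mp h4 with h5 | h5
  · exact sub_eq_zero.mp h5
  · exact absurd h5 hv

/-- the trace and the determinant of an element of finite order -/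
theorem finord_trace (g : GL (Fin 2) E) (hg : IsOfFinOrder g) :
    star (g.val.trace) * g.val.det = g.val.trace ∧ g.val.trace.norm ≤ 4 := by
  obtain ⟨m, hm, hgm⟩ := isOfFinOrder_iff_pow_eq_one.mp hg
  set M : Matrix (Fin 2) (Fin 2) ℂ := g.val.map phiC with hMdef
  have hM : M ^ m = 1 := by
    have h1 : (g.val) ^ m = 1 := by rw [← Units.val_pow_eq_pow_val, hgm, Units.val_one]
    have h2 : (phiC.mapMatrix (m := Fin 2)) (g.val ^ m) = M ^ m := map_pow _ _ _
    rw [← h2, h1, map_one]
  have htr : M.trace = phiC g.val.trace := by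
    rw [Matrix.trace_fin_two, Matrix.trace_fin_two, map_add]
    rfl
  have hdt : M.det = phiC g.val.det := by
    rw [Matrix.det_fin_two, Matrix.det_fin_two, map_sub, map_mul, map_mul]
    rfl
  obtain ⟨s, hs⟩ := IsAlgClosed.exists_eq_mul_self (M.trace ^ 2 - 4 * M.det)
  set l₁ : ℂ := (M.trace + s) / 2 with hl₁
  set l₂ : ℂ := (M.trace - s) / 2 with hl₂
  have hsum : l₁ + l₂ = M.trace := by rw [hl₁, hl₂]; ring
  have hprod : l₁ * l₂ = M.det := by rw [hl₁, hl₂]; linear_combination (1 / 4 : ℂ) * hs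
  have h1 : l₁ ^ m = 1 := eig_pow_eq_one M m hM l₁ (by rw [← hsum, ← hprod]; ring)
  have h2 : l₂ ^ m = 1 := eig_pow_eq_one M m hM l₂ (by rw [← hsum, ← hprod]; ring)
  have n1 : ‖l₁‖ = 1 := Complex.norm_eq_one_of_pow_eq_one h1 hm.ne'
  have n2 : ‖l₂‖ = 1 := Complex.norm_eq_one_of_pow_eq_one h2 hm.ne'
  have c1 : l₁ * (starRingEnd ℂ) l₁ = 1 := by rw [Complex.mul_conj']; simp [n1]
  have c2 : l₂ * (starRingEnd ℂ) l₂ = 1 := by rw [Complex.mul_conj']; simp [n2]
  constructor
  · apply phiC_injective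
    rw [map_mul, ← phiC_conj, ← htr, ← hdt, ← hsum, ← hprod, map_add]
    linear_combination l₂ * c1 + l₁ * c2
  · have h3 : ‖M.trace‖ ≤ 2 := by
      rw [← hsum]
      refine (norm_add_le _ _).trans ?_
      rw [n1, n2]; norm_num
    have h4 := phiC_normSq g.val.trace
    rw [← htr, Complex.mul_conj'] at h4
    have h5 : ‖M.trace‖ ^ 2 = (g.val.trace.norm : ℝ) := by exact_mod_cast h4
    have h6 : (g.val.trace.norm : ℝ) ≤ 4 := by
      rw [← h5]
      nlinarith [norm_nonneg M.trace]
    exact_mod_cast h6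

/-- the theorem of Cayley and Hamilton for `g ^ 2` -/
theorem sq_formula (g : Matrix (Fin 2) (Fin 2) E) : g * g = g.trace • g - g.det • 1 := by
  rw [Matrix.trace_fin_two, Matrix.det_fin_two]
  apply Matrix.ext
  intro i j
  fin_cases i <;> fin_cases j <;>
    simp only [Fin.zero_eta, Fin.mk_one, Fin.isValue, Matrix.mul_apply, Fin.sum_univ_two,
      Matrix.sub_apply, Matrix.smul_apply, smul_eq_mul, Matrix.one_apply_eq, ne_eq,
      zero_ne_one, one_ne_zero, not_false_eq_true, Matrix.one_apply_ne] <;> ring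

theorem eq_sc_of_val {g : GL (Fin 2) E} {c : E} (h : g.val = c • 1) : ∃ u : Eˣ, g = sc u := by
  have h1 : IsUnit g.val.det := (Matrix.isUnit_iff_isUnit_det _).mp g.isUnit
  rw [h, Matrix.det_smul, Matrix.det_one, mul_one, Fintype.card_fin, pow_two] at h1
  obtain ⟨u, hu⟩ := isUnit_of_mul_isUnit_left h1
  refine ⟨u, Units.ext ?_⟩
  rw [h, ← hu, Matrix.smul_one_eq_diagonal]
  rfl

theorem cube_formula (g : Matrix (Fin 2) (Fin 2) E) :
    g ^ 3 = (g.trace ^ 2 - g.det) • g - (g.trace * g.det) • 1 := by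
  have h := sq_formula g
  rw [pow_succ', pow_two]
  rw [h, mul_sub, mul_smul_comm, h, mul_smul_comm, mul_one, smul_sub, smul_smul, smul_smul,
    sub_smul, pow_two]
  abel

theorem norm_cases (z : E) (h : z.norm ≤ 4) :
    z.norm = 0 ∨ z.norm = 1 ∨ z.norm = 3 ∨ z.norm = 4 := by
  rw [E_norm_def] at *
  have hx : z.re ^ 2 ≤ 5 := by nlinarith [sq_nonneg (z.re + 2 * z.im)]
  have hy : z.im ^ 2 ≤ 5 := by nlinarith [sq_nonneg (2 * z.re + z.im)]
  have a1 : -2 ≤ z.re := by nlinarith
  have a2 : z.re ≤ 2 := by nlinarith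
  have b1 : -2 ≤ z.im := by nlinarith
  have b2 : z.im ≤ 2 := by nlinarith
  generalize z.re = x at *
  generalize z.im = y at *
  interval_cases x <;> interval_cases y <;> simp_all

theorem pow_nilp (t : E) (h : Matrix (Fin 2) (Fin 2) E) (hh : h * h = 0) (j : ℕ) :
    (t • (1 : Matrix (Fin 2) (Fin 2) E) + h) ^ (j + 1) =
      t ^ (j + 1) • 1 + ((j + 1 : ℕ) * t ^ j) • h := by
  induction j with
  | zero => simp
  | succ j ih =>
    rw [pow_succ', ih, add_mul, mul_add, mul_add, smul_mul_assoc, smul_mul_assoc, one_mul,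
      one_mul, mul_smul_comm, mul_smul_comm, mul_one, hh, smul_zero, add_zero, smul_smul,
      smul_smul, add_assoc, ← add_smul]
    congr 1
    · rw [← pow_succ']
    · congr 1
      push_cast
      ring

theorem finord (g : GL (Fin 2) E) (hg : IsOfFinOrder g) :
    (∃ u : Eˣ, g = sc u) ∨ (∃ u : Eˣ, g ^ 3 = sc u) ∨ (g ^ 3).val.trace = 0 ∨
      g.val.trace = 0 := by
  obtain ⟨h1, h2⟩ := finord_trace g hg
  set t := g.val.trace with ht
  set d := g.val.det with hd
  have hN : t ^ 2 = ((t.norm : ℤ) : E) * d := by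
    have h3 : ((t.norm : ℤ) : E) = t * star t := by
      rw [← QuadraticAlgebra.algebraMap_norm_eq_mul_star]
      simp
    rw [h3, mul_assoc, h1, pow_two]
  have hg3 : (g ^ 3).val = (t ^ 2 - d) • g.val - (t * d) • 1 := by
    rw [Units.val_pow_eq_pow_val, cube_formula]
  rcases norm_cases t h2 with h | h | h | h
  · right; right; right
    exact E_norm_eq_zero.mp h
  · right; left
    rw [h] at hN
    apply eq_sc_of_val (c := -(t * d))
    rw [hg3, hN]
    simp
  · right; right; left
    rw [h] at hN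
    rw [hg3, Matrix.trace_sub, Matrix.trace_smul, Matrix.trace_smul, Matrix.trace_one, ← ht,
      hN]
    simp only [smul_eq_mul, Fintype.card_fin]
    push_cast
    ring
  · left
    rw [h] at hN
    have ht0 : t ≠ 0 := by
      intro h0
      rw [h0] at h
      simp at h
    obtain ⟨m, hm, hgm⟩ := isOfFinOrder_iff_pow_eq_one.mp hg
    obtain ⟨j, rfl⟩ : ∃ j, m = j + 1 := ⟨m - 1, by omega⟩
    set n : Matrix (Fin 2) (Fin 2) E := (2 : E) • g.val - t • 1 with hn
    have hnn : n * n = 0 := by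
      have h5 := sq_formula g.val
      rw [← ht, ← hd] at h5
      rw [hn, sub_mul, mul_sub, mul_sub, smul_mul_smul_comm, smul_mul_smul_comm,
        smul_mul_smul_comm, smul_mul_smul_comm, h5, one_mul, mul_one, mul_one, smul_sub,
        smul_smul, smul_smul, ← pow_two t, hN]
      rw [show (2 : E) * 2 * t = 2 * t + t * 2 by ring, add_smul]
      push_cast
      rw [show (2 : E) * 2 * d = 4 * d by ring]
      abel
    have h6 : (t • (1 : Matrix (Fin 2) (Fin 2) E) + n) ^ (j + 1) = (2 : E) ^ (j + 1) • 1 := by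
      rw [hn, add_sub_cancel, smul_pow]
      have h7 : g.val ^ (j + 1) = 1 := by
        rw [← Units.val_pow_eq_pow_val, hgm, Units.val_one]
      rw [h7]
    rw [pow_nilp t n hnn j] at h6
    have hc : ((j + 1 : ℕ) : E) * t ^ j ≠ 0 := by
      apply mul_ne_zero _ (pow_ne_zero _ ht0)
      intro h7
      have h8 := congrArg QuadraticAlgebra.re h7
      rw [QuadraticAlgebra.re_natCast, QuadraticAlgebra.re_zero] at h8
      have h9 : j + 1 = 0 := by exact_mod_cast h8
      omega
    have e01 := congrFun (congrFun h6 0) 1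
    have e10 := congrFun (congrFun h6 1) 0
    have e00 := congrFun (congrFun h6 0) 0
    have e11 := congrFun (congrFun h6 1) 1
    simp only [Matrix.add_apply, Matrix.smul_apply, smul_eq_mul, Matrix.one_apply_eq, ne_eq,
      zero_ne_one, one_ne_zero, not_false_eq_true, Matrix.one_apply_ne, mul_zero, zero_add,
      mul_one] at e01 e10 e00 e11
    have n01 : n 0 1 = 0 := (mul_eq_zero.mp e01).resolve_left hc
    have n10 : n 1 0 = 0 := (mul_eq_zero.mp e10).resolve_left hc
    have nd : n 0 0 = n 1 1 := by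
      have h7 : ((j + 1 : ℕ) * t ^ j) * (n 0 0 - n 1 1) = 0 := by
        linear_combination e00 - e11
      exact sub_eq_zero.mp ((mul_eq_zero.mp h7).resolve_left hc)
    simp only [hn, Matrix.sub_apply, Matrix.smul_apply, smul_eq_mul, Matrix.one_apply_eq, ne_eq,
      zero_ne_one, one_ne_zero, not_false_eq_true, Matrix.one_apply_ne, mul_zero, sub_zero,
      mul_one] at n01 n10 nd
    have two_ne : (2 : E) ≠ 0 := by
      intro h7
      have h8 := congrArg QuadraticAlgebra.re h7
      simp at h8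
    have g01 : g.val 0 1 = 0 := (mul_eq_zero.mp n01).resolve_left two_ne
    have g10 : g.val 1 0 = 0 := (mul_eq_zero.mp n10).resolve_left two_ne
    have gd : g.val 0 0 = g.val 1 1 := by
      have h7 : (2 : E) * (g.val 0 0 - g.val 1 1) = 0 := by linear_combination nd
      exact sub_eq_zero.mp ((mul_eq_zero.mp h7).resolve_left two_ne)
    apply eq_sc_of_val (c := g.val 0 0)
    apply Matrix.ext
    intro i k
    fin_cases i <;> fin_cases k <;> simp [g01, g10, gd]

theorem trace_zero_norm (g : GL (Fin 2) E) (tr : g.val.trace = 0) :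
    ∃ v : Eˣ, (sc v * g).val.trace = 0 ∧ ((sc v * g).val.det = 1 ∨ (sc v * g).val.det = -1) := by
  have hval : ∀ v : Eˣ, (sc v * g).val = (v : E) • g.val := by
    intro v
    rw [Units.val_mul]
    apply Matrix.ext
    intro i j
    simp [Matrix.scalar_apply, Matrix.diagonal_mul]
  have hdet : ∀ v : Eˣ, (sc v * g).val.det = (v : E) ^ 2 * g.val.det := by
    intro v
    rw [hval, Matrix.det_smul, Fintype.card_fin]
  have htr : ∀ v : Eˣ, (sc v * g).val.trace = 0 := by
    intro v
    rw [hval, Matrix.trace_smul, tr, smul_zero]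
  obtain ⟨n, hn, hu⟩ := E_unit_cases (Matrix.GeneralLinearGroup.det g)
  have hd : g.val.det = ((omu ^ n : Eˣ) : E) := by
    rw [← hu, Matrix.GeneralLinearGroup.val_det_apply]
  have h3 : (omu : E) ^ 3 = -1 := by
    ext <;> simp [omu, pow_succ]
  have h6 : (omu : E) ^ 6 = 1 := by
    rw [show 6 = 3 * 2 by norm_num, pow_mul, h3]; norm_num
  rw [Units.val_pow_eq_pow_val] at hd
  interval_cases n
  · exact ⟨1, htr _, Or.inl (by rw [hdet, hd]; simp)⟩
  · exact ⟨omu, htr _, Or.inr (by rw [hdet, hd, ← h3]; ring)⟩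
  · exact ⟨omu ^ 2, htr _, Or.inl (by
      rw [hdet, hd, Units.val_pow_eq_pow_val, ← h6]; ring)⟩
  · exact ⟨1, htr _, Or.inr (by rw [hdet, hd, ← h3]; simp)⟩
  · exact ⟨omu, htr _, Or.inl (by rw [hdet, hd, ← h6]; ring)⟩
  · exact ⟨omu ^ 2, htr _, Or.inr (by
      rw [hdet, hd, Units.val_pow_eq_pow_val]
      linear_combination ((omu : E) ^ 6 ) * h3 - h6)⟩

end SerreE
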