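import Pool.Agent.Serre.FinalDefs

/-!
# Assembly
-/

open Matrix
open scoped QuadraticAlgebra

namespace SerreE

theorem exists_algHom_of_ker {k A B C : Type*} [CommSemiring k] [Semiring A] [Semiring B]
    [Semiring C] [Algebra k A] [Algebra k B] [Algebra k C] (f : A →ₐ[k] B) (g : A →ₐ[k] C)
    (hf : Function.Surjective f) (hker' : ∀ x y, f x = f y → g x = g y) :
    ∃ h : B →ₐ[k] C, ∀ x, h (f x) = g x := by
  choose s hs using hf
  have key : ∀ x, g (s (f x)) = g x := fun x => hker' _ _ (hs _)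
  refine ⟨{ toFun := fun b => g (s b), map_one' := ?_, map_mul' := ?_, map_zero' := ?_,
            map_add' := ?_, commutes' := ?_ }, key⟩
  · change g (s 1) = 1
    rw [← map_one g]; exact hker' _ _ (by rw [hs, map_one])
  · intro x y
    change g (s (x * y)) = g (s x) * g (s y)
    rw [← map_mul]; exact hker' _ _ (by rw [hs, map_mul, hs, hs])
  · change g (s 0) = 0
    rw [← map_zero g]; exact hker' _ _ (by rw [hs, map_zero])
  · intro x y
    change g (s (x + y)) = g (s x) + g (s y)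
    rw [← map_add]; exact hker' _ _ (by rw [hs, map_add, hs, hs])
  · intro r
    rw [← AlgHom.commutes g]; exact hker' _ _ (by rw [hs, AlgHom.commutes])

section free

/-- the free algebra acting on `H¹(Y₀(N))` -/
noncomputable def LYN (N : E) :
    FreeAlgebra kbar (GoodPrime N) →ₐ[kbar] Module.End kbar (H1Y N) :=
  FreeAlgebra.lift kbar (heckeY N)

theorem LYN_mem (N : E) (x : FreeAlgebra kbar (GoodPrime N)) : LYN N x ∈ HeckeAlg N := by
  rw [HeckeAlg, Algebra.adjoin_range_eq_range_freeAlgebra_lift]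
  exact ⟨x, rfl⟩

/-- the free algebra maps onto the Hecke algebra -/
noncomputable def LYr (N : E) : FreeAlgebra kbar (GoodPrime N) →ₐ[kbar] HeckeAlg N :=
  (LYN N).codRestrict (HeckeAlg N) (LYN_mem N)

theorem LYr_surj (N : E) : Function.Surjective (LYr N) := by
  rintro ⟨y, hy⟩
  rw [HeckeAlg, Algebra.adjoin_range_eq_range_freeAlgebra_lift] at hy
  obtain ⟨x, hx⟩ := hy
  exact ⟨x, Subtype.ext hx⟩

theorem exists_hom_of_key (N : E) (ap : GoodPrime N → kbar)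
    (hkey : ∀ x y, LYN N x = LYN N y →
      FreeAlgebra.lift kbar ap x = FreeAlgebra.lift kbar ap y) :
    ∃ Φ : HeckeAlg N →ₐ[kbar] kbar, ∀ π : GoodPrime N, Φ (Tp N π) = ap π := by
  obtain ⟨Φ, hΦ⟩ := exists_algHom_of_ker (LYr N) (FreeAlgebra.lift kbar ap) (LYr_surj N)
    (fun x y hxy => hkey x y (congrArg Subtype.val hxy))
  refine ⟨Φ, fun π => ?_⟩
  have e1 : Tp N π = LYr N (FreeAlgebra.ι kbar π) := by
    apply Subtype.ext
    change heckeY N π = LYN N (FreeAlgebra.ι kbar π)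
    simp [LYN]
  rw [e1, hΦ]
  simp

end free

section linear
variable {O : Type*} [CommRing O] {π : O} {X : Type} [Fintype X] (F : Frame π X)
  {k : Type*} [Field k]
theorem heckeC_add (f : O) (ϖ : (O ⧸ Ideal.span {f})ˣ)
    (C C' : GL (Fin 2) O → GL (Fin 2) (O ⧸ Ideal.span {f}) → k) :
    heckeC F f ϖ (C + C') = heckeC F f ϖ C + heckeC F f ϖ C' := by
  funext γ y
  simp only [heckeC, Pi.add_apply, Finset.sum_add_distrib]
theorem heckeC_smul (f : O) (ϖ : (O ⧸ Ideal.span {f})ˣ) (c : k)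
    (C : GL (Fin 2) O → GL (Fin 2) (O ⧸ Ideal.span {f}) → k) :
    heckeC F f ϖ (c • C) = c • heckeC F f ϖ C := by
  funext γ y
  simp only [heckeC, Pi.smul_apply, smul_eq_mul, Finset.mul_sum]
end linear

section core

/-- `H¹(Γ₀(f²), 𝔽̄₂)` -/
abbrev HH (f : E) := Hom1 kbar (f ^ 2)

variable (f : E)

/-- the data attached to a good prime. -/
structure HData (π : E) where
  X : Type
  fin : Fintype X
  t : X → Gam0 (f ^ 2)
  F : Frame π X
  FD : Frame π X
  hF : ∀ x, F.s x = (t x).val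
  hFD : ∀ x, FD.s x = dconj f (t x)
  ϖ : (E ⧸ Ideal.span {f})ˣ
  hϖ : (ϖ : E ⧸ Ideal.span {f}) = Ideal.Quotient.mk _ π

theorem not_dvd_f {π : E} (hπ : ¬ π ∣ 2 * f ^ 2) : ¬ π ∣ f := fun h =>
  hπ (Dvd.dvd.mul_left (Dvd.dvd.trans h (Dvd.intro_left f (by ring))) _)

theorem unit_of_good (π : E) (hp : Prime π) (h : ¬ π ∣ f) :
    ∃ ϖ : (E ⧸ Ideal.span {f})ˣ, (ϖ : E ⧸ Ideal.span {f}) = Ideal.Quotient.mk _ π := by
  have hc : IsCoprime π f := (Prime.coprime_iff_not_dvd hp).mpr h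
  obtain ⟨a, b, hab⟩ := hc
  have : IsUnit (Ideal.Quotient.mk (Ideal.span {f}) π) := by
    refine IsUnit.of_mul_eq_one (Ideal.Quotient.mk _ a) ?_
    rw [← map_mul, ← map_one (Ideal.Quotient.mk (Ideal.span {f})), Ideal.Quotient.eq,
      Ideal.mem_span_singleton]
    exact ⟨-b, by linear_combination hab⟩
  exact ⟨this.unit, rfl⟩

theorem hdata_nonempty (hf : f ≠ 0) (π : GoodPrime (f ^ 2)) : Nonempty (HData f π.val) := by
  obtain ⟨X, fin, t, F, FD, hF, hFD⟩ := frames_exist f π.val hf π.2.1 (not_dvd_f f π.2.2)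
  obtain ⟨ϖ, hϖ⟩ := unit_of_good f π.val π.2.1 (not_dvd_f f π.2.2)
  exact ⟨⟨X, fin, t, F, FD, hF, hFD, ϖ, hϖ⟩⟩

/-- chosen data -/
noncomputable def hdata (hf : f ≠ 0) (π : GoodPrime (f ^ 2)) : HData f π.val :=
  Classical.choice (hdata_nonempty f hf π)

variable (χ : (Gi (E ⧸ Ideal.span {f}))ˣ →* kbarˣ)

/-- the space of twisted cocycles -/
def Hsp : Submodule kbar (GL (Fin 2) E → GL (Fin 2) (E ⧸ Ideal.span {f}) → kbar) where
  carrier := {C | IsCoc f χ C}
  add_mem' := by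
    intro a b ha hb
    refine ⟨fun γ γ' y => ?_, fun u y => ?_, fun γ y t => ?_⟩
    · simp only [Pi.add_apply]; rw [ha.coc, hb.coc]; ring
    · simp only [Pi.add_apply]; rw [ha.scal, hb.scal, add_zero]
    · simp only [Pi.add_apply]; rw [ha.equi, hb.equi]; ring
  zero_mem' := ⟨fun _ _ _ => by simp, fun _ _ => rfl, fun _ _ _ => by simp⟩
  smul_mem' := by
    intro c a ha
    refine ⟨fun γ γ' y => ?_, fun u y => ?_, fun γ y t => ?_⟩
    · simp only [Pi.smul_apply, smul_eq_mul]; rw [ha.coc]; ring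
    · simp only [Pi.smul_apply, smul_eq_mul]; rw [ha.scal, mul_zero]
    · simp only [Pi.smul_apply, smul_eq_mul]; rw [ha.equi]; ring

/-- the Hecke operator on twisted cocycles -/
noncomputable def heckeH (hf : f ≠ 0) (π : GoodPrime (f ^ 2)) : Module.End kbar (Hsp f χ) where
  toFun C := letI := (hdata f hf π).fin
    ⟨heckeC (hdata f hf π).FD f (hdata f hf π).ϖ C.val,
      heckeC_isCoc _ π.2.1.ne_zero f _ (hdata f hf π).hϖ χ C.val C.2⟩
  map_add' a b := by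
    apply Subtype.ext
    exact @heckeC_add _ _ _ _ (hdata f hf π).fin _ _ _ _ _ _ _
  map_smul' c a := by
    apply Subtype.ext
    exact @heckeC_smul _ _ _ _ (hdata f hf π).fin _ _ _ _ _ _ _

theorem heckeH_val (hf : f ≠ 0) (π : GoodPrime (f ^ 2)) (C : Hsp f χ) :
    (heckeH f χ hf π C).val =
      @heckeC _ _ _ _ _ _ (hdata f hf π).fin (hdata f hf π).FD f (hdata f hf π).ϖ C.val := rfl

theorem hfun_add (hf : f ≠ 0) (C C' : GL (Fin 2) E → GL (Fin 2) (E ⧸ Ideal.span {f}) → kbar)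
    (a : GL (Fin 2) (E ⧸ Ideal.span {f})) (γ : Gam0 (f ^ 2)) :
    hfun f (C + C') a γ = hfun f C a γ + hfun f C' a γ := by
  have : Finite (E ⧸ Ideal.span {f}) := E_finite_quot hf
  letI := Fintype.ofFinite (E ⧸ Ideal.span {f})ˣ
  simp only [hfun, finsum_eq_sum_of_fintype, Pi.add_apply, Finset.sum_add_distrib]

theorem hfun_sub (hf : f ≠ 0) (C C' : GL (Fin 2) E → GL (Fin 2) (E ⧸ Ideal.span {f}) → kbar)
    (a : GL (Fin 2) (E ⧸ Ideal.span {f})) (γ : Gam0 (f ^ 2)) :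
    hfun f (C - C') a γ = hfun f C a γ - hfun f C' a γ := by
  have : Finite (E ⧸ Ideal.span {f}) := E_finite_quot hf
  letI := Fintype.ofFinite (E ⧸ Ideal.span {f})ˣ
  simp only [hfun, finsum_eq_sum_of_fintype, Pi.sub_apply, Finset.sum_sub_distrib]

theorem hfun_smul (hf : f ≠ 0) (c : kbar)
    (C : GL (Fin 2) E → GL (Fin 2) (E ⧸ Ideal.span {f}) → kbar)
    (a : GL (Fin 2) (E ⧸ Ideal.span {f})) (γ : Gam0 (f ^ 2)) :
    hfun f (c • C) a γ = c • hfun f C a γ := by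
  have : Finite (E ⧸ Ideal.span {f}) := E_finite_quot hf
  letI := Fintype.ofFinite (E ⧸ Ideal.span {f})ˣ
  simp only [hfun, finsum_eq_sum_of_fintype, Pi.smul_apply, smul_eq_mul, Finset.mul_sum]

section eigen

variable {f χ}

theorem isUnit_redGi {w : Gi E} (h : IsCoprime w.norm f) : IsUnit (redGi f w) := by
  rw [QuadraticAlgebra.isUnit_iff_norm_isUnit]
  obtain ⟨a, b, hab⟩ := h
  have e : (redGi f w).norm = Ideal.Quotient.mk _ w.norm := by
    simp [redGi, QuadraticAlgebra.norm_def]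
  rw [e]
  refine IsUnit.of_mul_eq_one (Ideal.Quotient.mk _ a) ?_
  rw [← map_mul, ← map_one (Ideal.Quotient.mk (Ideal.span {f})), Ideal.Quotient.eq,
    Ideal.mem_span_singleton]
  exact ⟨-b, by linear_combination hab⟩

theorem coprime_norm {w : Gi E} {π : E} (hp : Prime π) (h : ¬ π ∣ f)
    (hw : Associated w.norm π) : IsCoprime w.norm f := by
  have hc : IsCoprime π f := (Prime.coprime_iff_not_dvd hp).mpr h
  obtain ⟨u, hu⟩ := hw
  obtain ⟨a, b, hab⟩ := hc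
  exact ⟨a * u, b, by linear_combination hab + a * hu⟩

open Classical in
/-- the eigenvalue -/
noncomputable def ap (χ : (Gi (E ⧸ Ideal.span {f}))ˣ →* kbarˣ) (π : GoodPrime (f ^ 2)) : kbar :=
  if h : ∃ (w : Gi E) (t : (Gi (E ⧸ Ideal.span {f}))ˣ), Associated w.norm π.val ∧
    t.val = redGi f w then (χ h.choose_spec.choose : kbar) + ((χ h.choose_spec.choose)⁻¹ : kbarˣ)
  else 0

theorem heckeH_eig (hf : f ≠ 0) (hscal : ∀ u, χ (giC u) = 1)
    (hJ : ∀ t, iota t = red f J → χ t = 1)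
    (u : GL (Fin 2) E) (hu : u * J = J * u) (tu : (Gi (E ⧸ Ideal.span {f}))ˣ)
    (htu : iota tu = red f u) (hχu : χ tu = 1) (π : GoodPrime (f ^ 2)) (C : Hsp f χ) :
    (heckeH f χ hf π C).val u 1 = ap χ π * C.val u 1 := by
  have h2 : ¬ π.val ∣ 2 := fun hd => π.2.2 (Dvd.dvd.mul_right hd _)
  letI := (hdata f hf π).fin
  rw [heckeH_val]
  by_cases h : ∃ (w : Gi E) (t : (Gi (E ⧸ Ideal.span {f}))ˣ), Associated w.norm π.val ∧
    t.val = redGi f w
  · have e : ap χ π = (χ h.choose_spec.choose : kbar) + ((χ h.choose_spec.choose)⁻¹ : kbarˣ) := by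
      unfold ap; rw [dif_pos h]
    rw [e]
    exact eig_split (hdata f hf π).FD π.2.1 h2 f _ (hdata f hf π).hϖ χ hscal hJ C.val C.2 u hu tu
      htu hχu h.choose h.choose_spec.choose_spec.1 _ h.choose_spec.choose_spec.2
  · have e : ap χ π = 0 := by unfold ap; rw [dif_neg h]
    rw [e, zero_mul]
    refine eig_inert (hdata f hf π).FD π.2.1 h2 f _ (hdata f hf π).hϖ χ hscal hJ C.val C.2 u hu tu
      htu hχu ?_
    intro l hl
    obtain ⟨w, hw⟩ := tsq π.val π.2.1 h2 l hl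
    exact h ⟨w, (isUnit_redGi (coprime_norm π.2.1 (not_dvd_f f π.2.2) hw)).unit, hw, rfl⟩

/-- the free algebra acting on cocycles -/
noncomputable def LH (χ : (Gi (E ⧸ Ideal.span {f}))ˣ →* kbarˣ) (hf : f ≠ 0) :
    FreeAlgebra kbar (GoodPrime (f ^ 2)) →ₐ[kbar] Module.End kbar (Hsp f χ) :=
  FreeAlgebra.lift kbar (heckeH f χ hf)

/-- the eigencharacter of the free algebra -/
noncomputable def La (χ : (Gi (E ⧸ Ideal.span {f}))ˣ →* kbarˣ) :
    FreeAlgebra kbar (GoodPrime (f ^ 2)) →ₐ[kbar] kbar :=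
  FreeAlgebra.lift kbar (ap χ)

theorem LH_eig (hf : f ≠ 0) (hscal : ∀ u, χ (giC u) = 1)
    (hJ : ∀ t, iota t = red f J → χ t = 1)
    (u : GL (Fin 2) E) (hu : u * J = J * u) (tu : (Gi (E ⧸ Ideal.span {f}))ˣ)
    (htu : iota tu = red f u) (hχu : χ tu = 1) (x : FreeAlgebra kbar (GoodPrime (f ^ 2))) :
    ∀ C : Hsp f χ, (LH χ hf x C).val u 1 = La χ x * C.val u 1 := by
  induction x using FreeAlgebra.induction with
  | grade0 r =>
    intro C
    simp only [AlgHom.commutes, Module.algebraMap_end_apply]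
    rfl
  | grade1 π =>
    intro C
    have e1 : LH χ hf (FreeAlgebra.ι kbar π) = heckeH f χ hf π := by simp [LH]
    have e2 : La χ (FreeAlgebra.ι kbar π) = ap χ π := by simp [La]
    rw [e1, e2]
    exact heckeH_eig hf hscal hJ u hu tu htu hχu π C
  | mul a b iha ihb =>
    intro C
    rw [map_mul, map_mul, Module.End.mul_apply, iha, ihb]; ring
  | add a b iha ihb =>
    intro C
    rw [map_add, map_add, LinearMap.add_apply, add_mul, ← iha, ← ihb]
    rfl

/-- `h_a` as a linear map -/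
noncomputable def hLin (hf : f ≠ 0) (hscal : ∀ u, χ (giC u) = 1)
    (a : GL (Fin 2) (E ⧸ Ideal.span {f})) : Hsp f χ →ₗ[kbar] HH f where
  toFun C := Classical.choose (hfun_hom f hf χ hscal C.val C.2 a)
  map_add' C C' := by
    apply AddMonoidHom.ext
    intro γ
    have h1 := (Classical.choose_spec (hfun_hom f hf χ hscal (C + C').val (C + C').2 a)).1
      (Additive.toMul γ)
    have h2 := (Classical.choose_spec (hfun_hom f hf χ hscal C.val C.2 a)).1 (Additive.toMul γ)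
    have h3 := (Classical.choose_spec (hfun_hom f hf χ hscal C'.val C'.2 a)).1 (Additive.toMul γ)
    rw [ofMul_toMul] at h1 h2 h3
    rw [AddMonoidHom.add_apply, h1, h2, h3]
    exact hfun_add f hf C.val C'.val a _
  map_smul' c C := by
    apply AddMonoidHom.ext
    intro γ
    have h1 := (Classical.choose_spec (hfun_hom f hf χ hscal (c • C).val (c • C).2 a)).1
      (Additive.toMul γ)
    have h2 := (Classical.choose_spec (hfun_hom f hf χ hscal C.val C.2 a)).1 (Additive.toMul γ)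
    rw [ofMul_toMul] at h1 h2
    rw [AddMonoidHom.smul_apply, h1, RingHom.id_apply, h2]
    exact hfun_smul f hf c C.val a _

theorem hLin_apply (hf : f ≠ 0) (hscal : ∀ u, χ (giC u) = 1)
    (a : GL (Fin 2) (E ⧸ Ideal.span {f})) (C : Hsp f χ) (γ : Gam0 (f ^ 2)) :
    hLin hf hscal a C (Additive.ofMul γ) = hfun f C.val a γ :=
  (Classical.choose_spec (hfun_hom f hf χ hscal C.val C.2 a)).1 γ

theorem hLin_scal (hf : f ≠ 0) (hscal : ∀ u, χ (giC u) = 1)
    (a : GL (Fin 2) (E ⧸ Ideal.span {f})) (C : Hsp f χ) (γ : Gam0 (f ^ 2)) (u : Eˣ)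
    (h : γ.val = sc u) : hLin hf hscal a C (Additive.ofMul γ) = 0 :=
  (Classical.choose_spec (hfun_hom f hf χ hscal C.val C.2 a)).2 γ u h

theorem hLin_hecke (hf : f ≠ 0) (hscal : ∀ u, χ (giC u) = 1)
    (a : GL (Fin 2) (E ⧸ Ideal.span {f})) (π : GoodPrime (f ^ 2)) (C : Hsp f χ) :
    hLin hf hscal a (heckeH f χ hf π C) =
      heckeLin (f ^ 2) π.val π.2.1.ne_zero (hLin hf hscal a C) := by
  letI := (hdata f hf π).fin
  apply AddMonoidHom.ext
  intro γ
  have h1 := hLin_apply hf hscal a (heckeH f χ hf π C) (Additive.toMul γ)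
  rw [ofMul_toMul] at h1
  rw [h1, heckeH_val]
  have h3 := hfun_hecke f π.val hf π.2.1 (not_dvd_f f π.2.2) (hdata f hf π).ϖ (hdata f hf π).hϖ χ
    hscal C.val C.2 a (hdata f hf π).t (hdata f hf π).F (hdata f hf π).FD (hdata f hf π).hF
    (hdata f hf π).hFD (hLin hf hscal a C) (hLin_apply hf hscal a C) (Additive.toMul γ)
  rw [ofMul_toMul] at h3
  exact h3.symm

theorem hLin_LH (hf : f ≠ 0) (hscal : ∀ u, χ (giC u) = 1)
    (x : FreeAlgebra kbar (GoodPrime (f ^ 2))) :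
    ∀ (C : Hsp f χ) (hC : ∀ a, hLin hf hscal a C ∈ H1Y (f ^ 2)) (a),
      hLin hf hscal a (LH χ hf x C) = (LYN (f ^ 2) x ⟨hLin hf hscal a C, hC a⟩).val := by
  induction x using FreeAlgebra.induction with
  | grade0 r =>
    intro C hC a
    simp only [AlgHom.commutes, Module.algebraMap_end_apply, map_smul]
    rfl
  | grade1 π =>
    intro C hC a
    have e1 : LH χ hf (FreeAlgebra.ι kbar π) = heckeH f χ hf π := by simp [LH]
    have e2 : LYN (f ^ 2) (FreeAlgebra.ι kbar π) = heckeY (f ^ 2) π := by simp [LYN]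
    rw [e1, e2, hLin_hecke]
    rfl
  | mul x y ihx ihy =>
    intro C hC a
    rw [map_mul, map_mul, Module.End.mul_apply, Module.End.mul_apply]
    have hC' : ∀ a, hLin hf hscal a (LH χ hf y C) ∈ H1Y (f ^ 2) := by
      intro a; rw [ihy C hC a]; exact Subtype.property _
    rw [ihx (LH χ hf y C) hC' a]
    congr 2
    apply Subtype.ext
    exact ihy C hC a
  | add x y ihx ihy =>
    intro C hC a
    rw [map_add, map_add, LinearMap.add_apply, LinearMap.add_apply, map_add, ihx C hC, ihy C hC]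
    rfl

theorem dconj_surj (hf : f ≠ 0) (γ : GL (Fin 2) E) (h1 : f ∣ γ.val 0 1) (h2 : f ∣ γ.val 1 0) :
    ∃ γ' : Gam0 (f ^ 2), dconj f γ' = γ := by
  obtain ⟨b, hb⟩ := h1
  obtain ⟨c, hc⟩ := h2
  have hdet : γ.val 0 0 * γ.val 1 1 - b * (f * γ.val 1 0) =
      (Matrix.GeneralLinearGroup.det γ : E) := by
    rw [Matrix.GeneralLinearGroup.val_det_apply, Matrix.det_fin_two, hb]; ring
  refine ⟨⟨mk2 (γ.val 0 0) b (f * γ.val 1 0) (γ.val 1 1) (Matrix.GeneralLinearGroup.det γ) hdet,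
    ?_⟩, ?_⟩
  · rw [mem_Gam0, mk2_10, hc]
    exact ⟨c, by ring⟩
  · set g' : Gam0 (f ^ 2) := ⟨mk2 (γ.val 0 0) b (f * γ.val 1 0) (γ.val 1 1)
      (Matrix.GeneralLinearGroup.det γ) hdet, by
        rw [mem_Gam0, mk2_10, hc]; exact ⟨c, by ring⟩⟩
    obtain ⟨e1, e2, e3, e4, -⟩ := dconj_spec f g'
    apply Matrix.GeneralLinearGroup.ext
    intro i j
    fin_cases i <;> fin_cases j
    · exact e1
    · exact e2.trans hb.symm
    · apply mul_left_cancel₀ hf
      exact e3.symm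
    · exact e4

theorem exists_phi (hf : f ≠ 0) (hf2 : IsCoprime f 2) (hscal : ∀ u, χ (giC u) = 1)
    (hunit : ∀ (v : (Gi E)ˣ) (t : (Gi (E ⧸ Ideal.span {f}))ˣ), t.val = redGi f v → χ t = 1)
    (hJ : ∀ t, iota t = red f J → χ t = 1)
    (hprim : ∀ 𝔞 : Ideal (E ⧸ Ideal.span {f}), 𝔞 ≠ ⊥ →
      ∃ t : (Gi (E ⧸ Ideal.span {f}))ˣ, t.val.re - 1 ∈ 𝔞 ∧ t.val.im ∈ 𝔞 ∧ χ t ≠ 1)
    (hne : χ ≠ 1) (u : GL (Fin 2) E) (hu : u * J = J * u) (tu : (Gi (E ⧸ Ideal.span {f}))ˣ)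
    (htu : iota tu = red f u) (hχu : χ tu = 1) (C : Hsp f χ) (hCu : C.val u 1 ≠ 0) :
    ∃ Φ : HeckeAlg (f ^ 2) →ₐ[kbar] kbar, ∀ π : GoodPrime (f ^ 2), Φ (Tp (f ^ 2) π) = ap χ π := by
  obtain ⟨π₀, w₀, t₀, hπ₀, hd₀, hw₀, ht₀, hχ₀⟩ := pi0 f hf hf2 χ hscal hunit hne
  have hd₀' : ¬ π₀ ∣ 2 * f ^ 2 := by
    intro h
    rcases hπ₀.dvd_or_dvd h with h | h
    · exact hd₀ (Dvd.dvd.mul_right h _)
    · exact hd₀ (Dvd.dvd.mul_left (hπ₀.dvd_of_dvd_pow h) _)
  set P₀ : GoodPrime (f ^ 2) := ⟨π₀, hπ₀, hd₀'⟩ with hP₀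
  have h20 : ¬ π₀ ∣ 2 := fun hd => hd₀ (Dvd.dvd.mul_right hd _)
  -- the projected cocycle
  set C₀ : Hsp f χ := heckeH f χ hf P₀ C with hC₀
  have hC₀u : C₀.val u 1 ≠ 0 := by
    letI := (hdata f hf P₀).fin
    have e : C₀.val u 1 = ((χ t₀ : kbar) + ((χ t₀)⁻¹ : kbarˣ)) * C.val u 1 := by
      rw [hC₀, heckeH_val]
      exact eig_split (hdata f hf P₀).FD hπ₀ h20 f _ (hdata f hf P₀).hϖ χ hscal hJ C.val C.2 u hu tu
        htu hχu w₀ hw₀ t₀ ht₀
    rw [e]
    refine mul_ne_zero ?_ hCu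
    intro h
    apply hχ₀
    have hz : ((χ t₀ : kbarˣ) : kbar) ≠ 0 := (χ t₀).ne_zero
    rw [Units.val_inv_eq_inv_val] at h
    have h' : ((χ t₀ : kbarˣ) : kbar) ^ 2 = 1 := by
      have h3 : ((χ t₀ : kbarˣ) : kbar) * (((χ t₀ : kbarˣ) : kbar) + ((χ t₀ : kbarˣ) : kbar)⁻¹) = 0 := by
        rw [h, mul_zero]
      rw [mul_add, mul_inv_cancel₀ hz] at h3
      have h4 : ((χ t₀ : kbarˣ) : kbar) ^ 2 = -1 := by linear_combination h3
      rw [h4, CharTwo.neg_eq]
    have h5 : (((χ t₀ : kbarˣ) : kbar) - 1) ^ 2 = 0 := by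
      have h6 : (2 : kbar) = 0 := CharTwo.two_eq_zero
      linear_combination h' + (1 - ((χ t₀ : kbarˣ) : kbar)) * h6
    have h7 : ((χ t₀ : kbarˣ) : kbar) = 1 := by
      have := pow_eq_zero_iff (two_ne_zero) |>.mp h5
      exact sub_eq_zero.mp this
    exact Units.ext h7
  have hgood : ∀ a, hLin hf hscal a C₀ ∈ H1Y (f ^ 2) := by
    intro a g hg
    rw [hC₀, hLin_hecke]
    have hN : ¬ π₀ ∣ f ^ 2 := fun hd => hd₀' (Dvd.dvd.mul_left hd _)
    exact tor (f ^ 2) π₀ hπ₀ h20 hN (hLin hf hscal a C) (hLin_scal hf hscal a C) g hg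
  -- the kernel property
  have key : ∀ x y, LYN (f ^ 2) x = LYN (f ^ 2) y → La χ x = La χ y := by
    intro x y hxy
    have hz : ∀ a, hLin hf hscal a (LH χ hf x C₀) = hLin hf hscal a (LH χ hf y C₀) := by
      intro a
      rw [hLin_LH hf hscal x C₀ hgood a, hLin_LH hf hscal y C₀ hgood a, hxy]
    have hfin : Finite (E ⧸ Ideal.span {f}) := E_finite_quot hf
    have h0 : (LH χ hf x C₀ - LH χ hf y C₀).val u 1 = 0 := by
      refine inj f hf (propV_quot f hf hf2) χ hscal hprim hne (LH χ hf x C₀ - LH χ hf y C₀).val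
        (LH χ hf x C₀ - LH χ hf y C₀).2 ?_ u tu htu hχu
      intro a γ h1 h2
      obtain ⟨γ', hγ'⟩ := dconj_surj hf γ h1 h2
      have e1 := hLin_apply hf hscal a (LH χ hf x C₀) γ'
      have e2 := hLin_apply hf hscal a (LH χ hf y C₀) γ'
      have e3 := hfun_sub f hf (LH χ hf x C₀).val (LH χ hf y C₀).val a γ'
      rw [← e1, ← e2, hz a, sub_self] at e3
      rw [hfun, hγ'] at e3
      exact e3
    have e4 : (LH χ hf x C₀ - LH χ hf y C₀).val u 1 =
        (LH χ hf x C₀).val u 1 - (LH χ hf y C₀).val u 1 := rfl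
    rw [e4, LH_eig hf hscal hJ u hu tu htu hχu x C₀, LH_eig hf hscal hJ u hu tu htu hχu y C₀,
      ← sub_mul] at h0
    exact sub_eq_zero.mp ((mul_eq_zero.mp h0).resolve_right hC₀u)
  exact exists_hom_of_key (f ^ 2) (ap χ) key

end eigen

end core

end SerreE
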