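import Pool.Agent.Serre.TSQ

/-! ### PI0 -/

open Matrix
open scoped QuadraticAlgebra

namespace SerreE

section
variable {k : Type*} [Field k]

theorem gi_norm_eq {R : Type*} [CommRing R] (w : Gi R) : w.norm = w.re ^ 2 + w.im ^ 2 := by
  rw [QuadraticAlgebra.norm_def]; ring

theorem two_not_unit_E : ¬ IsUnit (2 : E) := by
  intro h
  have := E_isUnit_iff.mp h
  rw [E_norm_def] at this
  norm_num at this

/-- if `π ∣ re² + im²` for `w` and `β` with `norm β` associated to `π`, then `β ∣ w` or `β̄ ∣ w`. -/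
theorem gi_dvd_of_norm {π : E} (hπ : Prime π) (β w : Gi E) (hβ : Associated β.norm π)
    (hw : π ∣ w.norm) :
    ∃ β' w' : Gi E, Associated β'.norm π ∧ w = β' * w' := by
  obtain ⟨u, hu⟩ := hβ
  rw [gi_norm_eq] at hu hw
  have hβ2 : π ∣ β.re ^ 2 + β.im ^ 2 := ⟨(↑u⁻¹ : E), by rw [← hu]; rw [mul_assoc]; simp⟩
  -- key divisibility
  have key : ∀ x y : E, (x ^ 2 + y ^ 2) * (u : E) = π → π ∣ x ^ 2 + y ^ 2 →
      π ∣ (w.im * x - w.re * y) → ∃ w' : Gi E, w = (⟨x, y⟩ : Gi E) * w' := by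
    intro x y hxy hd hd1
    have hd2 : π ∣ (w.re * x + w.im * y) := by
      have h3 : (w.re * x + w.im * y) ^ 2 =
          (w.re ^ 2 + w.im ^ 2) * (x ^ 2 + y ^ 2) - (w.im * x - w.re * y) ^ 2 := by ring
      have h4 : π ∣ (w.re * x + w.im * y) ^ 2 := by
        rw [h3]
        exact dvd_sub (Dvd.dvd.mul_left hd _) (dvd_pow hd1 (by norm_num))
      exact hπ.dvd_of_dvd_pow h4
    obtain ⟨c, hc⟩ := hd1
    obtain ⟨d, hd'⟩ := hd2
    refine ⟨⟨u * d, u * c⟩, ?_⟩
    have hπ0 := hπ.ne_zero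
    refine QuadraticAlgebra.ext ?_ ?_
    · simp only [QuadraticAlgebra.re_mul]
      apply mul_left_cancel₀ hπ0
      have e : π * (x * (↑u * d) + -1 * y * (↑u * c)) =
          (u : E) * (x * (π * d) - y * (π * c)) := by ring
      rw [e, ← hc, ← hd', ← hxy]
      ring
    · simp only [QuadraticAlgebra.im_mul]
      apply mul_left_cancel₀ hπ0
      have e : π * (x * (↑u * c) + y * (↑u * d) + 0 * y * (↑u * c)) =
          (u : E) * (x * (π * c) + y * (π * d)) := by ring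
      rw [e, ← hc, ← hd', ← hxy]
      ring
  have hprod : π ∣ (w.im * β.re - w.re * β.im) * (w.im * β.re + w.re * β.im) := by
    have h5 : (w.im * β.re - w.re * β.im) * (w.im * β.re + w.re * β.im) =
        w.im ^ 2 * (β.re ^ 2 + β.im ^ 2) - (w.re ^ 2 + w.im ^ 2) * β.im ^ 2 := by ring
    rw [h5]
    exact dvd_sub (Dvd.dvd.mul_left hβ2 _) (Dvd.dvd.mul_right hw _)
  rcases hπ.dvd_or_dvd hprod with h6 | h6
  · obtain ⟨w', hw'⟩ := key β.re β.im hu hβ2 h6
    exact ⟨⟨β.re, β.im⟩, w', ⟨u, by rw [gi_norm_eq]; exact hu⟩, hw'⟩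
  · obtain ⟨w', hw'⟩ := key β.re (-β.im) (by rw [neg_sq]; exact hu) (by rw [neg_sq]; exact hβ2)
      (by rw [mul_neg, sub_neg_eq_add]; exact h6)
    exact ⟨⟨β.re, -β.im⟩, w', ⟨u, by rw [gi_norm_eq]; simpa using hu⟩, hw'⟩

theorem pi0_aux (f : E) (χ : (Gi (E ⧸ Ideal.span {f}))ˣ →* kˣ)
    (hscal : ∀ u, χ (giC u) = 1)
    (hunit : ∀ (v : (Gi E)ˣ) (t : (Gi (E ⧸ Ideal.span {f}))ˣ), t.val = redGi f v → χ t = 1)
    (n : ℕ) : ∀ w : Gi E, (w.norm.norm).natAbs = n → IsCoprime w.norm (2 * f) →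
    ∀ t : (Gi (E ⧸ Ideal.span {f}))ˣ, t.val = redGi f w → χ t ≠ 1 →
    ∃ (π : E) (w : Gi E) (t : (Gi (E ⧸ Ideal.span {f}))ˣ), Prime π ∧ ¬ π ∣ 2 * f ∧
      Associated w.norm π ∧ t.val = redGi f w ∧ χ t ≠ 1 := by
  induction n using Nat.strong_induction_on with
  | _ n ih =>
  intro w hn hcop t ht hχ
  have hw0 : w.norm ≠ 0 := by
    intro h
    rw [h, isCoprime_zero_left] at hcop
    exact two_not_unit_E (isUnit_of_mul_isUnit_left hcop)
  by_cases hwu : IsUnit w.norm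
  · exfalso
    have h1 : IsUnit w := QuadraticAlgebra.isUnit_iff_norm_isUnit.mpr hwu
    obtain ⟨v, hv⟩ := h1
    exact hχ (hunit v t (by rw [hv]; exact ht))
  obtain ⟨π, hirr, hdvd⟩ := WfDvdMonoid.exists_irreducible_factor hwu hw0
  have hπ : Prime π := hirr.prime
  have hπ2f : ¬ π ∣ 2 * f := fun h => hirr.not_isUnit (hcop.isUnit_of_dvd' hdvd h)
  have hπ2 : ¬ π ∣ 2 := fun h => hπ2f (Dvd.dvd.mul_right h _)
  have hπN : 1 < π.norm.natAbs := by
    have h1 : 0 < π.norm := E_norm_pos hπ.ne_zero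
    have h2 : π.norm ≠ 1 := fun h => hπ.not_isUnit (E_isUnit_iff.mpr h)
    omega
  -- a strictly smaller factor
  have small : ∀ (a w' : Gi E), w = a * w' → π ∣ a.norm → (w'.norm.norm).natAbs < n := by
    intro a w' hw hd
    have h1 : w.norm.norm = a.norm.norm * w'.norm.norm := by rw [hw, map_mul, map_mul]
    obtain ⟨c, hc⟩ := hd
    have h3 : w.norm.norm.natAbs ≠ 0 := by
      intro h
      exact hw0 (E_norm_eq_zero.mp (Int.natAbs_eq_zero.mp h))
    rw [← hn]
    rw [hc, map_mul] at h1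
    rw [h1, Int.natAbs_mul, Int.natAbs_mul] at h3 ⊢
    have h4 : c.norm.natAbs ≠ 0 := by
      intro h; rw [h] at h3; simp at h3
    have h5 : w'.norm.norm.natAbs ≠ 0 := by
      intro h; rw [h] at h3; simp at h3
    have h6 : 1 < π.norm.natAbs * c.norm.natAbs :=
      lt_of_lt_of_le hπN (Nat.le_mul_of_pos_right _ (Nat.pos_of_ne_zero h4))
    exact lt_mul_of_one_lt_left (Nat.pos_of_ne_zero h5) h6
  have cop : ∀ (a w' : Gi E), w = a * w' → IsCoprime w'.norm (2 * f) := by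
    intro a w' hw
    rw [hw, map_mul] at hcop
    exact hcop.of_mul_left_right
  have spl : ∀ (a w' : Gi E), w = a * w' → ∃ ta t' : (Gi (E ⧸ Ideal.span {f}))ˣ,
      ta.val = redGi f a ∧ t'.val = redGi f w' ∧ t = ta * t' := by
    intro a w' hw
    have h1 : t.val = redGi f a * redGi f w' := by rw [ht, hw, map_mul]
    have h2 : IsUnit (redGi f a * redGi f w') := by rw [← h1]; exact t.isUnit
    obtain ⟨ta, hta⟩ := isUnit_of_mul_isUnit_left h2
    obtain ⟨t', ht'⟩ := isUnit_of_mul_isUnit_right h2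
    refine ⟨ta, t', hta, ht', Units.ext ?_⟩
    rw [Units.val_mul, hta, ht', h1]
  by_cases hdw : π ∣ w.re ∧ π ∣ w.im
  · obtain ⟨⟨c, hc⟩, ⟨d, hd⟩⟩ := hdw
    have hw : w = (⟨π, 0⟩ : Gi E) * ⟨c, d⟩ := by
      refine QuadraticAlgebra.ext ?_ ?_
      · rw [QuadraticAlgebra.re_mul, hc]; ring
      · rw [QuadraticAlgebra.im_mul, hd]; ring
    obtain ⟨ta, t', hta, ht', htt⟩ := spl _ _ hw
    have h1 : χ ta = 1 := by
      have h2 : IsUnit (Ideal.Quotient.mk (Ideal.span {f}) π) := by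
        have h3 : IsUnit (ta.val.norm) := (QuadraticAlgebra.isUnit_iff_norm_isUnit).mp ta.isUnit
        rw [hta, gi_norm_eq] at h3
        have h4 : (redGi f (⟨π, 0⟩ : Gi E)).re ^ 2 + (redGi f (⟨π, 0⟩ : Gi E)).im ^ 2 =
            Ideal.Quotient.mk (Ideal.span {f}) π * Ideal.Quotient.mk (Ideal.span {f}) π := by
          simp [redGi, pow_two]
        rw [h4] at h3
        exact isUnit_of_mul_isUnit_left h3
      obtain ⟨v, hv⟩ := h2
      have h5 : ta = giC v := by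
        apply Units.ext
        rw [hta]
        ext
        · simp [redGi, giC, hv]
        · simp [redGi, giC]
      rw [h5]
      exact hscal v
    refine ih _ (small _ _ hw ?_) _ rfl (cop _ _ hw) t' ht' ?_
    · rw [gi_norm_eq]
      simp only [ne_eq, OfNat.ofNat_ne_zero, not_false_eq_true, zero_pow, add_zero]
      exact dvd_pow_self _ (by norm_num)
    · intro h
      apply hχ
      rw [htt, map_mul, h1, h, one_mul]
  · -- `-1` is a square modulo `π`
    have hnd : π ∣ w.re ^ 2 + w.im ^ 2 := by rw [← gi_norm_eq]; exact hdvd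
    have him : ¬ π ∣ w.im := by
      intro h
      apply hdw
      refine ⟨?_, h⟩
      have h1 : π ∣ w.re ^ 2 := by
        have := dvd_sub hnd (dvd_pow h (two_ne_zero))
        simpa using this
      exact hπ.dvd_of_dvd_pow h1
    have hci : IsCoprime w.im π := ((Prime.coprime_iff_not_dvd hπ).mpr him).symm
    obtain ⟨a, b, hab⟩ := hci
    have hl : π ∣ (a * w.re) ^ 2 + 1 := by
      have h1 : (a * w.re) ^ 2 + 1 = a ^ 2 * (w.re ^ 2 + w.im ^ 2) +
          (1 + a * w.im) * (1 - a * w.im) := by ring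
      have h2 : 1 - a * w.im = π * b := by linear_combination -hab
      rw [h1, h2]
      exact dvd_add (Dvd.dvd.mul_left hnd _) ⟨(1 + a * w.im) * b, by ring⟩
    obtain ⟨β, hβ⟩ := tsq π hπ hπ2 _ hl
    obtain ⟨β', w', hβ', hw⟩ := gi_dvd_of_norm hπ β w hβ hdvd
    obtain ⟨ta, t', hta, ht', htt⟩ := spl _ _ hw
    by_cases hta1 : χ ta = 1
    · refine ih _ (small _ _ hw hβ'.symm.dvd) _ rfl (cop _ _ hw) t' ht' ?_
      intro h
      apply hχ
      rw [htt, map_mul, hta1, h, one_mul]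
    · exact ⟨π, β', ta, hπ, hπ2f, hβ', hta, hta1⟩

theorem pi0 (f : E) (hf : f ≠ 0) (hf2 : IsCoprime f 2) (χ : (Gi (E ⧸ Ideal.span {f}))ˣ →* kˣ)
    (hscal : ∀ u, χ (giC u) = 1)
    (hunit : ∀ (v : (Gi E)ˣ) (t : (Gi (E ⧸ Ideal.span {f}))ˣ), t.val = redGi f v → χ t = 1)
    (hne : χ ≠ 1) :
    ∃ (π : E) (w : Gi E) (t : (Gi (E ⧸ Ideal.span {f}))ˣ), Prime π ∧ ¬ π ∣ 2 * f ∧
      Associated w.norm π ∧ t.val = redGi f w ∧ χ t ≠ 1 := by
  obtain ⟨t0, ht0⟩ : ∃ t, χ t ≠ 1 := by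
    by_contra h
    push Not at h
    exact hne (MonoidHom.ext h)
  obtain ⟨p, hp⟩ := Ideal.Quotient.mk_surjective t0.val.re
  obtain ⟨q, hq⟩ := Ideal.Quotient.mk_surjective t0.val.im
  obtain ⟨a, b, hab⟩ := hf2
  -- `w = 2 b (p + i q) + a f`
  set w : Gi E := ⟨b * 2 * p + a * f, b * 2 * q⟩ with hw
  have hmf : (Ideal.Quotient.mk (Ideal.span {f})) f = 0 :=
    Ideal.Quotient.eq_zero_iff_mem.mpr (Ideal.mem_span_singleton_self f)
  have hmb : (Ideal.Quotient.mk (Ideal.span {f})) (b * 2) = 1 := by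
    have := congrArg (Ideal.Quotient.mk (Ideal.span {f})) hab
    rw [map_add, map_mul _ a f, hmf, mul_zero, zero_add, map_one] at this
    exact this
  have hred : t0.val = redGi f w := by
    ext
    · change _ = Ideal.Quotient.mk (Ideal.span {f}) (b * 2 * p + a * f)
      rw [map_add, map_mul _ (b * 2) p, hmb, map_mul _ a f, hmf, hp]
      simp
    · change _ = Ideal.Quotient.mk (Ideal.span {f}) (b * 2 * q)
      rw [map_mul _ (b * 2) q, hmb, hq]
      simp
  have hcf : IsCoprime w.norm f := by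
    have h1 : IsUnit t0.val.norm := (QuadraticAlgebra.isUnit_iff_norm_isUnit).mp t0.isUnit
    rw [hred] at h1
    have h2 : (redGi f w).norm = Ideal.Quotient.mk (Ideal.span {f}) w.norm := by
      rw [gi_norm_eq, gi_norm_eq, map_add, map_pow, map_pow]
      rfl
    rw [h2] at h1
    obtain ⟨c, hc⟩ := h1.exists_right_inv
    obtain ⟨c', rfl⟩ := Ideal.Quotient.mk_surjective c
    rw [← map_mul, ← map_one (Ideal.Quotient.mk (Ideal.span {f})), Ideal.Quotient.eq,
      Ideal.mem_span_singleton] at hc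
    obtain ⟨d, hd⟩ := hc
    exact ⟨c', -d, by linear_combination hd⟩
  have hc2 : IsCoprime w.norm 2 := by
    have h1 : w.norm = 1 + 2 * (b * (2 * b * (p ^ 2 + q ^ 2) + 2 * p * (a * f)) +
        (-b) * (1 + a * f)) := by
      rw [gi_norm_eq, hw]
      have h3 : a * f = 1 - b * 2 := by rw [← hab]; ring
      simp only
      rw [h3]
      ring
    rw [h1]
    exact (isCoprime_one_left (x := (2 : E))).add_mul_left_left _
  exact pi0_aux f χ hscal hunit _ w rfl (hc2.mul_right hcf) t0 hred ht0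

end

end SerreE
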