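import Pool.Agent.Serre.HDefs

/-!
# Module TSQ: sums of two squares in the Eisenstein integers
-/

open Matrix
open scoped QuadraticAlgebra

namespace SerreE

theorem tsq_norm_add (a b : E) : (a + b).norm = a.norm + b.norm +
    (2 * a.re * b.re + a.re * b.im + a.im * b.re + 2 * a.im * b.im) := by
  rw [E_norm_def, E_norm_def, E_norm_def, QuadraticAlgebra.re_add, QuadraticAlgebra.im_add]
  ring

theorem tsq_tr_sq (a b : E) :
    (2 * a.re * b.re + a.re * b.im + a.im * b.re + 2 * a.im * b.im) ^ 2 ≤
      4 * a.norm * b.norm := by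
  rw [E_norm_def, E_norm_def]
  nlinarith [sq_nonneg (a.re * b.im - a.im * b.re)]

theorem tsq_sum_sq (x y : E) : (x ^ 2 + y ^ 2).norm ≤ (x.norm + y.norm) ^ 2 := by
  rw [tsq_norm_add, map_pow, map_pow]
  have h1 := tsq_tr_sq (x ^ 2) (y ^ 2)
  rw [map_pow, map_pow] at h1
  have hx := E_norm_nonneg x
  have hy := E_norm_nonneg y
  set T := 2 * (x ^ 2).re * (y ^ 2).re + (x ^ 2).re * (y ^ 2).im + (x ^ 2).im * (y ^ 2).re +
    2 * (x ^ 2).im * (y ^ 2).im with hT
  have h2 : T ≤ 2 * (x.norm * y.norm) := by
    apply le_of_sq_le_sq _ (by positivity)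
    calc T ^ 2 ≤ 4 * x.norm ^ 2 * y.norm ^ 2 := h1
      _ = _ := by ring
  nlinarith

theorem tsq_desc (π : E) (hπ : Prime π) : ∀ k : ℕ, ∀ n x y : E, n ≠ 0 → n.norm ≤ k →
    n.norm < π.norm → x ^ 2 + y ^ 2 = n * π → ∃ w : Gi E, Associated w.norm π := by
  intro k
  induction k with
  | zero =>
    intro n x y hn hk
    have := E_norm_pos hn
    push_cast at hk
    omega
  | succ k ih =>
    intro n x y hn hk hlt hxy
    by_cases hu : IsUnit n
    · refine ⟨⟨x, y⟩, ?_⟩
      have h1 : (⟨x, y⟩ : Gi E).norm = n * π := by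
        rw [QuadraticAlgebra.norm_def, ← hxy]
        ring
      rw [h1]
      exact associated_unit_mul_left π n hu
    · obtain ⟨a, ha⟩ := E_div x n hn
      obtain ⟨b, hb⟩ := E_div y n hn
      set x' := x - n * a with hx'
      set y' := y - n * b with hy'
      have hdvd : x' ^ 2 + y' ^ 2 = n * (π + -(2 * a * x) + n * a ^ 2 + -(2 * b * y) + n * b ^ 2) := by
        rw [hx', hy']
        linear_combination hxy
      set n' := π + -(2 * a * x) + n * a ^ 2 + -(2 * b * y) + n * b ^ 2 with hn'
      have hNpos := E_norm_pos hn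
      have hb1 := tsq_sum_sq x' y'
      rw [hdvd, map_mul] at hb1
      have hx0 := E_norm_nonneg x'
      have hy0 := E_norm_nonneg y'
      have hn'0 := E_norm_nonneg n'
      have hlt' : n'.norm < n.norm := by
        by_contra hcon
        push Not at hcon
        have h3 : n.norm * n.norm ≤ (x'.norm + y'.norm) ^ 2 := by
          calc n.norm * n.norm ≤ n.norm * n'.norm := by gcongr
            _ ≤ _ := hb1
        have h4 : 3 * (x'.norm + y'.norm) ≤ 2 * n.norm := by linarith
        have h5 : (3 * (x'.norm + y'.norm)) ^ 2 ≤ (2 * n.norm) ^ 2 :=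
          pow_le_pow_left₀ (by positivity) h4 2
        nlinarith
      by_cases hz : n' = 0
      · exfalso
        rw [hz, mul_zero] at hdvd
        obtain ⟨h3, h4⟩ := E_sq_add_sq hdvd
        have hxn : x = n * a := by linear_combination h3
        have hyn : y = n * b := by linear_combination h4
        have h5 : n * (n * (a ^ 2 + b ^ 2)) = n * π := by
          rw [← hxy, hxn, hyn]; ring
        have h6 : n * (a ^ 2 + b ^ 2) = π := mul_left_cancel₀ hn h5
        rcases hπ.irreducible.isUnit_or_isUnit h6.symm with h7 | h7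
        · exact hu h7
        · have h8 : (a ^ 2 + b ^ 2).norm = 1 := E_isUnit_iff.mp h7
          have h9 := congrArg (fun z : E => z.norm) h6
          simp only [map_mul] at h9
          rw [h8, mul_one] at h9
          omega
      · have hX : x * x' + y * y' = n * (π - a * x - b * y) := by
          rw [hx', hy']
          linear_combination hxy
        have hY : y * x' - x * y' = n * (b * x - a * y) := by
          rw [hx', hy']
          ring
        refine ih n' (π - a * x - b * y) (b * x - a * y) hz (by push_cast at hk; omega)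
          (by omega) ?_
        have h10 : n ^ 2 * ((π - a * x - b * y) ^ 2 + (b * x - a * y) ^ 2) =
            n ^ 2 * (n' * π) := by
          calc n ^ 2 * ((π - a * x - b * y) ^ 2 + (b * x - a * y) ^ 2)
              = (n * (π - a * x - b * y)) ^ 2 + (n * (b * x - a * y)) ^ 2 := by ring
            _ = (x * x' + y * y') ^ 2 + (y * x' - x * y') ^ 2 := by rw [hX, hY]
            _ = (x ^ 2 + y ^ 2) * (x' ^ 2 + y' ^ 2) := by ring
            _ = (n * π) * (n * n') := by rw [hxy, hdvd]
            _ = _ := by ring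
        exact mul_left_cancel₀ (pow_ne_zero 2 hn) h10

theorem tsq (π : E) (hπ : Prime π) (h2 : ¬ π ∣ 2) (l : E) (hl : π ∣ l ^ 2 + 1) :
    ∃ w : Gi E, Associated w.norm π := by
  have hπ0 := hπ.ne_zero
  obtain ⟨q, hq⟩ := E_div l π hπ0
  set l' := l - π * q with hl'
  have hdvd : π ∣ l' ^ 2 + 1 := by
    have h1 : l' ^ 2 + 1 = (l ^ 2 + 1) + π * (-(2 * l * q) + π * q ^ 2) := by
      rw [hl']; ring
    rw [h1]
    exact dvd_add hl (dvd_mul_right _ _)
  obtain ⟨n, hn⟩ := hdvd
  have hn0 : n ≠ 0 := by
    rintro rfl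
    rw [mul_zero] at hn
    have h1 : l' ^ 2 + 1 ^ 2 = 0 := by rw [one_pow]; exact hn
    exact one_ne_zero (E_sq_add_sq h1).2
  have hNπ := E_norm_pos hπ0
  have hNπ1 : π.norm ≠ 1 := fun h => hπ.not_isUnit (E_isUnit_iff.mpr h)
  have h3 := tsq_sum_sq l' 1
  rw [one_pow, hn, map_mul, map_one] at h3
  have hl0 := E_norm_nonneg l'
  have hNn := E_norm_pos hn0
  have hlt : n.norm < π.norm := by
    by_contra hcon
    push Not at hcon
    have h4 : π.norm * π.norm ≤ (l'.norm + 1) ^ 2 := by
      calc π.norm * π.norm ≤ π.norm * n.norm := by gcongr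
        _ ≤ _ := h3
    have h5 : l'.norm + 1 < π.norm := by omega
    nlinarith
  have hk : n.norm ≤ (n.norm.toNat : ℤ) := Int.self_le_toNat _
  refine tsq_desc π hπ n.norm.toNat n l' 1 hn0 hk hlt ?_
  rw [one_pow, hn]
  ring

end SerreE
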