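import Pool.Agent.Serre.HDefs
import Pool.Agent.Serre.FRAME
import Pool.Agent.Serre.FIX
import Pool.Agent.Serre.HFORM
import Pool.Agent.Serre.FEX
import Pool.Agent.Serre.TSQ
import Pool.Agent.Serre.FINORD

/-!
# TOR : `T_π h` kills the elements of finite order
-/

open Matrix
open scoped QuadraticAlgebra

namespace SerreE

section
variable {k : Type*} [Field k] [CharP k 2]

namespace TorAux

theorem gam_mem {N π : E} (hπ : π ≠ 0) {X : Type} (t : X → Gam0 N) (F : Frame π X)
    (hF : ∀ x, F.s x = (t x).val) (γ : Gam0 N) (x : X) : F.gam γ.val x ∈ Gam0 N := by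
  have h := F.step_act hπ γ.val x
  unfold Frame.Step at h
  rw [hF, hF] at h
  have hA : ((t (F.act γ.val x))⁻¹ * γ * t x).val.val * PM π = PM π * (F.gam γ.val x).val := by
    have e : ((t (F.act γ.val x))⁻¹ * γ * t x).val.val =
        ((t (F.act γ.val x)).val⁻¹).val * (γ.val.val * (t x).val.val) := by
      simp [mul_assoc]
    rw [e, mul_assoc, h, ← mul_assoc, ← mul_assoc, ← Units.val_mul, inv_mul_cancel]
    simp
  have h10 := congrFun (congrFun hA 1) 0
  simp only [Matrix.mul_apply, Fin.sum_univ_two, PM, Matrix.of_apply, Matrix.cons_val',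
    Matrix.cons_val_zero, Matrix.cons_val_one, Matrix.cons_val_fin_one, mul_zero, add_zero,
    zero_mul, zero_add, one_mul] at h10
  rw [mem_Gam0, ← h10]
  exact Dvd.dvd.mul_right (mem_Gam0.mp ((t (F.act γ.val x))⁻¹ * γ * t x).2) _

omit [CharP k 2] in
theorem formula (N π : E) (hπ : π ≠ 0) {X : Type} [Fintype X] (t : X → Gam0 N) (F : Frame π X)
    (hF : ∀ x, F.s x = (t x).val) (h : Hom1 k N) (γ : Gam0 N) :
    heckeFun N π hπ h (Additive.ofMul γ) =
      ∑ x, h (Additive.ofMul ⟨F.gam γ.val x, gam_mem hπ t F hF γ x⟩) := by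
  refine hecke_formula N π hπ t ?_ ?_ h γ (F.act γ.val)
    (fun x => ⟨F.gam γ.val x, gam_mem hπ t F hF γ x⟩) ?_
  · intro g
    obtain ⟨x, hx⟩ := F.cover g.val
    refine ⟨x, ?_⟩
    rw [hF] at hx
    exact hx
  · intro x y hxy
    apply F.sep
    rw [hF, hF]
    exact hxy
  · intro x
    have := F.step_act hπ γ.val x
    unfold Frame.Step at this
    rw [hF, hF] at this
    exact this

theorem scal_mem (N : E) (u : Eˣ) : (sc u : GL (Fin 2) E) ∈ Gam0 N := by
  rw [mem_Gam0]
  simp

omit [CharP k 2] in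
theorem hecke_sc (N π : E) (hπ : Prime π) (hN : ¬ π ∣ N) (h : Hom1 k N)
    (hs : ∀ (γ : Gam0 N) (u : Eˣ), γ.val = sc u → h (Additive.ofMul γ) = 0)
    (γ : Gam0 N) (u : Eˣ) (hγ : γ.val = sc u) :
    heckeFun N π hπ.ne_zero h (Additive.ofMul γ) = 0 := by
  obtain ⟨X, hX, t, F, hF⟩ := frame_exists N π hπ hN
  rw [formula N π hπ.ne_zero t F hF h γ]
  refine Finset.sum_eq_zero fun x _ => ?_
  refine hs _ u ?_
  change F.gam γ.val x = sc u
  rw [hγ]
  exact (F.act_sc hπ.ne_zero u x).2

theorem sq_trace_zero (g : GL (Fin 2) E) (tr : g.val.trace = 0) :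
    ∃ u : Eˣ, g * g = sc u := by
  refine ⟨-Matrix.GeneralLinearGroup.det g, ?_⟩
  rw [Matrix.trace_fin_two] at tr
  apply Matrix.GeneralLinearGroup.ext
  intro i j
  have hd : ((-Matrix.GeneralLinearGroup.det g : Eˣ) : E) = -(g.val.det) := by simp
  rw [Matrix.det_fin_two] at hd
  simp only [Units.val_mul, Matrix.mul_apply, Fin.sum_univ_two]
  fin_cases i <;> fin_cases j <;> simp
  · rw [Matrix.det_fin_two]; linear_combination (g.val 0 0) * tr
  · linear_combination (g.val 0 1) * tr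
  · linear_combination (g.val 1 0) * tr
  · rw [Matrix.det_fin_two]; linear_combination (g.val 1 1) * tr

theorem det_lin (g : Matrix (Fin 2) (Fin 2) E) (tr : g.trace = 0) (x y : E) :
    (x • (1 : Matrix (Fin 2) (Fin 2) E) + y • g).det = x ^ 2 + y ^ 2 * g.det := by
  rw [Matrix.trace_fin_two] at tr
  rw [Matrix.det_fin_two, Matrix.det_fin_two]
  simp
  linear_combination (x * y) * tr

/-- the unit `ep` lies in `Γ₀(N)`. -/
theorem ep_mem {N π : E} (hπ : Prime π) (hN : ¬ π ∣ N) (s g e : GL (Fin 2) E) (hs : s ∈ Gam0 N)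
    (hg : g ∈ Gam0 N) (x y : E)
    (hdet : Associated (x • (1 : Matrix (Fin 2) (Fin 2) E) + y • g.val).det π)
    (h : s.val * PM π = (x • (1 : Matrix (Fin 2) (Fin 2) E) + y • g.val) * e.val) :
    e ∈ Gam0 N := by
  rw [mem_Gam0] at hs hg ⊢
  set M : Matrix (Fin 2) (Fin 2) E := x • (1 : Matrix (Fin 2) (Fin 2) E) + y • g.val with hM
  have M10 : N ∣ M 1 0 := by
    rw [hM]; simp
    exact Dvd.dvd.mul_left hg _
  have h10 := congrFun (congrFun h 1) 0
  simp only [Matrix.mul_apply, Fin.sum_univ_two, PM, Matrix.of_apply, Matrix.cons_val',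
    Matrix.cons_val_zero, Matrix.cons_val_one, Matrix.cons_val_fin_one, mul_zero, add_zero] at h10
  have h11 : N ∣ M 1 1 * e.val 1 0 := by
    have : M 1 1 * e.val 1 0 = s.val 1 0 * π - M 1 0 * e.val 0 0 := by
      rw [h10]; ring
    rw [this]
    exact dvd_sub (Dvd.dvd.mul_right hs _) (Dvd.dvd.mul_right M10 _)
  have hd : N ∣ M.det * e.val 1 0 := by
    rw [Matrix.det_fin_two]
    have : (M 0 0 * M 1 1 - M 0 1 * M 1 0) * e.val 1 0 =
        M 0 0 * (M 1 1 * e.val 1 0) - M 1 0 * (M 0 1 * e.val 1 0) := by ring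
    rw [this]
    exact dvd_sub (Dvd.dvd.mul_left h11 _) (Dvd.dvd.mul_right M10 _)
  have hcop : IsCoprime π N := (hπ.irreducible.coprime_iff_not_dvd).mpr hN
  obtain ⟨u, hu⟩ := hdet
  have hd' : N ∣ π * e.val 1 0 := by
    rw [← hu]
    have : M.det * (u : E) * e.val 1 0 = (u : E) * (M.det * e.val 1 0) := by ring
    rw [this]
    exact Dvd.dvd.mul_left hd _
  exact hcop.symm.dvd_of_dvd_mul_left hd'

omit [CharP k 2] in
/-- a fixed point contributes `h g`. -/
theorem fixed_contrib {N π : E} (hπ : Prime π) (hN : ¬ π ∣ N) {X : Type}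
    (t : X → Gam0 N) (F : Frame π X) (hF : ∀ x, F.s x = (t x).val) (h : Hom1 k N)
    (g : Gam0 N) (x y : E) (xp : X) (ep : GL (Fin 2) E)
    (hdet : Associated (x • (1 : Matrix (Fin 2) (Fin 2) E) + y • g.val.val).det π)
    (hs : (F.s xp).val * PM π = (x • (1 : Matrix (Fin 2) (Fin 2) E) + y • g.val.val) * ep.val) :
    F.act g.val xp = xp ∧
      h (Additive.ofMul ⟨F.gam g.val xp, gam_mem hπ.ne_zero t F hF g xp⟩) =
        h (Additive.ofMul g) := by
  have hep : ep ∈ Gam0 N := by
    refine ep_mem hπ hN (F.s xp) g.val ep ?_ g.2 x y hdet hs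
    rw [hF]; exact (t xp).2
  have hstep : F.Step g.val xp xp (ep⁻¹ * g.val * ep) := by
    unfold Frame.Step
    rw [mul_assoc, hs]
    have c1 : g.val.val * ((x • (1 : Matrix (Fin 2) (Fin 2) E) + y • g.val.val) * ep.val) =
        (x • (1 : Matrix (Fin 2) (Fin 2) E) + y • g.val.val) * (g.val.val * ep.val) := by
      rw [← mul_assoc, ← mul_assoc]
      congr 1
      rw [mul_add, add_mul]
      simp
    rw [c1, mul_assoc]
    congr 1
    have c2 : ep * (ep⁻¹ * g.val * ep) = g.val * ep := by group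
    rw [← Units.val_mul, ← Units.val_mul, c2]
  obtain ⟨h1, h2⟩ := F.act_eq hπ.ne_zero hstep
  refine ⟨h1, ?_⟩
  have e : (⟨F.gam g.val xp, gam_mem hπ.ne_zero t F hF g xp⟩ : Gam0 N) =
      (⟨ep, hep⟩ : Gam0 N)⁻¹ * g * ⟨ep, hep⟩ := by
    apply Subtype.ext
    simpa using h2
  rw [e, ofMul_mul, ofMul_mul, ofMul_inv, map_add, map_add, map_neg]
  ring

theorem hecke_trace_zero (N π : E) (hπ : Prime π) (h2 : ¬ π ∣ 2) (hN : ¬ π ∣ N) (h : Hom1 k N)
    (hs : ∀ (γ : Gam0 N) (u : Eˣ), γ.val = sc u → h (Additive.ofMul γ) = 0)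
    (g : Gam0 N) (tr : g.val.val.trace = 0) (hd : g.val.val.det = 1 ∨ g.val.val.det = -1) :
    heckeFun N π hπ.ne_zero h (Additive.ofMul g) = 0 := by
  classical
  obtain ⟨X, hX, t, F, hF⟩ := frame_exists N π hπ hN
  rw [formula N π hπ.ne_zero t F hF h g]
  obtain ⟨u0, hu0⟩ := sq_trace_zero g.val tr
  have hinv : ∀ x, F.act g.val (F.act g.val x) = x := by
    intro x
    have := (F.act_mul hπ.ne_zero g.val g.val x).1
    rw [hu0, (F.act_sc hπ.ne_zero u0 x).1] at this
    exact this.symm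
  have hgam : ∀ x, F.gam g.val (F.act g.val x) * F.gam g.val x = sc u0 := by
    intro x
    have := (F.act_mul hπ.ne_zero g.val g.val x).2
    rw [hu0, (F.act_sc hπ.ne_zero u0 x).2] at this
    exact this.symm
  set f : X → k := fun x =>
    h (Additive.ofMul ⟨F.gam g.val x, gam_mem hπ.ne_zero t F hF g x⟩) with hf
  have hpair : ∀ x, f x + f (F.act g.val x) = 0 := by
    intro x
    rw [hf]
    simp only
    rw [add_comm, ← map_add, ← ofMul_mul]
    refine hs _ u0 ?_
    exact hgam x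
  by_cases hfix : ∃ x0, F.act g.val x0 = x0
  · obtain ⟨x0, hx0⟩ := hfix
    -- the two coefficients
    obtain ⟨x₁, y₁, hdet⟩ : ∃ x₁ y₁ : E,
        Associated (x₁ • (1 : Matrix (Fin 2) (Fin 2) E) + y₁ • g.val.val).det π := by
      rcases hd with hd | hd
      · have hst := F.step_act hπ.ne_zero g.val x0
        rw [hx0] at hst
        obtain ⟨l, hl⟩ := fix_eig F g.val tr x0 _ hst
        rw [hd] at hl
        obtain ⟨w, hw⟩ := tsq π hπ h2 l hl
        refine ⟨w.re, w.im, ?_⟩
        rw [det_lin _ tr, hd]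
        have : w.norm = w.re ^ 2 + w.im ^ 2 * 1 := by
          rw [QuadraticAlgebra.norm_def]; ring
        rw [← this]
        exact hw
      · have h2π : ¬ (2 : E) ∣ π := by
          intro h'
          exact h2 ((E_two_prime.associated_of_dvd hπ h').symm.dvd)
        obtain ⟨u, z, hz⟩ := E_mod_two π h2π
        refine ⟨u + z, z, ?_⟩
        rw [det_lin _ tr, hd]
        have : ((u : E) + z) ^ 2 + z ^ 2 * -1 = π * u := by
          have : π = u + 2 * z := by rw [← hz]; ring
          rw [this]; ring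
        rw [this]
        exact (associated_mul_unit_left π (u : E) u.isUnit)
    obtain ⟨xp, xm, ep, em, hne, hp, hm, hall⟩ := fix_points F hπ h2 g.val tr x₁ y₁ hdet
    obtain ⟨ap, fp⟩ := fixed_contrib hπ hN t F hF h g x₁ y₁ xp ep hdet hp
    have hdet' : Associated (x₁ • (1 : Matrix (Fin 2) (Fin 2) E) + (-y₁) • g.val.val).det π := by
      rw [det_lin _ tr] at hdet ⊢
      simpa using hdet
    have hm' : (F.s xm).val * PM π =
        (x₁ • (1 : Matrix (Fin 2) (Fin 2) E) + (-y₁) • g.val.val) * em.val := by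
      rw [hm, neg_smul, sub_eq_add_neg]
    obtain ⟨am, fm⟩ := fixed_contrib hπ hN t F hF h g x₁ (-y₁) xm em hdet' hm'
    have hfixed : ∀ x, F.act g.val x = x → x = xp ∨ x = xm := by
      intro x hx
      have hst := F.step_act hπ.ne_zero g.val x
      rw [hx] at hst
      exact hall x _ hst
    have hsum : ∑ x ∈ (Finset.univ.erase xp).erase xm, f x = 0 := by
      refine Finset.sum_involution (fun x _ => F.act g.val x) ?_ ?_ ?_ ?_
      · intro x _; exact hpair x
      · intro x hx _ hx'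
        simp only [Finset.mem_erase, Finset.mem_univ, and_true] at hx
        rcases hfixed x hx' with h' | h'
        · exact hx.2 h'
        · exact hx.1 h'
      · intro x hx
        simp only [Finset.mem_erase, Finset.mem_univ, and_true] at hx ⊢
        constructor
        · intro h'
          apply hx.1
          rw [← hinv x, h', am]
        · intro h'
          apply hx.2
          rw [← hinv x, h', ap]
      · intro x _; exact hinv x
    rw [← Finset.add_sum_erase Finset.univ f (Finset.mem_univ xp),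
      ← Finset.add_sum_erase (Finset.univ.erase xp) f
        (Finset.mem_erase.mpr ⟨hne.symm, Finset.mem_univ xm⟩), hsum, add_zero]
    have e1 : f xp = h (Additive.ofMul g) := fp
    have e2 : f xm = h (Additive.ofMul g) := fm
    rw [e1, e2]
    exact CharTwo.add_self_eq_zero _
  · push Not at hfix
    refine Finset.sum_involution (fun x _ => F.act g.val x) ?_ ?_ ?_ ?_
    · intro x _; exact hpair x
    · intro x _ _; exact hfix x
    · intro x _; exact Finset.mem_univ _
    · intro x _; exact hinv x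

/-- reduction of the trace zero case to determinant `±1`. -/
theorem hecke_trace_zero' (N π : E) (hπ : Prime π) (h2 : ¬ π ∣ 2) (hN : ¬ π ∣ N) (h : Hom1 k N)
    (hs : ∀ (γ : Gam0 N) (u : Eˣ), γ.val = sc u → h (Additive.ofMul γ) = 0)
    (g : Gam0 N) (tr : g.val.val.trace = 0) :
    heckeFun N π hπ.ne_zero h (Additive.ofMul g) = 0 := by
  obtain ⟨v, htr, hdet⟩ := trace_zero_norm g.val tr
  obtain ⟨s, hsv⟩ : ∃ s : Gam0 N, s.val = sc v := ⟨⟨sc v, scal_mem N v⟩, rfl⟩
  have e : (s * g).val = sc v * g.val := by rw [Subgroup.coe_mul, hsv]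
  have h1 := hecke_trace_zero N π hπ h2 hN h hs (s * g) (by rw [e]; exact htr)
    (by rw [e]; exact hdet)
  rw [ofMul_mul, map_add, hecke_sc N π hπ hN h hs s v hsv, zero_add] at h1
  exact h1

end TorAux

theorem tor (N π : E) (hπ : Prime π) (h2 : ¬ π ∣ 2) (hN : ¬ π ∣ N) (h : Hom1 k N)
    (hs : ∀ (γ : Gam0 N) (u : Eˣ), γ.val = sc u → h (Additive.ofMul γ) = 0)
    (g : Gam0 N) (hg : IsOfFinOrder g) :
    heckeFun N π hπ.ne_zero h (Additive.ofMul g) = 0 := by
  have hcube : heckeFun N π hπ.ne_zero h (Additive.ofMul (g ^ 3)) =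
      heckeFun N π hπ.ne_zero h (Additive.ofMul g) := by
    rw [ofMul_pow, map_nsmul]
    rw [show (3 : ℕ) = 2 + 1 from rfl, add_nsmul, two_nsmul, CharTwo.add_self_eq_zero, one_nsmul,
      zero_add]
  have hg' : IsOfFinOrder g.val := (Gam0 N).subtype.isOfFinOrder hg
  rcases finord g.val hg' with ⟨u, hu⟩ | ⟨u, hu⟩ | htr | htr
  · exact TorAux.hecke_sc N π hπ hN h hs g u hu
  · rw [← hcube]
    exact TorAux.hecke_sc N π hπ hN h hs (g ^ 3) u (by simpa using hu)
  · rw [← hcube]
    exact TorAux.hecke_trace_zero' N π hπ h2 hN h hs (g ^ 3) (by simpa using htr)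
  · exact TorAux.hecke_trace_zero' N π hπ h2 hN h hs g htr

end

end SerreE
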