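import Pool.Agent.Serre.HDefs
import Pool.Agent.Serre.GEN
import Pool.Agent.Serre.EX
import Pool.Agent.Serre.DICH
import Pool.Agent.Serre.SHAP
import Pool.Agent.Serre.HECKEC
import Pool.Agent.Serre.EIG
import Pool.Agent.Serre.VCRT
import Pool.Agent.Serre.INJ
import Pool.Agent.Serre.COMPAT
import Pool.Agent.Serre.PI0
import Pool.Agent.Serre.TOR

/-!
# The statement: eigenforms on `H¹(Y₀(N), 𝔽̄₂)`
-/

open Matrix
open scoped QuadraticAlgebra

namespace SerreE

/-- `𝔽̄₂` -/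
abbrev kbar := AlgebraicClosure (ZMod 2)

/-- `H¹(Y₀(N), 𝔽̄₂)` for the quotient space `Y₀(N) = Γ₀(N) \ ℍ₃`: the homomorphisms
`Γ₀(N) → 𝔽̄₂` which vanish on all elements of finite order. -/
def H1Y (N : E) : Submodule kbar (Hom1 kbar N) where
  carrier := {h | ∀ g : Gam0 N, IsOfFinOrder g → h (Additive.ofMul g) = 0}
  add_mem' := by
    intro a b ha hb g hg
    rw [AddMonoidHom.add_apply, ha g hg, hb g hg, add_zero]
  zero_mem' := by intro g _; rfl
  smul_mem' := by
    intro c a ha g hg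
    rw [AddMonoidHom.smul_apply, ha g hg, smul_zero]

/-- the Hecke operator `T_π` on `H¹(Γ₀(N), 𝔽̄₂)`, as a linear map. -/
noncomputable def heckeLin (N π : E) (hπ : π ≠ 0) : Module.End kbar (Hom1 kbar N) where
  toFun := heckeFun N π hπ
  map_add' := hecke_add N π hπ
  map_smul' := hecke_smul N π hπ

instance : CharP kbar 2 := inferInstance

/-- the primes `π` not dividing `2N`. -/
abbrev GoodPrime (N : E) := {π : E // Prime π ∧ ¬ π ∣ 2 * N}

theorem scal_finOrder (N : E) (γ : Gam0 N) (u : Eˣ) (h : γ.val = sc u) : IsOfFinOrder γ := by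
  obtain ⟨n, -, hn⟩ := E_unit_cases u
  have h6 : omu ^ 6 = 1 := by
    apply Units.ext
    ext <;> simp [omu, pow_succ]
  rw [isOfFinOrder_iff_pow_eq_one]
  refine ⟨6, by norm_num, ?_⟩
  apply Subtype.ext
  rw [Subgroup.coe_pow, h, ← map_pow, hn, ← pow_mul, mul_comm, pow_mul, h6, one_pow, map_one]
  rfl

theorem hecke_stable (N : E) (π : GoodPrime N) :
    ∀ h ∈ H1Y N, heckeLin N π.val π.2.1.ne_zero h ∈ H1Y N := by
  intro h hh g hg
  have h2 : ¬ π.val ∣ 2 := fun hd => π.2.2 (Dvd.dvd.mul_right hd _)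
  have hN : ¬ π.val ∣ N := fun hd => π.2.2 (Dvd.dvd.mul_left hd _)
  exact tor N π.val π.2.1 h2 hN h (fun γ u hγ => hh γ (scal_finOrder N γ u hγ)) g hg

/-- the Hecke operator `T_π` on `H¹(Y₀(N), 𝔽̄₂)`. -/
noncomputable def heckeY (N : E) (π : GoodPrime N) : Module.End kbar (H1Y N) :=
  (heckeLin N π.val π.2.1.ne_zero).restrict (hecke_stable N π)

/-- the Hecke algebra of `H¹(Y₀(N), 𝔽̄₂)`. -/
noncomputable def HeckeAlg (N : E) : Subalgebra kbar (Module.End kbar (H1Y N)) :=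
  Algebra.adjoin kbar (Set.range (heckeY N))

/-- `T_π` as an element of the Hecke algebra. -/
noncomputable def Tp (N : E) (π : GoodPrime N) : HeckeAlg N :=
  ⟨heckeY N π, Algebra.subset_adjoin ⟨π, rfl⟩⟩

end SerreE
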