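import Pool.Agent.Serre.Basic

/-!
# Hecke operators on `H¹(Γ₀(N), k) = Hom(Γ₀(N), k)`
-/

open Matrix
open scoped QuadraticAlgebra

namespace SerreE

section theta

variable {O : Type*} [CommRing O] [IsDomain O]

/-- for `g = [[a, b], [c, d]]` with `π ∣ b`, the conjugate
`diag(1, π) g diag(1, π)⁻¹ = [[a, b / π], [π c, d]]`. -/
noncomputable def theta (π : O) (g : GamUp π) : GL (Fin 2) O :=
  mk2 (g.val.val 0 0) (Classical.choose (mem_GamUp.mp g.2)) (π * g.val.val 1 0) (g.val.val 1 1)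
    (Matrix.GeneralLinearGroup.det g.val) (by
      have h := Classical.choose_spec (mem_GamUp.mp g.2)
      rw [Matrix.GeneralLinearGroup.val_det_apply, Matrix.det_fin_two]
      linear_combination (-1 : O) * (g.val.val 1 0) * h * (-1))

theorem theta_spec (π : O) (g : GamUp π) :
    (theta π g).val 0 0 = g.val.val 0 0 ∧ g.val.val 0 1 = π * (theta π g).val 0 1 ∧
    (theta π g).val 1 0 = π * g.val.val 1 0 ∧ (theta π g).val 1 1 = g.val.val 1 1 :=
  ⟨rfl, Classical.choose_spec (mem_GamUp.mp g.2), rfl, rfl⟩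

/-- `theta` as a group homomorphism. -/
noncomputable def thetaHom (π : O) (hπ : π ≠ 0) : GamUp π →* GL (Fin 2) O where
  toFun := theta π
  map_one' := by
    obtain ⟨h1, h2, h3, h4⟩ := theta_spec π (1 : GamUp π)
    have e01 : (theta π (1 : GamUp π)).val 0 1 = 0 := by
      have : π * (theta π (1 : GamUp π)).val 0 1 = 0 := by rw [← h2]; simp
      exact (mul_eq_zero.mp this).resolve_left hπ
    apply Matrix.GeneralLinearGroup.ext
    intro i j
    fin_cases i <;> fin_cases j
    · simpa using h1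
    · simpa using e01
    · simpa using h3
    · simpa using h4
  map_mul' := by
    intro a b
    obtain ⟨h1, h2, h3, h4⟩ := theta_spec π (a * b)
    obtain ⟨a1, a2, a3, a4⟩ := theta_spec π a
    obtain ⟨b1, b2, b3, b4⟩ := theta_spec π b
    have m00 : (a * b).val.val 0 0 = a.val.val 0 0 * b.val.val 0 0 +
      a.val.val 0 1 * b.val.val 1 0 := by
      simp [Matrix.mul_apply, Fin.sum_univ_two]
    have m01 : (a * b).val.val 0 1 = a.val.val 0 0 * b.val.val 0 1 +
      a.val.val 0 1 * b.val.val 1 1 := by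
      simp [Matrix.mul_apply, Fin.sum_univ_two]
    have m10 : (a * b).val.val 1 0 = a.val.val 1 0 * b.val.val 0 0 +
      a.val.val 1 1 * b.val.val 1 0 := by
      simp [Matrix.mul_apply, Fin.sum_univ_two]
    have m11 : (a * b).val.val 1 1 = a.val.val 1 0 * b.val.val 0 1 +
      a.val.val 1 1 * b.val.val 1 1 := by
      simp [Matrix.mul_apply, Fin.sum_univ_two]
    apply Matrix.GeneralLinearGroup.ext
    intro i j
    fin_cases i <;> fin_cases j <;>
      simp only [Fin.zero_eta, Fin.mk_one, Fin.isValue, Units.val_mul, Matrix.mul_apply,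
        Fin.sum_univ_two]
    · rw [h1, m00, a1, b1, b3]; rw [a2]; ring
    · apply mul_left_cancel₀ hπ
      rw [← h2, m01, b2, a2, a1, b4]; ring
    · rw [h3, m10, a3, a4, b1, b3]; ring
    · rw [h4, m11, a3, a4, b4]; rw [b2]; ring

end theta

section hecke

/-- `Γ₀(N) ∩ Γ⁰(π)` as a subgroup of `Γ₀(N)`. -/
def HeckeSub (N π : E) : Subgroup (Gam0 N) := (GamUp π).subgroupOf (Gam0 N)

/-- the inclusion of `Γ₀(N) ∩ Γ⁰(π)` in `Γ⁰(π)`. -/
def heckeIncl (N π : E) : HeckeSub N π →* GamUp π :=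
  ((Gam0 N).subtype.comp (HeckeSub N π).subtype).codRestrict (GamUp π) (fun g => g.2)

theorem heckeIncl_val (N π : E) (g : HeckeSub N π) : (heckeIncl N π g).val = g.val.val := rfl

/-- conjugation by `diag(1, π)`, from `Γ₀(N) ∩ Γ⁰(π)` to `Γ₀(N)`. -/
noncomputable def thetaN (N π : E) (hπ : π ≠ 0) : HeckeSub N π →* Gam0 N :=
  ((thetaHom π hπ).comp (heckeIncl N π)).codRestrict (Gam0 N) (fun g => by
    have h := (theta_spec π (heckeIncl N π g)).2.2.1
    rw [mem_Gam0]
    change N ∣ (theta π (heckeIncl N π g)).val 1 0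
    rw [h]
    exact Dvd.dvd.mul_left (mem_Gam0.mp g.val.2) _)

theorem thetaN_val (N π : E) (hπ : π ≠ 0) (g : HeckeSub N π) :
    (thetaN N π hπ g).val = theta π (heckeIncl N π g) := rfl

/-- `Γ₀(N) ∩ Γ⁰(π)` has finite index in `Γ₀(N)`. -/
theorem heckeSub_finiteIndex (N π : E) (hπ : π ≠ 0) : (HeckeSub N π).FiniteIndex := by
  have : Finite (E ⧸ Ideal.span {π}) := E_finite_quot hπ
  have : Finite (GL (Fin 2) (E ⧸ Ideal.span {π})) := by
    have : Finite (Matrix (Fin 2) (Fin 2) (E ⧸ Ideal.span {π})) := by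
      unfold Matrix; infer_instance
    exact Finite.of_injective (fun g : GL (Fin 2) (E ⧸ Ideal.span {π}) => g.val)
      (fun a b h => Units.ext h)
  have hk : ((red π).comp (Gam0 N).subtype).ker ≤ HeckeSub N π := by
    intro g hg
    rw [MonoidHom.mem_ker] at hg
    change π ∣ g.val.val 0 1
    have h1 := congrArg (fun m : GL (Fin 2) (E ⧸ Ideal.span {π}) => m.val 0 1) hg
    have h2 : Ideal.Quotient.mk (Ideal.span {π}) (g.val.val 0 1) = 0 := by simpa using h1
    rw [Ideal.Quotient.eq_zero_iff_mem, Ideal.mem_span_singleton] at h2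
    exact h2
  have := Subgroup.finiteIndex_ker ((red π).comp (Gam0 N).subtype)
  exact Subgroup.finiteIndex_of_le hk

variable (k : Type*) [Field k]

/-- `H¹(Γ₀(N), k) = Hom(Γ₀(N), k)`. -/
abbrev Hom1 (N : E) := Additive (Gam0 N) →+ k

variable {k}

/-- The Hecke operator `T_π` of the double coset `Γ₀(N) diag(1,π) Γ₀(N)` on `Hom(Γ₀(N), k)`:
the pullback of `h` under conjugation by `diag(1,π)`, a homomorphism on `Γ₀(N) ∩ Γ⁰(π)`,
followed by the transfer (corestriction) from `Γ₀(N) ∩ Γ⁰(π)` to `Γ₀(N)`. -/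
noncomputable def heckeFun (N π : E) (hπ : π ≠ 0) (h : Hom1 k N) : Hom1 k N :=
  haveI := heckeSub_finiteIndex N π hπ
  MonoidHom.toAdditiveLeft
    (MonoidHom.transfer ((AddMonoidHom.toMultiplicativeRight h).comp (thetaN N π hπ)))

end hecke

section dconj

variable {O : Type*} [CommRing O] [IsDomain O]

/-- the conjugate `diag(f,1) t diag(f,1)⁻¹ = [[a, f b], [c / f, d]]` of `t = [[a,b],[c,d]] ∈ Γ₀(f²)`. -/
noncomputable def dconj (f : O) (t : Gam0 (f ^ 2)) : GL (Fin 2) O :=
  mk2 (t.val.val 0 0) (f * t.val.val 0 1) (f * Classical.choose (mem_Gam0.mp t.2))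
    (t.val.val 1 1) (Matrix.GeneralLinearGroup.det t.val) (by
      have h := Classical.choose_spec (mem_Gam0.mp t.2)
      rw [Matrix.GeneralLinearGroup.val_det_apply, Matrix.det_fin_two]
      linear_combination (t.val.val 0 1) * h)

theorem dconj_spec (f : O) (t : Gam0 (f ^ 2)) :
    (dconj f t).val 0 0 = t.val.val 0 0 ∧ (dconj f t).val 0 1 = f * t.val.val 0 1 ∧
    t.val.val 1 0 = f * (dconj f t).val 1 0 ∧ (dconj f t).val 1 1 = t.val.val 1 1 ∧
    f ∣ (dconj f t).val 1 0 := by
  refine ⟨rfl, rfl, ?_, rfl, ?_⟩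
  · have h := Classical.choose_spec (mem_Gam0.mp t.2)
    change t.val.val 1 0 = f * (f * Classical.choose (mem_Gam0.mp t.2))
    rw [← mul_assoc, ← pow_two]
    exact h
  · exact Dvd.intro _ rfl

/-- `dconj` as a group homomorphism. -/
noncomputable def dconjHom (f : O) (hf : f ≠ 0) : Gam0 (f ^ 2) →* GL (Fin 2) O where
  toFun := dconj f
  map_one' := by
    obtain ⟨h1, h2, h3, h4, -⟩ := dconj_spec f (1 : Gam0 (f ^ 2))
    have e10 : (dconj f (1 : Gam0 (f ^ 2))).val 1 0 = 0 := by
      have : f * (dconj f (1 : Gam0 (f ^ 2))).val 1 0 = 0 := by rw [← h3]; simp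
      exact (mul_eq_zero.mp this).resolve_left hf
    apply Matrix.GeneralLinearGroup.ext
    intro i j
    fin_cases i <;> fin_cases j
    · simpa using h1
    · simpa using h2
    · simpa using e10
    · simpa using h4
  map_mul' := by
    intro a b
    obtain ⟨h1, h2, h3, h4, -⟩ := dconj_spec f (a * b)
    obtain ⟨a1, a2, a3, a4, -⟩ := dconj_spec f a
    obtain ⟨b1, b2, b3, b4, -⟩ := dconj_spec f b
    have m00 : (a * b).val.val 0 0 = a.val.val 0 0 * b.val.val 0 0 +
      a.val.val 0 1 * b.val.val 1 0 := by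
      simp [Matrix.mul_apply, Fin.sum_univ_two]
    have m01 : (a * b).val.val 0 1 = a.val.val 0 0 * b.val.val 0 1 +
      a.val.val 0 1 * b.val.val 1 1 := by
      simp [Matrix.mul_apply, Fin.sum_univ_two]
    have m10 : (a * b).val.val 1 0 = a.val.val 1 0 * b.val.val 0 0 +
      a.val.val 1 1 * b.val.val 1 0 := by
      simp [Matrix.mul_apply, Fin.sum_univ_two]
    have m11 : (a * b).val.val 1 1 = a.val.val 1 0 * b.val.val 0 1 +
      a.val.val 1 1 * b.val.val 1 1 := by
      simp [Matrix.mul_apply, Fin.sum_univ_two]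
    apply Matrix.GeneralLinearGroup.ext
    intro i j
    fin_cases i <;> fin_cases j <;>
      simp only [Fin.zero_eta, Fin.mk_one, Fin.isValue, Units.val_mul, Matrix.mul_apply,
        Fin.sum_univ_two]
    · rw [h1, m00, a1, b1, a2]; rw [b3]; ring
    · rw [h2, m01, b2, a2, a1, b4]; ring
    · apply mul_left_cancel₀ hf
      rw [← h3, m10, a3, a4, b1, b3]; ring
    · rw [h4, m11, a4, b2, b4]; rw [a3]; ring

@[simp] theorem dconjHom_apply (f : O) (hf : f ≠ 0) (t : Gam0 (f ^ 2)) :
    dconjHom f hf t = dconj f t := rfl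

end dconj

end SerreE
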