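import Pool.Agent.Serre.Final

/-!
# The main theorem
-/

open Matrix
open scoped QuadraticAlgebra

namespace SerreE

theorem iota_injF {R : Type*} [CommRing R] : Function.Injective (iota (R := R)) := by
  intro a b h
  apply Units.ext
  have h1 := congrArg (fun m : GL (Fin 2) R => m.val 0 0) h
  have h2 := congrArg (fun m : GL (Fin 2) R => m.val 1 0) h
  simp only [iota_val] at h1 h2
  exact QuadraticAlgebra.ext h1 h2

/-- `i` as a unit of `R[i]` -/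
def iU (R : Type*) [CommRing R] : (Gi R)ˣ :=
  ⟨⟨0, 1⟩, ⟨0, -1⟩, by ext <;> simp, by ext <;> simp⟩

/-- `ω + i` as a unit of `E[i]` -/
def etaU : (Gi E)ˣ :=
  ⟨⟨om, 1⟩, ⟨1, ⟨-1, 1⟩⟩, by
    apply QuadraticAlgebra.ext
    · apply QuadraticAlgebra.ext <;> simp [om]
    · apply QuadraticAlgebra.ext <;> simp [om], by
    apply QuadraticAlgebra.ext
    · apply QuadraticAlgebra.ext <;> simp [om]
    · apply QuadraticAlgebra.ext <;> simp [om]⟩

/-- reduction of units of `E[i]` -/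
def redU (f : E) : (Gi E)ˣ →* (Gi (E ⧸ Ideal.span {f}))ˣ := Units.map (redGi f).toMonoidHom

theorem iota_redU_i (f : E) : iota (redU f (iU E)) = red f J := by
  apply Matrix.GeneralLinearGroup.ext
  intro i j
  fin_cases i <;> fin_cases j <;> simp [redU, redGi, iU, J]

theorem iota_redU_eta (f : E) : iota (redU f etaU) = red f eta := by
  apply Matrix.GeneralLinearGroup.ext
  intro i j
  fin_cases i <;> fin_cases j <;> simp [redU, redGi, etaU, eta]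

theorem eta_comm_J : eta * (J : GL (Fin 2) E) = J * eta := by
  apply Matrix.GeneralLinearGroup.ext
  intro i j
  fin_cases i <;> fin_cases j <;> simp [Matrix.mul_apply, Fin.sum_univ_two, J, eta]

section

variable {f : E} {χ : (Gi (E ⧸ Ideal.span {f}))ˣ →* kbarˣ}

theorem ap_eq (hf : f ≠ 0) (hscal : ∀ u, χ (giC u) = 1)
    (hJ : ∀ t, iota t = red f J → χ t = 1)
    (u : GL (Fin 2) E) (hu : u * J = J * u) (tu : (Gi (E ⧸ Ideal.span {f}))ˣ)
    (htu : iota tu = red f u) (hχu : χ tu = 1) (C : Hsp f χ) (hCu : C.val u 1 ≠ 0)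
    (π : GoodPrime (f ^ 2)) (w : Gi E) (t : (Gi (E ⧸ Ideal.span {f}))ˣ)
    (hw : Associated w.norm π.val) (ht : t.val = redGi f w) :
    ap χ π = (χ t : kbar) + ((χ t)⁻¹ : kbarˣ) := by
  have h2 : ¬ π.val ∣ 2 := fun hd => π.2.2 (Dvd.dvd.mul_right hd _)
  letI := (hdata f hf π).fin
  have h1 := heckeH_eig hf hscal hJ u hu tu htu hχu π C
  rw [heckeH_val, eig_split (hdata f hf π).FD π.2.1 h2 f _ (hdata f hf π).hϖ χ hscal hJ C.val C.2
    u hu tu htu hχu w hw t ht] at h1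
  exact (mul_right_cancel₀ hCu h1).symm

theorem core_aux (hf : f ≠ 0) (hf2 : IsCoprime f 2) (hscal : ∀ u, χ (giC u) = 1)
    (hunit : ∀ (v : (Gi E)ˣ) (t : (Gi (E ⧸ Ideal.span {f}))ˣ), t.val = redGi f v → χ t = 1)
    (hJ : ∀ t, iota t = red f J → χ t = 1)
    (hprim : ∀ 𝔞 : Ideal (E ⧸ Ideal.span {f}), 𝔞 ≠ ⊥ →
      ∃ t : (Gi (E ⧸ Ideal.span {f}))ˣ, t.val.re - 1 ∈ 𝔞 ∧ t.val.im ∈ 𝔞 ∧ χ t ≠ 1)
    (hne : χ ≠ 1) (u : GL (Fin 2) E) (hu : u * J = J * u) (tu : (Gi (E ⧸ Ideal.span {f}))ˣ)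
    (htu : iota tu = red f u) (hχu : χ tu = 1) (C : Hsp f χ) (hCu : C.val u 1 ≠ 0) :
    ∃ Φ : HeckeAlg (f ^ 2) →ₐ[kbar] kbar, ∀ π : GoodPrime (f ^ 2),
      (∀ (w : Gi E) (t : (Gi (E ⧸ Ideal.span {f}))ˣ), Associated w.norm π.val →
        t.val = redGi f w → Φ (Tp (f ^ 2) π) = (χ t : kbar) + ((χ t)⁻¹ : kbarˣ)) ∧
      ((∀ w : Gi E, ¬ Associated w.norm π.val) → Φ (Tp (f ^ 2) π) = 0) := by
  obtain ⟨Φ, hΦ⟩ := exists_phi hf hf2 hscal hunit hJ hprim hne u hu tu htu hχu C hCu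
  refine ⟨Φ, fun π => ⟨fun w t hw ht => ?_, fun hn => ?_⟩⟩
  · rw [hΦ]
    exact ap_eq hf hscal hJ u hu tu htu hχu C hCu π w t hw ht
  · rw [hΦ]
    unfold ap
    rw [dif_neg]
    rintro ⟨w, t, hw, -⟩
    exact hn w hw

end

/-- the main theorem for characters of `(E/f)[i]ˣ`. -/
theorem core_thm (f : E) (hf2 : IsCoprime f 2) (χ : (Gi (E ⧸ Ideal.span {f}))ˣ →* kbarˣ)
    (hscal : ∀ u, χ (giC u) = 1)
    (hunit : ∀ (v : (Gi E)ˣ) (t : (Gi (E ⧸ Ideal.span {f}))ˣ), t.val = redGi f v → χ t = 1)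
    (hprim : ∀ 𝔞 : Ideal (E ⧸ Ideal.span {f}), 𝔞 ≠ ⊥ →
      ∃ t : (Gi (E ⧸ Ideal.span {f}))ˣ, t.val.re - 1 ∈ 𝔞 ∧ t.val.im ∈ 𝔞 ∧ χ t ≠ 1)
    (hne : χ ≠ 1) :
    ∃ Φ : HeckeAlg (f ^ 2) →ₐ[kbar] kbar, ∀ π : GoodPrime (f ^ 2),
      (∀ (w : Gi E) (t : (Gi (E ⧸ Ideal.span {f}))ˣ), Associated w.norm π.val →
        t.val = redGi f w → Φ (Tp (f ^ 2) π) = (χ t : kbar) + ((χ t)⁻¹ : kbarˣ)) ∧
      ((∀ w : Gi E, ¬ Associated w.norm π.val) → Φ (Tp (f ^ 2) π) = 0) := by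
  have hf : f ≠ 0 := by
    rintro rfl
    have h := isCoprime_zero_left.mp hf2
    exact E_two_prime.not_isUnit h
  have hfu : ¬ IsUnit f := by
    intro h
    apply hne
    have hs : Subsingleton (E ⧸ Ideal.span {f}) :=
      Ideal.Quotient.subsingleton_iff.mpr (Ideal.span_singleton_eq_top.mpr h)
    ext t
    have : t = 1 := Units.ext (Subsingleton.elim _ _)
    rw [this]; simp
  have hJ : ∀ t, iota t = red f J → χ t = 1 := by
    intro t ht
    rw [← iota_redU_i] at ht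
    rw [iota_injF ht]
    exact hunit (iU E) _ rfl
  have he : ∀ t, iota t = red f eta → χ t = 1 := by
    intro t ht
    rw [← iota_redU_eta] at ht
    rw [iota_injF ht]
    exact hunit etaU _ rfl
  obtain ⟨χ', hχ', a, ha1, ha2, ha3⟩ := dich f hfu hf2 χ hscal hJ he
  have hinv : ∀ t, ((χ' t : kbarˣ) : kbar) + (((χ' t)⁻¹ : kbarˣ) : kbar) =
      ((χ t : kbarˣ) : kbar) + (((χ t)⁻¹ : kbarˣ) : kbar) := by
    intro t
    rcases hχ' with rfl | rfl
    · rfl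
    · rw [MonoidHom.inv_apply, inv_inv, add_comm]
  have hone : ∀ t, χ t = 1 → χ' t = 1 := by
    intro t ht
    rcases hχ' with rfl | rfl
    · exact ht
    · rw [MonoidHom.inv_apply, ht, inv_one]
  have hone' : ∀ t, χ' t = 1 → χ t = 1 := by
    intro t ht
    rcases hχ' with rfl | rfl
    · exact ht
    · rw [MonoidHom.inv_apply, inv_eq_one] at ht; exact ht
  obtain ⟨C, hC, hC1⟩ := shap f χ' a ha1 ha2
  have hne' : χ' ≠ 1 := by
    intro h
    apply hne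
    ext t
    have := hone' t (by rw [h]; rfl)
    rw [this]; rfl
  have fin : ∀ (u : GL (Fin 2) E) (hu : u * J = J * u) (tu : (Gi (E ⧸ Ideal.span {f}))ˣ)
      (htu : iota tu = red f u) (hχu : χ' tu = 1) (hCu : a u ≠ a 1),
      ∃ Φ : HeckeAlg (f ^ 2) →ₐ[kbar] kbar, ∀ π : GoodPrime (f ^ 2),
      (∀ (w : Gi E) (t : (Gi (E ⧸ Ideal.span {f}))ˣ), Associated w.norm π.val →
        t.val = redGi f w → Φ (Tp (f ^ 2) π) = (χ t : kbar) + ((χ t)⁻¹ : kbarˣ)) ∧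
      ((∀ w : Gi E, ¬ Associated w.norm π.val) → Φ (Tp (f ^ 2) π) = 0) := by
    intro u hu tu htu hχu hCu
    have hCu' : (⟨C, hC⟩ : Hsp f χ').val u 1 ≠ 0 := by
      change C u 1 ≠ 0
      rw [hC1]; exact sub_ne_zero.mpr hCu
    obtain ⟨Φ, hΦ⟩ := core_aux (χ := χ') hf hf2 (fun u => hone _ (hscal u))
      (fun v t h => hone _ (hunit v t h)) (fun t h => hone _ (hJ t h))
      (fun 𝔞 h𝔞 => by
        obtain ⟨t, h1, h2, h3⟩ := hprim 𝔞 h𝔞
        exact ⟨t, h1, h2, fun h => h3 (hone' t h)⟩)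
      hne' u hu tu htu hχu ⟨C, hC⟩ hCu'
    refine ⟨Φ, fun π => ⟨fun w t hw ht => ?_, (hΦ π).2⟩⟩
    rw [(hΦ π).1 w t hw ht, hinv]
  rcases ha3 with h | h
  · exact fin J rfl _ (iota_redU_i f) (hone _ (hJ _ (iota_redU_i f))) h
  · exact fin eta eta_comm_J _ (iota_redU_eta f) (hone _ (he _ (iota_redU_eta f))) h

/-- **Main theorem.**  Let `f ∈ ℤ[ω]` be prime to `2` and let `χ` be a non-trivial character of
`(ℤ[ω, i]/f)ˣ` with values in `𝔽̄₂ˣ` (extended by `0`), trivial on `(ℤ[ω]/f)ˣ` and on the units of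
`ℤ[ω, i]`, of conductor exactly `f`.  Then there is a homomorphism `Φ` from the Hecke algebra of
`H¹(Y₀(f²), 𝔽̄₂)` to `𝔽̄₂` with `Φ(T_π) = χ(w) + χ(w̄)` if `π` is a norm `N(w)` up to a unit, and
`Φ(T_π) = 0` otherwise, for all primes `π` not dividing `2f`. -/
theorem main_thm (f : E) (hf2 : IsCoprime f 2) (χ : MulChar (Gi (E ⧸ Ideal.span {f})) kbar)
    (hχ : χ ≠ 1)
    (hO : ∀ a : E, IsCoprime a f → χ (redGi f (algebraMap E (Gi E) a)) = 1)
    (hU : ∀ v : (Gi E)ˣ, χ (redGi f v) = 1)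
    (hcond : ∀ g : E, g ∣ f → ¬ f ∣ g → ∃ w : Gi E, IsCoprime w.norm f ∧
      algebraMap E (Gi E) g ∣ w - 1 ∧ χ (redGi f w) ≠ 1) :
    ∃ Φ : HeckeAlg (f ^ 2) →ₐ[kbar] kbar, ∀ π : GoodPrime (f ^ 2),
      (∀ w : Gi E, Associated w.norm π.val →
        Φ (Tp (f ^ 2) π) = χ (redGi f w) + χ (redGi f (star w))) ∧
      ((∀ w : Gi E, ¬ Associated w.norm π.val) → Φ (Tp (f ^ 2) π) = 0) := by
  set χ' : (Gi (E ⧸ Ideal.span {f}))ˣ →* kbarˣ := MulChar.toUnitHom χ with hχ'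
  have hcoe : ∀ t : (Gi (E ⧸ Ideal.span {f}))ˣ, ((χ' t : kbarˣ) : kbar) = χ t.val :=
    fun t => MulChar.coe_toUnitHom χ t
  have hscal : ∀ u, χ' (giC u) = 1 := by
    intro u
    apply Units.ext
    rw [hcoe]
    obtain ⟨a, ha⟩ := Ideal.Quotient.mk_surjective (u : E ⧸ Ideal.span {f})
    have hcop : IsCoprime a f := by
      obtain ⟨b, hb⟩ := Ideal.Quotient.mk_surjective ((u⁻¹ : (E ⧸ Ideal.span {f})ˣ) :
        E ⧸ Ideal.span {f})
      have h1 : Ideal.Quotient.mk (Ideal.span {f}) (b * a) = 1 := by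
        rw [map_mul, ha, hb]; simp
      rw [← map_one (Ideal.Quotient.mk (Ideal.span {f})), Ideal.Quotient.eq,
        Ideal.mem_span_singleton] at h1
      obtain ⟨c, hc⟩ := h1
      exact ⟨b, -c, by linear_combination hc⟩
    have h2 := hO a hcop
    have h3 : redGi f (algebraMap E (Gi E) a) = (giC u).val := by
      apply QuadraticAlgebra.ext
      · change Ideal.Quotient.mk _ a = u.val; exact ha
      · change Ideal.Quotient.mk _ 0 = 0; exact map_zero _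
    rw [← h3, h2]; rfl
  have hunit : ∀ (v : (Gi E)ˣ) (t : (Gi (E ⧸ Ideal.span {f}))ˣ),
      t.val = redGi f v → χ' t = 1 := by
    intro v t ht
    apply Units.ext
    rw [hcoe, ht, hU]; rfl
  have hprim : ∀ 𝔞 : Ideal (E ⧸ Ideal.span {f}), 𝔞 ≠ ⊥ →
      ∃ t : (Gi (E ⧸ Ideal.span {f}))ˣ, t.val.re - 1 ∈ 𝔞 ∧ t.val.im ∈ 𝔞 ∧ χ' t ≠ 1 := by
    intro 𝔞 h𝔞
    obtain ⟨g, hg⟩ := (IsPrincipalIdealRing.principal
      (Ideal.comap (Ideal.Quotient.mk (Ideal.span {f})) 𝔞)).principal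
    rw [← Ideal.span] at hg
    have hgf : g ∣ f := by
      have : f ∈ Ideal.comap (Ideal.Quotient.mk (Ideal.span {f})) 𝔞 := by
        rw [Ideal.mem_comap]
        have : Ideal.Quotient.mk (Ideal.span {f}) f = 0 :=
          Ideal.Quotient.eq_zero_iff_mem.mpr (Ideal.mem_span_singleton_self f)
        rw [this]; exact 𝔞.zero_mem
      rw [hg] at this
      exact Ideal.mem_span_singleton.mp this
    have hgm : Ideal.Quotient.mk (Ideal.span {f}) g ∈ 𝔞 := by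
      rw [← Ideal.mem_comap, hg]; exact Ideal.mem_span_singleton_self g
    have hfg : ¬ f ∣ g := by
      intro h
      apply h𝔞
      rw [eq_bot_iff]
      intro x hx
      obtain ⟨y, rfl⟩ := Ideal.Quotient.mk_surjective x
      rw [← Ideal.mem_comap, hg, Ideal.mem_span_singleton] at hx
      rw [Ideal.mem_bot, Ideal.Quotient.eq_zero_iff_mem, Ideal.mem_span_singleton]
      exact dvd_trans h hx
    obtain ⟨w, hw1, hw2, hw3⟩ := hcond g hgf hfg
    refine ⟨(isUnit_redGi hw1).unit, ?_, ?_, ?_⟩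
    · rw [QuadraticAlgebra.algebraMap_dvd_iff] at hw2
      obtain ⟨c, hc⟩ := hw2.1
      have : (isUnit_redGi hw1).unit.val.re - 1 =
          Ideal.Quotient.mk _ g * Ideal.Quotient.mk _ c := by
        rw [← map_mul, ← hc]
        simp [redGi]
      rw [this]; exact 𝔞.mul_mem_right _ hgm
    · rw [QuadraticAlgebra.algebraMap_dvd_iff] at hw2
      obtain ⟨c, hc⟩ := hw2.2
      have : (isUnit_redGi hw1).unit.val.im =
          Ideal.Quotient.mk _ g * Ideal.Quotient.mk _ c := by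
        rw [← map_mul, ← hc]
        simp [redGi]
      rw [this]; exact 𝔞.mul_mem_right _ hgm
    · intro h
      apply hw3
      have h1 := hcoe (isUnit_redGi hw1).unit
      rw [h] at h1
      exact h1.symm
  have hne : χ' ≠ 1 := by
    intro h
    apply hχ
    apply MulChar.ext
    intro t
    rw [← hcoe, h, MulChar.one_apply_coe]; rfl
  obtain ⟨Φ, hΦ⟩ := core_thm f hf2 χ' hscal hunit hprim hne
  refine ⟨Φ, fun π => ⟨fun w hw => ?_, (hΦ π).2⟩⟩
  have hcop : IsCoprime w.norm f := coprime_norm π.2.1 (not_dvd_f f π.2.2) hw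
  rw [(hΦ π).1 w (isUnit_redGi hcop).unit hw rfl]
  have e1 : ((χ' (isUnit_redGi hcop).unit : kbarˣ) : kbar) = χ (redGi f w) := hcoe _
  have e2 : χ (redGi f w) * χ (redGi f (star w)) = 1 := by
    rw [← map_mul, ← map_mul, ← QuadraticAlgebra.algebraMap_norm_eq_mul_star]
    exact hO _ hcop
  rw [Units.val_inv_eq_inv_val, e1]
  congr 1
  exact (eq_inv_of_mul_eq_one_right e2).symm

end SerreE
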