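import Pool.Agent.Serre.HDefs

open Matrix
open scoped QuadraticAlgebra

namespace SerreE

theorem exists_coprime_shift {O : Type*} [CommRing O] [IsDomain O] [IsPrincipalIdealRing O]
    (c d f : O) (hc : c ≠ 0) (h : ∀ p : O, Prime p → p ∣ c → p ∣ d → ¬ p ∣ f) :
    ∃ t : O, IsCoprime c (d + t * f) := by
  classical
  set M := (UniqueFactorizationMonoid.factors c).filter (fun p => ¬ p ∣ d) with hM
  refine ⟨M.prod, ?_⟩
  apply isCoprime_of_prime_dvd
  · rintro ⟨h1, -⟩
    exact hc h1
  · intro p hp hpc hpd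
    by_cases hd : p ∣ d
    · -- p divides d, not f, not t
      have hpt : p ∣ M.prod * f := (dvd_add_right hd).mp hpd
      rcases hp.dvd_or_dvd hpt with h1 | h1
      · obtain ⟨q, hq, hpq⟩ := hp.exists_mem_multiset_dvd h1
        rw [hM, Multiset.mem_filter] at hq
        have hqp : Prime q := UniqueFactorizationMonoid.prime_of_factor q hq.1
        have hass : Associated p q := hp.associated_of_dvd hqp hpq
        exact hq.2 (hass.symm.dvd.trans hd)
      · exact h p hp hpc hd h1
    · obtain ⟨q, hq, hpq⟩ :=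
        UniqueFactorizationMonoid.exists_mem_factors_of_dvd hc hp.irreducible hpc
      have hqd : ¬ q ∣ d := fun hqd => hd (hpq.dvd.trans hqd)
      have hqM : q ∈ M := by
        rw [hM, Multiset.mem_filter]
        exact ⟨hq, hqd⟩
      have hpM : p ∣ M.prod := hpq.dvd.trans (Multiset.dvd_prod hqM)
      have : p ∣ M.prod * f := Dvd.dvd.mul_right hpM f
      exact hd ((dvd_add_left this).mp hpd)

section
variable {O : Type*} [CommRing O] [IsDomain O] [IsPrincipalIdealRing O]
theorem sapp (f : O) (hf : f ≠ 0) (g : GL (Fin 2) (O ⧸ Ideal.span {f}))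
    (hg : Matrix.GeneralLinearGroup.det g = 1) :
    ∃ G : GL (Fin 2) O, Matrix.GeneralLinearGroup.det G = 1 ∧ red f G = g := by
  obtain ⟨a, ha⟩ := Ideal.Quotient.mk_surjective (g.val 0 0)
  obtain ⟨b, hb⟩ := Ideal.Quotient.mk_surjective (g.val 0 1)
  obtain ⟨c₀, hc₀⟩ := Ideal.Quotient.mk_surjective (g.val 1 0)
  obtain ⟨d₀, hd₀⟩ := Ideal.Quotient.mk_surjective (g.val 1 1)
  have hmkf : Ideal.Quotient.mk (Ideal.span {f}) f = 0 := by
    rw [Ideal.Quotient.eq_zero_iff_mem]
    exact Ideal.mem_span_singleton_self f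
  have hdet : g.val 0 0 * g.val 1 1 - g.val 0 1 * g.val 1 0 = 1 := by
    have h1 := congrArg Units.val hg
    rw [Matrix.GeneralLinearGroup.val_det_apply, Matrix.det_fin_two] at h1
    simpa using h1
  -- make the lower left entry non zero
  obtain ⟨c, hc, hcne⟩ : ∃ c : O, Ideal.Quotient.mk (Ideal.span {f}) c = g.val 1 0 ∧ c ≠ 0 := by
    by_cases h : c₀ = 0
    · refine ⟨f, ?_, hf⟩
      rw [hmkf, ← hc₀, h, map_zero]
    · exact ⟨c₀, hc₀, h⟩
  have hcop : ∀ p : O, Prime p → p ∣ c → p ∣ d₀ → ¬ p ∣ f := by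
    intro p hp h1 h2 h3
    have h4 : Ideal.Quotient.mk (Ideal.span {f}) (a * d₀ - b * c - 1) = 0 := by
      rw [map_sub, map_sub, map_mul, map_mul, map_one, ha, hb, hc, hd₀, hdet, sub_self]
    rw [Ideal.Quotient.eq_zero_iff_mem, Ideal.mem_span_singleton] at h4
    have h5 : p ∣ a * d₀ - b * c - 1 := h3.trans h4
    have h6 : p ∣ a * d₀ - b * c := dvd_sub (Dvd.dvd.mul_left h2 a) (Dvd.dvd.mul_left h1 b)
    have h7 : p ∣ 1 := by
      have := dvd_sub h6 h5
      simpa using this
    exact hp.not_isUnit (isUnit_of_dvd_one h7)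
  obtain ⟨t, u, v, huv⟩ := exists_coprime_shift c d₀ f hcne hcop
  set d := d₀ + t * f with hdd
  have hd : Ideal.Quotient.mk (Ideal.span {f}) d = g.val 1 1 := by
    rw [hdd, map_add, map_mul, hmkf, mul_zero, add_zero, hd₀]
  obtain ⟨e, he⟩ : ∃ e, a * d - b * c - 1 = f * e := by
    have h4 : Ideal.Quotient.mk (Ideal.span {f}) (a * d - b * c - 1) = 0 := by
      rw [map_sub, map_sub, map_mul, map_mul, map_one, ha, hb, hc, hd, hdet, sub_self]
    rw [Ideal.Quotient.eq_zero_iff_mem, Ideal.mem_span_singleton] at h4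
    exact h4
  have hG : (a - f * e * v) * d - (b + f * e * u) * c = ((1 : Oˣ) : O) := by
    rw [Units.val_one]
    linear_combination he - f * e * huv
  refine ⟨mk2 (a - f * e * v) (b + f * e * u) c d 1 hG, ?_, ?_⟩
  · apply Units.ext
    rw [Matrix.GeneralLinearGroup.val_det_apply, Matrix.det_fin_two, mk2_00, mk2_01, mk2_10,
      mk2_11, hG]
  · apply Matrix.GeneralLinearGroup.ext
    intro i j
    rw [Matrix.GeneralLinearGroup.map_apply]
    fin_cases i <;> fin_cases j
    · simp only [Fin.zero_eta, mk2_00]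
      rw [map_sub, map_mul, map_mul, hmkf, zero_mul, zero_mul, sub_zero, ha]
    · simp only [Fin.zero_eta, Fin.mk_one, mk2_01]
      rw [map_add, map_mul, map_mul, hmkf, zero_mul, zero_mul, add_zero, hb]
    · simp only [Fin.zero_eta, Fin.mk_one, mk2_10]
      exact hc
    · simp only [Fin.mk_one, mk2_11]
      exact hd
end

end SerreE
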