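import Pool.Agent.Serre.Defs

/-!
# The local case of the joint injectivity statement (Kirillov argument)
-/

open Matrix
open scoped QuadraticAlgebra

namespace SerreE

section fourier

variable {R : Type*} [CommRing R] [Finite R] {k : Type*} [Field k] [CharP k 2] [IsAlgClosed k]

omit [CharP k 2] in
/-- a finite ring in which `2` is invertible has odd order -/
theorem odd_card (h2 : IsUnit (2 : R)) : ¬ 2 ∣ Nat.card R := by
  intro h
  have : Fact (Nat.Prime 2) := ⟨Nat.prime_two⟩
  obtain ⟨x, hx⟩ := exists_prime_addOrderOf_dvd_card' (G := R) 2 h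
  have h1 : (2 : ℕ) • x = 0 := by rw [← hx]; exact addOrderOf_nsmul_eq_zero x
  have h3 : (2 : R) * x = 0 := by rw [two_mul, ← two_nsmul]; exact h1
  have h4 : x = 0 := (h2.mul_right_eq_zero).1 h3
  rw [h4, addOrderOf_zero] at hx
  norm_num at hx

omit [IsAlgClosed k] [Finite R] [CommRing R] in
theorem card_ne_zero' (h : ¬ 2 ∣ Nat.card R) : ((Nat.card R : ℕ) : k) ≠ 0 := by
  intro h0
  exact h ((CharP.cast_eq_zero_iff k 2 _).1 h0)

theorem enough_roots (h2 : IsUnit (2 : R)) :
    HasEnoughRootsOfUnity k (Monoid.exponent (Multiplicative R)) := by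
  have hne : NeZero ((Monoid.exponent (Multiplicative R) : ℕ) : k) := by
    refine ⟨fun h0 => ?_⟩
    have h3 := (CharP.cast_eq_zero_iff k 2 _).1 h0
    apply odd_card h2
    have h4 := h3.trans (Group.exponent_dvd_nat_card (G := Multiplicative R))
    rwa [Nat.card_congr Multiplicative.toAdd] at h4
  infer_instance

open Multiplicative in
/-- Completeness of the additive characters. -/
theorem char_complete (h2 : IsUnit (2 : R)) (D : R → k)
    (hD : ∀ ψ : Multiplicative R →* kˣ, ∑ᶠ y : R, ((ψ (ofAdd y) : kˣ) : k) * D y = 0) :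
    D = 0 := by
  classical
  have := Fintype.ofFinite R
  have := enough_roots (k := k) h2
  have hfin : Finite (Multiplicative R →* kˣ) := by
    obtain ⟨e⟩ := CommGroup.monoidHom_mulEquiv_of_hasEnoughRootsOfUnity (Multiplicative R) k
    exact Finite.of_equiv _ e.symm.toEquiv
  have := Fintype.ofFinite (Multiplicative R →* kˣ)
  have hcard : Fintype.card (Multiplicative R →* kˣ) = Nat.card R := by
    rw [← Nat.card_eq_fintype_card,
      CommGroup.card_monoidHom_of_hasEnoughRootsOfUnity (Multiplicative R) k,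
      Nat.card_congr Multiplicative.toAdd]
  funext x
  have h1 : ∑ ψ : Multiplicative R →* kˣ, ((ψ (ofAdd (-x)) : kˣ) : k) *
      (∑ y : R, ((ψ (ofAdd y) : kˣ) : k) * D y) = 0 := by
    apply Finset.sum_eq_zero
    intro ψ _
    have := hD ψ
    rw [finsum_eq_sum_of_fintype] at this
    rw [this, mul_zero]
  have h3 : ∑ ψ : Multiplicative R →* kˣ, ((ψ (ofAdd (-x)) : kˣ) : k) *
      (∑ y : R, ((ψ (ofAdd y) : kˣ) : k) * D y) =
      ∑ y : R, (∑ ψ : Multiplicative R →* kˣ, ((ψ (ofAdd (y - x)) : kˣ) : k)) * D y := by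
    simp_rw [Finset.mul_sum, Finset.sum_mul]
    rw [Finset.sum_comm]
    refine Finset.sum_congr rfl (fun y _ => Finset.sum_congr rfl (fun ψ _ => ?_))
    rw [← mul_assoc]
    congr 1
    rw [← Units.val_mul, ← map_mul, ← ofAdd_add]
    congr 3
    ring
  have h4 : ∀ z : R, z ≠ 0 → ∑ ψ : Multiplicative R →* kˣ, ((ψ (ofAdd z) : kˣ) : k) = 0 := by
    intro z hz
    have h5 := sum_hom_units_eq_zero (R := k)
      ((Units.coeHom k).comp (MonoidHom.eval (ofAdd z) : (Multiplicative R →* kˣ) →* kˣ)) (by
        intro h6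
        obtain ⟨ψ, hψ⟩ := CommGroup.exists_apply_ne_one_of_hasEnoughRootsOfUnity
          (Multiplicative R) k (a := ofAdd z) (by
            intro h7; exact hz (ofAdd_eq_one.1 h7))
        apply hψ
        have := DFunLike.congr_fun h6 ψ
        exact Units.ext this)
    exact h5
  rw [h3, Finset.sum_eq_single x] at h1
  · rw [sub_self] at h1
    have h5 : ∑ ψ : Multiplicative R →* kˣ, ((ψ (ofAdd (0 : R)) : kˣ) : k) =
        ((Nat.card R : ℕ) : k) := by
      rw [← hcard]
      simp [ofAdd_zero]
    rw [h5] at h1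
    exact (mul_eq_zero.1 h1).resolve_left (card_ne_zero' (odd_card h2))
  · intro y _ hy
    rw [h4 _ (sub_ne_zero.2 hy), zero_mul]
  · intro h; exact absurd (Finset.mem_univ _) h

open Multiplicative in
/-- The Kirillov argument. -/
theorem translate_inv (h2 : IsUnit (2 : R)) {I : Ideal R} (hmin : ∀ 𝔞 : Ideal R, 𝔞 ≠ ⊥ → I ≤ 𝔞)
    (φ : Rˣ → R → k) (h : ∀ x y : R, ∑ᶠ r : Rˣ, φ r (y + (r⁻¹ : Rˣ) * x) = 0)
    {c : R} (hc : c ∈ I) (y : R) : φ 1 (y + c) = φ 1 y := by
  classical
  have := Fintype.ofFinite R
  have := Fintype.ofFinite Rˣ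
  -- translation of a Fourier coefficient
  have htr : ∀ (ψ : Multiplicative R →* kˣ) (D : R → k) (c : R),
      ((ψ (ofAdd c) : kˣ) : k) * ∑ y, ((ψ (ofAdd y) : kˣ) : k) * D (y + c) =
        ∑ y, ((ψ (ofAdd y) : kˣ) : k) * D y := by
    intro ψ D c
    rw [Finset.mul_sum]
    refine Fintype.sum_equiv (Equiv.addRight c) _ _ (fun y => ?_)
    rw [Equiv.coe_addRight, ofAdd_add, map_mul, Units.val_mul]
    ring
  have key : (fun y => φ 1 (y + c) - φ 1 y) = 0 := by
    apply char_complete h2
    intro ψ
    rw [finsum_eq_sum_of_fintype]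
    simp_rw [mul_sub]
    rw [Finset.sum_sub_distrib, sub_eq_zero]
    by_cases hψ : ψ (ofAdd c) = 1
    · have h1 := htr ψ (φ 1) c
      rw [hψ, Units.val_one, one_mul] at h1
      exact h1
    · -- the Fourier coefficient vanishes
      have hhat : ∑ y, ((ψ (ofAdd y) : kˣ) : k) * φ 1 y = 0 := by
        set F : Rˣ → k := fun r => ∑ y, ((ψ (ofAdd y) : kˣ) : k) * φ r y with hF
        have h1 : ∀ x : R, ∑ r : Rˣ, ((ψ (ofAdd (x - (r⁻¹ : Rˣ) * x)) : kˣ) : k) * F r = 0 := by
          intro x
          have h3 : ∀ r : Rˣ, ((ψ (ofAdd (-((r⁻¹ : Rˣ) * x : R))) : kˣ) : k) * F r =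
              ∑ y, ((ψ (ofAdd y) : kˣ) : k) * φ r (y + (r⁻¹ : Rˣ) * x) := by
            intro r
            rw [hF]
            simp only
            rw [← htr ψ (φ r) ((r⁻¹ : Rˣ) * x), ← mul_assoc, ← Units.val_mul, ← map_mul,
              ← ofAdd_add, neg_add_cancel, ofAdd_zero, map_one, Units.val_one, one_mul]
          have h4 : ∑ r : Rˣ, ((ψ (ofAdd (-((r⁻¹ : Rˣ) * x : R))) : kˣ) : k) * F r = 0 := by
            simp_rw [h3]
            rw [Finset.sum_comm]
            apply Finset.sum_eq_zero
            intro y _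
            rw [← Finset.mul_sum]
            have := h x y
            rw [finsum_eq_sum_of_fintype] at this
            rw [this, mul_zero]
          have h5 : ∀ r : Rˣ, ((ψ (ofAdd (x - (r⁻¹ : Rˣ) * x)) : kˣ) : k) * F r =
              ((ψ (ofAdd x) : kˣ) : k) *
                (((ψ (ofAdd (-((r⁻¹ : Rˣ) * x : R))) : kˣ) : k) * F r) := by
            intro r
            rw [← mul_assoc, ← Units.val_mul, ← map_mul, ← ofAdd_add, sub_eq_add_neg]
          simp_rw [h5]
          rw [← Finset.mul_sum, h4, mul_zero]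
        have h3 : ∑ r : Rˣ, (∑ x : R, ((ψ (ofAdd (x - (r⁻¹ : Rˣ) * x)) : kˣ) : k)) * F r = 0 := by
          simp_rw [Finset.sum_mul]
          rw [Finset.sum_comm]
          apply Finset.sum_eq_zero
          intro x _
          exact h1 x
        rw [Finset.sum_eq_single 1] at h3
        · have h4 : ∑ x : R, ((ψ (ofAdd (x - ((1 : Rˣ)⁻¹ : Rˣ) * x)) : kˣ) : k) =
              ((Nat.card R : ℕ) : k) := by
            simp
          rw [h4] at h3
          exact (mul_eq_zero.1 h3).resolve_left (card_ne_zero' (odd_card h2))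
        · intro r _ hr
          have hne : (1 : R) - (r⁻¹ : Rˣ) ≠ 0 := by
            intro h0
            apply hr
            have h4 : ((r⁻¹ : Rˣ) : R) = ((1 : Rˣ) : R) := by
              rw [Units.val_one]; exact (sub_eq_zero.1 h0).symm
            exact inv_eq_one.1 (Units.ext h4)
          have h4 : I ≤ Ideal.span {(1 : R) - (r⁻¹ : Rˣ)} := by
            apply hmin
            rw [Ne, Ideal.span_singleton_eq_bot]
            exact hne
          obtain ⟨z, hz⟩ := Ideal.mem_span_singleton.1 (h4 hc)
          let g : Multiplicative R →* k :=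
            { toFun := fun x => ((ψ (ofAdd (toAdd x - (r⁻¹ : Rˣ) * toAdd x)) : kˣ) : k)
              map_one' := by simp
              map_mul' := fun a b => by
                rw [← Units.val_mul, ← map_mul, ← ofAdd_add, toAdd_mul]
                congr 3
                ring }
          have h5 : ∑ x : Multiplicative R, g x = 0 := by
            apply sum_hom_units_eq_zero
            intro h6
            apply hψ
            have h7 := DFunLike.congr_fun h6 (ofAdd z)
            have h8 : g (ofAdd z) = ((ψ (ofAdd c) : kˣ) : k) := by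
              change ((ψ (ofAdd (toAdd (ofAdd z) - (r⁻¹ : Rˣ) * toAdd (ofAdd z))) : kˣ) : k) = _
              rw [toAdd_ofAdd, hz]
              congr 3
              ring
            rw [h8] at h7
            exact Units.ext h7
          have h6 : ∑ x : R, ((ψ (ofAdd (x - (r⁻¹ : Rˣ) * x)) : kˣ) : k) = 0 := by
            rw [← h5]
            exact Fintype.sum_equiv Multiplicative.ofAdd _ _ (fun x => rfl)
          rw [h6, zero_mul]
        · intro h; exact absurd (Finset.mem_univ _) h
      have h1 := htr ψ (φ 1) c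
      rw [hhat] at h1 ⊢
      exact (mul_eq_zero.1 h1).resolve_left (Units.ne_zero _)
  have := congrFun key y
  simp only [Pi.zero_apply] at this
  exact sub_eq_zero.1 this

end fourier

section matrices

variable {R : Type*} [CommRing R]

theorem mk2_congr {a b c d a' b' c' d' : R} {u u' : Rˣ} {h : a * d - b * c = u}
    {h' : a' * d' - b' * c' = u'} (ha : a = a') (hb : b = b') (hc : c = c') (hd : d = d') :
    mk2 a b c d u h = mk2 a' b' c' d' u' h' := by
  apply Units.ext
  change !![a, b; c, d] = !![a', b'; c', d']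
  rw [ha, hb, hc, hd]

theorem mk2_mul (a b c d a' b' c' d' : R) (u u' : Rˣ) (h : a * d - b * c = u)
    (h' : a' * d' - b' * c' = u') : mk2 a b c d u h * mk2 a' b' c' d' u' h' =
      mk2 (a * a' + b * c') (a * b' + b * d') (c * a' + d * c') (c * b' + d * d') (u * u')
        (by rw [Units.val_mul, ← h, ← h']; ring) := by
  apply Units.ext
  change !![a, b; c, d] * !![a', b'; c', d'] = !![_, _; _, _]
  rw [Matrix.mul_fin_two]

theorem det_mk2 (a b c d : R) (u : Rˣ) (h : a * d - b * c = u) :
    Matrix.GeneralLinearGroup.det (mk2 a b c d u h) = u := by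
  apply Units.ext
  rw [Matrix.GeneralLinearGroup.val_det_apply]
  change Matrix.det !![a, b; c, d] = u
  rw [Matrix.det_fin_two_of, h]

theorem eq_mk2 (g : GL (Fin 2) R) : g = mk2 (g.val 0 0) (g.val 0 1) (g.val 1 0) (g.val 1 1)
    (Matrix.GeneralLinearGroup.det g) (by
      rw [Matrix.GeneralLinearGroup.val_det_apply, Matrix.det_fin_two]) := by
  apply Units.ext
  change g.val = !![_, _; _, _]
  exact Matrix.eta_fin_two _

theorem det_up (x : R) : Matrix.GeneralLinearGroup.det (up x) = 1 := det_mk2 _ _ _ _ _ _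

theorem det_J : Matrix.GeneralLinearGroup.det (J : GL (Fin 2) R) = 1 := det_mk2 _ _ _ _ _ _

theorem det_low (x : R) : Matrix.GeneralLinearGroup.det (low x) = 1 := det_mk2 _ _ _ _ _ _

theorem up_mul_up (x y : R) : up x * up y = up (x + y) := by
  rw [up, up, up, mk2_mul]
  exact mk2_congr (by ring) (by ring) (by ring) (by ring)

theorem up_zero : up (0 : R) = 1 := by
  apply Units.ext
  change !![(1 : R), 0; 0, 1] = 1
  exact Matrix.one_fin_two.symm

theorem low_mul_low (x y : R) : low x * low y = low (x + y) := by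
  rw [low, low, low, mk2_mul]
  exact mk2_congr (by ring) (by ring) (by ring) (by ring)

theorem low_zero : low (0 : R) = 1 := by
  apply Units.ext
  change !![(1 : R), 0; 0, 1] = 1
  exact Matrix.one_fin_two.symm

theorem dg_one : dg (1 : Rˣ) = 1 := by
  apply Units.ext
  change !![(1 : R), 0; 0, ((1 : Rˣ) : R)] = 1
  rw [Units.val_one]
  exact Matrix.one_fin_two.symm

theorem dg_mul_up (r : Rˣ) (x : R) : dg r * up x = up ((r⁻¹ : Rˣ) * x) * dg r := by
  rw [dg, up, up, mk2_mul, mk2_mul]
  refine mk2_congr (by ring) ?_ (by ring) (by ring)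
  have h : ((r⁻¹ : Rˣ) : R) * (r : R) = 1 := Units.inv_mul r
  linear_combination (-x) * h

theorem J_mul_up (x : R) : J * up x = low (-x) * J := by
  rw [J, up, low, mk2_mul, mk2_mul]
  exact mk2_congr (by ring) (by ring) (by ring) (by ring)

/-- A subgroup containing all conjugates of the `up x`, `x ∈ I`, contains the principal
congruence subgroup of the minimal ideal `I` of a local ring. -/
theorem congruence_le [IsLocalRing R] {I : Ideal R}
    (hmin : ∀ 𝔞 : Ideal R, 𝔞 ≠ ⊥ → I ≤ 𝔞) (H : Subgroup (GL (Fin 2) R))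
    (hH : ∀ g : GL (Fin 2) R, Matrix.GeneralLinearGroup.det g = 1 → ∀ x ∈ I,
      g * up x * g⁻¹ ∈ H)
    (κ : GL (Fin 2) R) (hdet : Matrix.GeneralLinearGroup.det κ = 1)
    (h00 : κ.val 0 0 - 1 ∈ I) (h01 : κ.val 0 1 ∈ I) (h10 : κ.val 1 0 ∈ I)
    (h11 : κ.val 1 1 - 1 ∈ I) : κ ∈ H := by
  have hup : ∀ x ∈ I, up x ∈ H := fun x hx => by
    have := hH 1 (map_one _) x hx
    rwa [one_mul, inv_one, mul_one] at this
  have hlow : ∀ x ∈ I, low x ∈ H := fun x hx => by
    have := hH J det_J (-x) (neg_mem hx)
    rwa [J_mul_up, neg_neg, mul_assoc, mul_inv_cancel, mul_one] at this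
  have hd : κ.val 0 0 * κ.val 1 1 - κ.val 0 1 * κ.val 1 0 = 1 := by
    have := congrArg (fun u : Rˣ => (u : R)) hdet
    simp only [Units.val_one] at this
    rw [← this, Matrix.GeneralLinearGroup.val_det_apply, Matrix.det_fin_two]
  by_cases hItop : I = ⊤
  · -- the field case
    have hunit : ∀ c : R, c ≠ 0 → IsUnit c := by
      intro c hc
      have h1 : (⊤ : Ideal R) ≤ Ideal.span {c} := by
        rw [← hItop]
        apply hmin
        rwa [Ne, Ideal.span_singleton_eq_bot]
      rw [← Ideal.span_singleton_eq_top]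
      exact top_le_iff.1 h1
    have hall : ∀ x : R, x ∈ I := fun x => by rw [hItop]; exact Submodule.mem_top
    -- the case of a nonzero lower left entry
    have key : ∀ κ : GL (Fin 2) R, κ.val 0 0 * κ.val 1 1 - κ.val 0 1 * κ.val 1 0 = 1 →
        κ.val 1 0 ≠ 0 → κ ∈ H := by
      intro κ hd hc
      obtain ⟨c', hc'⟩ := (hunit _ hc).exists_left_inv
      have h1 : κ = up ((κ.val 0 0 - 1) * c') * low (κ.val 1 0) * up ((κ.val 1 1 - 1) * c') := by
        conv_lhs => rw [eq_mk2 κ]
        rw [up, low, up, mk2_mul, mk2_mul]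
        refine mk2_congr ?_ ?_ ?_ ?_
        · linear_combination (-(κ.val 0 0 - 1)) * hc'
        · linear_combination (κ.val 0 0 - 1) * (κ.val 1 1 - 1) * c' * (-hc') +
            (-c') * hd - κ.val 0 1 * hc'
        · ring
        · linear_combination (-(κ.val 1 1 - 1)) * hc'
      rw [h1]
      exact H.mul_mem (H.mul_mem (hup _ (hall _)) (hlow _ (hall _))) (hup _ (hall _))
    by_cases hc : κ.val 1 0 = 0
    · have hd0 : κ.val 1 1 ≠ 0 := by
        intro h0
        rw [hc, h0, mul_zero, mul_zero, sub_zero] at hd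
        exact zero_ne_one hd
      have h2 : κ * low 1 ∈ H := by
        have e1 : κ * low 1 = mk2 (κ.val 0 0 + κ.val 0 1) (κ.val 0 1) (κ.val 1 0 + κ.val 1 1)
            (κ.val 1 1) (Matrix.GeneralLinearGroup.det κ) (by
              rw [Matrix.GeneralLinearGroup.val_det_apply, Matrix.det_fin_two]; ring) := by
          conv_lhs => rw [eq_mk2 κ]
          rw [low, mk2_mul]
          exact mk2_congr (by ring) (by ring) (by ring) (by ring)
        rw [e1]
        apply key
        · simp only [mk2_00, mk2_01, mk2_10, mk2_11]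
          linear_combination hd
        · simp only [mk2_10]
          rw [hc, zero_add]
          exact hd0
      have h3 : κ = (κ * low 1) * low (-1) := by
        rw [mul_assoc, low_mul_low, add_neg_cancel, low_zero, mul_one]
      rw [h3]
      exact H.mul_mem h2 (hlow _ (hall _))
    · exact key κ hd hc
  · -- the case of square zero
    have hIm : I ≤ IsLocalRing.maximalIdeal R := IsLocalRing.le_maximalIdeal hItop
    have hsq : ∀ x ∈ I, ∀ y ∈ I, x * y = 0 := by
      intro x hx y hy
      by_contra hne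
      have h1 : I ≤ Ideal.span {x * y} := by
        apply hmin
        rwa [Ne, Ideal.span_singleton_eq_bot]
      obtain ⟨z, hz⟩ := Ideal.mem_span_singleton.1 (h1 hx)
      -- `x (1 - y z) = 0` with `y z` in the maximal ideal
      have h2 : x * (1 - y * z) = 0 := by linear_combination hz
      have h3 : IsUnit (1 - y * z) := by
        by_contra hnu
        have h4 : 1 - y * z ∈ IsLocalRing.maximalIdeal R := (IsLocalRing.mem_maximalIdeal _).2 hnu
        have h5 : y * z ∈ IsLocalRing.maximalIdeal R := Ideal.mul_mem_right _ _ (hIm hy)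
        have h6 : (1 : R) ∈ IsLocalRing.maximalIdeal R := by
          have := Ideal.add_mem _ h4 h5
          rwa [sub_add_cancel] at this
        exact (IsLocalRing.maximalIdeal.isMaximal R).ne_top ((Ideal.eq_top_iff_one _).2 h6)
      have h4 : x = 0 := (h3.mul_left_eq_zero).1 h2
      rw [h4, zero_mul] at hne
      exact hne rfl
    set α := κ.val 0 0 - 1 with hα
    set β := κ.val 0 1 with hβ
    set γ := κ.val 1 0 with hγ
    have hδ : κ.val 1 1 = 1 - α := by
      have e1 : κ.val 0 0 = 1 + α := by rw [hα]; ring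
      have e2 := hsq α h00 (κ.val 1 1 - 1) h11
      have e3 := hsq β h01 γ h10
      rw [e1] at hd
      linear_combination hd - e2 + e3
    have haα := hsq α h00 α h00
    have h1 : κ = (low 1 * up (-α) * low (-1)) * (up (β + α) * low (γ - α)) := by
      conv_lhs => rw [eq_mk2 κ]
      have e1 := hsq α h00 β h01
      have e2 := hsq α h00 γ h10
      have e3 := hsq β h01 γ h10
      rw [low, up, low, up, low, mk2_mul, mk2_mul, mk2_mul, mk2_mul]
      have hα' : κ.val 0 0 = 1 + α := by rw [hα]; ring
      refine mk2_congr ?_ ?_ ?_ ?_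
      · linear_combination hα' + (-(1 + α)) * (e3 - e1 + e2 - haα) + e2 - haα
      · linear_combination -e1 - haα
      · linear_combination (-α) * (e3 - e1 + e2 - haα) + e2 - haα
      · linear_combination hδ - e1 - haα
    rw [h1]
    refine H.mul_mem ?_ (H.mul_mem (hup _ (I.add_mem h01 h00)) (hlow _ (I.sub_mem h10 h00)))
    have := hH (low 1) (det_low 1) (-α) (neg_mem h00)
    have h2 : (low (1 : R))⁻¹ = low (-1) := by
      rw [inv_eq_iff_mul_eq_one, low_mul_low, add_neg_cancel, low_zero]
    rwa [h2] at this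

theorem det_iota (t : (Gi R)ˣ) : ((Matrix.GeneralLinearGroup.det (iota t) : Rˣ) : R) =
    t.val.re * t.val.re + t.val.im * t.val.im := by
  rw [Matrix.GeneralLinearGroup.val_det_apply, iota_val, Matrix.det_fin_two_of]
  ring

theorem giStar_re (t : (Gi R)ˣ) : (giStar t).val.re = t.val.re := by
  change (star t.val).re = _
  simp

theorem giStar_im (t : (Gi R)ˣ) : (giStar t).val.im = -t.val.im := by
  change (star t.val).im = _
  simp

theorem mul_giStar (t : (Gi R)ˣ) :
    t * giStar t = giC (Matrix.GeneralLinearGroup.det (iota t)) := by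
  apply Units.ext
  have h1 : (giC (Matrix.GeneralLinearGroup.det (iota t))).val =
      algebraMap R (Gi R) ((Matrix.GeneralLinearGroup.det (iota t) : Rˣ) : R) := rfl
  rw [h1, det_iota, Units.val_mul]
  ext
  · simp only [QuadraticAlgebra.re_mul, giStar_re, giStar_im, QuadraticAlgebra.algebraMap_re]
    ring
  · simp only [QuadraticAlgebra.im_mul, giStar_re, giStar_im, QuadraticAlgebra.algebraMap_im]
    ring

end matrices

section
variable {k : Type*} [Field k] [CharP k 2] [IsAlgClosed k]

theorem propV_local (R : Type*) [CommRing R] [Finite R] [IsLocalRing R] (h2 : IsUnit (2 : R))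
    (I : Ideal R) (hI : I ≠ ⊥) (hmin : ∀ 𝔞 : Ideal R, 𝔞 ≠ ⊥ → I ≤ 𝔞) : PropV R k := by
  intro χ hscal hprim v hequi hsum
  -- invariance under the conjugates of the elementary matrices of the minimal ideal
  have hinv : ∀ g : GL (Fin 2) R, Matrix.GeneralLinearGroup.det g = 1 → ∀ c ∈ I, ∀ y,
      v (g * up c * g⁻¹ * y) = v y := by
    intro g hg c hc y
    have h1 := translate_inv (k := k) h2 hmin (fun r x => v (g * up x * (dg r * (g⁻¹ * y))))
      (fun x z => by
        have h3 := hsum (g * up z) (up x * (g⁻¹ * y)) (by rw [map_mul, hg, det_up, one_mul])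
        rw [← h3]
        refine finsum_congr (fun r => ?_)
        congr 1
        rw [← up_mul_up]
        simp only [mul_assoc]
        congr 2
        rw [← mul_assoc, ← dg_mul_up, mul_assoc]) hc 0
    simp only [zero_add] at h1
    rw [up_zero, mul_one, dg_one, one_mul] at h1
    rw [mul_inv_cancel_left] at h1
    rw [← h1]
    simp only [mul_assoc]
  let H : Subgroup (GL (Fin 2) R) :=
    { carrier := {κ | ∀ y, v (κ * y) = v y}
      mul_mem' := fun {a b} ha hb y => by
        rw [mul_assoc, ha, hb]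
      one_mem' := fun y => by rw [one_mul]
      inv_mem' := fun {a} ha y => by
        have := ha (a⁻¹ * y)
        rw [mul_inv_cancel_left] at this
        exact this.symm }
  obtain ⟨t, ht1, ht2, htχ⟩ := hprim I hI
  set t₁ : (Gi R)ˣ := t * (giStar t)⁻¹ with ht₁
  have hχ : χ t₁ = χ t ^ 2 := by
    have h3 : χ t * χ (giStar t) = 1 := by rw [← map_mul, mul_giStar, hscal]
    have h4 : χ (giStar t) = (χ t)⁻¹ := eq_inv_of_mul_eq_one_right h3
    rw [ht₁, map_mul, map_inv, h4, inv_inv, pow_two]
  have hχ1 : χ t₁ ≠ 1 := by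
    intro h3
    rw [hχ] at h3
    apply htχ
    apply Units.ext
    have h4 : ((χ t : kˣ) : k) ^ 2 = 1 := by
      rw [← Units.val_pow_eq_pow_val, h3, Units.val_one]
    have h5 : (((χ t : kˣ) : k) - 1) ^ 2 = 0 := by
      have h6 : (2 : k) = 0 := CharTwo.two_eq_zero
      linear_combination h4 - ((χ t : kˣ) : k) * h6 + h6
    rw [Units.val_one]
    exact sub_eq_zero.1 (pow_eq_zero_iff (two_ne_zero)|>.1 h5)
  have hdet : Matrix.GeneralLinearGroup.det (iota t₁) = 1 := by
    rw [ht₁, map_mul, map_inv, map_mul, map_inv, mul_inv_eq_one]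
    apply Units.ext
    rw [det_iota, det_iota, giStar_re, giStar_im]
    ring
  -- `t₁` is congruent to `1`
  have hcong : t₁.val.re - 1 ∈ I ∧ t₁.val.im ∈ I := by
    have h3 : t₁.val * (giStar t).val = t.val := by
      rw [← Units.val_mul, ht₁, inv_mul_cancel_right]
    have h4 : t₁.val - 1 = (t.val - (giStar t).val) * ((giStar t)⁻¹).val := by
      have h5 : (giStar t).val * ((giStar t)⁻¹).val = 1 := Units.mul_inv _
      have h6 : t₁.val = t.val * ((giStar t)⁻¹).val := rfl
      rw [h6]
      linear_combination h5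
    have h5 : (t.val - (giStar t).val) = ⟨0, 2 * t.val.im⟩ := by
      ext
      · rw [QuadraticAlgebra.re_sub, giStar_re]; ring
      · rw [QuadraticAlgebra.im_sub, giStar_im]; ring
    rw [h5] at h4
    have h6 := congrArg QuadraticAlgebra.re h4
    have h7 := congrArg QuadraticAlgebra.im h4
    rw [QuadraticAlgebra.re_sub, QuadraticAlgebra.re_one, QuadraticAlgebra.re_mul] at h6
    rw [QuadraticAlgebra.im_sub, QuadraticAlgebra.im_one, QuadraticAlgebra.im_mul, sub_zero] at h7
    have h8 : 2 * t.val.im ∈ I := I.mul_mem_left _ ht2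
    constructor
    · rw [h6]
      simp only [zero_mul, zero_add]
      exact I.mul_mem_right _ (I.mul_mem_left _ h8)
    · rw [h7]
      simp only [zero_mul, zero_add, add_zero]
      exact I.mul_mem_right _ h8
  funext y
  rw [Pi.zero_apply]
  set κ : GL (Fin 2) R := y * iota t₁ * y⁻¹ with hκ
  have hM : ∀ i j, ((iota t₁).val - 1) i j ∈ I := by
    intro i j
    rw [iota_val]
    fin_cases i <;> fin_cases j
    · simpa using hcong.1
    · simpa using hcong.2
    · simpa using hcong.2
    · simpa using hcong.1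
  have hκ1 : ∀ i j, (κ.val - 1) i j ∈ I := by
    intro i j
    have h3 : κ.val - 1 = y.val * ((iota t₁).val - 1) * (y⁻¹).val := by
      rw [mul_sub, sub_mul, mul_one, ← Units.val_mul, ← Units.val_mul, ← Units.val_mul,
        mul_inv_cancel, Units.val_one]
    rw [h3, Matrix.mul_apply]
    refine Ideal.sum_mem _ (fun l _ => I.mul_mem_right _ ?_)
    rw [Matrix.mul_apply]
    exact Ideal.sum_mem _ (fun m _ => I.mul_mem_left _ (hM _ _))
  have hκH : κ ∈ H := by
    apply congruence_le hmin H
    · intro g hg x hx y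
      exact hinv g hg x hx y
    · rw [hκ, map_mul, map_mul, hdet, mul_one, map_inv, mul_inv_cancel]
    · simpa using hκ1 0 0
    · simpa using hκ1 0 1
    · simpa using hκ1 1 0
    · simpa using hκ1 1 1
  have h3 : v (κ * y) = v y := hκH y
  rw [hκ, inv_mul_cancel_right, hequi] at h3
  by_contra hv
  apply hχ1
  have h4 : (((χ t₁)⁻¹ : kˣ) : k) = 1 := mul_right_cancel₀ hv (by rw [h3, one_mul])
  have h5 : (χ t₁)⁻¹ = 1 := Units.ext h4
  exact inv_eq_one.1 h5

end

end SerreE
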